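import Pool.Agent.Lib.MP_8f946f_al.Defs

/-!
# Capelli identities of Lie algebras (MP_8f946f_al): definitions
-/

set_option autoImplicit false

namespace Pool.Agent.Lib.MP_8f946f_al.CP

/-- Lie monomials with constants in `L`, in which each of the variables `x_i`, `i ∈ s`, occurs
exactly once (and the other variables do not occur), as functions of `x : Fin m → L`. -/
inductive LieMon (L : Type) [LieRing L] {m : ℕ} : Finset (Fin m) → ((Fin m → L) → L) → Prop
  | const (a : L) : LieMon L ∅ (fun _ => a)
  | var (i : Fin m) : LieMon L {i} (fun x => x i)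
  | br {s t : Finset (Fin m)} {φ ψ : (Fin m → L) → L} (hφ : LieMon L s φ) (hψ : LieMon L t ψ)
      (h : Disjoint s t) : LieMon L (s ∪ t) (fun x => ⁅φ x, ψ x⁆)

/-- `L` satisfies the Capelli identities of order `m`: for every Lie monomial `φ` with constants in
`L` in which each of the variables `x_1, …, x_m` occurs exactly once, the alternating sum of `φ`
over the permutations of the variables is zero. -/
def Capelli (m : ℕ) (L : Type) [LieRing L] : Prop :=
  ∀ φ : (Fin m → L) → L, LieMon L Finset.univ φ → ∀ x : Fin m → L,
    ∑ σ : Equiv.Perm (Fin m), (Equiv.Perm.sign σ : ℤ) • φ (fun i => x (σ i)) = 0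

/-- The variety defined by `Γ` is locally soluble-by-Capelli: each of its finitely generated
algebras `L` has a soluble ideal `R` such that `L/R` satisfies the Capelli identities of some
order. -/
def LocallySolubleByCapelli {F : Type} [Field F] (Γ : Set (FreeLieAlgebra F ℕ)) : Prop :=
  ∀ (L : Type) [LieRing L] [LieAlgebra F L], Satisfies Γ L → IsFG F L →
    ∃ (R : LieIdeal F L) (l m : ℕ), LieAlgebra.derivedSeriesOfIdeal F L l R = ⊥ ∧
      Capelli m (L ⧸ R)

end Pool.Agent.Lib.MP_8f946f_al.CP
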