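import Pool.Agent.Lib.MP_8f946f_al.Sol.Defs
import Pool.Agent.Lib.MP_8f946f_al.CP.Defs

/-!
# Varieties generated by soluble-by-linear algebras of bounded degree: definitions and specifications
-/

set_option autoImplicit false

namespace Pool.Agent.Lib.MP_8f946f_al.CP

variable (F : Type) [Field F]

/-- The Lie algebra `S` over `F` has an ideal, soluble of derived length at most `l`, with a quotient
which embeds into a Lie algebra `Q` of dimension at most `d` over some field `K` which contains `F`
(the embedding is a morphism of Lie algebras over `F`). The ideal is the kernel of the morphism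
`π : S → Q`. -/
def SolubleByLinear (l d : ℕ) (S : Type) [LieRing S] [LieAlgebra F S] : Prop :=
  ∃ (K : Type) (_ : Field K) (_ : Algebra F K) (Q : Type) (_ : LieRing Q) (_ : LieAlgebra F Q)
    (_ : LieAlgebra K Q) (_ : IsScalarTower F K Q) (π : S →ₗ⁅F⁆ Q),
    FiniteDimensional K Q ∧ Module.finrank K Q ≤ d ∧
    LieAlgebra.derivedSeriesOfIdeal F S l π.ker = ⊥

variable {F}

/-- The variety defined by `Γ` is generated by algebras of the type in `SolubleByLinear`, for fixed
`l` and `d`: an element of the free Lie algebra which is not an identity of the variety is not an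
identity of some algebra of this type in the variety. -/
def GeneratedBySolubleByLinear (Γ : Set (FreeLieAlgebra F ℕ)) : Prop :=
  ∃ l d : ℕ, ∀ φ : FreeLieAlgebra F ℕ,
    (∃ (L : Type) (_ : LieRing L) (_ : LieAlgebra F L), Satisfies Γ L ∧ ¬ Satisfies {φ} L) →
    ∃ (S : Type) (_ : LieRing S) (_ : LieAlgebra F S), Satisfies Γ S ∧ ¬ Satisfies {φ} S ∧
      SolubleByLinear F l d S

/-- The same with `l` and `d` depending on the number `r` of variables: an element of the free Lie
algebra of rank `r` which is not an identity of the variety is not an identity of some algebra in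
the variety of the type in `SolubleByLinear`. -/
def LocallySolubleByLinear (Γ : Set (FreeLieAlgebra F ℕ)) : Prop :=
  ∀ r : ℕ, ∃ l d : ℕ, ∀ φ : FreeLieAlgebra F (Fin r),
    (∃ (L : Type) (_ : LieRing L) (_ : LieAlgebra F L) (v : Fin r → L), Satisfies Γ L ∧
      FreeLieAlgebra.lift F v φ ≠ 0) →
    ∃ (S : Type) (_ : LieRing S) (_ : LieAlgebra F S) (v : Fin r → S), Satisfies Γ S ∧
      FreeLieAlgebra.lift F v φ ≠ 0 ∧ SolubleByLinear F l d S

/-- EX: algebras of finite dimension satisfy Capelli identities; locally soluble-by-finite implies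
locally soluble-by-Capelli. -/
structure SpecEX : Prop where
  fin : ∀ (K Q : Type) [Field K] [LieRing Q] [LieAlgebra K Q] (m : ℕ), FiniteDimensional K Q →
    Module.finrank K Q < m → Capelli m Q
  inj : ∀ (Q Q' : Type) [LieRing Q] [LieRing Q'] (m : ℕ) (f : Q →ₗ⁅ℤ⁆ Q'), Function.Injective f →
    Capelli m Q' → Capelli m Q
  sur : ∀ (Q Q' : Type) [LieRing Q] [LieRing Q'] (m : ℕ) (f : Q →ₗ⁅ℤ⁆ Q'), Function.Surjective f →
    Capelli m Q → Capelli m Q'
  sbf : ∀ (F : Type) [Field F] (Γ : Set (FreeLieAlgebra F ℕ)), Sol.LocallySolubleByFinite Γ →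
    LocallySolubleByCapelli Γ

/-- BT (may use EX). -/
def SpecBT : Prop :=
  ∀ (F : Type) [Field F] (Γ : Set (FreeLieAlgebra F ℕ)), GeneratedBySolubleByLinear Γ →
    LocallySolubleByCapelli Γ

end Pool.Agent.Lib.MP_8f946f_al.CP
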