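import Pool.Agent.Lib.MP_8f946f_al.Sol.Defs
import Pool.Agent.Lib.MP_8f946f_al.BD.Defs
import Pool.Agent.Lib.MP_8f946f_al.CP.Defs

/-!
# Capelli: specifications of the modules
-/

set_option autoImplicit false

namespace Pool.Agent.Lib.MP_8f946f_al.CP

open Polynomial

/-- nilpotent-by-finite -/
def NF (F : Type) [Field F] (L : Type) [LieRing L] [LieAlgebra F L] : Prop :=
  ∃ (N : LieIdeal F L) (c : ℕ), FiniteDimensional F (L ⧸ N) ∧ gam N c = ⊥

/-- soluble-by-finite -/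
def SF (F : Type) [Field F] (L : Type) [LieRing L] [LieAlgebra F L] : Prop :=
  ∃ (S : LieIdeal F L) (d : ℕ), FiniteDimensional F (L ⧸ S) ∧
    LieAlgebra.derivedSeriesOfIdeal F L d S = ⊥

/-- prime -/
def PrimeLie (F : Type) [Field F] (L : Type) [LieRing L] [LieAlgebra F L] : Prop :=
  ∀ A B : LieIdeal F L, ⁅A, B⁆ = ⊥ → A = ⊥ ∨ B = ⊥

/-- the multiplication algebra, with `1` -/
def ML (F : Type) [Field F] (L : Type) [LieRing L] [LieAlgebra F L] :
    Subalgebra F (Module.End F L) :=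
  Algebra.adjoin F (Set.range fun y : L => LieAlgebra.ad F L y)

/-- SN: for one algebra -/
def SpecSN : Prop :=
  ∀ (F : Type) [Field F] [Finite F] (k : ℕ) (c : ℕ → F[X]) (w : FreeLieAlgebra F ℕ),
    w ∈ freeThird F → ∀ (L : Type) [LieRing L] [LieAlgebra F L], IsFG F L →
    Satisfies {monicForm k c (FreeLieAlgebra.of F 0) (FreeLieAlgebra.of F 1)
      (FreeLieAlgebra.of F 2) - w} L → SF F L → NF F L

/-- CH: nilpotent-by-finite quotients and chains -/
def SpecCH : Prop :=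
  ∀ (F : Type) [Field F] [Finite F] (L : Type) [LieRing L] [LieAlgebra F L], IsFG F L →
    ∀ C : Set (LieIdeal F L), IsChain (· ≤ ·) C → C.Nonempty → NF F (L ⧸ sSup C) →
      ∃ I ∈ C, NF F (L ⧸ I)

/-- PR: reduction to prime algebras (may use CH) -/
def SpecPR : Prop :=
  ∀ (F : Type) [Field F] [Finite F] (L : Type) [LieRing L] [LieAlgebra F L], IsFG F L →
    ¬ NF F L → (∀ I : LieIdeal F L, SF F (L ⧸ I) → NF F (L ⧸ I)) →
    ∃ I : LieIdeal F L, PrimeLie F (L ⧸ I) ∧ ¬ NF F (L ⧸ I)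

/-- CR: the Capelli relation. -/
def SpecCR : Prop :=
  ∀ (F : Type) [Field F] (L : Type) [LieRing L] [LieAlgebra F L] (d : ℕ),
    Capelli (d + 1) L → ¬ Capelli d L →
    ∃ (x : Fin d → L) (u : L) (U : Fin d → L → L), u ≠ 0 ∧
      (∀ g ∈ ML F L, ∀ y : L, ⁅y, g u⁆ = ∑ i, ⁅x i, g (U i y)⁆) ∧
      (∀ g ∈ ML F L, ∀ h ∈ ML F L, ∀ (i : Fin d) (y : L), ⁅g (U i y), h u⁆ = ⁅g u, h (U i y)⁆)

/-- GE: germs; a prime algebra with a Capelli relation embeds in an algebra of finite dimension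
over a field. -/
def SpecGE : Prop :=
  ∀ (F : Type) [Field F] (L : Type) [LieRing L] [LieAlgebra F L], IsFG F L → PrimeLie F L →
    ∀ (d : ℕ) (x : Fin d → L) (u : L) (U : Fin d → L → L), u ≠ 0 →
      (∀ g ∈ ML F L, ∀ y : L, ⁅y, g u⁆ = ∑ i, ⁅x i, g (U i y)⁆) →
      (∀ g ∈ ML F L, ∀ h ∈ ML F L, ∀ (i : Fin d) (y : L), ⁅g (U i y), h u⁆ = ⁅g u, h (U i y)⁆) →
    ∃ (K : Type) (_ : Field K) (_ : Algebra F K) (Q : Type) (_ : LieRing Q) (_ : LieAlgebra F Q)
      (_ : LieAlgebra K Q) (_ : IsScalarTower F K Q) (π : L →ₗ⁅F⁆ Q), Function.Injective π ∧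
      FiniteDimensional K Q ∧ Module.finrank K Q ≤ d

/-- SP: specialisation to finite fields -/
def SpecSP : Prop :=
  ∀ (F : Type) [Field F] [Finite F] (L : Type) [LieRing L] [LieAlgebra F L], IsFG F L →
    ∀ (K Q : Type) [Field K] [Algebra F K] [LieRing Q] [LieAlgebra F Q] [LieAlgebra K Q]
      [IsScalarTower F K Q] (π : L →ₗ⁅F⁆ Q), FiniteDimensional K Q →
    ∀ a : L, π a ≠ 0 →
    ∃ (K' : Type) (_ : Field K') (_ : Finite K') (_ : Algebra F K') (Q' : Type) (_ : LieRing Q')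
      (_ : LieAlgebra F Q') (_ : LieAlgebra K' Q') (_ : IsScalarTower F K' Q') (π' : L →ₗ⁅F⁆ Q'),
      FiniteDimensional K' Q' ∧ Module.finrank K' Q' ≤ Module.finrank K Q ∧ π' a ≠ 0

/-- the hypothesis on `φ` and `D`: algebras of finite dimension over a field with at least `D`
elements which satisfy `φ` are soluble -/
def Large (F : Type) [Field F] (φ : FreeLieAlgebra F ℕ) (D : ℕ) : Prop :=
  ∀ (K Q : Type) [Field K] [Algebra F K] [LieRing Q] [LieAlgebra F Q] [LieAlgebra K Q]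
    [IsScalarTower F K Q], FiniteDimensional K Q → Satisfies {φ} Q →
    (∃ s : Finset K, D ≤ s.card) → LieAlgebra.IsSolvable Q

/-- FD: density; a minimal ideal of `L` inside a non-abelian minimal ideal of the `K`-span `Q` is
small. -/
def SpecFD : Prop :=
  ∀ (F : Type) [Field F] [Finite F] (φ : FreeLieAlgebra F ℕ) (D : ℕ), Large F φ D →
    ∀ (L : Type) [LieRing L] [LieAlgebra F L] (K Q : Type) [Field K] [Finite K]
      [Algebra F K] [LieRing Q] [LieAlgebra F Q] [LieAlgebra K Q] [IsScalarTower F K Q]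
      (π : L →ₗ⁅F⁆ Q), Function.Injective π → FiniteDimensional K Q → Satisfies {φ} L →
      Submodule.span K (Set.range π) = ⊤ →
      ∀ (M₀ : LieIdeal F L) (I : LieIdeal K Q), IsAtom M₀ → IsAtom I → (∀ m ∈ M₀, π m ∈ I) →
      ⁅I, I⁆ ≠ ⊥ → Module.finrank F M₀ ≤ D * Module.finrank K Q

/-- FS: the finite case (may use FD). -/
def SpecFS : Prop :=
  ∀ (F : Type) [Field F] [Finite F] (φ : FreeLieAlgebra F ℕ) (D : ℕ), Large F φ D →
    ∀ d : ℕ, ∃ N l : ℕ, ∀ (L : Type) [LieRing L] [LieAlgebra F L] (K Q : Type) [Field K] [Finite K]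
      [Algebra F K] [LieRing Q] [LieAlgebra F Q] [LieAlgebra K Q] [IsScalarTower F K Q]
      (π : L →ₗ⁅F⁆ Q), Function.Injective π → FiniteDimensional K Q → Module.finrank K Q ≤ d →
      Satisfies {φ} L →
      ∃ S : LieIdeal F L, FiniteDimensional F (L ⧸ S) ∧ Module.finrank F (L ⧸ S) ≤ N ∧
        LieAlgebra.derivedSeriesOfIdeal F L l S = ⊥

end Pool.Agent.Lib.MP_8f946f_al.CP
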