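import Pool.Agent.Lib.MP_8f946f_al.Main
import Pool.Agent.Lib.MP_8f946f_al.BD.Comp
import Pool.Agent.Lib.MP_8f946f_al.BD.Sol
import Pool.Agent.Lib.MP_8f946f_al.BD.Idx
import Pool.Agent.Lib.MP_8f946f_al.CP.Spec
import Pool.Agent.Lib.MP_8f946f_al.CP.DefsB

/-!
# Locally soluble-by-Capelli varieties with a monic identity
-/

set_option autoImplicit false

namespace Pool.Agent.Lib.MP_8f946f_al.CP

open Polynomial

section general

variable {F : Type} [Field F]

theorem derived_comap {L L' : Type} [LieRing L] [LieAlgebra F L] [LieRing L'] [LieAlgebra F L']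
    (q : L →ₗ⁅F⁆ L') (I : LieIdeal F L) (I' : LieIdeal F L') (h : I ≤ LieIdeal.comap q I')
    (l : ℕ) : LieAlgebra.derivedSeriesOfIdeal F L l I ≤
      LieIdeal.comap q (LieAlgebra.derivedSeriesOfIdeal F L' l I') := by
  induction l with
  | zero => exact h
  | succ l ih =>
    rw [LieAlgebra.derivedSeriesOfIdeal_succ, LieAlgebra.derivedSeriesOfIdeal_succ]
    exact (LieSubmodule.mono_lie ih ih).trans (LieIdeal.comap_bracket_le q)

theorem derived_img {L L' : Type} [LieRing L] [LieAlgebra F L] [LieRing L'] [LieAlgebra F L']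
    (q : L →ₗ⁅F⁆ L') (hq : Function.Surjective q) (I : LieIdeal F L) (l : ℕ) :
    LieAlgebra.derivedSeriesOfIdeal F L' l (imgIdeal q hq I) ≤
      imgIdeal q hq (LieAlgebra.derivedSeriesOfIdeal F L l I) := by
  induction l with
  | zero => exact le_rfl
  | succ l ih =>
    rw [LieAlgebra.derivedSeriesOfIdeal_succ, LieAlgebra.derivedSeriesOfIdeal_succ]
    exact (LieSubmodule.mono_lie ih ih).trans (imgIdeal_lie q hq _ _)

theorem prime_derived {L : Type} [LieRing L] [LieAlgebra F L] (hP : PrimeLie F L)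
    (A : LieIdeal F L) (l : ℕ) (h : LieAlgebra.derivedSeriesOfIdeal F L l A = ⊥) : A = ⊥ := by
  induction l with
  | zero => exact h
  | succ l ih =>
    rw [LieAlgebra.derivedSeriesOfIdeal_succ] at h
    rcases hP _ _ h with h | h
    · exact ih h
    · exact ih h

/-- A surjection from a free Lie algebra of finite rank. -/
theorem exists_free {L : Type} [LieRing L] [LieAlgebra F L] (h : IsFG F L) :
    ∃ (X : Type) (_ : Finite X) (θ : FreeLieAlgebra F X →ₗ⁅F⁆ L), Function.Surjective θ := by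
  obtain ⟨s, hs, h⟩ := h
  refine ⟨s, hs, FreeLieAlgebra.lift F (fun i : s => (i : L)), ?_⟩
  have h1 : (FreeLieAlgebra.lift F (fun i : s => (i : L))).range = ⊤ := by
    rw [eq_top_iff, ← h, LieSubalgebra.lieSpan_le]
    intro x hx
    exact ⟨FreeLieAlgebra.of F ⟨x, hx⟩, FreeLieAlgebra.lift_of_apply _ _⟩
  intro y
  have h2 : y ∈ (FreeLieAlgebra.lift F (fun i : s => (i : L))).range := by
    rw [h1]
    exact LieSubalgebra.mem_top _
  exact h2

theorem finiteDimensional_img {L L' : Type} [LieRing L] [LieAlgebra F L] [LieRing L']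
    [LieAlgebra F L'] (q : L →ₗ⁅F⁆ L') (hq : Function.Surjective q) (J : LieIdeal F L)
    (hJ : FiniteDimensional F (L ⧸ J)) : FiniteDimensional F (L' ⧸ imgIdeal q hq J) := by
  let f : (L ⧸ J) →ₗ[F] (L' ⧸ imgIdeal q hq J) :=
    Submodule.mapQ J.toSubmodule (imgIdeal q hq J).toSubmodule (q : L →ₗ[F] L')
      (fun x hx => ⟨x, hx, rfl⟩)
  have hf : Function.Surjective f := by
    intro y
    obtain ⟨y, rfl⟩ := mkHom_surjective (imgIdeal q hq J) y
    obtain ⟨x, rfl⟩ := hq y
    exact ⟨mkHom J x, rfl⟩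
  exact Module.Finite.of_surjective f hf

end general

/-- the identity -/
noncomputable abbrev mono {F : Type} [Field F] (k : ℕ) (c : ℕ → F[X]) (w : FreeLieAlgebra F ℕ) :
    FreeLieAlgebra F ℕ :=
  monicForm k c (FreeLieAlgebra.of F 0) (FreeLieAlgebra.of F 1) (FreeLieAlgebra.of F 2) - w

/-- Over large fields finite dimensional algebras with a monic identity are soluble. -/
theorem large {F : Type} [Field F] (k : ℕ) (c : ℕ → F[X]) (w : FreeLieAlgebra F ℕ)
    (hw : w ∈ freeThird F) : ∃ D : ℕ, Large F (mono k c w) D := by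
  obtain ⟨D, hD⟩ := BD.hm_of_monic k c w hw
  refine ⟨D, fun K Q _ _ _ _ _ _ hfin hQ hs => ?_⟩
  exact BD.solvable_of_HM (hD K Q hQ hs)

/-- the prime case -/
theorem prime_case (hCR : SpecCR) (hGE : SpecGE) (hSP : SpecSP) (hFS : SpecFS)
    {F : Type} [Field F] [Finite F] (φ : FreeLieAlgebra F ℕ) (D : ℕ) (hD : Large F φ D)
    (L : Type) [LieRing L] [LieAlgebra F L] (hfg : IsFG F L) (hP : PrimeLie F L) (m : ℕ)
    (hm : Capelli m L) (hL : Satisfies {φ} L) : SF F L := by
  classical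
  have hex : ∃ m, Capelli m L := ⟨m, hm⟩
  have h0 : Capelli (Nat.find hex) L := Nat.find_spec hex
  rcases Nat.eq_zero_or_pos (Nat.find hex) with hz | hpos
  · rw [hz] at h0
    have hzero : ∀ a : L, a = 0 := by
      intro a
      have h1 := h0 (fun _ => a) ?_ (fun i => i.elim0)
      · rw [Fintype.sum_unique] at h1
        simpa using h1
      · have h2 : (Finset.univ : Finset (Fin 0)) = ∅ := by simp
        rw [h2]
        exact LieMon.const a
    have hfin : FiniteDimensional F (L ⧸ (⊤ : LieIdeal F L)) := by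
      have : Subsingleton (L ⧸ (⊤ : LieIdeal F L)) := by
        refine ⟨fun a b => ?_⟩
        obtain ⟨a, rfl⟩ := mkHom_surjective (⊤ : LieIdeal F L) a
        obtain ⟨b, rfl⟩ := mkHom_surjective (⊤ : LieIdeal F L) b
        rw [hzero a, hzero b]
      infer_instance
    refine ⟨⊤, 0, hfin, ?_⟩
    rw [LieAlgebra.derivedSeriesOfIdeal_zero, eq_bot_iff]
    intro a _
    rw [LieSubmodule.mem_bot]
    exact hzero a
  · obtain ⟨d, hd⟩ : ∃ d, Nat.find hex = d + 1 := ⟨Nat.find hex - 1, by omega⟩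
    rw [hd] at h0
    have h1 : ¬ Capelli d L := Nat.find_min hex (by omega)
    obtain ⟨x, u, U, hu, ha, hb⟩ := hCR F L d h0 h1
    obtain ⟨K, _, _, Q, _, _, _, _, π, hπ, hQ, hQd⟩ := hGE F L hfg hP d x u U hu ha hb
    obtain ⟨N, l, hN⟩ := hFS F φ D hD d
    obtain ⟨X, _, θ, hθ⟩ := exists_free hfg
    obtain ⟨J, hJ, hJN⟩ := BD.idx F X N
    refine ⟨imgIdeal θ hθ J, l, finiteDimensional_img θ hθ J hJ, ?_⟩
    rw [eq_bot_iff]
    intro a hal
    rw [LieSubmodule.mem_bot]
    by_contra hne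
    have hπa : π a ≠ 0 := fun h => hne (hπ (by rw [h, map_zero]))
    obtain ⟨K', _, _, _, Q', _, _, _, _, π', hQ', hQd', hπ'a⟩ := hSP F L hfg K Q π hQ a hπa
    let q : L →ₗ⁅F⁆ π'.range := π'.rangeRestrict
    have hq : Function.Surjective q := π'.surjective_rangeRestrict
    obtain ⟨S, hS, hSN, hSl⟩ := hN π'.range K' Q' π'.range.incl Subtype.coe_injective hQ'
      (hQd'.trans hQd) (hL.of_surjective q hq)
    have hle : imgIdeal θ hθ J ≤ LieIdeal.comap q S := by
      rintro _ ⟨v, hv, rfl⟩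
      rw [LieIdeal.mem_comap, ← mkHom_eq_zero]
      exact hJN (π'.range ⧸ S) hS hSN ((mkHom S).comp (q.comp θ)) v hv
    have h2 := LieIdeal.mem_comap.1 (derived_comap q _ _ hle l hal)
    rw [hSl, LieSubmodule.mem_bot] at h2
    exact hπ'a (congrArg Subtype.val h2)

/-- Locally soluble-by-Capelli varieties with a monic identity are locally
nilpotent-by-finite. -/
theorem nilpotentByFinite (hSN : SpecSN) (hPR : SpecPR) (hCR : SpecCR) (hGE : SpecGE)
    (hSP : SpecSP) (hFS : SpecFS) (hEX : SpecEX)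
    {F : Type} [Field F] [Finite F] {Γ : Set (FreeLieAlgebra F ℕ)}
    (hΓ : LocallySolubleByCapelli Γ) (hmi : HasMonicIdentity Γ) : LocallyNilpotentByFinite Γ := by
  obtain ⟨k, c, w, hw, hid⟩ := hmi
  obtain ⟨D, hD⟩ := large k c w hw
  intro L _ _ hL hfg
  change NF F L
  by_contra hnf
  have hfgI : ∀ I : LieIdeal F L, IsFG F (L ⧸ I) := fun I =>
    hfg.of_surjective (mkHom I) (mkHom_surjective I)
  have hidI : ∀ I : LieIdeal F L, Satisfies {mono k c w} (L ⧸ I) := fun I =>
    hid (L ⧸ I) (hL.quotient I)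
  obtain ⟨I, hI, hIn⟩ := hPR F L hfg hnf fun I hSF => hSN F k c w hw (L ⧸ I) (hfgI I) (hidI I) hSF
  obtain ⟨R, l, m, hR, hm⟩ := hΓ L hL hfg
  have hR' : imgIdeal (mkHom I) (mkHom_surjective I) R = ⊥ := by
    refine prime_derived hI _ l ?_
    rw [eq_bot_iff]
    refine (derived_img (mkHom I) (mkHom_surjective I) R l).trans ?_
    rw [hR]
    rintro _ ⟨x, hx, rfl⟩
    rw [LieSubmodule.mem_bot] at hx ⊢
    rw [hx, map_zero]
  have hle : R ≤ I := by
    intro x hx
    rw [← mkHom_eq_zero, ← LieSubmodule.mem_bot (R := F) (L := L ⧸ I), ← hR']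
    exact ⟨x, hx, rfl⟩
  let f : (L ⧸ R) →ₗ⁅ℤ⁆ (L ⧸ I) :=
    { (Submodule.mapQ R.toSubmodule I.toSubmodule LinearMap.id hle : (L ⧸ R) →ₗ[F] (L ⧸ I)).restrictScalars ℤ with
      map_lie' := by
        intro a b
        obtain ⟨a, rfl⟩ := mkHom_surjective R a
        obtain ⟨b, rfl⟩ := mkHom_surjective R b
        rfl }
  have hf : Function.Surjective f := by
    intro y
    obtain ⟨y, rfl⟩ := mkHom_surjective I y
    exact ⟨mkHom R y, rfl⟩
  have hm' : Capelli m (L ⧸ I) := hEX.sur _ _ m f hf hm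
  have hSF : SF F (L ⧸ I) := prime_case hCR hGE hSP hFS _ D hD (L ⧸ I) (hfgI I) hI m hm' (hidI I)
  exact hIn (hSN F k c w hw (L ⧸ I) (hfgI I) (hidI I) hSF)

end Pool.Agent.Lib.MP_8f946f_al.CP
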