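import Pool.Agent.Lib.MP_8f946f_al.CP.DefsB

/-!
# Varieties generated by soluble-by-linear algebras of bounded degree are locally
soluble-by-Capelli (module BT)
-/

set_option autoImplicit false

namespace Pool.Agent.Lib.MP_8f946f_al.CP

namespace BTM

/-- A Lie monomial over the image lifts to a Lie monomial. -/
theorem mon_lift {A B : Type} [LieRing A] [LieRing B] (q : A →ₗ⁅ℤ⁆ B)
    (hq : Function.Surjective q) {m : ℕ} {s : Finset (Fin m)} {φ : (Fin m → B) → B}
    (h : LieMon B s φ) :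
    ∃ φ' : (Fin m → A) → A, LieMon A s φ' ∧ ∀ y, q (φ' y) = φ (fun i => q (y i)) := by
  induction h with
  | const b =>
    obtain ⟨a, rfl⟩ := hq b
    exact ⟨fun _ => a, .const a, fun _ => rfl⟩
  | var i => exact ⟨fun x => x i, .var i, fun _ => rfl⟩
  | br _ _ hd ih1 ih2 =>
    obtain ⟨φ1, h1, e1⟩ := ih1
    obtain ⟨φ2, h2, e2⟩ := ih2
    exact ⟨fun x => ⁅φ1 x, φ2 x⁆, .br h1 h2 hd, fun y => by rw [LieHom.map_lie, e1, e2]⟩

/-- The image of a Lie monomial is a Lie monomial. -/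
theorem mon_map {A B : Type} [LieRing A] [LieRing B] (q : A →ₗ⁅ℤ⁆ B) {m : ℕ}
    {s : Finset (Fin m)} {φ : (Fin m → A) → A} (h : LieMon A s φ) :
    ∃ φ' : (Fin m → B) → B, LieMon B s φ' ∧ ∀ y, q (φ y) = φ' (fun i => q (y i)) := by
  induction h with
  | const a => exact ⟨fun _ => q a, .const (q a), fun _ => rfl⟩
  | var i => exact ⟨fun x => x i, .var i, fun _ => rfl⟩
  | br _ _ hd ih1 ih2 =>
    obtain ⟨φ1, h1, e1⟩ := ih1
    obtain ⟨φ2, h2, e2⟩ := ih2
    exact ⟨fun x => ⁅φ1 x, φ2 x⁆, .br h1 h2 hd, fun y => by rw [LieHom.map_lie, e1, e2]⟩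

/-- A morphism over `F` as a morphism over `ℤ`. -/
def toInt {F : Type} [Field F] {A B : Type} [LieRing A] [LieAlgebra F A] [LieRing B]
    [LieAlgebra F B] (q : A →ₗ⁅F⁆ B) : A →ₗ⁅ℤ⁆ B :=
  { (q : A →ₗ[F] B).toAddMonoidHom.toIntLinearMap with
    map_lie' := fun {x y} => LieHom.map_lie q x y }

theorem toInt_apply {F : Type} [Field F] {A B : Type} [LieRing A] [LieAlgebra F A] [LieRing B]
    [LieAlgebra F B] (q : A →ₗ⁅F⁆ B) (a : A) : toInt q a = q a := rfl

variable {F : Type} [Field F]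

/-- derived ideals and preimages -/
theorem der_comap {A B : Type} [LieRing A] [LieAlgebra F A] [LieRing B] [LieAlgebra F B]
    (q : A →ₗ⁅F⁆ B) (I : LieIdeal F A) (J : LieIdeal F B) (h : ∀ a ∈ I, q a ∈ J) (l : ℕ) :
    ∀ a ∈ LieAlgebra.derivedSeriesOfIdeal F A l I,
      q a ∈ LieAlgebra.derivedSeriesOfIdeal F B l J := by
  induction l with
  | zero => exact h
  | succ l ih =>
    have h1 : LieAlgebra.derivedSeriesOfIdeal F A (l + 1) I ≤
        LieIdeal.comap q (LieAlgebra.derivedSeriesOfIdeal F B (l + 1) J) := by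
      rw [LieAlgebra.derivedSeriesOfIdeal_succ, LieAlgebra.derivedSeriesOfIdeal_succ,
        LieSubmodule.lie_le_iff]
      intro x hx y hy
      rw [LieIdeal.mem_comap, LieHom.map_lie]
      exact LieSubmodule.lie_mem_lie (ih x hx) (ih y hy)
    intro a ha
    exact LieIdeal.mem_comap.1 (h1 ha)

/-- derived ideals and images -/
theorem der_img {A B : Type} [LieRing A] [LieAlgebra F A] [LieRing B] [LieAlgebra F B]
    (q : A →ₗ⁅F⁆ B) (hq : Function.Surjective q) (I : LieIdeal F A) (l : ℕ) :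
    LieAlgebra.derivedSeriesOfIdeal F B l (imgIdeal q hq I) ≤
      imgIdeal q hq (LieAlgebra.derivedSeriesOfIdeal F A l I) := by
  induction l with
  | zero => exact le_rfl
  | succ l ih =>
    rw [LieAlgebra.derivedSeriesOfIdeal_succ, LieAlgebra.derivedSeriesOfIdeal_succ]
    exact (LieSubmodule.mono_lie ih ih).trans (imgIdeal_lie q hq _ _)

/-- The elements of the free Lie algebra with value `0` in all the quotients of bounded dimension
of the algebras of the variety. -/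
def R0 (Γ : Set (FreeLieAlgebra F ℕ)) (l d r : ℕ) : LieIdeal F (FreeLieAlgebra F (Fin r)) where
  carrier := {u | ∀ (S : Type) [LieRing S] [LieAlgebra F S] (K : Type) [Field K] [Algebra F K]
    (Q : Type) [LieRing Q] [LieAlgebra F Q] [LieAlgebra K Q] [IsScalarTower F K Q]
    (π : S →ₗ⁅F⁆ Q), Satisfies Γ S → FiniteDimensional K Q → Module.finrank K Q ≤ d →
    LieAlgebra.derivedSeriesOfIdeal F S l π.ker = ⊥ →
    ∀ θ : FreeLieAlgebra F (Fin r) →ₗ⁅F⁆ S, π (θ u) = 0}
  zero_mem' := by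
    intro S _ _ K _ _ Q _ _ _ _ π _ _ _ _ θ
    rw [map_zero, map_zero]
  add_mem' := by
    intro u v hu hv S _ _ K _ _ Q _ _ _ _ π h1 h2 h3 h4 θ
    rw [map_add, map_add, hu S K Q π h1 h2 h3 h4 θ, hv S K Q π h1 h2 h3 h4 θ, add_zero]
  smul_mem' := by
    intro t u hu S _ _ K _ _ Q _ _ _ _ π h1 h2 h3 h4 θ
    rw [map_smul, map_smul, hu S K Q π h1 h2 h3 h4 θ, smul_zero]
  lie_mem := by
    intro v u hu S _ _ K _ _ Q _ _ _ _ π h1 h2 h3 h4 θ
    rw [LieHom.map_lie, LieHom.map_lie, hu S K Q π h1 h2 h3 h4 θ, lie_zero]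

theorem mem_R0 (Γ : Set (FreeLieAlgebra F ℕ)) (l d r : ℕ) (u : FreeLieAlgebra F (Fin r)) :
    u ∈ R0 Γ l d r ↔ ∀ (S : Type) [LieRing S] [LieAlgebra F S] (K : Type) [Field K] [Algebra F K]
    (Q : Type) [LieRing Q] [LieAlgebra F Q] [LieAlgebra K Q] [IsScalarTower F K Q]
    (π : S →ₗ⁅F⁆ Q), Satisfies Γ S → FiniteDimensional K Q → Module.finrank K Q ≤ d →
    LieAlgebra.derivedSeriesOfIdeal F S l π.ker = ⊥ →
    ∀ θ : FreeLieAlgebra F (Fin r) →ₗ⁅F⁆ S, π (θ u) = 0 := Iff.rfl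

/-- the embedding of the free algebra of rank `r` in the one of countable rank -/
noncomputable def emb (F : Type) [Field F] (r : ℕ) :
    FreeLieAlgebra F (Fin r) →ₗ⁅F⁆ FreeLieAlgebra F ℕ :=
  FreeLieAlgebra.lift F fun i => FreeLieAlgebra.of F (i : ℕ)

/-- A finitely generated Lie algebra is an image of a free algebra of finite rank. -/
theorem exists_free {L : Type} [LieRing L] [LieAlgebra F L] (h : IsFG F L) :
    ∃ (r : ℕ) (e : Fin r → L), Function.Surjective (FreeLieAlgebra.lift F e) := by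
  obtain ⟨s, hs, hspan⟩ := h
  obtain ⟨r, e, he⟩ := hs.fin_param
  refine ⟨r, e, ?_⟩
  have h1 : LieSubalgebra.lieSpan F L s ≤ (FreeLieAlgebra.lift F e).range := by
    rw [LieSubalgebra.lieSpan_le]
    intro x hx
    have hx' : x ∈ Set.range e := by rw [he.2]; exact hx
    obtain ⟨i, rfl⟩ := hx'
    exact ⟨FreeLieAlgebra.of F i, FreeLieAlgebra.lift_of_apply e i⟩
  intro x
  have h2 : x ∈ (FreeLieAlgebra.lift F e).range := h1 (by rw [hspan]; exact LieSubalgebra.mem_top x)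
  exact h2

/-- If `V` is generated by algebras of type `(l, d)`, then the `l`-th derived ideal of `R0` consists
of identities of `V`. -/
theorem kill {Γ : Set (FreeLieAlgebra F ℕ)} {l d : ℕ}
    (hgen : ∀ φ : FreeLieAlgebra F ℕ,
      (∃ (L : Type) (_ : LieRing L) (_ : LieAlgebra F L), Satisfies Γ L ∧ ¬ Satisfies {φ} L) →
      ∃ (S : Type) (_ : LieRing S) (_ : LieAlgebra F S), Satisfies Γ S ∧ ¬ Satisfies {φ} S ∧
        SolubleByLinear F l d S)
    (L : Type) [LieRing L] [LieAlgebra F L] (hL : Satisfies Γ L) (r : ℕ)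
    (θ : FreeLieAlgebra F (Fin r) →ₗ⁅F⁆ L) (u : FreeLieAlgebra F (Fin r))
    (hu : u ∈ LieAlgebra.derivedSeriesOfIdeal F _ l (R0 Γ l d r)) : θ u = 0 := by
  by_contra hne
  have hbad : ¬ Satisfies {emb F r u} L := by
    intro hs
    apply hne
    let v : ℕ → L := fun n => if h : n < r then θ (FreeLieAlgebra.of F ⟨n, h⟩) else 0
    have h1 : (FreeLieAlgebra.lift F v).comp (emb F r) = θ := by
      apply FreeLieAlgebra.hom_ext
      intro i
      rw [LieHom.comp_apply, emb, FreeLieAlgebra.lift_of_apply, FreeLieAlgebra.lift_of_apply]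
      simp [v]
    have h2 := hs _ (Set.mem_singleton _) v
    rw [← h1, LieHom.comp_apply, h2]
  obtain ⟨S, _, _, hS, hSb, K, _, _, Q, _, _, _, _, π, h2, h3, h4⟩ := hgen _ ⟨L, _, _, hL, hbad⟩
  apply hSb
  intro φ hφ v
  rw [Set.mem_singleton_iff] at hφ
  subst hφ
  have h5 := der_comap ((FreeLieAlgebra.lift F v).comp (emb F r)) (R0 Γ l d r) π.ker
    (fun a ha => by
      rw [LieHom.mem_ker]
      exact (mem_R0 Γ l d r a).1 ha S K Q π hS h2 h3 h4 _) l u hu
  rw [h4, LieSubmodule.mem_bot, LieHom.comp_apply] at h5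
  exact h5

end BTM

open BTM

/-- Module BT. -/
theorem specBT (hEX : SpecEX) : SpecBT := by
  intro F _ Γ hgen L _ _ hL hfg
  obtain ⟨l, d, hgen⟩ := hgen
  obtain ⟨r, e, he⟩ := BTM.exists_free hfg
  set θ := FreeLieAlgebra.lift F e with hθ
  refine ⟨imgIdeal θ he (R0 Γ l d r), l, d + 1, ?_, ?_⟩
  · rw [eq_bot_iff]
    refine (der_img θ he (R0 Γ l d r) l).trans ?_
    rintro _ ⟨u, hu, rfl⟩
    rw [LieSubmodule.mem_bot]
    exact kill hgen L hL r θ u hu
  · intro φ hφ x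
    let q : FreeLieAlgebra F (Fin r) →ₗ⁅F⁆ L ⧸ imgIdeal θ he (R0 Γ l d r) :=
      (mkHom (imgIdeal θ he (R0 Γ l d r))).comp θ
    have hq : Function.Surjective q := (mkHom_surjective _).comp he
    have hq0 : ∀ u ∈ R0 Γ l d r, q u = 0 := by
      intro u hu
      show mkHom (imgIdeal θ he (R0 Γ l d r)) (θ u) = 0
      rw [mkHom_eq_zero]
      exact ⟨u, hu, rfl⟩
    obtain ⟨φ', hφ', e1⟩ := mon_lift (toInt q) hq hφ
    choose y hy using fun i => hq (x i)
    have hy' : x = fun i => toInt q (y i) := by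
      funext i
      exact (hy i).symm
    have hu : (∑ σ : Equiv.Perm (Fin (d + 1)),
        (Equiv.Perm.sign σ : ℤ) • φ' (fun i => y (σ i))) ∈ R0 Γ l d r := by
      rw [mem_R0]
      intro S _ _ K _ _ Q _ _ _ _ π h1 h2 h3 h4 v
      obtain ⟨φ'', hφ'', e2⟩ := mon_map (toInt (π.comp v)) hφ'
      have h5 := hEX.fin K Q (d + 1) h2 (Nat.lt_succ_of_le h3) φ'' hφ''
        (fun i => toInt (π.comp v) (y i))
      have h6 : toInt (π.comp v) (∑ σ : Equiv.Perm (Fin (d + 1)),
          (Equiv.Perm.sign σ : ℤ) • φ' (fun i => y (σ i))) = 0 := by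
        rw [map_sum, ← h5]
        refine Finset.sum_congr rfl fun σ _ => ?_
        rw [map_smul, e2]
      exact h6
    have h7 : toInt q (∑ σ : Equiv.Perm (Fin (d + 1)),
        (Equiv.Perm.sign σ : ℤ) • φ' (fun i => y (σ i))) = 0 := hq0 _ hu
    rw [← h7, map_sum]
    refine Finset.sum_congr rfl fun σ _ => ?_
    rw [map_smul, e1]
    have : (fun i => x (σ i)) = fun i => toInt q (y (σ i)) := by
      funext i
      rw [hy']
    rw [this]

end Pool.Agent.Lib.MP_8f946f_al.CP
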