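import Pool.Agent.Lib.MP_8f946f_al.CP.LSL

/-!
# Locally residually soluble-by-bounded varieties are locally soluble-by-Capelli
-/

set_option autoImplicit false

namespace Pool.Agent.Lib.MP_8f946f_al.CP

open BTM UNM

/-- The varieties of the class `LocallyResiduallySolubleByBounded` are locally
soluble-by-Capelli. -/
theorem capelli_of_residually (hEX : SpecEX) {F : Type} [Field F] {Γ : Set (FreeLieAlgebra F ℕ)}
    (h : LocallyResiduallySolubleByBounded Γ) : LocallySolubleByCapelli Γ := by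
  intro L _ _ hL hfg
  obtain ⟨r, e, he⟩ := BTM.exists_free hfg
  obtain ⟨l, d, hgen⟩ := h r
  set θ := FreeLieAlgebra.lift F e with hθ
  refine ⟨imgIdeal θ he (R1 Γ d r), l, d + 1, ?_, ?_⟩
  · rw [eq_bot_iff]
    refine (der_img θ he (R1 Γ d r) l).trans ?_
    rintro _ ⟨u, hu, rfl⟩
    rw [LieSubmodule.mem_bot]
    by_contra hne
    obtain ⟨S, _, _, θ', hS, hθ', R, hR, hsep⟩ := hgen u ⟨L, _, _, θ, hL, hne⟩
    apply hθ'
    have h5 := der_comap θ' (R1 Γ d r) R (fun a ha => by
      by_contra haR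
      obtain ⟨K, _, _, Q, _, _, _, _, π, h2, h3, h4⟩ := hsep _ haR
      exact h4 ((mem_R1 Γ d r a).1 ha S K Q π hS h2 h3 θ')) l u hu
    rw [hR, LieSubmodule.mem_bot] at h5
    exact h5
  · intro φ hφ x
    let q : FreeLieAlgebra F (Fin r) →ₗ⁅F⁆ L ⧸ imgIdeal θ he (R1 Γ d r) :=
      (mkHom (imgIdeal θ he (R1 Γ d r))).comp θ
    have hq : Function.Surjective q := (mkHom_surjective _).comp he
    have hq0 : ∀ u ∈ R1 Γ d r, q u = 0 := by
      intro u hu
      show mkHom (imgIdeal θ he (R1 Γ d r)) (θ u) = 0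
      rw [mkHom_eq_zero]
      exact ⟨u, hu, rfl⟩
    obtain ⟨φ', hφ', e1⟩ := mon_lift (toInt q) hq hφ
    choose y hy using fun i => hq (x i)
    have hy' : x = fun i => toInt q (y i) := by
      funext i
      exact (hy i).symm
    have hu : (∑ σ : Equiv.Perm (Fin (d + 1)),
        (Equiv.Perm.sign σ : ℤ) • φ' (fun i => y (σ i))) ∈ R1 Γ d r := by
      rw [mem_R1]
      intro S _ _ K _ _ Q _ _ _ _ π h1 h2 h3 v
      obtain ⟨φ'', hφ'', e2⟩ := mon_map (toInt (π.comp v)) hφ'
      have h5 := hEX.fin K Q (d + 1) h2 (Nat.lt_succ_of_le h3) φ'' hφ''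
        (fun i => toInt (π.comp v) (y i))
      have h6 : toInt (π.comp v) (∑ σ : Equiv.Perm (Fin (d + 1)),
          (Equiv.Perm.sign σ : ℤ) • φ' (fun i => y (σ i))) = 0 := by
        rw [map_sum, ← h5]
        refine Finset.sum_congr rfl fun σ _ => ?_
        rw [map_smul, e2]
      exact h6
    have h7 : toInt q (∑ σ : Equiv.Perm (Fin (d + 1)),
        (Equiv.Perm.sign σ : ℤ) • φ' (fun i => y (σ i))) = 0 := hq0 _ hu
    rw [← h7, map_sum]
    refine Finset.sum_congr rfl fun σ _ => ?_
    rw [map_smul, e1]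
    have : (fun i => x (σ i)) = fun i => toInt q (y (σ i)) := by
      funext i
      rw [hy']
    rw [this]

/-- Locally (with bounds depending on the number of variables) soluble-by-linear varieties are
locally soluble-by-Capelli. -/
theorem capelli_of_linear (hEX : SpecEX) {F : Type} [Field F] {Γ : Set (FreeLieAlgebra F ℕ)}
    (h : LocallySolubleByLinear Γ) : LocallySolubleByCapelli Γ :=
  capelli_of_residually hEX (residually_of_linear h)

end Pool.Agent.Lib.MP_8f946f_al.CP
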