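import Pool.Agent.Lib.MP_8f946f_al.CP.BT
import Pool.Agent.Lib.MP_8f946f_al.CP.Asm

/-!
# Varieties generated by soluble-by-linear algebras of bounded degree, with a monic identity
-/

set_option autoImplicit false

namespace Pool.Agent.Lib.MP_8f946f_al.CP

open Polynomial

namespace BTM

theorem isFG_free (F : Type) [Field F] (X : Type) [Finite X] : IsFG F (FreeLieAlgebra F X) := by
  refine ⟨Set.range (FreeLieAlgebra.of F), Set.finite_range _, ?_⟩
  rw [eq_top_iff]
  set M := LieSubalgebra.lieSpan F (FreeLieAlgebra F X) (Set.range (FreeLieAlgebra.of F)) with hM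
  let g : FreeLieAlgebra F X →ₗ⁅F⁆ M := FreeLieAlgebra.lift F fun i =>
    (⟨FreeLieAlgebra.of F i, LieSubalgebra.subset_lieSpan ⟨i, rfl⟩⟩ : M)
  have h1 : M.incl.comp g = LieHom.id := by
    apply FreeLieAlgebra.hom_ext
    intro i
    rw [LieHom.comp_apply, FreeLieAlgebra.lift_of_apply]
    rfl
  intro x _
  have h2 : M.incl (g x) = x := by
    rw [← LieHom.comp_apply, h1]
    rfl
  rw [← h2]
  exact (g x).2

/-- The image in `Q` of a subalgebra of `S` satisfies the identities of `S`. -/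
theorem satisfies_range {F : Type} [Field F] {Δ : Set (FreeLieAlgebra F ℕ)} {A S Q : Type}
    [LieRing A] [LieAlgebra F A] [LieRing S] [LieAlgebra F S] [LieRing Q] [LieAlgebra F Q]
    (hS : Satisfies Δ S) (v : A →ₗ⁅F⁆ S) (π : S →ₗ⁅F⁆ Q) : Satisfies Δ (π.comp v).range := by
  intro φ hφ w
  have h1 : ∀ n, ∃ y : A, (π.comp v) y = ((w n : (π.comp v).range) : Q) := fun n => by
    obtain ⟨y, hy⟩ := (w n).2
    exact ⟨y, hy⟩
  choose y hy using h1
  apply Subtype.coe_injective
  have h2 := lift_comp (π.comp v).range.incl w φ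
  have h3 := lift_comp π (fun n => v (y n)) φ
  rw [hS φ hφ, map_zero] at h3
  have h4 : (fun n => π (v (y n))) = fun n => (π.comp v).range.incl (w n) := by
    funext n
    exact hy n
  rw [h4, ← h2] at h3
  exact h3.symm

end BTM

open BTM

/-- One ideal of finite codimension of the free algebra with a derived ideal in `R0`. -/
theorem exists_ideal (hSP : SpecSP) (hFS : SpecFS) {F : Type} [Field F] [Finite F]
    {Γ : Set (FreeLieAlgebra F ℕ)} (hmi : HasMonicIdentity Γ) (l d r : ℕ) :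
    ∃ (J : LieIdeal F (FreeLieAlgebra F (Fin r))) (l' : ℕ),
      FiniteDimensional F (FreeLieAlgebra F (Fin r) ⧸ J) ∧
      LieAlgebra.derivedSeriesOfIdeal F _ l' J ≤ R0 Γ l d r := by
  obtain ⟨k, c, w, hw, hid⟩ := hmi
  obtain ⟨D, hD⟩ := large k c w hw
  obtain ⟨N, l', hN⟩ := hFS F _ D hD d
  obtain ⟨J, hJ, hJN⟩ := BD.idx F (Fin r) N
  refine ⟨J, l', hJ, ?_⟩
  intro u hu
  rw [mem_R0]
  intro S _ _ K _ _ Q _ _ _ _ π h1 h2 h3 _ v
  by_contra hne
  let p : FreeLieAlgebra F (Fin r) →ₗ⁅F⁆ (π.comp v).range := (π.comp v).rangeRestrict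
  have hp : Function.Surjective p := (π.comp v).surjective_rangeRestrict
  have hfg1 : IsFG F (π.comp v).range := (isFG_free F (Fin r)).of_surjective p hp
  have hs1 : Satisfies {mono k c w} (π.comp v).range := satisfies_range (hid S h1) v π
  have ha : (π.comp v).range.incl (p u) ≠ 0 := hne
  obtain ⟨K', _, _, _, Q', _, _, _, _, π', hQ', hQd', hπ'a⟩ :=
    hSP F (π.comp v).range hfg1 K Q (π.comp v).range.incl h2 (p u) ha
  let q : (π.comp v).range →ₗ⁅F⁆ π'.range := π'.rangeRestrict
  have hq : Function.Surjective q := π'.surjective_rangeRestrict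
  obtain ⟨S', hS', hSN, hSl⟩ := hN π'.range K' Q' π'.range.incl Subtype.coe_injective hQ'
    (hQd'.trans h3) (hs1.of_surjective q hq)
  have hle : ∀ x ∈ J, (q.comp p) x ∈ S' := by
    intro x hx
    rw [← mkHom_eq_zero]
    exact hJN (π'.range ⧸ S') hS' hSN ((mkHom S').comp (q.comp p)) x hx
  have h5 := der_comap (q.comp p) J S' hle l' u hu
  rw [hSl, LieSubmodule.mem_bot] at h5
  exact hπ'a (congrArg Subtype.val h5)

/-- A variety generated by soluble-by-linear algebras of bounded degree, with a monic identity, is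
locally soluble-by-finite. -/
theorem solubleByFinite_of_generated (hSP : SpecSP) (hFS : SpecFS) {F : Type} [Field F] [Finite F]
    {Γ : Set (FreeLieAlgebra F ℕ)} (hgen : GeneratedBySolubleByLinear Γ)
    (hmi : HasMonicIdentity Γ) : Sol.LocallySolubleByFinite Γ := by
  intro L _ _ hL hfg
  obtain ⟨l, d, hgen⟩ := hgen
  obtain ⟨r, e, he⟩ := BTM.exists_free hfg
  obtain ⟨J, l', hJ, hle⟩ := exists_ideal hSP hFS hmi l d r
  refine ⟨imgIdeal (FreeLieAlgebra.lift F e) he J, l + l',
    finiteDimensional_img _ he J hJ, ?_⟩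
  rw [eq_bot_iff]
  refine (der_img _ he J (l + l')).trans ?_
  rintro _ ⟨u, hu, rfl⟩
  rw [LieSubmodule.mem_bot]
  rw [LieAlgebra.derivedSeriesOfIdeal_add] at hu
  exact kill hgen L hL r _ u (LieAlgebra.derivedSeriesOfIdeal_mono hle l hu)

end Pool.Agent.Lib.MP_8f946f_al.CP
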