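import Pool.Agent.Lib.MP_8f946f_al.CP.Spec

/-!
# Capelli: the Capelli relation (module CR)
-/

set_option autoImplicit false

namespace Pool.Agent.Lib.MP_8f946f_al.CP

namespace CRM

variable {L : Type} [LieRing L]

/-- Substitution of Lie monomials with disjoint sets of variables. -/
theorem subst {m n : ℕ} (θ : Fin m → (Fin n → L) → L) (A : Fin m → Finset (Fin n))
    (hθ : ∀ k, LieMon L (A k) (θ k)) (hA : ∀ k k', k ≠ k' → Disjoint (A k) (A k'))
    {s : Finset (Fin m)} {φ : (Fin m → L) → L} (hφ : LieMon L s φ) :
    LieMon L (s.biUnion A) (fun z => φ (fun k => θ k z)) := by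
  classical
  induction hφ with
  | const a =>
    rw [Finset.biUnion_empty]
    exact LieMon.const a
  | var i =>
    rw [Finset.singleton_biUnion]
    exact hθ i
  | @br s t φ ψ h1 h2 hst ih1 ih2 =>
    rw [Finset.union_biUnion]
    refine LieMon.br ih1 ih2 ?_
    rw [Finset.disjoint_biUnion_left]
    intro k hk
    rw [Finset.disjoint_biUnion_right]
    intro k' hk'
    refine hA k k' ?_
    rintro rfl
    exact Finset.disjoint_left.1 hst hk hk'

/-- The alternating sum. -/
def alt {d : ℕ} (φ : (Fin d → L) → L) (x : Fin d → L) : L :=
  ∑ σ : Equiv.Perm (Fin d), (Equiv.Perm.sign σ : ℤ) • φ (fun i => x (σ i))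

theorem alt_eq_zero {d : ℕ} (φ : (Fin d → L) → L) (x : Fin d → L) (i j : Fin d) (hij : i ≠ j)
    (hx : x i = x j) : alt φ x = 0 := by
  classical
  have hsw : ∀ k, x (Equiv.swap i j k) = x k := by
    intro k
    rcases eq_or_ne k i with rfl | hki
    · rw [Equiv.swap_apply_left, hx]
    · rcases eq_or_ne k j with rfl | hkj
      · rw [Equiv.swap_apply_right, hx]
      · rw [Equiv.swap_apply_of_ne_of_ne hki hkj]
  unfold alt
  refine Finset.sum_involution (fun σ _ => Equiv.swap i j * σ) ?_ ?_ ?_ ?_
  · intro σ _
    have h1 : (fun k => x ((Equiv.swap i j * σ) k)) = fun k => x (σ k) := by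
      funext k
      exact hsw (σ k)
    rw [h1, Equiv.Perm.sign_mul, Equiv.Perm.sign_swap hij]
    simp
  · intro σ _ _ h
    have h2 : Equiv.swap i j = 1 := by
      have := congrArg (fun τ => τ * σ⁻¹) h
      simpa using this
    have h3 := congrArg (fun τ : Equiv.Perm (Fin d) => τ i) h2
    simp only [Equiv.swap_apply_left, Equiv.Perm.coe_one, id_eq] at h3
    exact hij h3.symm
  · intro σ _
    exact Finset.mem_univ _
  · intro σ _
    show Equiv.swap i j * (Equiv.swap i j * σ) = σ
    rw [← mul_assoc, Equiv.swap_mul_self, one_mul]

variable {F : Type} [Field F] [LieAlgebra F L]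

/-- Products of `ad`s send Lie monomials to Lie monomials. -/
theorem clos {m : ℕ} {s : Finset (Fin m)} (g : Module.End F L)
    (hg : g ∈ Submonoid.closure (Set.range fun y : L => LieAlgebra.ad F L y)) :
    ∀ (φ : (Fin m → L) → L) (_ : LieMon L s φ), LieMon L s (fun z => g (φ z)) := by
  induction hg using Submonoid.closure_induction with
  | mem g hg =>
    obtain ⟨a, rfl⟩ := hg
    intro φ hφ
    have h := LieMon.br (LieMon.const (m := m) a) hφ (Finset.disjoint_empty_left s)
    rw [Finset.empty_union] at h
    exact h
  | one =>
    intro φ hφ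
    exact hφ
  | mul g h _ _ ihg ihh =>
    intro φ hφ
    exact ihg _ (ihh _ hφ)

/-- The relation (R). -/
theorem rel {d : ℕ} (hC : Capelli (d + 1) L) (φ : (Fin d → L) → L)
    (hφ : LieMon L Finset.univ φ) (p : L → L)
    (hp : LieMon L ({0} : Finset (Fin (d + 1))) (fun z => p (z 0))) (h : Module.End F L)
    (hh : h ∈ Submonoid.closure (Set.range fun y : L => LieAlgebra.ad F L y))
    (x : Fin d → L) (y : L) :
    ⁅p y, h (alt φ x)⁆ = ∑ i, ⁅p (x i), h (alt φ (Function.update x i y))⁆ := by
  classical
  -- the monomial
  have h1 : LieMon L (Finset.univ.biUnion fun k : Fin d => ({k.succ} : Finset (Fin (d + 1))))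
      (fun z : Fin (d + 1) → L => φ (fun k => z k.succ)) := by
    refine subst (fun (k : Fin d) (z : Fin (d + 1) → L) => z k.succ) (fun k => {k.succ})
      (fun k => LieMon.var k.succ) ?_ hφ
    intro k k' hk
    rw [Finset.disjoint_singleton]
    exact fun h => hk (Fin.succ_injective _ h)
  have h2 := clos h hh _ h1
  have h3 : Disjoint ({0} : Finset (Fin (d + 1)))
      (Finset.univ.biUnion fun k : Fin d => ({k.succ} : Finset (Fin (d + 1)))) := by
    rw [Finset.disjoint_singleton_left, Finset.mem_biUnion]
    rintro ⟨k, -, hk⟩
    exact Fin.succ_ne_zero k (Finset.mem_singleton.1 hk).symm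
  have h4 := LieMon.br hp h2 h3
  have h5 : ({0} : Finset (Fin (d + 1))) ∪
      (Finset.univ.biUnion fun k : Fin d => ({k.succ} : Finset (Fin (d + 1)))) = Finset.univ := by
    refine Finset.eq_univ_of_forall fun k => ?_
    rw [Finset.mem_union]
    rcases Fin.eq_zero_or_eq_succ k with rfl | ⟨j, rfl⟩
    · exact Or.inl (Finset.mem_singleton_self _)
    · exact Or.inr (Finset.mem_biUnion.2 ⟨j, Finset.mem_univ _, Finset.mem_singleton_self _⟩)
  rw [h5] at h4
  have h6 := hC _ h4 (Fin.cons y x)
  -- decompose
  rw [← Equiv.sum_comp Equiv.Perm.decomposeFin.symm, Fintype.sum_prod_type, Fin.sum_univ_succ] at h6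
  have hz0 : ∀ e : Equiv.Perm (Fin d),
      ((Equiv.Perm.sign (Equiv.Perm.decomposeFin.symm ((0 : Fin (d + 1)), e)) : ℤ) •
        ⁅p ((Fin.cons y x : Fin (d + 1) → L) (Equiv.Perm.decomposeFin.symm (0, e) 0)),
          h (φ fun k : Fin d => (Fin.cons y x : Fin (d + 1) → L)
            (Equiv.Perm.decomposeFin.symm (0, e) k.succ))⁆) =
      (Equiv.Perm.sign e : ℤ) • ⁅p y, h (φ fun k => x (e k))⁆ := by
    intro e
    have e1 : (fun k : Fin d => (Fin.cons y x : Fin (d + 1) → L)
        (Equiv.Perm.decomposeFin.symm (0, e) k.succ)) = fun k => x (e k) := by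
      funext k
      rw [Equiv.Perm.decomposeFin_symm_apply_succ, Equiv.swap_self]
      simp
    rw [e1, Equiv.Perm.decomposeFin_symm_apply_zero, Equiv.Perm.decomposeFin.symm_sign]
    simp
  have hzi : ∀ (i : Fin d) (e : Equiv.Perm (Fin d)),
      ((Equiv.Perm.sign (Equiv.Perm.decomposeFin.symm (i.succ, e)) : ℤ) •
        ⁅p ((Fin.cons y x : Fin (d + 1) → L) (Equiv.Perm.decomposeFin.symm (i.succ, e) 0)),
          h (φ fun k : Fin d => (Fin.cons y x : Fin (d + 1) → L)
            (Equiv.Perm.decomposeFin.symm (i.succ, e) k.succ))⁆) =
      -((Equiv.Perm.sign e : ℤ) • ⁅p (x i), h (φ fun k => Function.update x i y (e k))⁆) := by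
    intro i e
    have e1 : (fun k : Fin d => (Fin.cons y x : Fin (d + 1) → L)
        (Equiv.Perm.decomposeFin.symm (i.succ, e) k.succ)) =
        fun k => Function.update x i y (e k) := by
      funext k
      rw [Equiv.Perm.decomposeFin_symm_apply_succ]
      rcases eq_or_ne (e k) i with hk | hk
      · rw [hk, Equiv.swap_apply_right, Function.update_self]
        simp
      · rw [Function.update_of_ne hk, Equiv.swap_apply_of_ne_of_ne (Fin.succ_ne_zero _)
          (fun h => hk (Fin.succ_injective _ h))]
        simp
    rw [e1, Equiv.Perm.decomposeFin_symm_apply_zero, Equiv.Perm.decomposeFin.symm_sign,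
      if_neg (Fin.succ_ne_zero i)]
    simp
  rw [Finset.sum_congr rfl (fun e _ => hz0 e),
    Finset.sum_congr rfl (fun i _ => Finset.sum_congr rfl (fun e _ => hzi i e))] at h6
  have h7 : ∀ (a : L) (v : Fin d → L), ⁅a, h (alt φ v)⁆ =
      ∑ e : Equiv.Perm (Fin d), (Equiv.Perm.sign e : ℤ) • ⁅a, h (φ fun k => v (e k))⁆ := by
    intro a v
    unfold alt
    rw [map_sum, lie_sum]
    refine Finset.sum_congr rfl fun e _ => ?_
    rw [map_zsmul, lie_zsmul]
  rw [h7, Finset.sum_congr rfl (fun i _ => h7 (p (x i)) (Function.update x i y))]
  simp only [Finset.sum_neg_distrib] at h6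
  rw [add_neg_eq_zero] at h6
  exact h6

/-- Linear extension to the multiplication algebra. -/
theorem ml_induction {P : Module.End F L → Prop}
    (hcl : ∀ g ∈ Submonoid.closure (Set.range fun y : L => LieAlgebra.ad F L y), P g)
    (h0 : P 0) (hadd : ∀ g h, P g → P h → P (g + h)) (hsm : ∀ (c : F) g, P g → P (c • g)) :
    ∀ g ∈ ML F L, P g := by
  intro g hg
  have hg' : g ∈ Submodule.span F
      (Submonoid.closure (Set.range fun y : L => LieAlgebra.ad F L y) : Set (Module.End F L)) := by
    rw [← Algebra.adjoin_eq_span]
    exact hg
  clear hg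
  induction hg' using Submodule.span_induction with
  | mem g hg => exact hcl g hg
  | zero => exact h0
  | add g h _ _ ihg ihh => exact hadd g h ihg ihh
  | smul c g _ ihg => exact hsm c g ihg

end CRM

open CRM in
theorem specCR : SpecCR := by
  classical
  intro F _ L _ _ d hC hN
  unfold Capelli at hN
  push Not at hN
  obtain ⟨φ, hφ, x, hx⟩ := hN
  refine ⟨x, alt φ x, fun i y => alt φ (Function.update x i y), hx, ?_, ?_⟩
  · refine ml_induction ?_ ?_ ?_ ?_
    · intro g hg y
      exact rel (F := F) hC φ hφ (fun y => y) (LieMon.var 0) g hg x y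
    · intro y
      simp
    · intro g h hg hh y
      simp only [LinearMap.add_apply, lie_add, Finset.sum_add_distrib]
      rw [hg y, hh y]
    · intro c g hg y
      simp only [LinearMap.smul_apply, lie_smul]
      rw [hg y, Finset.smul_sum]
  · refine ml_induction ?_ ?_ ?_ ?_
    · intro g hg
      refine ml_induction ?_ ?_ ?_ ?_
      · intro h hh i y
        -- the relation for each permutation
        have h1 : ∀ σ : Equiv.Perm (Fin d),
            ⁅g (φ fun k => Function.update x i y (σ k)), h (alt φ x)⁆ =
            ∑ j, ⁅g (φ fun k => Function.update x i (x j) (σ k)),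
              h (alt φ (Function.update x j y))⁆ := by
          intro σ
          refine rel (F := F) hC φ hφ (fun y => g (φ fun k => Function.update x i y (σ k))) ?_
            h hh x y
          refine clos g hg _ ?_
          have h2 := subst (n := d + 1)
            (fun (k : Fin d) (z : Fin (d + 1) → L) => Function.update x i (z 0) (σ k))
            (fun k => if σ k = i then ({0} : Finset (Fin (d + 1))) else ∅) ?_ ?_ hφ
          · have h3 : (Finset.univ.biUnion fun k : Fin d =>
                if σ k = i then ({0} : Finset (Fin (d + 1))) else ∅) = {0} := by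
              ext a
              rw [Finset.mem_biUnion]
              constructor
              · rintro ⟨k, -, hk⟩
                split_ifs at hk with h
                · exact hk
                · exact absurd hk (Finset.notMem_empty _)
              · intro ha
                refine ⟨σ.symm i, Finset.mem_univ _, ?_⟩
                rw [if_pos (Equiv.apply_symm_apply σ i)]
                exact ha
            rw [h3] at h2
            exact h2
          · intro k
            by_cases hk : σ k = i
            · have e1 : (fun z : Fin (d + 1) → L => Function.update x i (z 0) (σ k)) =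
                  fun z => z 0 := by
                funext z
                rw [hk, Function.update_self]
              rw [if_pos hk, e1]
              exact LieMon.var 0
            · have e1 : (fun z : Fin (d + 1) → L => Function.update x i (z 0) (σ k)) =
                  fun _ => x (σ k) := by
                funext z
                rw [Function.update_of_ne hk]
              rw [if_neg hk, e1]
              exact LieMon.const _
          · intro k k' hkk
            by_cases hk : σ k = i
            · have hk' : σ k' ≠ i := fun h => hkk (σ.injective (hk.trans h.symm))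
              rw [if_neg hk']
              exact Finset.disjoint_empty_right _
            · rw [if_neg hk]
              exact Finset.disjoint_empty_left _
        have h4 : ∀ (v : Fin d → L) (a : L), ⁅g (alt φ v), a⁆ =
            ∑ σ : Equiv.Perm (Fin d), (Equiv.Perm.sign σ : ℤ) • ⁅g (φ fun k => v (σ k)), a⁆ := by
          intro v a
          unfold alt
          rw [map_sum, sum_lie]
          refine Finset.sum_congr rfl fun e _ => ?_
          rw [map_zsmul, zsmul_lie]
        show ⁅g (alt φ (Function.update x i y)), h (alt φ x)⁆ =
          ⁅g (alt φ x), h (alt φ (Function.update x i y))⁆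
        rw [h4, Finset.sum_congr rfl fun σ _ => by rw [h1 σ]]
        simp only [Finset.smul_sum]
        rw [Finset.sum_comm]
        rw [Finset.sum_congr rfl fun j _ =>
          (h4 (Function.update x i (x j)) (h (alt φ (Function.update x j y)))).symm]
        rw [Finset.sum_eq_single i]
        · rw [Function.update_eq_self]
        · intro j _ hji
          rw [alt_eq_zero φ (Function.update x i (x j)) i j hji.symm
            (by rw [Function.update_self, Function.update_of_ne hji]), map_zero, zero_lie]
        · intro h
          exact absurd (Finset.mem_univ _) h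
      · intro i y
        simp
      · intro h h' ih ih' i y
        simp only [LinearMap.add_apply, lie_add]
        rw [ih i y, ih' i y]
      · intro c h ih i y
        simp only [LinearMap.smul_apply, lie_smul]
        rw [ih i y]
    · intro h _ i y
      simp
    · intro g g' ihg ihg' h hh i y
      simp only [LinearMap.add_apply, add_lie]
      rw [ihg h hh i y, ihg' h hh i y]
    · intro c g ihg h hh i y
      simp only [LinearMap.smul_apply, smul_lie]
      rw [ihg h hh i y]

end Pool.Agent.Lib.MP_8f946f_al.CP
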