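import Pool.Agent.Lib.MP_8f946f_al.CP.DefsB

/-!
# Capelli identities: finite dimension, subalgebras and quotients
-/

set_option autoImplicit false

namespace Pool.Agent.Lib.MP_8f946f_al.CP

open Function

namespace EXM

/-- `φ` is linear in the variables in `s` and does not depend on the other ones. -/
structure Lin (K : Type) [Field K] {Q : Type} [LieRing Q] [LieAlgebra K Q] {m : ℕ}
    (s : Finset (Fin m)) (φ : (Fin m → Q) → Q) : Prop where
  add : ∀ (x : Fin m → Q) (i : Fin m), i ∈ s → ∀ a b : Q,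
    φ (update x i (a + b)) = φ (update x i a) + φ (update x i b)
  smul : ∀ (x : Fin m → Q) (i : Fin m), i ∈ s → ∀ (c : K) (a : Q),
    φ (update x i (c • a)) = c • φ (update x i a)
  ind : ∀ (x : Fin m → Q) (i : Fin m), i ∉ s → ∀ a : Q, φ (update x i a) = φ x

theorem lin (K : Type) [Field K] {Q : Type} [LieRing Q] [LieAlgebra K Q] {m : ℕ}
    {s : Finset (Fin m)} {φ : (Fin m → Q) → Q} (h : LieMon Q s φ) : Lin K s φ := by
  induction h with
  | const a =>
    refine ⟨fun x i hi => ?_, fun x i hi => ?_, fun x i _ a => rfl⟩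
    · exact absurd hi (Finset.notMem_empty i)
    · exact absurd hi (Finset.notMem_empty i)
  | var j =>
    refine ⟨fun x i hi a b => ?_, fun x i hi c a => ?_, fun x i hi a => ?_⟩
    · rw [Finset.mem_singleton] at hi
      subst hi
      simp
    · rw [Finset.mem_singleton] at hi
      subst hi
      simp
    · rw [Finset.mem_singleton] at hi
      exact update_of_ne (Ne.symm hi) _ _
  | @br s t φ ψ _ _ hst hφ hψ =>
    refine ⟨fun x i hi a b => ?_, fun x i hi c a => ?_, fun x i hi a => ?_⟩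
    · rcases Finset.mem_union.1 hi with h | h
      · have ht : i ∉ t := fun h' => Finset.disjoint_left.1 hst h h'
        simp only [hφ.add x i h, hψ.ind x i ht, add_lie]
      · have hs : i ∉ s := fun h' => Finset.disjoint_left.1 hst h' h
        simp only [hψ.add x i h, hφ.ind x i hs, lie_add]
    · rcases Finset.mem_union.1 hi with h | h
      · have ht : i ∉ t := fun h' => Finset.disjoint_left.1 hst h h'
        simp only [hφ.smul x i h, hψ.ind x i ht, smul_lie]
      · have hs : i ∉ s := fun h' => Finset.disjoint_left.1 hst h' h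
        simp only [hψ.smul x i h, hφ.ind x i hs, lie_smul]
    · rw [Finset.mem_union, not_or] at hi
      simp only [hφ.ind x i hi.1, hψ.ind x i hi.2]

/-- The multilinear map of a monomial which contains all the variables. -/
def toML {K : Type} [Field K] {Q : Type} [LieRing Q] [LieAlgebra K Q] {m : ℕ}
    {φ : (Fin m → Q) → Q} (h : Lin K Finset.univ φ) : MultilinearMap K (fun _ : Fin m => Q) Q where
  toFun := φ
  map_update_add' := by
    intro inst x i a b
    rw [Subsingleton.elim inst (instDecidableEqFin m)]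
    exact h.add x i (Finset.mem_univ i) a b
  map_update_smul' := by
    intro inst x i c a
    rw [Subsingleton.elim inst (instDecidableEqFin m)]
    exact h.smul x i (Finset.mem_univ i) c a

theorem fin (K Q : Type) [Field K] [LieRing Q] [LieAlgebra K Q] (m : ℕ)
    (hfd : FiniteDimensional K Q) (hm : Module.finrank K Q < m) : Capelli m Q := by
  intro φ hφ x
  have h := lin K hφ
  have hli : ¬ LinearIndependent K x := by
    intro h1
    have h2 := h1.fintype_card_le_finrank
    rw [Fintype.card_fin] at h2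
    omega
  have h3 := (MultilinearMap.alternatization (toML h)).map_linearDependent x hli
  rw [MultilinearMap.alternatization_apply] at h3
  rw [← h3]
  refine Finset.sum_congr rfl fun σ _ => ?_
  rw [Units.smul_def]
  rfl

theorem push {Q Q' : Type} [LieRing Q] [LieRing Q'] {m : ℕ} (f : Q →ₗ⁅ℤ⁆ Q') {s : Finset (Fin m)}
    {φ : (Fin m → Q) → Q} (h : LieMon Q s φ) :
    ∃ φ' : (Fin m → Q') → Q', LieMon Q' s φ' ∧ ∀ x, f (φ x) = φ' fun i => f (x i) := by
  induction h with
  | const a => exact ⟨_, LieMon.const (f a), fun x => rfl⟩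
  | var j => exact ⟨_, LieMon.var j, fun x => rfl⟩
  | br _ _ hst hφ hψ =>
    obtain ⟨φ', h1, h2⟩ := hφ
    obtain ⟨ψ', h3, h4⟩ := hψ
    exact ⟨_, LieMon.br h1 h3 hst, fun x => by rw [LieHom.map_lie, h2, h4]⟩

theorem pull' {Q Q' : Type} [LieRing Q] [LieRing Q'] {m : ℕ} (f : Q →ₗ⁅ℤ⁆ Q')
    (hf : Function.Surjective f) {s : Finset (Fin m)} {φ' : (Fin m → Q') → Q'}
    (h : LieMon Q' s φ') :
    ∃ φ : (Fin m → Q) → Q, LieMon Q s φ ∧ ∀ x, f (φ x) = φ' fun i => f (x i) := by
  induction h with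
  | const a =>
    obtain ⟨b, rfl⟩ := hf a
    exact ⟨_, LieMon.const b, fun x => rfl⟩
  | var j => exact ⟨_, LieMon.var j, fun x => rfl⟩
  | br _ _ hst hφ hψ =>
    obtain ⟨φ', h1, h2⟩ := hφ
    obtain ⟨ψ', h3, h4⟩ := hψ
    exact ⟨_, LieMon.br h1 h3 hst, fun x => by rw [LieHom.map_lie, h2, h4]⟩

theorem inj (Q Q' : Type) [LieRing Q] [LieRing Q'] (m : ℕ) (f : Q →ₗ⁅ℤ⁆ Q')
    (hf : Function.Injective f) (h : Capelli m Q') : Capelli m Q := by
  intro φ hφ x
  obtain ⟨φ', h1, h2⟩ := push f hφ
  apply hf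
  rw [map_sum, map_zero, ← h φ' h1 fun i => f (x i)]
  refine Finset.sum_congr rfl fun σ _ => ?_
  rw [map_zsmul, h2]

theorem sur (Q Q' : Type) [LieRing Q] [LieRing Q'] (m : ℕ) (f : Q →ₗ⁅ℤ⁆ Q')
    (hf : Function.Surjective f) (h : Capelli m Q) : Capelli m Q' := by
  intro φ' hφ' x'
  obtain ⟨φ, h1, h2⟩ := pull' f hf hφ'
  choose x hx using fun i => hf (x' i)
  have h3 := congrArg f (h φ h1 x)
  rw [map_sum, map_zero] at h3
  rw [← h3]
  refine Finset.sum_congr rfl fun σ _ => ?_
  rw [map_zsmul, h2]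
  congr 2
  funext i
  exact (hx _).symm

end EXM

/-- EX -/
theorem specEX : SpecEX where
  fin := EXM.fin
  inj := EXM.inj
  sur := EXM.sur
  sbf := by
    intro F _ Γ h L _ _ hL hfg
    obtain ⟨S, d, h1, h2⟩ := h L hL hfg
    exact ⟨S, d, Module.finrank F (L ⧸ S) + 1, h2, EXM.fin F (L ⧸ S) _ h1 (Nat.lt_succ_self _)⟩

end Pool.Agent.Lib.MP_8f946f_al.CP
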