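import Pool.Agent.Lib.MP_8f946f_al.CP.Spec

/-!
# Capelli, module FD: density
-/

set_option autoImplicit false

namespace Pool.Agent.Lib.MP_8f946f_al.CP

namespace FDM

open Polynomial

variable {F : Type} [Field F] {L : Type} [LieRing L] [LieAlgebra F L]

/-- The algebra of operators on `M₀` generated by `L`. -/
abbrev AA (M₀ : LieIdeal F L) : Subalgebra F (Module.End F M₀) :=
  Algebra.adjoin F (Set.range (LieModule.toEnd F L M₀))

section
variable {K Q : Type} [Field K] [Algebra F K] [LieRing Q] [LieAlgebra F Q] [LieAlgebra K Q]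
  [IsScalarTower F K Q]

/-- The operators come from `K`-linear operators on `Q`. -/
theorem lift_op (π : L →ₗ⁅F⁆ Q) (M₀ : LieIdeal F L) (a : Module.End F M₀) (ha : a ∈ AA M₀) :
    ∃ b : Module.End K Q, ∀ m : M₀, π (a m : L) = b (π m) := by
  induction ha using Algebra.adjoin_induction with
  | mem a h =>
    obtain ⟨l, rfl⟩ := h
    refine ⟨LieAlgebra.ad K Q (π l), fun m => ?_⟩
    rw [LieModule.toEnd_apply_apply, LieAlgebra.ad_apply, ← LieHom.map_lie]
    rfl
  | algebraMap c =>
    refine ⟨(algebraMap F K c) • LinearMap.id, fun m => ?_⟩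
    rw [Module.algebraMap_end_apply, LinearMap.smul_apply, LinearMap.id_apply, algebraMap_smul]
    exact map_smul π c (m : L)
  | add a a' _ _ h h' =>
    obtain ⟨b, hb⟩ := h
    obtain ⟨b', hb'⟩ := h'
    refine ⟨b + b', fun m => ?_⟩
    rw [LinearMap.add_apply, LinearMap.add_apply, ← hb, ← hb']
    exact map_add π _ _
  | mul a a' _ _ h h' =>
    obtain ⟨b, hb⟩ := h
    obtain ⟨b', hb'⟩ := h'
    refine ⟨b * b', fun m => ?_⟩
    rw [Module.End.mul_apply, Module.End.mul_apply, hb, hb']

/-- Independence over `K` from density. -/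
theorem indep (π : L →ₗ⁅F⁆ Q) (hπ : Function.Injective π) (M₀ : LieIdeal F L) {n : ℕ}
    (m : Fin n → M₀) (hm0 : ∀ i, m i ≠ 0)
    (hm : ∀ j, ∃ a ∈ AA M₀, ∀ i, a (m i) = if i = j then m j else 0) :
    LinearIndependent K (fun i => π (m i : L)) := by
  rw [Fintype.linearIndependent_iff]
  intro g hg j
  obtain ⟨a, ha, haj⟩ := hm j
  obtain ⟨b, hb⟩ := lift_op (K := K) π M₀ a ha
  have h1 := congrArg b hg
  rw [map_sum, map_zero] at h1
  have h2 : ∀ i, b (g i • π (m i : L)) = if i = j then g j • π (m j : L) else 0 := by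
    intro i
    rw [map_smul, ← hb, haj]
    split_ifs with h
    · rw [h]
    · rw [ZeroMemClass.coe_zero, map_zero, smul_zero]
  rw [Finset.sum_congr rfl fun i _ => h2 i, Finset.sum_ite_eq' Finset.univ j,
    if_pos (Finset.mem_univ j), smul_eq_zero] at h1
  rcases h1 with h1 | h1
  · exact h1
  · exfalso
    apply hm0 j
    have h3 : (m j : L) = 0 := hπ (h1.trans (map_zero π).symm)
    exact Subtype.ext h3

omit [Algebra F K] [IsScalarTower F K Q] in
/-- A minimal ideal inside of a nonabelian minimal ideal of the span is not abelian. -/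
theorem nonab (π : L →ₗ⁅F⁆ Q) (hπ : Function.Injective π)
    (hspan : Submodule.span K (Set.range π) = ⊤) (M₀ : LieIdeal F L) (I : LieIdeal K Q)
    (hM : M₀ ≠ ⊥) (hI : IsAtom I) (hMI : ∀ m ∈ M₀, π m ∈ I) (hII : ⁅I, I⁆ ≠ ⊥)
    (hab : ⁅M₀, M₀⁆ = ⊥) : False := by
  let J₀ : Submodule K Q := Submodule.span K (π '' (M₀ : Set L))
  have hlie : ∀ q : Q, ∀ y ∈ J₀, ⁅q, y⁆ ∈ J₀ := by
    intro q y hy
    have hq : q ∈ Submodule.span K (Set.range π) := by
      rw [hspan]
      exact Submodule.mem_top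
    induction hq using Submodule.span_induction with
    | mem q hq =>
      obtain ⟨l, rfl⟩ := hq
      induction hy using Submodule.span_induction with
      | mem y hy =>
        obtain ⟨m, hm, rfl⟩ := hy
        rw [← LieHom.map_lie]
        exact Submodule.subset_span ⟨⁅l, m⁆, M₀.lie_mem hm, rfl⟩
      | zero =>
        rw [lie_zero]
        exact J₀.zero_mem
      | add y z _ _ h h' =>
        rw [lie_add]
        exact J₀.add_mem h h'
      | smul c y _ h =>
        rw [lie_smul]
        exact J₀.smul_mem c h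
    | zero =>
      rw [zero_lie]
      exact J₀.zero_mem
    | add p q _ _ h h' =>
      rw [add_lie]
      exact J₀.add_mem h h'
    | smul c q _ h =>
      rw [smul_lie]
      exact J₀.smul_mem c h
  let J : LieIdeal K Q := { J₀ with lie_mem := fun {x m} hm => hlie x m hm }
  have hJI : J ≤ I := by
    intro y hy
    have hy' : y ∈ J₀ := hy
    have h1 : J₀ ≤ I.toSubmodule := by
      refine Submodule.span_le.2 ?_
      rintro _ ⟨m, hm, rfl⟩
      exact hMI m hm
    exact h1 hy'
  have hJ : J ≠ ⊥ := by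
    intro h0
    apply hM
    rw [LieSubmodule.eq_bot_iff]
    intro m hm
    have h1 : π m ∈ J := (Submodule.subset_span ⟨m, hm, rfl⟩ : π m ∈ J₀)
    rw [h0, LieSubmodule.mem_bot] at h1
    exact hπ (h1.trans (map_zero π).symm)
  have hJI' : J = I := (hI.le_iff.1 hJI).resolve_left hJ
  apply hII
  rw [← hJI', LieSubmodule.lie_eq_bot_iff]
  intro x hx y hy
  have hx' : x ∈ J₀ := hx
  have hy' : y ∈ J₀ := hy
  clear hx hy
  induction hx' using Submodule.span_induction with
  | mem x hx =>
    obtain ⟨m, hm, rfl⟩ := hx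
    induction hy' using Submodule.span_induction with
    | mem y hy =>
      obtain ⟨m', hm', rfl⟩ := hy
      rw [← LieHom.map_lie]
      have h1 : ⁅m, m'⁆ ∈ ⁅M₀, M₀⁆ := LieSubmodule.lie_mem_lie hm hm'
      rw [hab, LieSubmodule.mem_bot] at h1
      rw [h1, map_zero]
    | zero => exact lie_zero _
    | add y z _ _ h h' => rw [lie_add, h, h', add_zero]
    | smul c y _ h => rw [lie_smul, h, smul_zero]
  | zero => exact zero_lie _
  | add p q _ _ h h' => rw [add_lie, h, h', add_zero]
  | smul c q _ h => rw [smul_lie, h, smul_zero]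

end

/-- A soluble minimal ideal is abelian. -/
theorem abel (M₀ : LieIdeal F L) (hM : IsAtom M₀) (hs : LieAlgebra.IsSolvable M₀) :
    ⁅M₀, M₀⁆ = ⊥ := by
  by_contra hne
  have h1 : ⁅M₀, M₀⁆ ≤ M₀ := LieSubmodule.lie_le_right M₀ M₀
  have h2 : ⁅M₀, M₀⁆ = M₀ := (hM.le_iff.1 h1).resolve_left hne
  have h3 : ∀ k, LieAlgebra.derivedSeriesOfIdeal F L k M₀ = M₀ := by
    intro k
    induction k with
    | zero => rfl
    | succ k ih => rw [LieAlgebra.derivedSeriesOfIdeal_succ, ih, h2]
  obtain ⟨k, hk⟩ := hs.solvable F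
  rw [LieIdeal.derivedSeries_eq_bot_iff, h3] at hk
  exact hM.1 hk

/-- Identities of ideals. -/
theorem sat {φ : FreeLieAlgebra F ℕ} (h : Satisfies {φ} L) (M₀ : LieIdeal F L) :
    Satisfies {φ} M₀ := by
  intro ψ hψ v
  have h1 := h ψ hψ fun i => (v i : L)
  have h2 : (FreeLieAlgebra.lift F fun i => (v i : L)) = (M₀.incl).comp (FreeLieAlgebra.lift F v) := by
    apply FreeLieAlgebra.hom_ext
    intro i
    simp
  rw [h2] at h1
  exact Subtype.ext h1

/-- The bound, for a field `T` which acts on `M₀`. -/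
theorem core [Finite F] (φ : FreeLieAlgebra F ℕ) (D : ℕ) (hL : Large F φ D) (K Q : Type) [Field K]
    [Algebra F K] [LieRing Q] [LieAlgebra F Q] [LieAlgebra K Q] [IsScalarTower F K Q]
    (π : L →ₗ⁅F⁆ Q) (hπ : Function.Injective π) (hfd : FiniteDimensional K Q)
    (hφ : Satisfies {φ} L) (hspan : Submodule.span K (Set.range π) = ⊤) (M₀ : LieIdeal F L)
    (I : LieIdeal K Q) (hM : IsAtom M₀) (hI : IsAtom I) (hMI : ∀ m ∈ M₀, π m ∈ I)
    (hII : ⁅I, I⁆ ≠ ⊥) (T : Type) [Field T] [Finite T] [Algebra F T] [Module T M₀]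
    [IsScalarTower F T M₀] [Module.Finite T M₀]
    (hT : ∀ (t : T) (l : L) (m : M₀), t • ⁅l, m⁆ = ⁅l, t • m⁆)
    (hden : ∀ (n : ℕ) (b : Module.Basis (Fin n) T M₀) (j : Fin n),
      ∃ a ∈ AA M₀, ∀ i, a (b i) = if i = j then b j else 0) :
    Module.finrank F M₀ ≤ D * Module.finrank K Q := by
  have hrank : Module.finrank T M₀ ≤ Module.finrank K Q := by
    let b := Module.finBasis T M₀
    have h1 : LinearIndependent K (fun i => π (b i : L)) :=
      indep (K := K) π hπ M₀ b (fun i => b.ne_zero i) (hden _ b)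
    have h2 := h1.fintype_card_le_finrank
    rwa [Fintype.card_fin] at h2
  have hsmall : Nat.card T < D := by
    by_contra hD
    push Not at hD
    let hLA : LieAlgebra T M₀ := { lie_smul := fun t x y => (hT t (x : L) y).symm }
    have h1 : ∃ s : Finset T, D ≤ s.card := by
      cases nonempty_fintype T
      refine ⟨Finset.univ, ?_⟩
      rwa [Finset.card_univ, ← Nat.card_eq_fintype_card]
    have h2 : LieAlgebra.IsSolvable M₀ := hL T M₀ inferInstance (sat hφ M₀) h1
    exact nonab (K := K) π hπ hspan M₀ I hM.1 hI hMI hII (abel M₀ hM h2)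
  have hFT : Module.finrank F T ≤ D := by
    have h0 : Module.Finite F T := Module.Finite.of_finite
    have h1 : Nat.card T = Nat.card F ^ Module.finrank F T := Module.natCard_eq_pow_finrank
    have h2 : 2 ≤ Nat.card F := Finite.one_lt_card
    have h3 : 2 ^ Module.finrank F T ≤ Nat.card F ^ Module.finrank F T :=
      Nat.pow_le_pow_left h2 _
    have h4 : Module.finrank F T < 2 ^ Module.finrank F T := Nat.lt_two_pow_self
    omega
  rw [← Module.finrank_mul_finrank F T M₀]
  exact Nat.mul_le_mul hFT hrank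

/-- `M₀` is a simple module. -/
theorem simple (M₀ : LieIdeal F L) (hM : IsAtom M₀) : IsSimpleModule (AA M₀) M₀ := by
  have hnt : Nontrivial M₀ := by
    rw [LieSubmodule.nontrivial_iff_ne_bot]
    exact hM.1
  refine (isSimpleModule_iff _ _).2 { exists_pair_ne := ⟨⊥, ⊤, bot_ne_top⟩, eq_bot_or_eq_top := ?_ }
  intro N
  let N₀ : Submodule F M₀ :=
    { carrier := N
      add_mem' := fun ha hb => N.add_mem ha hb
      zero_mem' := N.zero_mem
      smul_mem' := by
        intro c x hx
        have h1 := N.smul_mem (algebraMap F (AA M₀) c) hx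
        exact h1 }
  let N₁ : LieSubmodule F L M₀ :=
    { N₀ with
      lie_mem := by
        intro l x hx
        have h1 := N.smul_mem (⟨LieModule.toEnd F L M₀ l, Algebra.subset_adjoin ⟨l, rfl⟩⟩ : AA M₀) hx
        exact h1 }
  have hle : N₁.map (LieSubmodule.incl M₀) ≤ M₀ := by
    intro x hx
    rw [LieSubmodule.mem_map] at hx
    obtain ⟨m, -, rfl⟩ := hx
    exact m.2
  rcases hM.le_iff.1 hle with h | h
  · left
    rw [eq_bot_iff]
    intro x hx
    have h1 : (x : L) ∈ N₁.map (LieSubmodule.incl M₀) := by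
      rw [LieSubmodule.mem_map]
      exact ⟨x, hx, rfl⟩
    rw [h, LieSubmodule.mem_bot] at h1
    rw [Submodule.mem_bot]
    exact Subtype.ext h1
  · right
    rw [eq_top_iff]
    intro x _
    have h1 : (x : L) ∈ N₁.map (LieSubmodule.incl M₀) := by
      rw [h]
      exact x.2
    rw [LieSubmodule.mem_map] at h1
    obtain ⟨m, hm, hmx⟩ := h1
    have h2 : m = x := Subtype.ext hmx
    rw [← h2]
    exact hm

end FDM

/-- **FD** -/
theorem specFD : SpecFD := by
  intro F _ _ φ D hL L _ _ K Q _ _ _ _ _ _ _ π hπ hfd hφ hspan M₀ I hM hI hMI hII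
  classical
  have hQ : Finite Q := Module.finite_of_finite K
  have hLf : Finite L := Finite.of_injective π hπ
  have hsimple := FDM.simple M₀ hM
  have hfin : Finite (Module.End (FDM.AA M₀) M₀) := Finite.of_injective
    (fun f => (f : M₀ → M₀)) (fun f g h => LinearMap.ext fun x => congrFun h x)
  let hfield : Field (Module.End (FDM.AA M₀) M₀) := littleWedderburn _
  refine FDM.core φ D hL K Q π hπ hfd hφ hspan M₀ I hM hI hMI hII (Module.End (FDM.AA M₀) M₀) ?_ ?_
  · intro t l m
    exact LinearMap.map_smul t (⟨LieModule.toEnd F L M₀ l, Algebra.subset_adjoin ⟨l, rfl⟩⟩ : FDM.AA M₀) m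
  · intro n b j
    obtain ⟨r, hr⟩ := jacobson_density (R := FDM.AA M₀) (M := M₀)
      (b.constr F fun i => if i = j then b j else 0) (Finset.univ.image b)
    refine ⟨r, r.2, fun i => ?_⟩
    have h1 := hr (b i) (Finset.mem_image_of_mem _ (Finset.mem_univ i))
    rw [b.constr_basis] at h1
    exact h1.symm

end Pool.Agent.Lib.MP_8f946f_al.CP
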