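import Pool.Agent.Lib.MP_8f946f_al.CP.Spec
import Pool.Agent.Lib.MP_8f946f_al.Main
import Pool.Agent.Lib.MP_8f946f_al.BD.Sol

/-!
# Capelli: the finite case (module FS, helper12)

A Lie algebra over a finite field `F` which embeds into a Lie algebra of dimension at most `d` over a
finite field `K ⊇ F` and satisfies `φ` has an ideal of bounded codimension and bounded derived length.
-/

set_option autoImplicit false

namespace Pool.Agent.Lib.MP_8f946f_al.CP

open Pool.Agent.Lib.MP_8f946f_al.BD (qm qm_surj qm_ker)

namespace FSM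

/-- the hypothesis: an embedding of `L` into `Q` -/
structure Emb (F : Type) [Field F] (L : Type) [LieRing L] [LieAlgebra F L] (K Q : Type) [Field K]
    [Algebra F K] [LieRing Q] [LieAlgebra K Q] (f : L → Q) : Prop where
  add : ∀ x y, f (x + y) = f x + f y
  lie : ∀ x y, f ⁅x, y⁆ = ⁅f x, f y⁆
  smul : ∀ (c : F) x, f (c • x) = algebraMap F K c • f x
  inj : ∀ x, f x = 0 → x = 0

/-- restriction of scalars -/
@[reducible] def resLie (F K Q : Type) [Field F] [Field K] [Algebra F K] [LieRing Q]
    [LieAlgebra K Q] : LieAlgebra F Q :=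
  { Module.compHom Q (algebraMap F K) with
    lie_smul := fun c x y => lie_smul (algebraMap F K c) x y }

section

variable {F : Type} [Field F] {L : Type} [LieRing L] [LieAlgebra F L]

theorem Emb.zero {K Q : Type} [Field K] [Algebra F K] [LieRing Q] [LieAlgebra K Q] {f : L → Q}
    (h : Emb F L K Q f) : f 0 = 0 := by
  have h1 := h.add 0 0
  rw [add_zero] at h1
  exact left_eq_add.1 h1

theorem Emb.sub {K Q : Type} [Field K] [Algebra F K] [LieRing Q] [LieAlgebra K Q] {f : L → Q}
    (h : Emb F L K Q f) (x y : L) : f (x - y) = f x - f y := by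
  have h1 := h.add (x - y) y
  rw [sub_add_cancel] at h1
  rw [h1, add_sub_cancel_right]

theorem Emb.injective {K Q : Type} [Field K] [Algebra F K] [LieRing Q] [LieAlgebra K Q]
    {f : L → Q} (h : Emb F L K Q f) : Function.Injective f := by
  intro x y hxy
  have h1 := h.inj (x - y) (by rw [h.sub, hxy, sub_self])
  exact sub_eq_zero.1 h1

/-- codimension -/
theorem codim_le [FiniteDimensional F L] (S : LieIdeal F L) {W : Type} [AddCommGroup W]
    [Module F W] [FiniteDimensional F W] (T : L →ₗ[F] W) (h : ∀ x, T x = 0 → x ∈ S) :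
    Module.finrank F (L ⧸ S) ≤ Module.finrank F W := by
  have h1 : Module.finrank F (L ⧸ S) + Module.finrank F S.toSubmodule = Module.finrank F L :=
    Submodule.finrank_quotient_add_finrank S.toSubmodule
  have h2 := LinearMap.finrank_range_add_finrank_ker T
  have h3 : Module.finrank F (LinearMap.ker T) ≤ Module.finrank F S.toSubmodule :=
    Submodule.finrank_mono fun x hx => h x (LinearMap.mem_ker.1 hx)
  have h4 : Module.finrank F (LinearMap.range T) ≤ Module.finrank F W :=
    Submodule.finrank_le _
  omega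

theorem derived_comap {L' : Type} [LieRing L'] [LieAlgebra F L'] (g : L →ₗ⁅F⁆ L')
    (S : LieIdeal F L) (S' : LieIdeal F L') (h : ∀ x ∈ S, g x ∈ S') (k : ℕ) :
    ∀ x ∈ LieAlgebra.derivedSeriesOfIdeal F L k S,
      g x ∈ LieAlgebra.derivedSeriesOfIdeal F L' k S' := by
  induction k with
  | zero => exact h
  | succ k ih =>
    rw [LieAlgebra.derivedSeriesOfIdeal_succ, LieAlgebra.derivedSeriesOfIdeal_succ]
    have h1 : ⁅LieAlgebra.derivedSeriesOfIdeal F L k S, LieAlgebra.derivedSeriesOfIdeal F L k S⁆ ≤
        LieIdeal.comap g ⁅LieAlgebra.derivedSeriesOfIdeal F L' k S',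
          LieAlgebra.derivedSeriesOfIdeal F L' k S'⁆ := by
      rw [LieSubmodule.lie_le_iff]
      intro x hx y hy
      rw [LieIdeal.mem_comap, LieHom.map_lie]
      exact LieSubmodule.lie_mem_lie (ih x hx) (ih y hy)
    intro x hx
    exact LieIdeal.mem_comap.1 (h1 hx)

end

/-- the conclusion -/
def Concl (F : Type) [Field F] (L : Type) [LieRing L] [LieAlgebra F L] (N l : ℕ) : Prop :=
  ∃ S : LieIdeal F L, FiniteDimensional F (L ⧸ S) ∧ Module.finrank F (L ⧸ S) ≤ N ∧
    LieAlgebra.derivedSeriesOfIdeal F L l S = ⊥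

/-- the statement for `d`, `N`, `l` -/
def P (F : Type) [Field F] (φ : FreeLieAlgebra F ℕ) (d N l : ℕ) : Prop :=
  ∀ (L : Type) [LieRing L] [LieAlgebra F L] (K Q : Type) [Field K] [Finite K]
    [Algebra F K] [LieRing Q] [LieAlgebra K Q] (f : L → Q), Emb F L K Q f →
    FiniteDimensional K Q → Module.finrank K Q ≤ d → Satisfies {φ} L → Concl F L N l

/-- the same, for `Q` the span of the image of `L` -/
def PS (F : Type) [Field F] (φ : FreeLieAlgebra F ℕ) (d N l : ℕ) : Prop :=
  ∀ (L : Type) [LieRing L] [LieAlgebra F L] (K Q : Type) [Field K] [Finite K]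
    [Algebra F K] [LieRing Q] [LieAlgebra K Q] (f : L → Q), Emb F L K Q f →
    FiniteDimensional K Q → Module.finrank K Q ≤ d → Satisfies {φ} L →
    Submodule.span K (Set.range f) = ⊤ → Concl F L N l

/-- passing to the span -/
theorem P_of_PS {F : Type} [Field F] {φ : FreeLieAlgebra F ℕ} {d N l : ℕ} (h : PS F φ d N l) :
    P F φ d N l := by
  intro L _ _ K Q _ _ _ _ _ f hf hfd hd hs
  let Q1 : LieSubalgebra K Q :=
    { Submodule.span K (Set.range f) with
      lie_mem' := by
        intro x y hx hy
        change x ∈ Submodule.span K (Set.range f) at hx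
        change y ∈ Submodule.span K (Set.range f) at hy
        change ⁅x, y⁆ ∈ Submodule.span K (Set.range f)
        induction hx using Submodule.span_induction with
        | mem x hx =>
          obtain ⟨a, rfl⟩ := hx
          induction hy using Submodule.span_induction with
          | mem y hy =>
            obtain ⟨b, rfl⟩ := hy
            rw [← hf.lie]
            exact Submodule.subset_span ⟨_, rfl⟩
          | zero => rw [lie_zero]; exact Submodule.zero_mem _
          | add y z _ _ ihy ihz => rw [lie_add]; exact Submodule.add_mem _ ihy ihz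
          | smul c y _ ihy => rw [lie_smul]; exact Submodule.smul_mem _ _ ihy
        | zero => rw [zero_lie]; exact Submodule.zero_mem _
        | add x z _ _ ihx ihz => rw [add_lie]; exact Submodule.add_mem _ ihx ihz
        | smul c x _ ihx => rw [smul_lie]; exact Submodule.smul_mem _ _ ihx }
  let g : L → Q1 := fun x => ⟨f x, Submodule.subset_span ⟨x, rfl⟩⟩
  have hg : Emb F L K Q1 g :=
    { add := fun x y => Subtype.ext (hf.add x y)
      lie := fun x y => Subtype.ext (hf.lie x y)
      smul := fun c x => Subtype.ext (hf.smul c x)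
      inj := fun x hx => hf.inj x (congrArg Subtype.val hx) }
  have hfd1 : FiniteDimensional K Q1 :=
    inferInstanceAs (FiniteDimensional K (Submodule.span K (Set.range f)))
  refine h L K Q1 g hg hfd1 ?_ hs ?_
  · refine le_trans ?_ hd
    exact Submodule.finrank_le (Submodule.span K (Set.range f))
  · rw [eq_top_iff]
    rintro ⟨y, hy⟩ -
    change y ∈ Submodule.span K (Set.range f) at hy
    have key : ∀ (y : Q) (hy : y ∈ Submodule.span K (Set.range f)),
        (⟨y, hy⟩ : Q1) ∈ Submodule.span K (Set.range g) := by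
      intro y hy
      induction hy using Submodule.span_induction with
      | mem y hy =>
        obtain ⟨a, rfl⟩ := hy
        exact Submodule.subset_span ⟨a, rfl⟩
      | zero => exact Submodule.zero_mem _
      | add y z _ _ ihy ihz => exact Submodule.add_mem _ ihy ihz
      | smul c y _ ihy => exact Submodule.smul_mem _ c ihy
    exact key y hy

/-- the quotient by the preimage of an ideal -/
theorem emb_quot {F : Type} [Field F] {L : Type} [LieRing L] [LieAlgebra F L] {K Q : Type}
    [Field K] [Algebra F K] [LieRing Q] [LieAlgebra K Q] {f : L → Q} (hf : Emb F L K Q f)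
    (I : LieIdeal K Q) (M : LieIdeal F L) (hM : ∀ x, x ∈ M ↔ f x ∈ I) :
    ∃ g : L ⧸ M → Q ⧸ I, Emb F (L ⧸ M) K (Q ⧸ I) g := by
  have h0 : ∀ x y, mkHom M x = mkHom M y → qm I (f x) = qm I (f y) := by
    intro x y h
    have h1 : mkHom M (x - y) = 0 := by rw [map_sub, h, sub_self]
    rw [mkHom_eq_zero, hM, ← qm_ker, hf.sub, map_sub] at h1
    exact sub_eq_zero.1 h1
  let g : L ⧸ M → Q ⧸ I := fun y => qm I (f (Function.surjInv (mkHom_surjective M) y))
  have hg : ∀ x, g (mkHom M x) = qm I (f x) := fun x =>
    h0 _ _ (Function.surjInv_eq (mkHom_surjective M) (mkHom M x))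
  refine ⟨g, ?_, ?_, ?_, ?_⟩
  · intro y z
    obtain ⟨y, rfl⟩ := mkHom_surjective M y
    obtain ⟨z, rfl⟩ := mkHom_surjective M z
    rw [← map_add, hg, hg, hg, hf.add, map_add]
  · intro y z
    obtain ⟨y, rfl⟩ := mkHom_surjective M y
    obtain ⟨z, rfl⟩ := mkHom_surjective M z
    rw [← LieHom.map_lie, hg, hg, hg, hf.lie, LieHom.map_lie]
  · intro c y
    obtain ⟨y, rfl⟩ := mkHom_surjective M y
    rw [← map_smul, hg, hg, hf.smul, map_smul]
  · intro y hy
    obtain ⟨y, rfl⟩ := mkHom_surjective M y
    rw [hg, qm_ker, ← hM, ← mkHom_eq_zero] at hy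
    exact hy

/-- the preimage of an ideal -/
def pre {F : Type} [Field F] {L : Type} [LieRing L] [LieAlgebra F L] {K Q : Type}
    [Field K] [Algebra F K] [LieRing Q] [LieAlgebra K Q] {f : L → Q} (hf : Emb F L K Q f)
    (I : LieIdeal K Q) : LieIdeal F L where
  carrier := {x | f x ∈ I}
  zero_mem' := by
    show f 0 ∈ I
    rw [hf.zero]
    exact I.zero_mem
  add_mem' := by
    intro a b ha hb
    show f (a + b) ∈ I
    rw [hf.add]
    exact I.add_mem ha hb
  smul_mem' := by
    intro c a ha
    show f (c • a) ∈ I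
    rw [hf.smul]
    exact I.smul_mem _ ha
  lie_mem := by
    intro x a ha
    show f ⁅x, a⁆ ∈ I
    rw [hf.lie]
    exact I.lie_mem ha

theorem mem_pre {F : Type} [Field F] {L : Type} [LieRing L] [LieAlgebra F L] {K Q : Type}
    [Field K] [Algebra F K] [LieRing Q] [LieAlgebra K Q] {f : L → Q} (hf : Emb F L K Q f)
    (I : LieIdeal K Q) (x : L) : x ∈ pre hf I ↔ f x ∈ I := Iff.rfl

/-- the elements of `I` which commute with `I` -/
def cen {K Q : Type} [Field K] [LieRing Q] [LieAlgebra K Q] (I : LieIdeal K Q) :
    LieIdeal K Q where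
  carrier := {q | q ∈ I ∧ ∀ y ∈ I, ⁅q, y⁆ = 0}
  zero_mem' := ⟨I.zero_mem, fun y _ => zero_lie y⟩
  add_mem' := by
    rintro a b ⟨ha, ha'⟩ ⟨hb, hb'⟩
    exact ⟨I.add_mem ha hb, fun y hy => by rw [add_lie, ha' y hy, hb' y hy, add_zero]⟩
  smul_mem' := by
    rintro c a ⟨ha, ha'⟩
    exact ⟨I.smul_mem _ ha, fun y hy => by rw [smul_lie, ha' y hy, smul_zero]⟩
  lie_mem := by
    rintro p q ⟨hq, hq'⟩
    refine ⟨I.lie_mem hq, fun y hy => ?_⟩
    rw [lie_lie, hq' y hy, lie_zero, hq' _ (I.lie_mem hy), sub_zero]

/-- the action on an ideal -/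
def actM {F : Type} [Field F] {L : Type} [LieRing L] [LieAlgebra F L] (M₀ : LieIdeal F L) :
    L →ₗ[F] (M₀ →ₗ[F] M₀) where
  toFun x :=
    { toFun := fun m => ⁅x, m⁆
      map_add' := lie_add x
      map_smul' := fun t => lie_smul t x }
  map_add' x y := LinearMap.ext fun m => add_lie x y m
  map_smul' t x := LinearMap.ext fun m => smul_lie t x m

/-- the centralizer of an ideal -/
def cent {F : Type} [Field F] {L : Type} [LieRing L] [LieAlgebra F L] (M₀ : LieIdeal F L) :
    LieIdeal F L where
  carrier := {x | ∀ m ∈ M₀, ⁅x, m⁆ = 0}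
  zero_mem' := fun m _ => zero_lie m
  add_mem' := fun {a b} ha hb m hm => by rw [add_lie, ha m hm, hb m hm, add_zero]
  smul_mem' := fun c a ha m hm => by rw [smul_lie, ha m hm, smul_zero]
  lie_mem := by
    intro y x hx m hm
    rw [lie_lie, hx m hm, lie_zero, hx _ (M₀.lie_mem hm), sub_zero]

theorem mem_cent {F : Type} [Field F] {L : Type} [LieRing L] [LieAlgebra F L]
    (M₀ : LieIdeal F L) (x : L) : x ∈ cent M₀ ↔ ∀ m ∈ M₀, ⁅x, m⁆ = 0 := Iff.rfl

/-- `C ∩ M = 0` -/
theorem inter {F : Type} [Field F] {L : Type} [LieRing L] [LieAlgebra F L] {K Q : Type}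
    [Field K] [Algebra F K] [LieRing Q] [LieAlgebra K Q] {f : L → Q} (hf : Emb F L K Q f)
    (hsp : Submodule.span K (Set.range f) = ⊤) (I : LieIdeal K Q) (hI : IsAtom I)
    (hII : ⁅I, I⁆ ≠ ⊥) (M₀ : LieIdeal F L) (hM₀ : M₀ ≠ ⊥) (hM : ∀ m ∈ M₀, f m ∈ I) (x : L)
    (hx : f x ∈ I) (hxM : ∀ m ∈ M₀, ⁅x, m⁆ = 0) : x = 0 := by
  -- the span of the image of `M₀`
  let J : LieIdeal K Q :=
    { Submodule.span K (f '' (M₀ : Set L)) with
      lie_mem := by
        intro q y hy
        change y ∈ Submodule.span K (f '' (M₀ : Set L)) at hy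
        change ⁅q, y⁆ ∈ Submodule.span K (f '' (M₀ : Set L))
        have hq : q ∈ Submodule.span K (Set.range f) := by
          rw [hsp]
          exact Submodule.mem_top
        induction hq using Submodule.span_induction with
        | mem q hq =>
          obtain ⟨a, rfl⟩ := hq
          induction hy using Submodule.span_induction with
          | mem y hy =>
            obtain ⟨b, hb, rfl⟩ := hy
            rw [← hf.lie]
            exact Submodule.subset_span ⟨_, M₀.lie_mem hb, rfl⟩
          | zero => rw [lie_zero]; exact Submodule.zero_mem _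
          | add y z _ _ ihy ihz => rw [lie_add]; exact Submodule.add_mem _ ihy ihz
          | smul c y _ ihy => rw [lie_smul]; exact Submodule.smul_mem _ _ ihy
        | zero => rw [zero_lie]; exact Submodule.zero_mem _
        | add p z _ _ ihx ihz => rw [add_lie]; exact Submodule.add_mem _ ihx ihz
        | smul c p _ ihx => rw [smul_lie]; exact Submodule.smul_mem _ _ ihx }
  have hJmem : ∀ y, y ∈ J ↔ y ∈ Submodule.span K (f '' (M₀ : Set L)) := fun y => Iff.rfl
  have hJI : J ≤ I := by
    intro y hy
    rw [hJmem] at hy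
    induction hy using Submodule.span_induction with
    | mem y hy =>
      obtain ⟨b, hb, rfl⟩ := hy
      exact hM b hb
    | zero => exact I.zero_mem
    | add y z _ _ ihy ihz => exact I.add_mem ihy ihz
    | smul c y _ ihy => exact I.smul_mem _ ihy
  have hJ0 : J ≠ ⊥ := by
    intro h
    apply hM₀
    rw [LieSubmodule.eq_bot_iff]
    intro m hm
    apply hf.inj
    have h1 : f m ∈ J := Submodule.subset_span ⟨m, hm, rfl⟩
    rw [h] at h1
    exact (LieSubmodule.mem_bot _).1 h1
  have hJe : J = I := (hI.le_iff.1 hJI).resolve_left hJ0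
  -- `f x` commutes with `I`
  have hxI : ∀ y ∈ I, ⁅f x, y⁆ = 0 := by
    intro y hy
    rw [← hJe, hJmem] at hy
    induction hy using Submodule.span_induction with
    | mem y hy =>
      obtain ⟨b, hb, rfl⟩ := hy
      rw [← hf.lie, hxM b hb, hf.zero]
    | zero => exact lie_zero _
    | add y z _ _ ihy ihz => rw [lie_add, ihy, ihz, add_zero]
    | smul c y _ ihy => rw [lie_smul, ihy, smul_zero]
  have hZ : cen I = ⊥ ∨ cen I = I := hI.le_iff.1 fun q hq => hq.1
  rcases hZ with hZ | hZ
  · apply hf.inj
    have h1 : f x ∈ cen I := ⟨hx, hxI⟩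
    rw [hZ] at h1
    exact (LieSubmodule.mem_bot _).1 h1
  · exfalso
    apply hII
    rw [eq_bot_iff, LieSubmodule.lie_le_iff]
    intro a ha b hb
    rw [← hZ] at ha
    rw [LieSubmodule.mem_bot]
    exact ha.2 b hb

end FSM

open FSM in
theorem specFS (hFD : SpecFD) : SpecFS := by
  intro F _ _ φ D hD
  have main : ∀ d : ℕ, ∃ N l : ℕ, P F φ d N l := by
    intro d
    induction d with
    | zero =>
      refine ⟨0, 0, ?_⟩
      intro L _ _ K Q _ _ _ _ _ f hf hfd hd hs
      have h0 : ∀ x : L, x = 0 := by
        intro x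
        apply hf.inj
        have h1 : Module.finrank K Q = 0 := Nat.le_zero.1 hd
        have h2 := Module.finrank_zero_iff.1 h1
        exact Subsingleton.elim _ _
      have hsub : Subsingleton L := ⟨fun a b => (h0 a).trans (h0 b).symm⟩
      have hsub2 : Subsingleton (L ⧸ (⊥ : LieIdeal F L)) :=
        (mkHom_surjective (⊥ : LieIdeal F L)).subsingleton
      refine ⟨⊥, ?_, ?_, ?_⟩
      · exact Module.Finite.of_finite
      · exact (Module.finrank_zero_of_subsingleton (R := F) (M := L ⧸ (⊥ : LieIdeal F L))).le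
      · rfl
    | succ d ih =>
      obtain ⟨N, l, hP⟩ := ih
      refine ⟨N + (D * (d + 1)) * (D * (d + 1)), l + 1, P_of_PS ?_⟩
      intro L _ _ K Q _ _ _ _ _ f hf hfd hd hs hsp
      have hfinQ : Finite Q := Module.finite_of_finite K
      have hfinL : Finite L := Finite.of_injective f hf.injective
      have hfdL : FiniteDimensional F L := Module.Finite.of_finite
      rcases subsingleton_or_nontrivial Q with hQ | hQ
      · -- `L = 0`
        have h0 : ∀ x : L, x = 0 := fun x => hf.inj x (Subsingleton.elim _ _)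
        have hsub : Subsingleton L := ⟨fun a b => (h0 a).trans (h0 b).symm⟩
        have hsub2 : Subsingleton (L ⧸ (⊥ : LieIdeal F L)) :=
          (mkHom_surjective (⊥ : LieIdeal F L)).subsingleton
        refine ⟨⊥, inferInstance, ?_, ?_⟩
        · rw [Module.finrank_zero_of_subsingleton]
          exact Nat.zero_le _
        · rw [eq_bot_iff]
          exact LieAlgebra.derivedSeriesOfIdeal_le_self _ _
      · -- an atom
        have hfinI : Finite (LieIdeal K Q) :=
          Finite.of_injective (fun I : LieIdeal K Q => (I : Set Q)) SetLike.coe_injective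
        have htop : (⊤ : LieIdeal K Q) ≠ ⊥ := by
          intro h
          obtain ⟨q, hq⟩ := exists_ne (0 : Q)
          have h1 : q ∈ (⊤ : LieIdeal K Q) := LieSubmodule.mem_top q
          rw [h] at h1
          exact hq ((LieSubmodule.mem_bot _).1 h1)
        obtain ⟨I, hI, -⟩ := (IsAtomic.eq_bot_or_exists_atom_le (⊤ : LieIdeal K Q)).resolve_left htop
        obtain ⟨M, hMdef⟩ : ∃ M : LieIdeal F L, M = pre hf I := ⟨_, rfl⟩
        have hM : ∀ x, x ∈ M ↔ f x ∈ I := fun x => by rw [hMdef, mem_pre]
        obtain ⟨g, hg⟩ := emb_quot hf I M hM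
        -- the induction
        have hdim : Module.finrank K (Q ⧸ I) ≤ d := by
          have h1 : Module.finrank K (Q ⧸ I) + Module.finrank K I.toSubmodule =
            Module.finrank K Q := Submodule.finrank_quotient_add_finrank I.toSubmodule
          have h2 : 0 < Module.finrank K I.toSubmodule := by
            rw [Module.finrank_pos_iff]
            obtain ⟨y, hy, hy0⟩ : ∃ y ∈ I, y ≠ 0 := by
              by_contra h
              push Not at h
              exact hI.1 ((LieSubmodule.eq_bot_iff _).2 h)
            exact ⟨⟨y, hy⟩, 0, fun h => hy0 (congrArg Subtype.val h)⟩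
          omega
        obtain ⟨S', hS'1, hS'2, hS'3⟩ := hP (L ⧸ M) K (Q ⧸ I) g hg inferInstance hdim
          (hs.quotient M)
        -- the pull back of `S'`
        obtain ⟨S1, hS1def⟩ : ∃ S1 : LieIdeal F L, S1 = LieIdeal.comap (mkHom M) S' := ⟨_, rfl⟩
        have hS1 : ∀ x, x ∈ S1 ↔ mkHom M x ∈ S' := fun x => by rw [hS1def, LieIdeal.mem_comap]
        have hD1 : LieAlgebra.derivedSeriesOfIdeal F L l S1 ≤ M := by
          intro x hx
          have h1 := derived_comap (mkHom M) S1 S' (fun x hx => (hS1 x).1 hx) l x hx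
          rw [hS'3] at h1
          exact (mkHom_eq_zero M x).1 ((LieSubmodule.mem_bot _).1 h1)
        -- the map to `(L / M) / S'`
        let T1 : L →ₗ[F] (L ⧸ M) ⧸ S' :=
          ((mkHom S' : (L ⧸ M) →ₗ⁅F⁆ (L ⧸ M) ⧸ S') : (L ⧸ M) →ₗ[F] (L ⧸ M) ⧸ S').comp
            ((mkHom M : L →ₗ⁅F⁆ L ⧸ M) : L →ₗ[F] L ⧸ M)
        have hT1 : ∀ x, T1 x = 0 → x ∈ S1 := by
          intro x hx
          rw [hS1]
          exact (mkHom_eq_zero S' _).1 hx
        by_cases hII : ⁅I, I⁆ = ⊥
        · -- abelian
          refine ⟨S1, inferInstance, ?_, ?_⟩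
          · exact (codim_le S1 T1 hT1).trans (hS'2.trans (Nat.le_add_right _ _))
          · rw [LieAlgebra.derivedSeriesOfIdeal_succ, eq_bot_iff]
            refine (LieSubmodule.mono_lie hD1 hD1).trans ?_
            rw [LieSubmodule.lie_le_iff]
            intro a ha b hb
            rw [LieSubmodule.mem_bot]
            apply hf.inj
            rw [hf.lie]
            have h1 : ⁅f a, f b⁆ ∈ ⁅I, I⁆ :=
              LieSubmodule.lie_mem_lie ((hM a).1 ha) ((hM b).1 hb)
            rw [hII] at h1
            exact (LieSubmodule.mem_bot _).1 h1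
        · by_cases hM0 : M = ⊥
          · refine ⟨S1, inferInstance, ?_, ?_⟩
            · exact (codim_le S1 T1 hT1).trans (hS'2.trans (Nat.le_add_right _ _))
            · rw [eq_bot_iff, ← hM0]
              refine le_trans ?_ hD1
              exact LieAlgebra.derivedSeriesOfIdeal_le le_rfl (Nat.le_succ l)
          · -- the main case
            have hfinIL : Finite (LieIdeal F L) :=
              Finite.of_injective (fun I : LieIdeal F L => (I : Set L)) SetLike.coe_injective
            obtain ⟨M₀, hM₀, hM₀M⟩ := (IsAtomic.eq_bot_or_exists_atom_le M).resolve_left hM0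
            have hM₀I : ∀ m ∈ M₀, f m ∈ I := fun m hm => (hM m).1 (hM₀M hm)
            have hfr : Module.finrank F M₀ ≤ D * (d + 1) := by
              letI : LieAlgebra F Q := resLie F K Q
              haveI : IsScalarTower F K Q := ⟨fun a b x => by
                rw [Algebra.smul_def, mul_smul]
                rfl⟩
              let π : L →ₗ⁅F⁆ Q :=
                { toFun := f
                  map_add' := hf.add
                  map_smul' := hf.smul
                  map_lie' := hf.lie _ _ }
              refine (hFD F φ D hD L K Q π hf.injective hfd hs hsp M₀ I hM₀ hI hM₀I hII).trans ?_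
              exact Nat.mul_le_mul_left _ hd
            obtain ⟨C, hCdef⟩ : ∃ C : LieIdeal F L, C = cent M₀ := ⟨_, rfl⟩
            have hC : ∀ x : L, actM M₀ x = 0 → x ∈ C := by
              intro x hx
              rw [hCdef, mem_cent]
              intro m hm
              exact congrArg Subtype.val (LinearMap.congr_fun hx ⟨m, hm⟩)
            have hC' : ∀ x ∈ C, ∀ m ∈ M₀, ⁅x, m⁆ = 0 := by
              intro x hx
              rw [hCdef, mem_cent] at hx
              exact hx
            refine ⟨S1 ⊓ C, inferInstance, ?_, ?_⟩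
            · refine (codim_le (S1 ⊓ C) (T1.prod (actM M₀)) ?_).trans ?_
              · intro x hx
                have h1 : T1 x = 0 := congrArg Prod.fst hx
                have h2 : actM M₀ x = 0 := congrArg Prod.snd hx
                exact (LieSubmodule.mem_inf _ _ _).2 ⟨hT1 x h1, hC x h2⟩
              · rw [Module.finrank_prod]
                refine Nat.add_le_add hS'2 ?_
                rw [Module.finrank_linearMap]
                exact Nat.mul_le_mul hfr hfr
            · rw [eq_bot_iff]
              intro x hx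
              rw [LieSubmodule.mem_bot]
              have h1 : x ∈ LieAlgebra.derivedSeriesOfIdeal F L l S1 :=
                LieAlgebra.derivedSeriesOfIdeal_le inf_le_left (Nat.le_succ l) hx
              have h2 : x ∈ C := by
                have h3 := LieAlgebra.derivedSeriesOfIdeal_le_self (S1 ⊓ C) (l + 1) hx
                exact ((LieSubmodule.mem_inf _ _ _).1 h3).2
              exact inter hf hsp I hI hII M₀ hM₀.1 hM₀I x ((hM x).1 (hD1 h1)) fun m hm => hC' x h2 m hm
  intro d
  obtain ⟨N, l, hP⟩ := main d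
  refine ⟨N, l, ?_⟩
  intro L _ _ K Q _ _ _ _ _ _ _ π hπ hfd hd hs
  refine hP L K Q π ⟨map_add π, fun x y => LieHom.map_lie π x y, fun c x => ?_, fun x hx => ?_⟩
    hfd hd hs
  · rw [map_smul, algebraMap_smul]
  · exact hπ (hx.trans (map_zero π).symm)

end Pool.Agent.Lib.MP_8f946f_al.CP
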