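import Mathlib

/-!
# Full exchange: the combinatorial part
-/

set_option autoImplicit false

namespace Pool.Agent.Lib.MP_8f946f_al.CP

namespace FULLM

open Finset Equiv

/-- A function whose sums over all the cosets of a subgroup vanish has vanishing sums over the
unions of cosets. -/
theorem sum_inv {G H V : Type} [Group G] [DecidableEq G] [Group H] [Fintype H] [AddCommGroup V]
    (f : H →* G) (hf : Function.Injective f) (N : G → V) (hN : ∀ ρ, ∑ h, N (ρ * f h) = 0) :
    ∀ A : Finset G, (∀ π h, π ∈ A → π * f h ∈ A) → ∑ π ∈ A, N π = 0 := by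
  intro A
  induction A using Finset.strongInduction with
  | H A ih =>
    intro hA
    rcases A.eq_empty_or_nonempty with rfl | ⟨ρ, hρ⟩
    · simp
    · have hOA : (Finset.univ.image fun h => ρ * f h) ⊆ A := by
        intro π hπ
        obtain ⟨h, -, rfl⟩ := Finset.mem_image.1 hπ
        exact hA ρ h hρ
      have hsum : ∑ π ∈ (Finset.univ.image fun h => ρ * f h), N π = 0 := by
        rw [Finset.sum_image]
        · exact hN ρ
        · intro h _ h' _ hh
          exact hf (mul_left_cancel hh)
      rw [← Finset.sum_sdiff hOA, hsum, add_zero]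
      refine ih (A \ (Finset.univ.image fun h => ρ * f h)) ?_ ?_
      · refine Finset.sdiff_ssubset hOA ?_
        exact ⟨ρ, Finset.mem_image.2 ⟨1, Finset.mem_univ _, by rw [map_one, mul_one]⟩⟩
      · intro π h hπ
        rw [Finset.mem_sdiff] at hπ ⊢
        refine ⟨hA π h hπ.1, fun hmem => hπ.2 ?_⟩
        obtain ⟨h', -, hh'⟩ := Finset.mem_image.1 hmem
        refine Finset.mem_image.2 ⟨h' * h⁻¹, Finset.mem_univ _, ?_⟩
        rw [map_mul, map_inv, ← mul_assoc, hh', mul_inv_cancel_right]

variable {d : ℕ}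

/-- the variables on the right which stay in places on the right -/
def W (π : Perm (Fin d ⊕ Fin d)) : Finset (Fin d) :=
  Finset.univ.filter fun t => ∃ s, π.symm (Sum.inr t) = Sum.inr s

/-- the places on the right occupied by the variables of `T` -/
def R (T : Finset (Fin d)) (π : Perm (Fin d ⊕ Fin d)) : Finset (Fin d) :=
  Finset.univ.filter fun s => ∃ t ∈ T, π (Sum.inr s) = Sum.inr t

theorem card_R (T : Finset (Fin d)) (π : Perm (Fin d ⊕ Fin d)) : (R T π).card ≤ T.card := by
  classical
  have h1 : ∀ s ∈ R T π, ∃ t ∈ T, π (Sum.inr s) = Sum.inr t := fun s hs => by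
    simpa [R] using hs
  choose! t ht ht' using h1
  refine Finset.card_le_card_of_injOn t (fun s hs => ht s hs) ?_
  intro s hs s' hs' h
  have h2 : π (Sum.inr s) = π (Sum.inr s') := by
    rw [ht' s hs, ht' s' hs', h]
  exact Sum.inr_injective (π.injective h2)

/-- the sum over the permutations which keep the variables of `T` on the right vanishes -/
theorem sum_T {V : Type} [AddCommGroup V] (N : Perm (Fin d ⊕ Fin d) → V)
    (hN : ∀ j : Fin d, ∃ f : Perm (Fin (d + 1)) →* Perm (Fin d ⊕ Fin d), Function.Injective f ∧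
      (∀ h k, k ≠ j → f h (Sum.inr k) = Sum.inr k) ∧ ∀ ρ, ∑ h, N (ρ * f h) = 0)
    (T : Finset (Fin d)) (hT : T ≠ Finset.univ) :
    ∑ π ∈ Finset.univ.filter (fun π => T ⊆ W π), N π = 0 := by
  classical
  rw [← Finset.sum_fiberwise (Finset.univ.filter (fun π => T ⊆ W π)) (R T) N]
  refine Finset.sum_eq_zero fun Q _ => ?_
  by_cases hQ : ∃ π, R T π = Q
  · have hc : Q.card < d := by
      obtain ⟨π, rfl⟩ := hQ
      refine lt_of_le_of_lt (card_R T π) ?_
      have h1 := Finset.card_lt_univ_of_notMem (s := T)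
        (x := (Classical.choose (by
          by_contra hcon
          push Not at hcon
          exact hT (Finset.eq_univ_of_forall hcon) : ∃ x, x ∉ T)))
        (Classical.choose_spec (by
          by_contra hcon
          push Not at hcon
          exact hT (Finset.eq_univ_of_forall hcon) : ∃ x, x ∉ T))
      rwa [Fintype.card_fin] at h1
    obtain ⟨j, hj⟩ : ∃ j, j ∉ Q := by
      by_contra hcon
      push Not at hcon
      rw [Finset.eq_univ_of_forall hcon, Finset.card_univ, Fintype.card_fin] at hc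
      exact lt_irrefl _ hc
    obtain ⟨f, hf, hfix, hsum⟩ := hN j
    refine sum_inv f hf N hsum _ ?_
    intro π h hπ
    rw [Finset.mem_filter, Finset.mem_filter] at hπ ⊢
    obtain ⟨⟨-, h1⟩, h2⟩ := hπ
    have key : ∀ t ∈ T, ∃ s ∈ Q, (π * f h) (Sum.inr s) = Sum.inr t ∧ π (Sum.inr s) = Sum.inr t := by
      intro t ht
      have h3 := h1 ht
      rw [W, Finset.mem_filter] at h3
      obtain ⟨-, s, hs⟩ := h3
      have hs' : π (Sum.inr s) = Sum.inr t := by
        rw [← hs, Equiv.apply_symm_apply]
      have hsQ : s ∈ Q := by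
        rw [← h2, R, Finset.mem_filter]
        exact ⟨Finset.mem_univ _, t, ht, hs'⟩
      refine ⟨s, hsQ, ?_, hs'⟩
      rw [Perm.mul_apply, hfix h s (fun hsj => hj (hsj ▸ hsQ)), hs']
    refine ⟨⟨Finset.mem_univ _, ?_⟩, ?_⟩
    · intro t ht
      obtain ⟨s, -, hs, -⟩ := key t ht
      rw [W, Finset.mem_filter]
      refine ⟨Finset.mem_univ _, s, ?_⟩
      rw [← hs, Equiv.symm_apply_apply]
    · ext s
      rw [R, Finset.mem_filter]
      constructor
      · rintro ⟨-, t, ht, hst⟩
        obtain ⟨s', hs', hs1, -⟩ := key t ht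
        have h4 := (π * f h).injective (hst.trans hs1.symm)
        rw [Sum.inr_injective h4]
        exact hs'
      · intro hs
        refine ⟨Finset.mem_univ _, ?_⟩
        rw [← h2, R, Finset.mem_filter] at hs
        obtain ⟨-, t, ht, hst⟩ := hs
        obtain ⟨s', hs', hs1, hs2⟩ := key t ht
        have h4 := π.injective (hst.trans hs2.symm)
        rw [Sum.inr_injective h4]
        exact ⟨t, ht, hs1⟩
  · refine Finset.sum_eq_zero fun π hπ => ?_
    rw [Finset.mem_filter] at hπ
    exact absurd ⟨π, hπ.2⟩ hQ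

/-- inclusion and exclusion -/
theorem sum_W {V : Type} [AddCommGroup V] (N : Perm (Fin d ⊕ Fin d) → V)
    (hN : ∀ j : Fin d, ∃ f : Perm (Fin (d + 1)) →* Perm (Fin d ⊕ Fin d), Function.Injective f ∧
      (∀ h k, k ≠ j → f h (Sum.inr k) = Sum.inr k) ∧ ∀ ρ, ∑ h, N (ρ * f h) = 0) :
    ∑ π ∈ Finset.univ.filter (fun π => W π = ∅), N π =
      ((-1 : ℤ) ^ d) • ∑ π ∈ Finset.univ.filter (fun π => W π = Finset.univ), N π := by
  classical
  have h1 : ∑ T : Finset (Fin d), ((-1 : ℤ) ^ T.card) •
      ∑ π ∈ Finset.univ.filter (fun π => T ⊆ W π), N π =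
      ∑ π ∈ Finset.univ.filter (fun π : Perm (Fin d ⊕ Fin d) => W π = ∅), N π := by
    have e1 : ∀ T : Finset (Fin d), ((-1 : ℤ) ^ T.card) •
        ∑ π ∈ Finset.univ.filter (fun π => T ⊆ W π), N π =
        ∑ π : Perm (Fin d ⊕ Fin d), if T ⊆ W π then ((-1 : ℤ) ^ T.card) • N π else 0 := by
      intro T
      rw [Finset.smul_sum, Finset.sum_filter]
    rw [Finset.sum_congr rfl fun T _ => e1 T, Finset.sum_comm, Finset.sum_filter]
    refine Finset.sum_congr rfl fun π _ => ?_
    rw [← Finset.sum_filter]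
    have e2 : (Finset.univ.filter fun T : Finset (Fin d) => T ⊆ W π) = (W π).powerset := by
      ext T
      simp
    rw [e2, ← Finset.sum_smul, Finset.sum_powerset_neg_one_pow_card]
    split_ifs
    · rw [one_smul]
    · rw [zero_smul]
  rw [← h1, Finset.sum_eq_single Finset.univ]
  · rw [Finset.card_univ, Fintype.card_fin]
    congr 1
    refine Finset.sum_congr ?_ fun _ _ => rfl
    ext π
    rw [Finset.mem_filter, Finset.mem_filter, Finset.univ_subset_iff]
  · intro T _ hT
    rw [sum_T N hN T hT, smul_zero]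
  · intro h
    exact absurd (Finset.mem_univ _) h

/-- permutations which keep the variables on the right -/
theorem W_univ (π : Perm (Fin d ⊕ Fin d)) :
    W π = Finset.univ ↔ π ∈ (Perm.sumCongrHom (Fin d) (Fin d)).range := by
  constructor
  · intro h
    have h1 : ∀ t, ∃ s, π.symm (Sum.inr t) = Sum.inr s := by
      intro t
      have h2 : t ∈ W π := by
        rw [h]
        exact Finset.mem_univ _
      rw [W, Finset.mem_filter] at h2
      exact h2.2
    choose s hs using h1
    have hinj : Function.Injective s := by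
      intro t t' htt
      have h3 : π.symm (Sum.inr t) = π.symm (Sum.inr t') := by
        rw [hs, hs, htt]
      exact Sum.inr_injective (π.symm.injective h3)
    have hsurj := Finite.surjective_of_injective hinj
    refine Perm.mem_sumCongrHom_range_of_perm_mapsTo_inl ?_
    rintro _ ⟨a, rfl⟩
    rcases hb : π (Sum.inl a) with b | b
    · exact ⟨b, rfl⟩
    · exfalso
      have h4 := hs b
      rw [← hb, Equiv.symm_apply_apply] at h4
      exact Sum.inl_ne_inr h4
  · rintro ⟨⟨σ, τ⟩, rfl⟩
    refine Finset.eq_univ_of_forall fun t => ?_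
    rw [W, Finset.mem_filter]
    exact ⟨Finset.mem_univ _, τ.symm t, rfl⟩

/-- the exchange of the two sides -/
def sw (d : ℕ) : Perm (Fin d ⊕ Fin d) := Equiv.sumComm (Fin d) (Fin d)

theorem sign_sw (d : ℕ) : (Perm.sign (sw d) : ℤ) = (-1) ^ d := by
  have h1 : sw d = (Equiv.boolProdEquivSum (Fin d)).permCongr
      (Equiv.prodCongrLeft fun _ : Fin d => Equiv.swap false true) := by
    refine Equiv.ext fun x => ?_
    rcases x with x | x
    · simp [sw, Equiv.permCongr_apply, Equiv.boolProdEquivSum, Equiv.prodCongrLeft]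
    · simp [sw, Equiv.permCongr_apply, Equiv.boolProdEquivSum, Equiv.prodCongrLeft]
  rw [h1, Perm.sign_permCongr, Perm.sign_prodCongrLeft]
  simp

theorem W_empty (π : Perm (Fin d ⊕ Fin d)) : W π = ∅ ↔ W (sw d * π) = Finset.univ := by
  have h1 : ∀ t : Fin d, (sw d * π).symm (Sum.inr t) = π.symm (Sum.inl t) := fun t => rfl
  constructor
  · intro h
    have h2 : ∀ t, ∃ s, π.symm (Sum.inr t) = Sum.inl s := by
      intro t
      rcases hb : π.symm (Sum.inr t) with b | b
      · exact ⟨b, rfl⟩
      · exfalso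
        have h3 : t ∈ W π := by
          rw [W, Finset.mem_filter]
          exact ⟨Finset.mem_univ _, b, hb⟩
        rw [h] at h3
        exact absurd h3 (Finset.notMem_empty _)
    choose s hs using h2
    have hinj : Function.Injective s := by
      intro t t' htt
      have h3 : π.symm (Sum.inr t) = π.symm (Sum.inr t') := by
        rw [hs, hs, htt]
      exact Sum.inr_injective (π.symm.injective h3)
    have hsurj := Finite.surjective_of_injective hinj
    refine Finset.eq_univ_of_forall fun t => ?_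
    rw [W, Finset.mem_filter]
    refine ⟨Finset.mem_univ _, ?_⟩
    rw [h1]
    rcases hb : π.symm (Sum.inl t) with b | b
    · exfalso
      obtain ⟨t', rfl⟩ := hsurj b
      rw [← hs t'] at hb
      exact Sum.inl_ne_inr (π.symm.injective hb)
    · exact ⟨b, rfl⟩
  · intro h
    have h2 : ∀ t, ∃ s, π.symm (Sum.inl t) = Sum.inr s := by
      intro t
      have h2 : t ∈ W (sw d * π) := by
        rw [h]
        exact Finset.mem_univ _
      rw [W, Finset.mem_filter, h1] at h2
      exact h2.2
    choose s hs using h2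
    have hinj : Function.Injective s := by
      intro t t' htt
      have h3 : π.symm (Sum.inl t) = π.symm (Sum.inl t') := by
        rw [hs, hs, htt]
      exact Sum.inl_injective (π.symm.injective h3)
    have hsurj := Finite.surjective_of_injective hinj
    refine Finset.eq_empty_of_forall_notMem fun t ht => ?_
    rw [W, Finset.mem_filter] at ht
    obtain ⟨-, b, hb⟩ := ht
    obtain ⟨t', rfl⟩ := hsurj b
    rw [← hs t'] at hb
    exact Sum.inl_ne_inr (π.symm.injective hb).symm

/-- the abstract form of the full exchange -/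
theorem abstract {V X : Type} [AddCommGroup V] (M : (Fin d ⊕ Fin d → X) → V)
    (hM : ∀ j : Fin d, ∃ f : Perm (Fin (d + 1)) →* Perm (Fin d ⊕ Fin d), Function.Injective f ∧
      (∀ h k, k ≠ j → f h (Sum.inr k) = Sum.inr k) ∧ (∀ h, Perm.sign (f h) = Perm.sign h) ∧
      ∀ z : Fin d ⊕ Fin d → X, ∑ h, (Perm.sign h : ℤ) • M (fun i => z (f h i)) = 0)
    (x y : Fin d → X) :
    ∑ σ : Perm (Fin d), ∑ τ : Perm (Fin d), ((Perm.sign σ : ℤ) * Perm.sign τ) •
        M (Sum.elim (fun i => x (σ i)) fun i => y (τ i)) =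
      ∑ σ : Perm (Fin d), ∑ τ : Perm (Fin d), ((Perm.sign σ : ℤ) * Perm.sign τ) •
        M (Sum.elim (fun i => y (σ i)) fun i => x (τ i)) := by
  classical
  set N : Perm (Fin d ⊕ Fin d) → V := fun π =>
    (Perm.sign π : ℤ) • M (fun i => Sum.elim x y (π i)) with hNdef
  have hN : ∀ j : Fin d, ∃ f : Perm (Fin (d + 1)) →* Perm (Fin d ⊕ Fin d), Function.Injective f ∧
      (∀ h k, k ≠ j → f h (Sum.inr k) = Sum.inr k) ∧ ∀ ρ, ∑ h, N (ρ * f h) = 0 := by
    intro j
    obtain ⟨f, h1, h2, h3, h4⟩ := hM j
    refine ⟨f, h1, h2, fun ρ => ?_⟩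
    have h5 : ∀ h, N (ρ * f h) = (Perm.sign ρ : ℤ) • ((Perm.sign h : ℤ) •
        M (fun i => Sum.elim x y (ρ (f h i)))) := by
      intro h
      simp only [hNdef]
      rw [Perm.sign_mul, h3, smul_smul]
      push_cast
      rfl
    rw [Finset.sum_congr rfl fun h _ => h5 h, ← Finset.smul_sum,
      h4 (fun i => Sum.elim x y (ρ i)), smul_zero]
  have hmain := sum_W N hN
  -- the right hand side
  have hA : ∑ π ∈ Finset.univ.filter (fun π => W π = Finset.univ), N π =
      ∑ p : Perm (Fin d) × Perm (Fin d), N (Perm.sumCongrHom (Fin d) (Fin d) p) := by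
    have e : (Finset.univ.filter fun π : Perm (Fin d ⊕ Fin d) => W π = Finset.univ) =
        Finset.univ.image (Perm.sumCongrHom (Fin d) (Fin d)) := by
      ext π
      rw [Finset.mem_filter, W_univ, Finset.mem_image, MonoidHom.mem_range]
      simp
    rw [e, Finset.sum_image]
    intro a _ b _ h
    exact Perm.sumCongrHom_injective h
  have hB : ∑ π ∈ Finset.univ.filter (fun π => W π = ∅), N π =
      ∑ p : Perm (Fin d) × Perm (Fin d), N ((sw d)⁻¹ * Perm.sumCongrHom (Fin d) (Fin d) p) := by
    have e : (Finset.univ.filter fun π : Perm (Fin d ⊕ Fin d) => W π = ∅) =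
        Finset.univ.image (fun p => (sw d)⁻¹ * Perm.sumCongrHom (Fin d) (Fin d) p) := by
      ext π
      rw [Finset.mem_filter, W_empty, W_univ, Finset.mem_image, MonoidHom.mem_range]
      constructor
      · rintro ⟨-, p, hp⟩
        exact ⟨p, Finset.mem_univ _, by rw [hp, inv_mul_cancel_left]⟩
      · rintro ⟨p, -, hp⟩
        exact ⟨Finset.mem_univ _, p, by rw [← hp, mul_inv_cancel_left]⟩
    rw [e, Finset.sum_image]
    intro a _ b _ h
    exact Perm.sumCongrHom_injective (mul_left_cancel h)
  rw [hA, hB, Fintype.sum_prod_type, Fintype.sum_prod_type] at hmain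
  have hA2 : ∀ σ τ : Perm (Fin d), N (Perm.sumCongrHom (Fin d) (Fin d) (σ, τ)) =
      ((Perm.sign σ : ℤ) * Perm.sign τ) • M (Sum.elim (fun i => x (σ i)) fun i => y (τ i)) := by
    intro σ τ
    simp only [hNdef]
    have e1 : (Perm.sign (Perm.sumCongrHom (Fin d) (Fin d) (σ, τ)) : ℤ) =
        (Perm.sign σ : ℤ) * Perm.sign τ := by
      rw [Perm.sumCongrHom_apply, Perm.sign_sumCongr]
      push_cast
      rfl
    rw [e1]
    congr 2
    funext i
    rcases i with i | i <;> rfl
  have hB2 : ∀ σ τ : Perm (Fin d), N ((sw d)⁻¹ * Perm.sumCongrHom (Fin d) (Fin d) (σ, τ)) =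
      ((-1 : ℤ) ^ d) • (((Perm.sign σ : ℤ) * Perm.sign τ) •
        M (Sum.elim (fun i => y (σ i)) fun i => x (τ i))) := by
    intro σ τ
    simp only [hNdef]
    have e1 : (Perm.sign ((sw d)⁻¹ * Perm.sumCongrHom (Fin d) (Fin d) (σ, τ)) : ℤ) =
        ((-1 : ℤ) ^ d) * ((Perm.sign σ : ℤ) * Perm.sign τ) := by
      rw [Perm.sign_mul, Perm.sign_inv, Perm.sumCongrHom_apply, Perm.sign_sumCongr]
      push_cast
      rw [sign_sw]
    rw [e1, ← smul_smul]
    congr 3
    funext i
    rcases i with i | i <;> rfl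
  rw [Finset.sum_congr rfl fun σ _ => Finset.sum_congr rfl fun τ _ => hA2 σ τ,
    Finset.sum_congr rfl fun σ _ => Finset.sum_congr rfl fun τ _ => hB2 σ τ] at hmain
  simp only [← Finset.smul_sum] at hmain
  have hunit : ((-1 : ℤ) ^ d) * ((-1 : ℤ) ^ d) = 1 := by
    rw [← mul_pow]
    norm_num
  have h6 := congrArg (fun v => ((-1 : ℤ) ^ d) • v) hmain
  simp only [smul_smul, hunit, one_smul] at h6
  exact h6.symm

end FULLM

end Pool.Agent.Lib.MP_8f946f_al.CP
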