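import Pool.Agent.Lib.MP_8f946f_al.CP.SpecR
import Pool.Agent.Lib.MP_8f946f_al.CP.CR
import Pool.Agent.Lib.MP_8f946f_al.CP.FULLA

/-!
# Full exchange for Capelli values
-/

set_option autoImplicit false

namespace Pool.Agent.Lib.MP_8f946f_al.CP

namespace FULLM

open Finset Equiv

variable {L : Type} [LieRing L] {F : Type} [Field F] [LieAlgebra F L]

/-- the `d + 1` places: the `j`-th on the right and all places on the left -/
def eps {d : ℕ} (j : Fin d) : Fin (d + 1) → Fin d ⊕ Fin d :=
  Fin.cases (Sum.inr j) Sum.inl

theorem eps_injective {d : ℕ} (j : Fin d) : Function.Injective (eps j) := by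
  intro a b h
  induction a using Fin.cases with
  | zero =>
    induction b using Fin.cases with
    | zero => rfl
    | succ b => exact absurd h Sum.inr_ne_inl
  | succ a =>
    induction b using Fin.cases with
    | zero => exact absurd h Sum.inl_ne_inr
    | succ b =>
      have h1 : (Sum.inl a : Fin d ⊕ Fin d) = Sum.inl b := h
      rw [Sum.inl_injective h1]

/-- the full exchange for products of `ad`s -/
theorem full_closure {d : ℕ} (hC : Capelli (d + 1) L) (φ ψ : (Fin d → L) → L)
    (hφ : LieMon L Finset.univ φ) (hψ : LieMon L Finset.univ ψ) (g h : Module.End F L)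
    (hg : g ∈ Submonoid.closure (Set.range fun y : L => LieAlgebra.ad F L y))
    (hh : h ∈ Submonoid.closure (Set.range fun y : L => LieAlgebra.ad F L y))
    (x y : Fin d → L) : ⁅g (alt φ x), h (alt ψ y)⁆ = ⁅g (alt φ y), h (alt ψ x)⁆ := by
  classical
  have key := abstract (V := L) (X := L)
    (fun z : Fin d ⊕ Fin d → L => ⁅g (φ fun k => z (Sum.inl k)), h (ψ fun k => z (Sum.inr k))⁆)
    ?_ x y
  · have e : ∀ x y : Fin d → L, ⁅g (alt φ x), h (alt ψ y)⁆ =
        ∑ σ : Perm (Fin d), ∑ τ : Perm (Fin d), ((Perm.sign σ : ℤ) * Perm.sign τ) •
          ⁅g (φ fun k => x (σ k)), h (ψ fun k => y (τ k))⁆ := by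
      intro x y
      unfold alt
      rw [map_sum, map_sum, sum_lie]
      refine Finset.sum_congr rfl fun σ _ => ?_
      rw [lie_sum]
      refine Finset.sum_congr rfl fun τ _ => ?_
      rw [map_zsmul, map_zsmul, zsmul_lie, lie_zsmul, smul_smul]
    rw [e, e]
    exact key
  · intro j
    let e : Fin (d + 1) ≃ {i // i ∈ Set.range (eps j)} :=
      Equiv.ofInjective (eps j) (eps_injective j)
    have he : ∀ a, ((e a : {i // i ∈ Set.range (eps j)}) : Fin d ⊕ Fin d) = eps j a :=
      fun a => rfl
    refine ⟨Perm.extendDomainHom e, Perm.extendDomainHom_injective e, ?_, ?_, ?_⟩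
    · intro σ k hk
      refine Perm.extendDomain_apply_not_subtype σ e ?_
      rintro ⟨a, ha⟩
      induction a using Fin.cases with
      | zero => exact hk (Sum.inr_injective ha).symm
      | succ a => exact Sum.inl_ne_inr ha
    · intro σ
      exact Perm.sign_extendDomain σ e
    · intro z
      -- the monomial in `d + 1` variables
      have h1 : LieMon L (Finset.univ.biUnion fun k : Fin d => ({k.succ} : Finset (Fin (d + 1))))
          (fun v : Fin (d + 1) → L => φ (fun k => v k.succ)) := by
        refine CRM.subst (fun (k : Fin d) (v : Fin (d + 1) → L) => v k.succ) (fun k => {k.succ})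
          (fun k => LieMon.var k.succ) ?_ hφ
        intro k k' hk
        rw [Finset.disjoint_singleton]
        exact fun h => hk (Fin.succ_injective _ h)
      have h2 : LieMon L ({0} : Finset (Fin (d + 1)))
          (fun v : Fin (d + 1) → L => ψ (fun k => if k = j then v 0 else z (Sum.inr k))) := by
        have h3 := CRM.subst (n := d + 1)
          (fun (k : Fin d) (v : Fin (d + 1) → L) => if k = j then v 0 else z (Sum.inr k))
          (fun k => if k = j then ({0} : Finset (Fin (d + 1))) else ∅) ?_ ?_ hψ
        · have h4 : (Finset.univ.biUnion fun k : Fin d =>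
              if k = j then ({0} : Finset (Fin (d + 1))) else ∅) = {0} := by
            ext a
            rw [Finset.mem_biUnion]
            constructor
            · rintro ⟨k, -, hk⟩
              split_ifs at hk with h
              · exact hk
              · exact absurd hk (Finset.notMem_empty _)
            · intro ha
              exact ⟨j, Finset.mem_univ _, by rw [if_pos rfl]; exact ha⟩
          rw [h4] at h3
          exact h3
        · intro k
          by_cases hk : k = j
          · simp only [if_pos hk]
            exact LieMon.var 0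
          · simp only [if_neg hk]
            exact LieMon.const _
        · intro k k' hkk
          by_cases hk : k = j
          · have hk' : k' ≠ j := fun h => hkk (hk.trans h.symm)
            rw [if_neg hk']
            exact Finset.disjoint_empty_right _
          · rw [if_neg hk]
            exact Finset.disjoint_empty_left _
      have h3 : Disjoint (Finset.univ.biUnion fun k : Fin d => ({k.succ} : Finset (Fin (d + 1))))
          ({0} : Finset (Fin (d + 1))) := by
        rw [Finset.disjoint_singleton_right, Finset.mem_biUnion]
        rintro ⟨k, -, hk⟩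
        exact Fin.succ_ne_zero k (Finset.mem_singleton.1 hk).symm
      have h4 := LieMon.br (CRM.clos g hg _ h1) (CRM.clos h hh _ h2) h3
      have h5 : (Finset.univ.biUnion fun k : Fin d => ({k.succ} : Finset (Fin (d + 1)))) ∪
          ({0} : Finset (Fin (d + 1))) = Finset.univ := by
        refine Finset.eq_univ_of_forall fun k => ?_
        rw [Finset.mem_union]
        rcases Fin.eq_zero_or_eq_succ k with rfl | ⟨j, rfl⟩
        · exact Or.inr (Finset.mem_singleton_self _)
        · exact Or.inl (Finset.mem_biUnion.2 ⟨j, Finset.mem_univ _, Finset.mem_singleton_self _⟩)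
      rw [h5] at h4
      have h6 := hC _ h4 (fun a => z (eps j a))
      rw [← h6]
      refine Finset.sum_congr rfl fun σ _ => ?_
      have hl : ∀ k : Fin d, Perm.extendDomainHom e σ (Sum.inl k) = eps j (σ k.succ) := by
        intro k
        exact Perm.extendDomain_apply_image σ e k.succ
      have hr : Perm.extendDomainHom e σ (Sum.inr j) = eps j (σ 0) :=
        Perm.extendDomain_apply_image σ e 0
      have hr' : ∀ k : Fin d, k ≠ j → Perm.extendDomainHom e σ (Sum.inr k) = Sum.inr k := by
        intro k hk
        refine Perm.extendDomain_apply_not_subtype σ e ?_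
        rintro ⟨a, ha⟩
        induction a using Fin.cases with
        | zero => exact hk (Sum.inr_injective ha).symm
        | succ a => exact Sum.inl_ne_inr ha
      have a1 : (fun k : Fin d => z (Perm.extendDomainHom e σ (Sum.inl k))) =
          fun k => z (eps j (σ k.succ)) := by
        funext k
        rw [hl]
      have a2 : (fun k : Fin d => z (Perm.extendDomainHom e σ (Sum.inr k))) =
          fun k => if k = j then z (eps j (σ 0)) else z (Sum.inr k) := by
        funext k
        by_cases hk : k = j
        · rw [if_pos hk, hk, hr]
        · rw [if_neg hk, hr' k hk]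
      rw [a1, a2]

/-- the full exchange -/
theorem full {d : ℕ} (hC : Capelli (d + 1) L) (φ ψ : (Fin d → L) → L)
    (hφ : LieMon L Finset.univ φ) (hψ : LieMon L Finset.univ ψ) :
    ∀ g ∈ ML F L, ∀ h ∈ ML F L, ∀ x y : Fin d → L,
      ⁅g (alt φ x), h (alt ψ y)⁆ = ⁅g (alt φ y), h (alt ψ x)⁆ := by
  refine CRM.ml_induction ?_ ?_ ?_ ?_
  · intro g hg
    refine CRM.ml_induction ?_ ?_ ?_ ?_
    · intro h hh x y
      exact full_closure hC φ ψ hφ hψ g h hg hh x y
    · intro x y
      simp
    · intro h h' ih ih' x y
      simp only [LinearMap.add_apply, lie_add]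
      rw [ih x y, ih' x y]
    · intro c h ih x y
      simp only [LinearMap.smul_apply, lie_smul]
      rw [ih x y]
  · intro h _ x y
    simp
  · intro g g' ihg ihg' h hh x y
    simp only [LinearMap.add_apply, add_lie]
    rw [ihg h hh x y, ihg' h hh x y]
  · intro c g ihg h hh x y
    simp only [LinearMap.smul_apply, smul_lie]
    rw [ihg h hh x y]

end FULLM

end Pool.Agent.Lib.MP_8f946f_al.CP
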