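import Pool.Agent.Lib.MP_8f946f_al.CP.Spec

/-!
# Capelli, module GE, third part: the span over the centralizer (helper21)
-/

set_option autoImplicit false
set_option linter.unusedSectionVars false

namespace Pool.Agent.Lib.MP_8f946f_al.CP

namespace GE3M

attribute [local instance 100] LieRing.ofAssociativeRing

section A

variable {F K C L : Type} [Field F] [Field K] [Algebra F K] [Ring C] [Algebra F C] [Algebra K C]
  [IsScalarTower F K C] [LieRing L] [LieAlgebra F L]

/-- the `K`-span of the image -/
def spanS (ψ : L →ₗ⁅F⁆ C) : LieSubalgebra K C :=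
  { Submodule.span K (Set.range ψ) with
    lie_mem' := by
      intro a b ha hb
      change a ∈ Submodule.span K (Set.range ψ) at ha
      change b ∈ Submodule.span K (Set.range ψ) at hb
      change ⁅a, b⁆ ∈ Submodule.span K (Set.range ψ)
      induction ha using Submodule.span_induction with
      | mem a ha =>
        obtain ⟨l, rfl⟩ := ha
        induction hb using Submodule.span_induction with
        | mem b hb =>
          obtain ⟨m, rfl⟩ := hb
          rw [← LieHom.map_lie]
          exact Submodule.subset_span ⟨_, rfl⟩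
        | zero =>
          rw [lie_zero]
          exact zero_mem _
        | add b c _ _ hb hc =>
          rw [lie_add]
          exact add_mem hb hc
        | smul r b _ hb =>
          rw [lie_smul]
          exact Submodule.smul_mem _ r hb
      | zero =>
        rw [zero_lie]
        exact zero_mem _
      | add a c _ _ ha hc =>
        rw [add_lie]
        exact add_mem ha hc
      | smul r a _ ha =>
        rw [smul_lie]
        exact Submodule.smul_mem _ r ha }

lemma mem_spanS (ψ : L →ₗ⁅F⁆ C) (c : C) :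
    c ∈ spanS (K := K) ψ ↔ c ∈ Submodule.span K (Set.range ψ) := Iff.rfl

theorem abs (ψ : L →ₗ⁅F⁆ C) (hψ : Function.Injective ψ) (d : ℕ) (x : Fin d → L)
    (κ : Fin d → L → K) (h : ∀ y, ψ y = ∑ i, κ i y • ψ (x i)) :
    ∃ (K' : Type) (_ : Field K') (_ : Algebra F K') (Q : Type) (_ : LieRing Q) (_ : LieAlgebra F Q)
      (_ : LieAlgebra K' Q) (_ : IsScalarTower F K' Q) (π : L →ₗ⁅F⁆ Q), Function.Injective π ∧
      FiniteDimensional K' Q ∧ Module.finrank K' Q ≤ d := by
  let Q : LieSubalgebra K C := spanS ψ
  let alg : LieAlgebra F Q :=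
    { (inferInstance : Module F Q) with
      lie_smul := by
        intro r a b
        apply Subtype.ext
        exact lie_smul r (a : C) (b : C) }
  have hsp : (Q.toSubmodule : Submodule K C) = Submodule.span K (Set.range fun i => ψ (x i)) := by
    apply le_antisymm
    · change Submodule.span K (Set.range ψ) ≤ _
      rw [Submodule.span_le]
      rintro _ ⟨y, rfl⟩
      rw [h y]
      refine Submodule.sum_mem _ fun i _ => Submodule.smul_mem _ _ (Submodule.subset_span ⟨i, rfl⟩)
    · rw [Submodule.span_le]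
      rintro _ ⟨i, rfl⟩
      exact Submodule.subset_span ⟨x i, rfl⟩
  have hfd : FiniteDimensional K Q.toSubmodule := by
    rw [hsp]
    exact FiniteDimensional.span_of_finite K (Set.finite_range _)
  have hfr : Module.finrank K Q.toSubmodule ≤ d := by
    rw [hsp]
    refine (finrank_range_le_card (R := K) fun i => ψ (x i)).trans ?_
    rw [Fintype.card_fin]
  have hst : IsScalarTower F K Q := ⟨fun r k q => Subtype.ext (smul_assoc r k (q : C))⟩
  let π : L →ₗ⁅F⁆ Q :=
    { toFun := fun l => ⟨ψ l, Submodule.subset_span ⟨l, rfl⟩⟩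
      map_add' := fun a b => Subtype.ext (map_add ψ a b)
      map_smul' := fun r a => Subtype.ext (map_smul ψ r a)
      map_lie' := fun {a b} => Subtype.ext (LieHom.map_lie ψ a b) }
  refine ⟨K, inferInstance, inferInstance, Q, inferInstance, alg, inferInstance, hst, π, ?_, hfd,
    hfr⟩
  intro a b hab
  exact hψ (congrArg Subtype.val hab)

end A

section B

variable {F G L : Type} [Field F] [Ring G] [Algebra F G] [LieRing L] [LieAlgebra F L]

lemma isField (K : Subalgebra F G) (hcomm : ∀ a ∈ K, ∀ b ∈ K, a * b = b * a)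
    (hinv : ∀ a ∈ K, a ≠ 0 → ∃ b ∈ K, a * b = 1) (h1 : (1 : G) ≠ 0) : IsField K where
  exists_pair_ne := ⟨0, 1, fun h => h1 (congrArg Subtype.val h).symm⟩
  mul_comm := fun a b => Subtype.ext (hcomm a.1 a.2 b.1 b.2)
  mul_inv_cancel := by
    intro a ha
    obtain ⟨b, hb, hab⟩ := hinv a.1 a.2 fun h => ha (Subtype.ext h)
    exact ⟨⟨b, hb⟩, Subtype.ext hab⟩

/-- The abstract form of the module GE. -/
theorem main (φ : L →ₗ⁅F⁆ G) (hφ : Function.Injective φ) (K : Subalgebra F G)
    (hK : ∀ a ∈ K, ∀ l, a * φ l = φ l * a) (hcomm : ∀ a ∈ K, ∀ b ∈ K, a * b = b * a)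
    (hinv : ∀ a ∈ K, a ≠ 0 → ∃ b ∈ K, a * b = 1) (h1 : (1 : G) ≠ 0) (d : ℕ) (x : Fin d → L)
    (κ : Fin d → L → G) (hκ : ∀ i y, κ i y ∈ K) (h : ∀ y, φ y = ∑ i, κ i y * φ (x i)) :
    ∃ (K' : Type) (_ : Field K') (_ : Algebra F K') (Q : Type) (_ : LieRing Q) (_ : LieAlgebra F Q)
      (_ : LieAlgebra K' Q) (_ : IsScalarTower F K' Q) (π : L →ₗ⁅F⁆ Q), Function.Injective π ∧
      FiniteDimensional K' Q ∧ Module.finrank K' Q ≤ d := by
  let C : Subalgebra F G := Subalgebra.centralizer F (K : Set G)
  have hKC : K ≤ C := by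
    intro a ha
    rw [Subalgebra.mem_centralizer_iff]
    intro b hb
    exact hcomm b hb a ha
  have hφC : ∀ l, φ l ∈ C := by
    intro l
    rw [Subalgebra.mem_centralizer_iff]
    intro b hb
    exact hK b hb l
  let fld : Field K := (isField K hcomm hinv h1).toField
  let f : K →+* C := (Subalgebra.inclusion hKC).toRingHom
  let algK : Algebra K C := RingHom.toAlgebra' f (by
    intro c y
    apply Subtype.ext
    exact (Subalgebra.mem_centralizer_iff F).1 y.2 c.1 c.2)
  let ψ : L →ₗ⁅F⁆ C :=
    { toFun := fun l => ⟨φ l, hφC l⟩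
      map_add' := fun a b => Subtype.ext (map_add φ a b)
      map_smul' := fun r a => Subtype.ext (map_smul φ r a)
      map_lie' := fun {a b} => Subtype.ext (LieHom.map_lie φ a b) }
  have hst : IsScalarTower F K C := ⟨fun r k q => by
    apply Subtype.ext
    change (r • k.1) * q.1 = r • (k.1 * q.1)
    exact smul_mul_assoc r k.1 q.1⟩
  refine abs (K := K) (C := C) ψ (fun a b hab => hφ (congrArg Subtype.val hab)) d x
    (fun i y => ⟨κ i y, hκ i y⟩) (fun y => ?_)
  apply Subtype.ext
  rw [AddSubmonoidClass.coe_finsetSum]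
  exact h y

end B

end GE3M

end Pool.Agent.Lib.MP_8f946f_al.CP
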