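import Pool.Agent.Lib.MP_8f946f_al.CP.GE2b
import Pool.Agent.Lib.MP_8f946f_al.CP.GE3

/-!
# Capelli, module GE: a prime Lie algebra with a Capelli relation embeds in an algebra of finite dimension over a
field (helper21)

`K0`: the germs of the maps which are `L`-linear on a nonzero ideal. Finite generation is not needed.
-/

set_option autoImplicit false
set_option linter.unusedSectionVars false

namespace Pool.Agent.Lib.MP_8f946f_al.CP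

namespace GEM

open GE1M

variable {F : Type} [Field F] {L : Type} [LieRing L] [LieAlgebra F L] [Nontrivial L]

/-- the germs of the maps which are `L`-linear on a nonzero ideal -/
def K0 (hP : PrimeLie F L) : Subalgebra F (G hP) where
  carrier := {a | ∃ t : E0 hP, Lin0 t.1 ∧ cls hP t = a}
  mul_mem' := by
    rintro _ _ ⟨t, ⟨I, hI, ht⟩, rfl⟩ ⟨s, ⟨I', hI', hs⟩, rfl⟩
    refine ⟨t * s, ?_, map_mul _ _ _⟩
    obtain ⟨I'', hI'', h''⟩ := s.2 I hI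
    refine ⟨I' ⊓ I'', inf_ne hP hI' hI'', fun l x hx => ?_⟩
    rw [LieSubmodule.mem_inf] at hx
    change t.1 (s.1 ⁅l, x⁆) = ⁅l, t.1 (s.1 x)⁆
    rw [hs l x hx.1, ht l _ (h'' x hx.2)]
  add_mem' := by
    rintro _ _ ⟨t, ⟨I, hI, ht⟩, rfl⟩ ⟨s, ⟨I', hI', hs⟩, rfl⟩
    refine ⟨t + s, ?_, map_add _ _ _⟩
    refine ⟨I ⊓ I', inf_ne hP hI hI', fun l x hx => ?_⟩
    rw [LieSubmodule.mem_inf] at hx
    change t.1 ⁅l, x⁆ + s.1 ⁅l, x⁆ = ⁅l, t.1 x + s.1 x⁆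
    rw [ht l x hx.1, hs l x hx.2, lie_add]
  algebraMap_mem' := by
    intro r
    refine ⟨algebraMap F (E0 hP) r, ⟨⊤, top_ne, fun l x _ => ?_⟩, AlgHom.commutes _ r⟩
    change r • ⁅l, x⁆ = ⁅l, r • x⁆
    exact (lie_smul r l x).symm

lemma K0_comm (hP : PrimeLie F L) (a b : G hP) (ha : a ∈ K0 hP) (hb : b ∈ K0 hP) :
    a * b = b * a := by
  obtain ⟨t, ⟨I, hI, h1⟩, rfl⟩ := ha
  obtain ⟨s, ⟨I', hI', h2⟩, rfl⟩ := hb
  rw [← map_mul, ← map_mul, cls_eq]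
  have hJ := inf_ne hP hI hI'
  refine ⟨⁅I ⊓ I', I ⊓ I'⁆, lie_ne hP hJ hJ, fun x hx => ?_⟩
  have hx' : x ∈ (⁅I ⊓ I', I ⊓ I'⁆ : LieIdeal F L).toSubmodule := hx
  rw [LieSubmodule.lieIdeal_oper_eq_linear_span'] at hx'
  have h3 : Submodule.span F {z | ∃ a ∈ I ⊓ I', ∃ n ∈ I ⊓ I', ⁅a, n⁆ = z} ≤
      LinearMap.eqLocus (t.1 * s.1) (s.1 * t.1) := by
    rw [Submodule.span_le]
    rintro _ ⟨p, hp, q, hq, rfl⟩
    rw [LieSubmodule.mem_inf] at hp hq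
    change t.1 (s.1 ⁅p, q⁆) = s.1 (t.1 ⁅p, q⁆)
    have e1 : t.1 ⁅p, q⁆ = ⁅t.1 p, q⁆ := by
      rw [← lie_skew p q, map_neg, h1 q p hp.1, lie_skew]
    rw [h2 p q hq.2, e1, h2 (t.1 p) q hq.2, ← lie_skew p (s.1 q), map_neg, h1 (s.1 q) p hp.1,
      lie_skew]
  exact h3 hx'

lemma K0_inv (hP : PrimeLie F L) (a : G hP) (ha : a ∈ K0 hP) (h0 : a ≠ 0) :
    ∃ b ∈ K0 hP, a * b = 1 := by
  obtain ⟨t, ⟨I, hI, h1⟩, rfl⟩ := ha
  -- `t` is injective on `I`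
  have hk : kerI t.1 I h1 = ⊥ := by
    by_contra hk
    refine h0 ?_
    rw [← map_zero (cls hP), cls_eq]
    exact ⟨_, hk, fun x hx => hx.2⟩
  have hinj : ∀ x ∈ I, t.1 x = 0 → x = 0 := by
    intro x hx h
    have : x ∈ kerI t.1 I h1 := ⟨hx, h⟩
    rwa [hk, LieSubmodule.mem_bot] at this
  obtain ⟨g, hg⟩ := LinearMap.exists_leftInverse_of_injective (t.1.comp I.toSubmodule.subtype) (by
    rw [LinearMap.ker_eq_bot']
    rintro ⟨x, hx⟩ h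
    apply Subtype.ext
    exact hinj x hx h)
  have hg' : ∀ (x : L) (hx : x ∈ I), (g (t.1 x) : L) = x := by
    intro x hx
    have := congrArg (fun f => ((f ⟨x, hx⟩ : I.toSubmodule) : L)) hg
    exact this
  set s : Module.End F L := I.toSubmodule.subtype.comp g with hs
  have hs' : ∀ x ∈ I, s (t.1 x) = x := fun x hx => hg' x hx
  have hsE : s ∈ E0 hP := by
    intro J hJ
    have h2 : ∀ (l : L), ∀ x ∈ I ⊓ J, t.1 ⁅l, x⁆ = ⁅l, t.1 x⁆ := fun l x hx =>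
      h1 l x ((LieSubmodule.mem_inf _ _ _).1 hx).1
    refine ⟨imI t.1 (I ⊓ J) h2, ?_, ?_⟩
    · obtain ⟨x, hx, hx0⟩ := GE1M.exists_ne (inf_ne hP hI hJ)
      refine ne_of_mem (x := t.1 x) ⟨x, hx, rfl⟩ fun h =>
        hx0 (hinj x ((LieSubmodule.mem_inf _ _ _).1 hx).1 h)
    · rintro _ ⟨x, hx, rfl⟩
      rw [hs' x ((LieSubmodule.mem_inf _ _ _).1 hx).1]
      exact ((LieSubmodule.mem_inf _ _ _).1 hx).2
  have hJ : imI t.1 I h1 ≠ ⊥ := by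
    obtain ⟨x, hx, hx0⟩ := GE1M.exists_ne hI
    exact ne_of_mem (x := t.1 x) ⟨x, hx, rfl⟩ fun h => hx0 (hinj x hx h)
  refine ⟨cls hP ⟨s, hsE⟩, ⟨_, ⟨_, hJ, ?_⟩, rfl⟩, ?_⟩
  · rintro l _ ⟨x, hx, rfl⟩
    change s ⁅l, t.1 x⁆ = ⁅l, s (t.1 x)⁆
    rw [hs' x hx, ← h1 l x hx, hs' _ (LieSubmodule.lie_mem I hx)]
  · rw [← map_mul, ← map_one (cls hP), cls_eq]
    refine ⟨_, hJ, ?_⟩
    rintro _ ⟨x, hx, rfl⟩
    change t.1 (s (t.1 x)) = t.1 x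
    rw [hs' x hx]

end GEM

open GE1M GEM in
/-- **GE** without finite generation. -/
theorem ge_noFG (F : Type) [Field F] (L : Type) [LieRing L] [LieAlgebra F L]
    (hP : PrimeLie F L) (d : ℕ) (x : Fin d → L) (u : L) (U : Fin d → L → L) (hu : u ≠ 0)
    (ha : ∀ g ∈ ML F L, ∀ y : L, ⁅y, g u⁆ = ∑ i, ⁅x i, g (U i y)⁆)
    (hb : ∀ g ∈ ML F L, ∀ h ∈ ML F L, ∀ (i : Fin d) (y : L),
      ⁅g (U i y), h u⁆ = ⁅g u, h (U i y)⁆) :
    ∃ (K : Type) (_ : Field K) (_ : Algebra F K) (Q : Type) (_ : LieRing Q) (_ : LieAlgebra F Q)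
      (_ : LieAlgebra K Q) (_ : IsScalarTower F K Q) (π : L →ₗ⁅F⁆ Q), Function.Injective π ∧
      FiniteDimensional K Q ∧ Module.finrank K Q ≤ d := by
  have : Nontrivial L := ⟨u, 0, hu⟩
  have h1 : ∀ (i : Fin d) (y : L), ∃ t : Module.End F L, ∀ g ∈ ML F L, t (g u) = g (U i y) :=
    fun i y => GE2M.exists_lam hP hu fun g hg h hh => hb g hg h hh i y
  choose lam hlam using h1
  have hE : ∀ i y, lam i y ∈ E0 hP := fun i y => GE2M.inE hP hu _ (hlam i y)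
  refine GE3M.main (phi hP) (phi_inj hP) (K0 hP) ?_ (fun a ha b hb => K0_comm hP a b ha hb)
    (fun a ha h0 => K0_inv hP a ha h0) (one_ne hP) d x (fun i y => cls hP ⟨lam i y, hE i y⟩)
    (fun i y => ⟨_, GE2M.lin0 hu _ (hlam i y), rfl⟩) (fun y => ?_)
  · rintro _ ⟨t, ht, rfl⟩ l
    have := (Subalgebra.mem_centralizer_iff F).1 (mem_K_of hP t ht) _ ⟨l, rfl⟩
    exact this.symm
  · have e : ∑ i, cls hP ⟨lam i y, hE i y⟩ * phi hP (x i) =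
        cls hP (∑ i, ⟨lam i y, hE i y⟩ * ⟨LieAlgebra.ad F L (x i), ad_mem hP (x i)⟩) := by
      rw [map_sum]
      refine Finset.sum_congr rfl fun i _ => ?_
      rw [map_mul, phi_apply]
    rw [e, phi_apply, cls_eq]
    refine ⟨GE2M.Iu u, GE2M.Iu_ne hu, fun z hz => ?_⟩
    obtain ⟨g, hg, rfl⟩ := (GE2M.mem_Iu u z).1 hz
    change ⁅y, g u⁆ = _
    rw [ha g hg y, AddSubmonoidClass.coe_finsetSum, LinearMap.sum_apply]
    refine Finset.sum_congr rfl fun i _ => ?_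
    change _ = lam i y ⁅x i, g u⁆
    have e : ⁅x i, g u⁆ = (LieAlgebra.ad F L (x i) * g) u := rfl
    rw [e, hlam i y _ (mul_mem (GE2M.ad_mem_ML _) hg)]
    rfl

/-- **GE** -/
theorem specGE : SpecGE := by
  intro F _ L _ _ _ hP d x u U hu ha hb
  exact ge_noFG F L hP d x u U hu ha hb

end Pool.Agent.Lib.MP_8f946f_al.CP

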