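import Pool.Agent.Lib.MP_8f946f_al.CP.Spec

/-!
# Capelli, module GE, first part: germs of linear maps on a prime Lie algebra (helper21)

`InE t`: the linear map `t` maps small nonzero ideals into small nonzero ideals. `Eq0 t s`: `t` and `s` agree on a
nonzero ideal. `G = E0 / Eq0` is the ring of germs, `K` is the centralizer of the adjoint operators in `G`.
-/

set_option autoImplicit false
set_option linter.unusedSectionVars false

namespace Pool.Agent.Lib.MP_8f946f_al.CP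

variable {F : Type} [Field F] {L : Type} [LieRing L] [LieAlgebra F L]

/-- `t` maps a nonzero ideal into any given nonzero ideal -/
def InE (t : Module.End F L) : Prop :=
  ∀ J : LieIdeal F L, J ≠ ⊥ → ∃ I : LieIdeal F L, I ≠ ⊥ ∧ ∀ x ∈ I, t x ∈ J

/-- `t` and `s` agree on a nonzero ideal -/
def Eq0 (t s : Module.End F L) : Prop :=
  ∃ I : LieIdeal F L, I ≠ ⊥ ∧ ∀ x ∈ I, t x = s x

/-- `t` is `L`-linear on a nonzero ideal -/
def Lin0 (t : Module.End F L) : Prop :=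
  ∃ I : LieIdeal F L, I ≠ ⊥ ∧ ∀ (l : L), ∀ x ∈ I, t ⁅l, x⁆ = ⁅l, t x⁆

namespace GE1M

lemma inf_ne (hP : PrimeLie F L) {I J : LieIdeal F L} (hI : I ≠ ⊥) (hJ : J ≠ ⊥) : I ⊓ J ≠ ⊥ := by
  intro h
  rcases hP I J (le_bot_iff.1 ((LieSubmodule.lie_le_inf I J).trans h.le)) with h' | h'
  · exact hI h'
  · exact hJ h'

lemma lie_ne (hP : PrimeLie F L) {I J : LieIdeal F L} (hI : I ≠ ⊥) (hJ : J ≠ ⊥) :
    ⁅I, J⁆ ≠ ⊥ := by
  intro h
  rcases hP I J h with h' | h'
  · exact hI h'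
  · exact hJ h'

lemma top_ne [Nontrivial L] : (⊤ : LieIdeal F L) ≠ ⊥ := by
  obtain ⟨u, hu⟩ := exists_ne (0 : L)
  intro h
  have h1 : u ∈ (⊤ : LieIdeal F L) := LieSubmodule.mem_top u
  rw [h, LieSubmodule.mem_bot] at h1
  exact hu h1

lemma ne_of_mem {I : LieIdeal F L} {x : L} (hx : x ∈ I) (h : x ≠ 0) : I ≠ ⊥ := by
  intro hI
  rw [hI, LieSubmodule.mem_bot] at hx
  exact h hx

lemma exists_ne {I : LieIdeal F L} (h : I ≠ ⊥) : ∃ x ∈ I, x ≠ 0 := by
  by_contra hc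
  push Not at hc
  refine h (le_bot_iff.1 fun x hx => ?_)
  rw [LieSubmodule.mem_bot]
  exact hc x hx

/-- the ring of the maps with `InE` -/
def E0 (hP : PrimeLie F L) : Subalgebra F (Module.End F L) where
  carrier := {t | InE t}
  mul_mem' := by
    intro t s ht hs J hJ
    obtain ⟨I, hI, h1⟩ := ht J hJ
    obtain ⟨I', hI', h2⟩ := hs I hI
    exact ⟨I', hI', fun x hx => h1 _ (h2 x hx)⟩
  add_mem' := by
    intro t s ht hs J hJ
    obtain ⟨I, hI, h1⟩ := ht J hJ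
    obtain ⟨I', hI', h2⟩ := hs J hJ
    refine ⟨I ⊓ I', inf_ne hP hI hI', fun x hx => ?_⟩
    rw [LieSubmodule.mem_inf] at hx
    exact add_mem (h1 x hx.1) (h2 x hx.2)
  algebraMap_mem' := by
    intro r J hJ
    refine ⟨J, hJ, fun x hx => ?_⟩
    rw [Module.algebraMap_end_apply]
    exact SMulMemClass.smul_mem r hx

lemma mem_E0 (hP : PrimeLie F L) (t : Module.End F L) : t ∈ E0 hP ↔ InE t := Iff.rfl

variable [Nontrivial L]

/-- the congruence `Eq0` -/
def rc (hP : PrimeLie F L) : RingCon (E0 hP) where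
  r t s := Eq0 t.1 s.1
  iseqv := by
    refine ⟨fun t => ⟨⊤, top_ne, fun x _ => rfl⟩, ?_, ?_⟩
    · rintro t s ⟨I, hI, h⟩
      exact ⟨I, hI, fun x hx => (h x hx).symm⟩
    · rintro t s r ⟨I, hI, h⟩ ⟨I', hI', h'⟩
      refine ⟨I ⊓ I', inf_ne hP hI hI', fun x hx => ?_⟩
      rw [LieSubmodule.mem_inf] at hx
      exact (h x hx.1).trans (h' x hx.2)
  mul' := by
    rintro t s t' s' ⟨I, hI, h⟩ ⟨I', hI', h'⟩
    obtain ⟨I'', hI'', h''⟩ := t'.2 I hI
    refine ⟨I' ⊓ I'', inf_ne hP hI' hI'', fun x hx => ?_⟩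
    rw [LieSubmodule.mem_inf] at hx
    change t.1 (t'.1 x) = s.1 (s'.1 x)
    rw [← h' x hx.1]
    exact h _ (h'' x hx.2)
  add' := by
    rintro t s t' s' ⟨I, hI, h⟩ ⟨I', hI', h'⟩
    refine ⟨I ⊓ I', inf_ne hP hI hI', fun x hx => ?_⟩
    rw [LieSubmodule.mem_inf] at hx
    change t.1 x + t'.1 x = s.1 x + s'.1 x
    rw [h x hx.1, h' x hx.2]

attribute [local instance 100] LieRing.ofAssociativeRing

/-- the ring of germs -/
def G (hP : PrimeLie F L) : Type := (rc hP).Quotient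

instance (hP : PrimeLie F L) : Ring (G hP) := inferInstanceAs (Ring (rc hP).Quotient)

instance (hP : PrimeLie F L) : Algebra F (G hP) := inferInstanceAs (Algebra F (rc hP).Quotient)

/-- the germ -/
def cls (hP : PrimeLie F L) : E0 hP →ₐ[F] G hP :=
  { ((rc hP).mk' : E0 hP →+* G hP) with
    commutes' := fun _ => rfl }

lemma cls_eq (hP : PrimeLie F L) (t s : E0 hP) : cls hP t = cls hP s ↔ Eq0 t.1 s.1 :=
  RingCon.eq (rc hP)

lemma cls_surj (hP : PrimeLie F L) : Function.Surjective (cls hP) := RingCon.mk'_surjective (rc hP)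

lemma ad_mem (hP : PrimeLie F L) (l : L) : LieAlgebra.ad F L l ∈ E0 hP := by
  intro J hJ
  refine ⟨J, hJ, fun x hx => ?_⟩
  rw [LieAlgebra.ad_apply]
  exact LieSubmodule.lie_mem J hx

/-- the germ of `ad l` -/
def phi (hP : PrimeLie F L) : L →ₗ⁅F⁆ G hP where
  toFun l := cls hP ⟨LieAlgebra.ad F L l, ad_mem hP l⟩
  map_add' l m := by
    rw [← map_add]
    congr 1
    apply Subtype.ext
    exact map_add _ _ _
  map_smul' r l := by
    rw [RingHom.id_apply, ← map_smul]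
    congr 1
    apply Subtype.ext
    exact map_smul _ _ _
  map_lie' := by
    intro l m
    rw [Ring.lie_def, ← map_mul, ← map_mul, ← map_sub]
    congr 1
    apply Subtype.ext
    exact LieHom.map_lie (LieAlgebra.ad F L) l m

lemma phi_apply (hP : PrimeLie F L) (l : L) :
    phi hP l = cls hP ⟨LieAlgebra.ad F L l, ad_mem hP l⟩ := rfl

/-- the centralizer of an ideal -/
def cen (I : LieIdeal F L) : LieIdeal F L where
  carrier := {l | ∀ x ∈ I, ⁅l, x⁆ = 0}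
  add_mem' := by
    intro a b ha hb x hx
    rw [add_lie, ha x hx, hb x hx, add_zero]
  zero_mem' := by
    intro x _
    exact zero_lie x
  smul_mem' := by
    intro r a ha x hx
    rw [smul_lie, ha x hx, smul_zero]
  lie_mem := by
    intro m l hl x hx
    rw [lie_lie, hl x hx, lie_zero, hl _ (LieSubmodule.lie_mem I hx), sub_zero]

lemma cen_bot (hP : PrimeLie F L) {I : LieIdeal F L} (hI : I ≠ ⊥) : cen I = ⊥ := by
  rcases hP (cen I) I (by
    rw [LieSubmodule.lie_eq_bot_iff]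
    intro l hl x hx
    exact hl x hx) with h | h
  · exact h
  · exact absurd h hI

lemma phi_inj (hP : PrimeLie F L) : Function.Injective (phi hP) := by
  intro a b hab
  rw [phi_apply, phi_apply, cls_eq] at hab
  obtain ⟨I, hI, h⟩ := hab
  have h1 : a - b ∈ cen I := by
    intro x hx
    have := h x hx
    rw [LieAlgebra.ad_apply, LieAlgebra.ad_apply] at this
    rw [sub_lie, this, sub_self]
  rw [cen_bot hP hI, LieSubmodule.mem_bot] at h1
  exact sub_eq_zero.1 h1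

/-- the centralizer of the operators `ad l` -/
abbrev K (hP : PrimeLie F L) : Subalgebra F (G hP) := Subalgebra.centralizer F (Set.range (phi hP))

lemma mem_K_of (hP : PrimeLie F L) (t : E0 hP) (h : Lin0 t.1) : cls hP t ∈ K hP := by
  obtain ⟨I, hI, h⟩ := h
  rw [Subalgebra.mem_centralizer_iff]
  rintro _ ⟨l, rfl⟩
  rw [phi_apply, ← map_mul, ← map_mul, cls_eq]
  refine ⟨I, hI, fun x hx => ?_⟩
  exact (h l x hx).symm

/-- an intersection of finitely many nonzero ideals -/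
lemma finite_inf (hP : PrimeLie F L) {ι : Type} (s : Finset ι) (I : ι → LieIdeal F L)
    (h : ∀ i, I i ≠ ⊥) : ∃ J : LieIdeal F L, J ≠ ⊥ ∧ ∀ i ∈ s, J ≤ I i := by
  classical
  induction s using Finset.induction_on with
  | empty => exact ⟨⊤, top_ne, by simp⟩
  | insert a s _ ih =>
    obtain ⟨J, hJ, h1⟩ := ih
    refine ⟨J ⊓ I a, inf_ne hP hJ (h a), fun i hi => ?_⟩
    rcases Finset.mem_insert.1 hi with rfl | hi
    · exact inf_le_right
    · exact inf_le_left.trans (h1 i hi)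

/-- the elements `l` with `t ⁅l, x⁆ = ⁅l, t x⁆` on the ideal `I` -/
def linSub (t : Module.End F L) (I : LieIdeal F L) : LieSubalgebra F L where
  carrier := {l | ∀ x ∈ I, t ⁅l, x⁆ = ⁅l, t x⁆}
  add_mem' := by
    intro a b ha hb x hx
    rw [add_lie, map_add, ha x hx, hb x hx, add_lie]
  zero_mem' := by
    intro x _
    rw [zero_lie, map_zero, zero_lie]
  smul_mem' := by
    intro r a ha x hx
    rw [smul_lie, map_smul, ha x hx, smul_lie]
  lie_mem' := by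
    intro a b ha hb x hx
    rw [lie_lie, map_sub, ha _ (LieSubmodule.lie_mem I hx), hb _ (LieSubmodule.lie_mem I hx),
      ha x hx, hb x hx, lie_lie]

lemma lin_of_mem (hP : PrimeLie F L) (hfg : IsFG F L) (t : E0 hP) (h : cls hP t ∈ K hP) :
    Lin0 t.1 := by
  obtain ⟨s, hs, hs'⟩ := hfg
  rw [Subalgebra.mem_centralizer_iff] at h
  have h1 : ∀ l : L, ∃ I : LieIdeal F L, I ≠ ⊥ ∧ ∀ x ∈ I, t.1 ⁅l, x⁆ = ⁅l, t.1 x⁆ := by
    intro l
    have := h _ ⟨l, rfl⟩
    rw [phi_apply, ← map_mul, ← map_mul, cls_eq] at this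
    obtain ⟨I, hI, h2⟩ := this
    exact ⟨I, hI, fun x hx => (h2 x hx).symm⟩
  choose I hI h2 using h1
  obtain ⟨J, hJ, h3⟩ := finite_inf hP hs.toFinset I hI
  refine ⟨J, hJ, ?_⟩
  have h4 : LieSubalgebra.lieSpan F L s ≤ linSub t.1 J := by
    rw [LieSubalgebra.lieSpan_le]
    intro l hl x hx
    exact h2 l x (h3 l (hs.mem_toFinset.2 hl) hx)
  rw [hs', top_le_iff] at h4
  intro l x hx
  have h5 : l ∈ linSub t.1 J := by
    rw [h4]
    exact LieSubalgebra.mem_top l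
  exact h5 x hx

/-- `K` is commutative -/
lemma K_comm (hP : PrimeLie F L) (hfg : IsFG F L) (a b : G hP) (ha : a ∈ K hP) (hb : b ∈ K hP) :
    a * b = b * a := by
  obtain ⟨t, rfl⟩ := cls_surj hP a
  obtain ⟨s, rfl⟩ := cls_surj hP b
  obtain ⟨I, hI, h1⟩ := lin_of_mem hP hfg t ha
  obtain ⟨I', hI', h2⟩ := lin_of_mem hP hfg s hb
  rw [← map_mul, ← map_mul, cls_eq]
  have hJ := inf_ne hP hI hI'
  refine ⟨⁅I ⊓ I', I ⊓ I'⁆, lie_ne hP hJ hJ, fun x hx => ?_⟩
  have hx' : x ∈ (⁅I ⊓ I', I ⊓ I'⁆ : LieIdeal F L).toSubmodule := hx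
  rw [LieSubmodule.lieIdeal_oper_eq_linear_span'] at hx'
  induction hx' using Submodule.span_induction with
  | mem z hz =>
    obtain ⟨p, hp, q, hq, rfl⟩ := hz
    rw [LieSubmodule.mem_inf] at hp hq
    change t.1 (s.1 ⁅p, q⁆) = s.1 (t.1 ⁅p, q⁆)
    have e1 : t.1 ⁅p, q⁆ = ⁅t.1 p, q⁆ := by
      rw [← lie_skew p q, map_neg, h1 q p hp.1, lie_skew]
    rw [h2 p q hq.2, e1, h2 (t.1 p) q hq.2, ← lie_skew p (s.1 q), map_neg, h1 (s.1 q) p hp.1,
      lie_skew]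
  | zero => rw [map_zero, map_zero]
  | add y z hy hz ihy ihz =>
    rw [map_add, map_add]
    congr 1
    · refine ihy ?_
      have : y ∈ (⁅I ⊓ I', I ⊓ I'⁆ : LieIdeal F L).toSubmodule := by
        rw [LieSubmodule.lieIdeal_oper_eq_linear_span']
        exact hy
      exact this
    · refine ihz ?_
      have : z ∈ (⁅I ⊓ I', I ⊓ I'⁆ : LieIdeal F L).toSubmodule := by
        rw [LieSubmodule.lieIdeal_oper_eq_linear_span']
        exact hz
      exact this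
  | smul r y hy ih =>
    rw [map_smul, map_smul]
    congr 1
    refine ih ?_
    have : y ∈ (⁅I ⊓ I', I ⊓ I'⁆ : LieIdeal F L).toSubmodule := by
      rw [LieSubmodule.lieIdeal_oper_eq_linear_span']
      exact hy
    exact this

/-- the kernel of `t` on `I` -/
def kerI (t : Module.End F L) (I : LieIdeal F L) (h : ∀ (l : L), ∀ x ∈ I, t ⁅l, x⁆ = ⁅l, t x⁆) :
    LieIdeal F L where
  carrier := {x | x ∈ I ∧ t x = 0}
  add_mem' := by
    rintro a b ⟨ha, ha'⟩ ⟨hb, hb'⟩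
    exact ⟨add_mem ha hb, by rw [map_add, ha', hb', add_zero]⟩
  zero_mem' := ⟨zero_mem I, map_zero t⟩
  smul_mem' := by
    rintro r a ⟨ha, ha'⟩
    exact ⟨SMulMemClass.smul_mem r ha, by rw [map_smul, ha', smul_zero]⟩
  lie_mem := by
    rintro l a ⟨ha, ha'⟩
    exact ⟨LieSubmodule.lie_mem I ha, by rw [h l a ha, ha', lie_zero]⟩

/-- the image of `I` -/
def imI (t : Module.End F L) (I : LieIdeal F L) (h : ∀ (l : L), ∀ x ∈ I, t ⁅l, x⁆ = ⁅l, t x⁆) :
    LieIdeal F L where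
  carrier := {y | ∃ x ∈ I, t x = y}
  add_mem' := by
    rintro _ _ ⟨a, ha, rfl⟩ ⟨b, hb, rfl⟩
    exact ⟨a + b, add_mem ha hb, map_add t a b⟩
  zero_mem' := ⟨0, zero_mem I, map_zero t⟩
  smul_mem' := by
    rintro r _ ⟨a, ha, rfl⟩
    exact ⟨r • a, SMulMemClass.smul_mem r ha, map_smul t r a⟩
  lie_mem := by
    rintro l _ ⟨a, ha, rfl⟩
    exact ⟨⁅l, a⁆, LieSubmodule.lie_mem I ha, h l a ha⟩

lemma K_inv (hP : PrimeLie F L) (hfg : IsFG F L) (a : G hP) (ha : a ∈ K hP) (h0 : a ≠ 0) :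
    ∃ b ∈ K hP, a * b = 1 := by
  obtain ⟨t, rfl⟩ := cls_surj hP a
  obtain ⟨I, hI, h1⟩ := lin_of_mem hP hfg t ha
  -- `t` is injective on `I`
  have hk : kerI t.1 I h1 = ⊥ := by
    by_contra hk
    refine h0 ?_
    rw [← map_zero (cls hP), cls_eq]
    exact ⟨_, hk, fun x hx => hx.2⟩
  have hinj : ∀ x ∈ I, t.1 x = 0 → x = 0 := by
    intro x hx h
    have : x ∈ kerI t.1 I h1 := ⟨hx, h⟩
    rwa [hk, LieSubmodule.mem_bot] at this
  obtain ⟨g, hg⟩ := LinearMap.exists_leftInverse_of_injective (t.1.comp I.toSubmodule.subtype) (by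
    rw [LinearMap.ker_eq_bot']
    rintro ⟨x, hx⟩ h
    apply Subtype.ext
    exact hinj x hx h)
  have hg' : ∀ (x : L) (hx : x ∈ I), (g (t.1 x) : L) = x := by
    intro x hx
    have := congrArg (fun f => ((f ⟨x, hx⟩ : I.toSubmodule) : L)) hg
    exact this
  set s : Module.End F L := I.toSubmodule.subtype.comp g with hs
  have hs' : ∀ x ∈ I, s (t.1 x) = x := fun x hx => hg' x hx
  have hsE : s ∈ E0 hP := by
    intro J hJ
    have h2 : ∀ (l : L), ∀ x ∈ I ⊓ J, t.1 ⁅l, x⁆ = ⁅l, t.1 x⁆ := fun l x hx =>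
      h1 l x ((LieSubmodule.mem_inf _ _ _).1 hx).1
    refine ⟨imI t.1 (I ⊓ J) h2, ?_, ?_⟩
    · obtain ⟨x, hx, hx0⟩ := exists_ne (inf_ne hP hI hJ)
      refine ne_of_mem (x := t.1 x) ⟨x, hx, rfl⟩ fun h => hx0 (hinj x ((LieSubmodule.mem_inf _ _ _).1 hx).1 h)
    · rintro _ ⟨x, hx, rfl⟩
      rw [hs' x ((LieSubmodule.mem_inf _ _ _).1 hx).1]
      exact ((LieSubmodule.mem_inf _ _ _).1 hx).2
  have hJ : imI t.1 I h1 ≠ ⊥ := by
    obtain ⟨x, hx, hx0⟩ := exists_ne hI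
    exact ne_of_mem (x := t.1 x) ⟨x, hx, rfl⟩ fun h => hx0 (hinj x hx h)
  refine ⟨cls hP ⟨s, hsE⟩, mem_K_of hP _ ⟨_, hJ, ?_⟩, ?_⟩
  · rintro l _ ⟨x, hx, rfl⟩
    change s ⁅l, t.1 x⁆ = ⁅l, s (t.1 x)⁆
    rw [hs' x hx, ← h1 l x hx, hs' _ (LieSubmodule.lie_mem I hx)]
  · rw [← map_mul, ← map_one (cls hP), cls_eq]
    refine ⟨_, hJ, ?_⟩
    rintro _ ⟨x, hx, rfl⟩
    change t.1 (s (t.1 x)) = t.1 x
    rw [hs' x hx]

lemma one_ne (hP : PrimeLie F L) : (1 : G hP) ≠ 0 := by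
  rw [← map_one (cls hP), ← map_zero (cls hP)]
  intro h
  rw [cls_eq] at h
  obtain ⟨I, hI, h1⟩ := h
  obtain ⟨x, hx, hx0⟩ := exists_ne hI
  exact hx0 (h1 x hx)

end GE1M

end Pool.Agent.Lib.MP_8f946f_al.CP
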