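import Pool.Agent.Lib.MP_8f946f_al.CP.Spec

/-!
# Prime Lie algebras with a Capelli relation: the maps `λ_i(y)`
-/

set_option autoImplicit false

namespace Pool.Agent.Lib.MP_8f946f_al.CP

variable {F L : Type} [Field F] [LieRing L] [LieAlgebra F L]

theorem PrimeLie.inf_ne (hP : PrimeLie F L) {I J : LieIdeal F L} (hI : I ≠ ⊥) (hJ : J ≠ ⊥) :
    I ⊓ J ≠ ⊥ := by
  intro h
  have h1 : ⁅I, J⁆ = ⊥ := by
    rw [eq_bot_iff, ← h]
    exact LieSubmodule.lie_le_inf I J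
  rcases hP I J h1 with h2 | h2
  · exact hI h2
  · exact hJ h2

/-- the centralizer of an ideal -/
def centr (I : LieIdeal F L) : LieIdeal F L where
  carrier := {z | ∀ y ∈ I, ⁅z, y⁆ = 0}
  add_mem' := by
    intro a b ha hb y hy
    rw [add_lie, ha y hy, hb y hy, add_zero]
  zero_mem' := fun y _ => zero_lie y
  smul_mem' := by
    intro c a ha y hy
    rw [smul_lie, ha y hy, smul_zero]
  lie_mem := by
    intro x a ha y hy
    have h1 : ⁅⁅x, a⁆, y⁆ = ⁅x, ⁅a, y⁆⁆ - ⁅a, ⁅x, y⁆⁆ := by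
      rw [lie_lie]
    rw [h1, ha y hy, ha ⁅x, y⁆ (lie_mem_right F L I x y hy), lie_zero, sub_zero]

theorem PrimeLie.eq_zero (hP : PrimeLie F L) {I : LieIdeal F L} (hI : I ≠ ⊥) {z : L}
    (hz : ∀ y ∈ I, ⁅z, y⁆ = 0) : z = 0 := by
  have h1 : ⁅centr I, I⁆ = ⊥ := by
    rw [LieSubmodule.lie_eq_bot_iff]
    intro x hx m hm
    exact hx m hm
  rcases hP _ _ h1 with h2 | h2
  · have h3 : z ∈ centr I := hz
    rw [h2] at h3
    exact h3
  · exact absurd h2 hI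

/-- `t` commutes with the inner derivations on the ideal `I`. -/
def LinOn (t : Module.End F L) (I : LieIdeal F L) : Prop := ∀ l : L, ∀ z ∈ I, t ⁅l, z⁆ = ⁅l, t z⁆

theorem ad_mem_ML (l : L) : (LieAlgebra.ad F L l : Module.End F L) ∈ ML F L :=
  Algebra.subset_adjoin ⟨l, rfl⟩

/-- the ideal `ML u` -/
def idl (u : L) : LieIdeal F L where
  carrier := {z | ∃ g ∈ ML F L, g u = z}
  add_mem' := by
    rintro _ _ ⟨g, hg, rfl⟩ ⟨h, hh, rfl⟩
    exact ⟨g + h, add_mem hg hh, rfl⟩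
  zero_mem' := ⟨0, zero_mem _, rfl⟩
  smul_mem' := by
    rintro c _ ⟨g, hg, rfl⟩
    exact ⟨c • g, (ML F L).smul_mem hg c, rfl⟩
  lie_mem := by
    rintro x _ ⟨g, hg, rfl⟩
    exact ⟨LieAlgebra.ad F L x * g, mul_mem (ad_mem_ML x) hg, rfl⟩

theorem idl_ne {u : L} (hu : u ≠ 0) : (idl u : LieIdeal F L) ≠ ⊥ := by
  intro h
  have h1 : u ∈ (idl u : LieIdeal F L) := ⟨1, one_mem _, rfl⟩
  rw [h] at h1
  exact hu h1

/-- over a field a linear map factors through another one as soon as its kernel is larger -/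
theorem exists_factor {V W X : Type} [AddCommGroup V] [Module F V] [AddCommGroup W] [Module F W]
    [AddCommGroup X] [Module F X] (f : V →ₗ[F] W) (g : V →ₗ[F] X)
    (h : ∀ v, f v = 0 → g v = 0) : ∃ t : W →ₗ[F] X, ∀ v, t (f v) = g v := by
  have hk : LinearMap.ker f ≤ LinearMap.ker g := fun v hv => h v hv
  obtain ⟨t, ht⟩ := LinearMap.exists_extend
    (((LinearMap.ker f).liftQ g hk).comp f.quotKerEquivRange.symm.toLinearMap)
  refine ⟨t, fun v => ?_⟩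
  have h1 := LinearMap.congr_fun ht (f.rangeRestrict v)
  have h2 : f.quotKerEquivRange.symm (f.rangeRestrict v) = Submodule.Quotient.mk v := by
    rw [LinearEquiv.symm_apply_eq]
    rfl
  rw [LinearMap.comp_apply, LinearMap.comp_apply] at h1
  change t (f v) = ((LinearMap.ker f).liftQ g hk) (f.quotKerEquivRange.symm (f.rangeRestrict v))
    at h1
  rw [h2] at h1
  exact h1

/-- The Capelli relation gives `L`-linear maps `λ_i(y)` on a common ideal. -/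
theorem exists_lambda (hP : PrimeLie F L) {d : ℕ} (x : Fin d → L) (u : L) (U : Fin d → L → L)
    (hu : u ≠ 0)
    (ha : ∀ g ∈ ML F L, ∀ y : L, ⁅y, g u⁆ = ∑ i, ⁅x i, g (U i y)⁆)
    (hb : ∀ g ∈ ML F L, ∀ h ∈ ML F L, ∀ (i : Fin d) (y : L), ⁅g (U i y), h u⁆ = ⁅g u, h (U i y)⁆) :
    ∃ I : LieIdeal F L, I ≠ ⊥ ∧ ∀ y : L, ∃ t : Fin d → Module.End F L,
      (∀ i, LinOn (t i) I) ∧ ∀ z ∈ I, ⁅y, z⁆ = ∑ i, t i ⁅x i, z⁆ := by
  refine ⟨idl u, idl_ne hu, fun y => ?_⟩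
  have h1 : ∀ i, ∃ t : L →ₗ[F] L, ∀ g : ML F L, t (g.1 u) = g.1 (U i y) := by
    intro i
    refine exists_factor (V := ML F L) ((LinearMap.applyₗ u).comp (ML F L).val.toLinearMap)
      ((LinearMap.applyₗ (U i y)).comp (ML F L).val.toLinearMap) ?_
    intro g hg
    have hg0 : g.1 u = 0 := hg
    change g.1 (U i y) = 0
    refine hP.eq_zero (idl_ne hu) ?_
    rintro _ ⟨h, hh, rfl⟩
    rw [hb g.1 g.2 h hh i y, hg0, zero_lie]
  choose t ht using h1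
  have hlin : ∀ i, LinOn (t i) (idl u) := by
    rintro i l _ ⟨g, hg, rfl⟩
    have e1 := ht i ⟨LieAlgebra.ad F L l * g, mul_mem (ad_mem_ML l) hg⟩
    have e2 := ht i ⟨g, hg⟩
    change t i ⁅l, g u⁆ = ⁅l, g (U i y)⁆ at e1
    change t i (g u) = g (U i y) at e2
    rw [e1, e2]
  refine ⟨t, hlin, ?_⟩
  rintro _ ⟨g, hg, rfl⟩
  rw [ha g hg y]
  refine Finset.sum_congr rfl fun i _ => ?_
  have e2 := ht i ⟨g, hg⟩
  change t i (g u) = g (U i y) at e2
  rw [hlin i (x i) (g u) ⟨g, hg, rfl⟩, e2]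

end Pool.Agent.Lib.MP_8f946f_al.CP
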