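import Pool.Agent.Lib.MP_8f946f_al.CP.GE1

/-!
# Capelli, module GE, second part: the germs `λ_i(y)` (helper21)
-/

set_option autoImplicit false
set_option linter.unusedSectionVars false

namespace Pool.Agent.Lib.MP_8f946f_al.CP

namespace GE2M

open GE1M

variable {F : Type} [Field F] {L : Type} [LieRing L] [LieAlgebra F L]

lemma ad_mem_ML (l : L) : LieAlgebra.ad F L l ∈ ML F L := Algebra.subset_adjoin ⟨l, rfl⟩

/-- evaluation at `u` -/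
def ev (u : L) : ML F L →ₗ[F] L where
  toFun g := g.1 u
  map_add' _ _ := rfl
  map_smul' _ _ := rfl

/-- the ideal `ML u` -/
def Iu (u : L) : LieIdeal F L :=
  { LinearMap.range (ev (F := F) u) with
    lie_mem := by
      intro l z hz
      obtain ⟨g, rfl⟩ := hz
      exact ⟨⟨LieAlgebra.ad F L l, ad_mem_ML l⟩ * g, rfl⟩ }

lemma mem_Iu (u : L) (z : L) : z ∈ Iu (F := F) u ↔ ∃ g ∈ ML F L, g u = z := by
  constructor
  · rintro ⟨g, rfl⟩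
    exact ⟨g.1, g.2, rfl⟩
  · rintro ⟨g, hg, rfl⟩
    exact ⟨⟨g, hg⟩, rfl⟩

lemma Iu_ne {u : L} (hu : u ≠ 0) : Iu (F := F) u ≠ ⊥ :=
  ne_of_mem (x := u) ((mem_Iu u u).2 ⟨1, one_mem _, rfl⟩) hu

/-- the map `g u ↦ g v` -/
lemma exists_lam (hP : PrimeLie F L) {u v : L} (hu : u ≠ 0)
    (hb : ∀ g ∈ ML F L, ∀ h ∈ ML F L, ⁅g v, h u⁆ = ⁅g u, h v⁆) :
    ∃ t : Module.End F L, ∀ g ∈ ML F L, t (g u) = g v := by
  have : Nontrivial L := ⟨u, 0, hu⟩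
  have hk : LinearMap.ker (ev (F := F) u) ≤ LinearMap.ker (ev (F := F) v) := by
    intro g hg
    rw [LinearMap.mem_ker] at hg ⊢
    change g.1 u = 0 at hg
    change g.1 v = 0
    have h1 : g.1 v ∈ cen (Iu (F := F) u) := by
      intro z hz
      obtain ⟨h, hh, rfl⟩ := (mem_Iu u z).1 hz
      rw [hb g.1 g.2 h hh, hg, zero_lie]
    rwa [cen_bot hP (Iu_ne hu), LieSubmodule.mem_bot] at h1
  obtain ⟨t, ht⟩ := LinearMap.exists_extend
    (((LinearMap.ker (ev (F := F) u)).liftQ (ev (F := F) v) hk).comp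
      (ev (F := F) u).quotKerEquivRange.symm.toLinearMap)
  refine ⟨t, fun g hg => ?_⟩
  have h1 := congrArg (fun f => f (⟨g u, ⟨⟨g, hg⟩, rfl⟩⟩ : LinearMap.range (ev (F := F) u))) ht
  refine h1.trans ?_
  have h2 : (ev (F := F) u).quotKerEquivRange.symm
      (⟨g u, ⟨⟨g, hg⟩, rfl⟩⟩ : LinearMap.range (ev (F := F) u)) =
      (LinearMap.ker (ev (F := F) u)).mkQ ⟨g, hg⟩ := by
    rw [LinearEquiv.symm_apply_eq]
    rfl
  rw [LinearMap.comp_apply]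
  change ((LinearMap.ker (ev (F := F) u)).liftQ (ev (F := F) v) hk)
    ((ev (F := F) u).quotKerEquivRange.symm _) = _
  rw [h2]
  rfl

lemma inE (hP : PrimeLie F L) {u v : L} (hu : u ≠ 0) (t : Module.End F L)
    (ht : ∀ g ∈ ML F L, t (g u) = g v) : InE t := by
  intro J hJ
  refine ⟨⁅J, Iu u⁆, lie_ne hP hJ (Iu_ne hu), fun x hx => ?_⟩
  have hx' : x ∈ (⁅J, Iu u⁆ : LieIdeal F L).toSubmodule := hx
  rw [LieSubmodule.lieIdeal_oper_eq_linear_span'] at hx'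
  have h1 : Submodule.span F {z | ∃ a ∈ J, ∃ n ∈ Iu (F := F) u, ⁅a, n⁆ = z} ≤
      J.toSubmodule.comap t := by
    rw [Submodule.span_le]
    rintro _ ⟨a, ha, n, hn, rfl⟩
    obtain ⟨g, hg, rfl⟩ := (mem_Iu u n).1 hn
    change t ⁅a, g u⁆ ∈ J
    have e : ⁅a, g u⁆ = (LieAlgebra.ad F L a * g) u := rfl
    rw [e, ht _ (mul_mem (ad_mem_ML a) hg)]
    change ⁅a, g v⁆ ∈ J
    exact lie_mem_left F L J a (g v) ha
  exact h1 hx'

lemma lin0 {u v : L} (hu : u ≠ 0) (t : Module.End F L)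
    (ht : ∀ g ∈ ML F L, t (g u) = g v) : Lin0 t := by
  refine ⟨Iu u, Iu_ne hu, fun l x hx => ?_⟩
  obtain ⟨g, hg, rfl⟩ := (mem_Iu u x).1 hx
  have e : ⁅l, g u⁆ = (LieAlgebra.ad F L l * g) u := rfl
  rw [e, ht _ (mul_mem (ad_mem_ML l) hg), ht g hg]
  rfl

theorem main (hP : PrimeLie F L) [Nontrivial L] (d : ℕ) (x : Fin d → L) (u : L)
    (U : Fin d → L → L) (hu : u ≠ 0)
    (ha : ∀ g ∈ ML F L, ∀ y : L, ⁅y, g u⁆ = ∑ i, ⁅x i, g (U i y)⁆)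
    (hb : ∀ g ∈ ML F L, ∀ h ∈ ML F L, ∀ (i : Fin d) (y : L),
      ⁅g (U i y), h u⁆ = ⁅g u, h (U i y)⁆) :
    ∃ κ : Fin d → L → G hP, (∀ i y, κ i y ∈ K hP) ∧
      ∀ y, phi hP y = ∑ i, κ i y * phi hP (x i) := by
  have h1 : ∀ (i : Fin d) (y : L), ∃ t : Module.End F L, ∀ g ∈ ML F L, t (g u) = g (U i y) :=
    fun i y => exists_lam hP hu fun g hg h hh => hb g hg h hh i y
  choose lam hlam using h1
  have hE : ∀ i y, lam i y ∈ E0 hP := fun i y => inE hP hu _ (hlam i y)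
  refine ⟨fun i y => cls hP ⟨lam i y, hE i y⟩, fun i y => mem_K_of hP _ (lin0 hu _ (hlam i y)),
    fun y => ?_⟩
  have e : ∑ i, cls hP ⟨lam i y, hE i y⟩ * phi hP (x i) =
      cls hP (∑ i, ⟨lam i y, hE i y⟩ * ⟨LieAlgebra.ad F L (x i), ad_mem hP (x i)⟩) := by
    rw [map_sum]
    refine Finset.sum_congr rfl fun i _ => ?_
    rw [map_mul, phi_apply]
  rw [e, phi_apply, cls_eq]
  refine ⟨Iu u, Iu_ne hu, fun z hz => ?_⟩
  obtain ⟨g, hg, rfl⟩ := (mem_Iu u z).1 hz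
  change ⁅y, g u⁆ = _
  rw [ha g hg y, AddSubmonoidClass.coe_finsetSum, LinearMap.sum_apply]
  refine Finset.sum_congr rfl fun i _ => ?_
  change _ = lam i y ⁅x i, g u⁆
  have e : ⁅x i, g u⁆ = (LieAlgebra.ad F L (x i) * g) u := rfl
  rw [e, hlam i y _ (mul_mem (ad_mem_ML _) hg)]
  rfl

end GE2M

end Pool.Agent.Lib.MP_8f946f_al.CP
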