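import Pool.Agent.Lib.MP_8f946f_al.CP.UN

/-!
# Locally residually soluble-by-linear varieties
-/

set_option autoImplicit false

namespace Pool.Agent.Lib.MP_8f946f_al.CP

open BTM UNM

variable {F : Type} [Field F]

theorem lift_hom {L : Type} [LieRing L] [LieAlgebra F L] {r : ℕ}
    (θ : FreeLieAlgebra F (Fin r) →ₗ⁅F⁆ L) :
    FreeLieAlgebra.lift F (fun i => θ (FreeLieAlgebra.of F i)) = θ := by
  apply FreeLieAlgebra.hom_ext
  intro i
  rw [FreeLieAlgebra.lift_of_apply]

theorem residually_of_linear {Γ : Set (FreeLieAlgebra F ℕ)} (h : LocallySolubleByLinear Γ) :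
    LocallyResiduallySolubleByBounded Γ := by
  intro r
  obtain ⟨l, d, hgen⟩ := h r
  refine ⟨l, d, ?_⟩
  rintro u ⟨L, _, _, θ, hL, hne⟩
  obtain ⟨S, _, _, v, hS, hv, hty⟩ := hgen u ⟨L, _, _, fun i => θ (FreeLieAlgebra.of F i), hL, by
    rw [lift_hom]
    exact hne⟩
  exact ⟨S, _, _, FreeLieAlgebra.lift F v, hS, hv, residuallyBounded_of_linear hty⟩

theorem specBTS (hSP : SpecSP) (hFS : SpecFS) [Finite F] {Γ : Set (FreeLieAlgebra F ℕ)}
    (h : LocallySolubleByLinear Γ) (hmi : HasMonicIdentity Γ) : Sol.LocallySolubleByFinite Γ :=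
  solubleByFinite_of_residually hSP hFS (residually_of_linear h) hmi

/-- Locally soluble-by-finite varieties are locally residually soluble-by-linear. -/
theorem lsl_of_lsf {Γ : Set (FreeLieAlgebra F ℕ)} (h : Sol.LocallySolubleByFinite Γ) :
    LocallySolubleByLinear Γ := by
  intro r
  obtain ⟨S, l, hS, hl⟩ := h (FreeLieAlgebra F (Fin r) ⧸ verbal Γ (FreeLieAlgebra F (Fin r)))
    (satisfies_quot_verbal Γ _)
    ((isFG_free F (Fin r)).of_surjective (mkHom _) (mkHom_surjective _))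
  refine ⟨l, Module.finrank F
    ((FreeLieAlgebra F (Fin r) ⧸ verbal Γ (FreeLieAlgebra F (Fin r))) ⧸ S), ?_⟩
  rintro u ⟨L, _, _, v, hL, hne⟩
  refine ⟨_, _, _, fun i => mkHom (verbal Γ (FreeLieAlgebra F (Fin r))) (FreeLieAlgebra.of F i),
    satisfies_quot_verbal Γ _, ?_, ?_⟩
  · rw [lift_hom]
    intro h0
    rw [mkHom_eq_zero] at h0
    exact hne (map_verbal hL _ u h0)
  · refine ⟨F, _, Algebra.id F, _, _, inferInstance, inferInstance, inferInstance, mkHom S, hS,
      le_rfl, ?_⟩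
    have h1 : (mkHom S).ker = S := by
      ext a
      rw [LieHom.mem_ker, mkHom_eq_zero]
    rw [h1]
    exact hl

/-- Varieties generated by soluble-by-linear algebras of bounded degree. -/
theorem lsl_of_gen {Γ : Set (FreeLieAlgebra F ℕ)} (h : GeneratedBySolubleByLinear Γ) :
    LocallySolubleByLinear Γ := by
  obtain ⟨l, d, hgen⟩ := h
  intro r
  refine ⟨l, d, ?_⟩
  rintro u ⟨L, _, _, e, hL, hne⟩
  have hbad : ¬ Satisfies {emb F r u} L := by
    intro hs
    apply hne
    let v : ℕ → L := fun n => if h : n < r then e ⟨n, h⟩ else 0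
    have h1 : (FreeLieAlgebra.lift F v).comp (emb F r) = FreeLieAlgebra.lift F e := by
      apply FreeLieAlgebra.hom_ext
      intro i
      rw [LieHom.comp_apply, emb, FreeLieAlgebra.lift_of_apply, FreeLieAlgebra.lift_of_apply,
        FreeLieAlgebra.lift_of_apply]
      simp [v]
    have h2 := hs _ (Set.mem_singleton _) v
    rw [← h1, LieHom.comp_apply, h2]
  obtain ⟨S, _, _, hS, hSb, hty⟩ := hgen _ ⟨L, _, _, hL, hbad⟩
  have hex : ∃ v : ℕ → S, FreeLieAlgebra.lift F v (emb F r u) ≠ 0 := by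
    by_contra hno
    push Not at hno
    apply hSb
    intro φ hφ v
    rw [Set.mem_singleton_iff] at hφ
    rw [hφ]
    exact hno v
  obtain ⟨v, hv⟩ := hex
  refine ⟨S, _, _, fun i => v i, hS, ?_, hty⟩
  have h3 : FreeLieAlgebra.lift F (fun i : Fin r => v i) =
      (FreeLieAlgebra.lift F v).comp (emb F r) := by
    apply FreeLieAlgebra.hom_ext
    intro i
    rw [LieHom.comp_apply, emb, FreeLieAlgebra.lift_of_apply, FreeLieAlgebra.lift_of_apply,
      FreeLieAlgebra.lift_of_apply]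
  rw [h3]
  exact hv

end Pool.Agent.Lib.MP_8f946f_al.CP
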