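import Pool.Agent.Lib.MP_8f946f_al.CP.UN

/-!
# Finitely generated Lie algebras of finite rank over commutative rings (helper16)

A finitely generated Lie algebra which embeds in a Lie algebra over a commutative ring `A` which is a
finitely generated `A`-module is soluble-by-(residually of bounded dimension over fields).
-/

set_option autoImplicit false

namespace Pool.Agent.Lib.MP_8f946f_al.CP

open TensorProduct

/-- The elements of `L` outside of the ideal `R` are separated from `0` by morphisms, which are `0` on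
`R`, into Lie algebras of dimension at most `d` over fields which contain `F`. -/
def Sepd (F : Type) [Field F] (L : Type) [LieRing L] [LieAlgebra F L] (R : LieIdeal F L) (d : ℕ) :
    Prop :=
  ∀ a : L, a ∉ R → ∃ (K : Type) (_ : Field K) (_ : Algebra F K) (Q : Type) (_ : LieRing Q)
    (_ : LieAlgebra F Q) (_ : LieAlgebra K Q) (_ : IsScalarTower F K Q) (π : L →ₗ⁅F⁆ Q),
    FiniteDimensional K Q ∧ Module.finrank K Q ≤ d ∧ (∀ r ∈ R, π r = 0) ∧ π a ≠ 0

namespace NRM

/-- A morphism over the change of rings `F → R`. -/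
structure Mor (F : Type) [Field F] (L : Type) [LieRing L] [LieAlgebra F L] (R : Type) [CommRing R]
    [Algebra F R] (M : Type) [LieRing M] [LieAlgebra R M] (f : L → M) : Prop where
  add : ∀ x y, f (x + y) = f x + f y
  smul : ∀ (c : F) (x : L), f (c • x) = algebraMap F R c • f x
  lie : ∀ x y, f ⁅x, y⁆ = ⁅f x, f y⁆

variable {F : Type} [Field F] {L : Type} [LieRing L] [LieAlgebra F L]

theorem toSep {K : Type} [Field K] [Algebra F K] {Q' : Type} [LieRing Q'] [LieAlgebra K Q']
    {g : L → Q'} (hg : Mor F L K Q' g) (hfd : FiniteDimensional K Q') {d : ℕ}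
    (hd : Module.finrank K Q' ≤ d) (R : LieIdeal F L) (a : L) (hR : ∀ r ∈ R, g r = 0)
    (ha : g a ≠ 0) :
    ∃ (K : Type) (_ : Field K) (_ : Algebra F K) (Q : Type) (_ : LieRing Q)
    (_ : LieAlgebra F Q) (_ : LieAlgebra K Q) (_ : IsScalarTower F K Q) (π : L →ₗ⁅F⁆ Q),
    FiniteDimensional K Q ∧ Module.finrank K Q ≤ d ∧ (∀ r ∈ R, π r = 0) ∧ π a ≠ 0 := by
  let i1 : Module F Q' := Module.compHom Q' (algebraMap F K)
  let i2 : LieAlgebra F Q' := { i1 with lie_smul := fun t x y => lie_smul (algebraMap F K t) x y }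
  have i3 : IsScalarTower F K Q' := ⟨fun x y z => by
    rw [Algebra.smul_def, mul_smul]; rfl⟩
  exact ⟨K, inferInstance, inferInstance, Q', inferInstance, i2, inferInstance, i3,
    { toFun := g, map_add' := hg.add, map_smul' := hg.smul, map_lie' := fun {x y} => hg.lie x y },
    hfd, hd, hR, ha⟩

theorem dom {D : Type} [CommRing D] [IsDomain D] [Algebra F D] {M : Type} [LieRing M]
    [LieAlgebra D M] (htf : ∀ (c : D) (m : M), c ≠ 0 → c • m = 0 → m = 0) {n : ℕ} (q : Fin n → M)
    (hq : Submodule.span D (Set.range q) = ⊤) {f : L → M} (hf : Mor F L D M f) (R : LieIdeal F L)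
    (a : L) (hR : ∀ r ∈ R, f r = 0) (ha : f a ≠ 0) :
    ∃ (K : Type) (_ : Field K) (_ : Algebra F K) (Q : Type) (_ : LieRing Q)
    (_ : LieAlgebra F Q) (_ : LieAlgebra K Q) (_ : IsScalarTower F K Q) (π : L →ₗ⁅F⁆ Q),
    FiniteDimensional K Q ∧ Module.finrank K Q ≤ n ∧ (∀ r ∈ R, π r = 0) ∧ π a ≠ 0 := by
  classical
  let K := FractionRing D
  let i1 : Algebra F K := ((algebraMap D K).comp (algebraMap F D)).toAlgebra
  have hfin : Module.Finite D M := ⟨⟨(Set.finite_range q).toFinset, by
    rw [Set.Finite.coe_toFinset]; exact hq⟩⟩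
  have hspan : Submodule.span K (Set.range fun i => (1 : K) ⊗ₜ[D] q i) = ⊤ := by
    rw [eq_top_iff]
    rintro x -
    induction x with
    | zero => exact Submodule.zero_mem _
    | add x y hx hy => exact Submodule.add_mem _ hx hy
    | tmul c m =>
      have h1 : c ⊗ₜ[D] m = c • ((1 : K) ⊗ₜ[D] m) := by
        rw [TensorProduct.smul_tmul', smul_eq_mul, mul_one]
      rw [h1]
      clear h1
      refine Submodule.smul_mem _ _ ?_
      have hm : m ∈ Submodule.span D (Set.range q) := by rw [hq]; trivial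
      induction hm using Submodule.span_induction with
      | mem x hx =>
        obtain ⟨i, rfl⟩ := hx
        exact Submodule.subset_span ⟨i, rfl⟩
      | zero => rw [TensorProduct.tmul_zero]; exact Submodule.zero_mem _
      | add x y _ _ hx hy => rw [TensorProduct.tmul_add]; exact Submodule.add_mem _ hx hy
      | smul t x _ hx =>
        have h2 : (1 : K) ⊗ₜ[D] (t • x) = (algebraMap D K t) • ((1 : K) ⊗ₜ[D] x) := by
          rw [TensorProduct.tmul_smul, TensorProduct.smul_tmul', TensorProduct.smul_tmul',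
            Algebra.smul_def, smul_eq_mul]
        rw [h2]
        exact Submodule.smul_mem _ _ hx
  have hrank : Module.finrank K (K ⊗[D] M) ≤ n := by
    have h3 := finrank_span_le_card (R := K) (Set.range fun i => (1 : K) ⊗ₜ[D] q i)
    rw [hspan, finrank_top] at h3
    refine h3.trans ?_
    rw [Set.toFinset_range]
    exact Finset.card_image_le.trans (by simp)
  have hinj : ∀ m : M, (1 : K) ⊗ₜ[D] m = 0 → m = 0 := by
    intro m hm
    have h4 : (TensorProduct.mk D K M 1) m = 0 := hm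
    rw [IsLocalizedModule.eq_zero_iff (nonZeroDivisors D)] at h4
    obtain ⟨c, hc⟩ := h4
    exact htf c m (nonZeroDivisors.coe_ne_zero c) hc
  refine toSep (K := K) (Q' := K ⊗[D] M) (g := fun x => (1 : K) ⊗ₜ[D] f x) ⟨?_, ?_, ?_⟩ inferInstance
    hrank R a ?_ ?_
  · intro x y
    rw [hf.add, TensorProduct.tmul_add]
  · intro c x
    change (1 : K) ⊗ₜ[D] f (c • x) = algebraMap D K (algebraMap F D c) • ((1 : K) ⊗ₜ[D] f x)
    rw [hf.smul, TensorProduct.tmul_smul, TensorProduct.smul_tmul', TensorProduct.smul_tmul',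
      Algebra.smul_def, smul_eq_mul]
  · intro x y
    change (1 : K) ⊗ₜ[D] f ⁅x, y⁆ = ⁅(1 : K) ⊗ₜ[D] f x, (1 : K) ⊗ₜ[D] f y⁆
    rw [hf.lie, LieAlgebra.ExtendScalars.bracket_tmul, mul_one]
  · intro r hr
    change (1 : K) ⊗ₜ[D] f r = 0
    rw [hR r hr, TensorProduct.tmul_zero]
  · intro h
    exact ha (hinj _ h)

section spr

variable {R : Type} [CommRing R] {M : Type} [LieRing M] [LieAlgebra R M]

/-- prime ideals -/
def PrimeId (P : LieIdeal R M) : Prop := ∀ A B : LieIdeal R M, ⁅A, B⁆ ≤ P → A ≤ P ∨ B ≤ P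

/-- The ideal generated by an element. -/
noncomputable abbrev gen (R : Type) [CommRing R] {M : Type} [LieRing M] [LieAlgebra R M] (a : M) :
    LieIdeal R M := LieSubmodule.lieSpan R M {a}

theorem self_mem_gen (a : M) : a ∈ gen R a := LieSubmodule.subset_lieSpan rfl

theorem gen_le {a : M} {I : LieIdeal R M} (h : a ∈ I) : gen R a ≤ I :=
  LieSubmodule.lieSpan_le.2 (Set.singleton_subset_iff.2 h)

theorem exists_prime [IsNoetherian R M] (S : LieIdeal R M)
    (hS : ∀ I : LieIdeal R M, ⁅I, I⁆ ≤ S → I ≤ S) (a : M) (ha : a ∉ S) :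
    ∃ P : LieIdeal R M, S ≤ P ∧ a ∉ P ∧ PrimeId P := by
  classical
  have hstep : ∀ x : {x : M // x ∉ S}, ∃ y : {y : M // y ∉ S}, (y : M) ∈ ⁅gen R (x : M), gen R (x : M)⁆ := by
    intro x
    by_contra hcon
    push Not at hcon
    refine x.2 (hS (gen R (x : M)) ?_ (self_mem_gen _))
    intro y hy
    by_contra hyS
    exact hcon ⟨y, hyS⟩ hy
  obtain ⟨sq, hsq0, hsqS, hsq1⟩ : ∃ sq : ℕ → M, sq 0 = a ∧ (∀ n, sq n ∉ S) ∧
      ∀ n, sq (n + 1) ∈ ⁅gen R (sq n), gen R (sq n)⁆ := by
    obtain ⟨nx, hnx⟩ := Classical.axiom_of_choice hstep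
    obtain ⟨f, hf0, hf1⟩ : ∃ f : ℕ → {x : M // x ∉ S}, f 0 = ⟨a, ha⟩ ∧ ∀ n, f (n + 1) = nx (f n) :=
      ⟨fun n => Nat.rec ⟨a, ha⟩ (fun _ x => nx x) n, rfl, fun _ => rfl⟩
    refine ⟨fun n => (f n : M), ?_, fun n => (f n).2, fun n => ?_⟩
    · change ((f 0 : {x : M // x ∉ S}) : M) = a
      rw [hf0]
    · have h := hnx (f n)
      rw [← hf1 n] at h
      exact h
  have hmono : ∀ (I : LieIdeal R M) (i : ℕ), sq i ∈ I → ∀ k, sq (i + k) ∈ I := by
    intro I i hi k
    induction k with
    | zero => exact hi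
    | succ k ih =>
      have h1 := hsq1 (i + k)
      have h2 : ⁅gen R (sq (i + k)), gen R (sq (i + k))⁆ ≤ I :=
        (LieSubmodule.lie_le_right _ _).trans (gen_le ih)
      exact h2 h1
  have hwf : WellFoundedGT (LieIdeal R M) := LieSubmodule.wellFoundedGT_of_noetherian R M M
  obtain ⟨P, ⟨hSP, hPn⟩, hmax⟩ := hwf.wf.has_min {P : LieIdeal R M | S ≤ P ∧ ∀ n, sq n ∉ P}
    ⟨S, le_rfl, hsqS⟩
  refine ⟨P, hSP, by rw [← hsq0]; exact hPn 0, ?_⟩
  intro A B hAB
  by_contra hcon
  rw [not_or] at hcon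
  have key : ∀ A : LieIdeal R M, ¬ A ≤ P → ∃ n, sq n ∈ A ⊔ P := by
    intro A hA
    by_contra hc
    push Not at hc
    refine hmax (A ⊔ P) ⟨hSP.trans le_sup_right, hc⟩ ?_
    refine lt_of_le_of_ne le_sup_right ?_
    intro h
    exact hA (h ▸ le_sup_left)
  obtain ⟨i, hi⟩ := key A hcon.1
  obtain ⟨j, hj⟩ := key B hcon.2
  have h1 := hmono _ i hi j
  have h2 := hmono _ j hj i
  rw [add_comm j i] at h2
  have h3 := hsq1 (i + j)
  have h4 : ⁅gen R (sq (i + j)), gen R (sq (i + j))⁆ ≤ ⁅A ⊔ P, B ⊔ P⁆ :=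
    LieSubmodule.mono_lie (gen_le h1) (gen_le h2)
  have h5 : ⁅A ⊔ P, B ⊔ P⁆ ≤ P := by
    rw [LieSubmodule.sup_lie, LieSubmodule.lie_sup, LieSubmodule.lie_sup]
    refine sup_le (sup_le hAB ?_) (sup_le ?_ ?_)
    · exact LieSubmodule.lie_le_right _ _
    · exact LieSubmodule.lie_le_left _ _
    · exact LieSubmodule.lie_le_right _ _
  exact hPn _ (h5 (h4 h3))

theorem radical_semiprime [IsNoetherian R M] (I : LieIdeal R M)
    (h : ⁅I, I⁆ ≤ LieAlgebra.radical R M) : I ≤ LieAlgebra.radical R M := by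
  rw [← LieAlgebra.LieIdeal.solvable_iff_le_radical] at h ⊢
  obtain ⟨k, hk⟩ := (LieAlgebra.isSolvable_iff R (⁅I, I⁆ : LieIdeal R M)).1 h
  rw [LieIdeal.derivedSeries_eq_bot_iff] at hk
  refine (LieAlgebra.isSolvable_iff R I).2 ⟨k + 1, ?_⟩
  rw [LieIdeal.derivedSeries_eq_bot_iff, LieAlgebra.derivedSeriesOfIdeal_add]
  exact hk

end spr

section prime

variable {R : Type} [CommRing R] {M : Type} [LieRing M] [LieAlgebra R M]

/-- `s M + P` -/
def scal (P : LieIdeal R M) (s : R) : LieIdeal R M where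
  carrier := {x | ∃ y, x - s • y ∈ P}
  zero_mem' := ⟨0, by rw [smul_zero, sub_zero]; exact P.zero_mem⟩
  add_mem' := by
    rintro x x' ⟨y, hy⟩ ⟨y', hy'⟩
    refine ⟨y + y', ?_⟩
    have : x + x' - s • (y + y') = (x - s • y) + (x' - s • y') := by rw [smul_add]; abel
    rw [this]
    exact P.add_mem hy hy'
  smul_mem' := by
    rintro c x ⟨y, hy⟩
    refine ⟨c • y, ?_⟩
    have : c • x - s • c • y = c • (x - s • y) := by rw [smul_sub, smul_comm]
    rw [this]
    exact P.smul_mem c hy
  lie_mem := by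
    rintro z x ⟨y, hy⟩
    refine ⟨⁅z, y⁆, ?_⟩
    have : ⁅z, x⁆ - s • ⁅z, y⁆ = ⁅z, x - s • y⁆ := by rw [lie_sub, lie_smul]
    rw [this]
    exact P.lie_mem hy

theorem smul_mem_scal (P : LieIdeal R M) (s : R) (y : M) : s • y ∈ scal P s :=
  ⟨y, by rw [sub_self]; exact P.zero_mem⟩

theorem le_scal (P : LieIdeal R M) (s : R) : P ≤ scal P s := fun x hx =>
  ⟨0, by rw [smul_zero, sub_zero]; exact hx⟩

/-- If `[x, s y] ∈ P` for all `x ∈ T` and `y` then `[T, s M + P] ≤ P`. -/
theorem lie_scal_le (P T : LieIdeal R M) (s : R) (h : ∀ x ∈ T, ∀ y, ⁅x, s • y⁆ ∈ P) :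
    ⁅T, scal P s⁆ ≤ P := by
  rw [LieSubmodule.lie_le_iff]
  rintro x hx z ⟨y, hy⟩
  have h1 : ⁅x, z⁆ = ⁅x, z - s • y⁆ + ⁅x, s • y⁆ := by rw [← lie_add]; congr 1; abel
  rw [h1]
  exact P.add_mem (P.lie_mem hy) (h x hx y)

end prime

section sepp

variable {R0 : Type} [CommRing R0] [Algebra F R0] {M : Type} [LieRing M] [LieAlgebra R0 M]

/-- The annihilator of `M / P`. -/
def ann (P : LieIdeal R0 M) : Ideal R0 where
  carrier := {r | ∀ y : M, r • y ∈ P}
  zero_mem' := fun y => by rw [zero_smul]; exact P.zero_mem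
  add_mem' := fun {a b} ha hb y => by rw [add_smul]; exact P.add_mem (ha y) (hb y)
  smul_mem' := fun c a ha y => by
    rw [smul_eq_mul, mul_smul]
    exact P.smul_mem c (ha y)

theorem mem_ann (P : LieIdeal R0 M) (r : R0) : r ∈ ann P ↔ ∀ y : M, r • y ∈ P := Iff.rfl

theorem ann_prime (P : LieIdeal R0 M) (hP : PrimeId P) (a : M) (ha : a ∉ P) : (ann P).IsPrime := by
  rw [Ideal.isPrime_iff]
  constructor
  · intro h
    have h1 : (1 : R0) ∈ ann P := by rw [h]; trivial
    have h2 := h1 a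
    rw [one_smul] at h2
    exact ha h2
  · intro r s hrs
    have h1 : ⁅scal P r, scal P s⁆ ≤ P := by
      refine lie_scal_le P _ s ?_
      rintro x ⟨z, hz⟩ y
      have h2 : ⁅x, s • y⁆ = ⁅x - r • z, s • y⁆ + (r * s) • ⁅z, y⁆ := by
        rw [sub_lie, smul_lie, lie_smul s z y, smul_smul]
        abel
      rw [h2]
      refine P.add_mem ?_ (hrs ⁅z, y⁆)
      rw [← lie_skew]
      exact P.neg_mem (P.lie_mem hz)
    rcases hP _ _ h1 with h | h
    · exact Or.inl fun y => h (smul_mem_scal P r y)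
    · exact Or.inr fun y => h (smul_mem_scal P s y)

theorem torsion_free [IsNoetherian R0 M] (P : LieIdeal R0 M) (hP : PrimeId P) (a : M) (ha : a ∉ P)
    (s : R0) (hs : s ∉ ann P) (x : M) (hx : s • x ∈ P) : x ∈ P := by
  classical
  have hpr := ann_prime P hP a ha
  let T : LieIdeal R0 M :=
    { carrier := {x | ∃ s, s ∉ ann P ∧ s • x ∈ P}
      zero_mem' := ⟨s, hs, by rw [smul_zero]; exact P.zero_mem⟩
      add_mem' := by
        rintro x y ⟨s, hs, hx⟩ ⟨t, ht, hy⟩
        refine ⟨s * t, fun h => (hpr.mem_or_mem h).elim hs ht, ?_⟩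
        have : (s * t) • (x + y) = t • s • x + s • t • y := by
          rw [smul_add, smul_smul, smul_smul, mul_comm t s]
        rw [this]
        exact P.add_mem (P.smul_mem t hx) (P.smul_mem s hy)
      smul_mem' := by
        rintro c x ⟨s, hs, hx⟩
        refine ⟨s, hs, ?_⟩
        rw [smul_comm]
        exact P.smul_mem c hx
      lie_mem := by
        rintro z x ⟨s, hs, hx⟩
        refine ⟨s, hs, ?_⟩
        rw [← lie_smul]
        exact P.lie_mem hx }
  obtain ⟨G, hG⟩ := (isNoetherian_def.1 ‹IsNoetherian R0 M›) T.toSubmodule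
  have hGT : ∀ g ∈ G, ∃ s, s ∉ ann P ∧ s • g ∈ P := by
    intro g hg
    have h1 : g ∈ T.toSubmodule := by rw [← hG]; exact Submodule.subset_span hg
    exact h1
  choose! sg hsg hsg2 using hGT
  have hprod : ∏ g ∈ G, sg g ∉ ann P := by
    rw [hpr.prod_mem_iff]
    rintro ⟨g, hg, h⟩
    exact hsg g hg h
  have hkill : ∀ x ∈ T, (∏ g ∈ G, sg g) • x ∈ P := by
    intro x hx
    have h1 : x ∈ Submodule.span R0 (G : Set M) := by rw [hG]; exact hx
    induction h1 using Submodule.span_induction with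
    | mem g hg =>
      have hg' : g ∈ G := hg
      rw [← Finset.prod_erase_mul G sg hg', mul_smul]
      exact P.smul_mem _ (hsg2 g hg')
    | zero => rw [smul_zero]; exact P.zero_mem
    | add x y hx' hy' h1 h2 =>
      rw [smul_add]
      exact P.add_mem (h1 (by rw [hG] at hx'; exact hx')) (h2 (by rw [hG] at hy'; exact hy'))
    | smul c x hx' h1 =>
      rw [smul_comm]
      exact P.smul_mem c (h1 (by rw [hG] at hx'; exact hx'))
  have h1 : ⁅T, scal P (∏ g ∈ G, sg g)⁆ ≤ P := by
    refine lie_scal_le P T _ ?_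
    intro x hx y
    rw [lie_smul, ← smul_lie, ← lie_skew]
    exact P.neg_mem (P.lie_mem (hkill x hx))
  rcases hP _ _ h1 with h | h
  · exact h ⟨s, hs, hx⟩
  · exact absurd (fun y => h (smul_mem_scal P _ y)) hprod

theorem prime_sep [IsNoetherian R0 M] {n : ℕ} (q : Fin n → M)
    (hq : Submodule.span R0 (Set.range q) = ⊤) (P : LieIdeal R0 M) (hP : PrimeId P) {f : L → M}
    (hf : Mor F L R0 M f) (R : LieIdeal F L) (a : L) (hR : ∀ r ∈ R, f r ∈ P) (ha : f a ∉ P) :
    ∃ (K : Type) (_ : Field K) (_ : Algebra F K) (Q : Type) (_ : LieRing Q)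
    (_ : LieAlgebra F Q) (_ : LieAlgebra K Q) (_ : IsScalarTower F K Q) (π : L →ₗ⁅F⁆ Q),
    FiniteDimensional K Q ∧ Module.finrank K Q ≤ n ∧ (∀ r ∈ R, π r = 0) ∧ π a ≠ 0 := by
  classical
  have hpr := ann_prime P hP (f a) ha
  let D := R0 ⧸ ann P
  let i0 : IsDomain D := Ideal.Quotient.isDomain (ann P)
  have htor : Module.IsTorsionBySet R0 (M ⧸ P) (ann P : Set R0) := by
    rintro y ⟨r, hr⟩
    obtain ⟨y, rfl⟩ := LieSubmodule.Quotient.surjective_mk' P y
    exact (LieSubmodule.Quotient.mk_eq_zero' (N := P)).2 (hr y)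
  let i1 : Module D (M ⧸ P) := htor.module
  have hsm : ∀ (r : R0) (y : M ⧸ P), (Ideal.Quotient.mk (ann P) r : D) • y = r • y := fun r y => rfl
  let i2 : LieAlgebra D (M ⧸ P) := { i1 with
    lie_smul := by
      intro t x y
      obtain ⟨r, rfl⟩ := Ideal.Quotient.mk_surjective t
      rw [hsm, hsm, lie_smul] }
  let mk : M → M ⧸ P := fun x => LieSubmodule.Quotient.mk x
  have hmk : ∀ x, mk x = 0 ↔ x ∈ P := fun x => LieSubmodule.Quotient.mk_eq_zero' (N := P)
  have hspan : Submodule.span D (Set.range fun i => mk (q i)) = ⊤ := by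
    rw [eq_top_iff]
    rintro y -
    obtain ⟨y, rfl⟩ := LieSubmodule.Quotient.surjective_mk' P y
    have hy : y ∈ Submodule.span R0 (Set.range q) := by rw [hq]; trivial
    change mk y ∈ _
    induction hy using Submodule.span_induction with
    | mem x hx =>
      obtain ⟨i, rfl⟩ := hx
      exact Submodule.subset_span ⟨i, rfl⟩
    | zero => exact Submodule.zero_mem _
    | add x y _ _ hx hy => exact Submodule.add_mem _ hx hy
    | smul t x _ hx => exact Submodule.smul_mem _ (Ideal.Quotient.mk (ann P) t : D) hx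
  refine dom (D := D) (M := M ⧸ P) ?_ (fun i => mk (q i)) hspan (f := fun x => mk (f x)) ⟨?_, ?_, ?_⟩
    R a (fun r hr => (hmk _).2 (hR r hr)) (fun h => ha ((hmk _).1 h))
  · intro c m hc hcm
    obtain ⟨r, rfl⟩ := Ideal.Quotient.mk_surjective c
    obtain ⟨y, rfl⟩ := LieSubmodule.Quotient.surjective_mk' P m
    have hr : r ∉ ann P := fun h => hc (Ideal.Quotient.eq_zero_iff_mem.2 h)
    exact (hmk y).2 (torsion_free P hP (f a) ha r hr y ((hmk _).1 hcm))
  · intro x y
    change mk (f (x + y)) = mk (f x + f y)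
    rw [hf.add]
  · intro c x
    change mk (f (c • x)) = mk (algebraMap F R0 c • f x)
    rw [hf.smul]
  · intro x y
    change mk (f ⁅x, y⁆) = mk ⁅f x, f y⁆
    rw [hf.lie]

end sepp

section noeth

/-- The noetherian case. -/
theorem noeth {R0 : Type} [CommRing R0] [Algebra F R0] {M : Type} [LieRing M] [LieAlgebra R0 M]
    [IsNoetherian R0 M] {n : ℕ} (q : Fin n → M) (hq : Submodule.span R0 (Set.range q) = ⊤)
    {f : L → M} (hf : Mor F L R0 M f) (hinj : Function.Injective f) :
    ∃ (R : LieIdeal F L) (l : ℕ), LieAlgebra.derivedSeriesOfIdeal F L l R = ⊥ ∧ Sepd F L R n := by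
  classical
  have hf0 : f 0 = 0 := by
    have h := hf.add 0 0
    rw [add_zero] at h
    exact (left_eq_add.1 h)
  let rad := LieAlgebra.radical R0 M
  let R : LieIdeal F L :=
    { carrier := {x | f x ∈ rad}
      zero_mem' := by
        change f 0 ∈ rad
        rw [hf0]
        exact rad.zero_mem
      add_mem' := by
        intro x y hx hy
        change f (x + y) ∈ rad
        rw [hf.add]
        exact rad.add_mem hx hy
      smul_mem' := by
        intro c x hx
        change f (c • x) ∈ rad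
        rw [hf.smul]
        exact rad.smul_mem _ hx
      lie_mem := by
        intro z x hx
        change f ⁅z, x⁆ ∈ rad
        rw [hf.lie]
        exact rad.lie_mem hx }
  obtain ⟨l, hl⟩ := (LieAlgebra.isSolvable_iff R0 rad).1 inferInstance
  rw [LieIdeal.derivedSeries_eq_bot_iff] at hl
  refine ⟨R, l, ?_, ?_⟩
  · have key : ∀ l, ∀ x ∈ LieAlgebra.derivedSeriesOfIdeal F L l R,
        f x ∈ LieAlgebra.derivedSeriesOfIdeal R0 M l rad := by
      intro l
      induction l with
      | zero => intro x hx; exact hx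
      | succ l ih =>
        intro x hx
        rw [LieAlgebra.derivedSeriesOfIdeal_succ] at hx
        have hx' : x ∈ (⁅LieAlgebra.derivedSeriesOfIdeal F L l R,
            LieAlgebra.derivedSeriesOfIdeal F L l R⁆ : LieIdeal F L).toSubmodule := hx
        rw [LieSubmodule.lieIdeal_oper_eq_linear_span'] at hx'
        clear hx
        induction hx' using Submodule.span_induction with
        | mem y hy =>
          obtain ⟨u, hu, v, hv, rfl⟩ := hy
          rw [hf.lie, LieAlgebra.derivedSeriesOfIdeal_succ]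
          exact LieSubmodule.lie_mem_lie (ih u hu) (ih v hv)
        | zero => rw [hf0]; exact (LieAlgebra.derivedSeriesOfIdeal R0 M (l + 1) rad).zero_mem
        | add y z _ _ hy hz =>
          rw [hf.add]
          exact (LieAlgebra.derivedSeriesOfIdeal R0 M (l + 1) rad).add_mem hy hz
        | smul c y _ hy =>
          rw [hf.smul]
          exact (LieAlgebra.derivedSeriesOfIdeal R0 M (l + 1) rad).smul_mem _ hy
    rw [eq_bot_iff]
    intro x hx
    have h1 := key l x hx
    rw [hl, LieSubmodule.mem_bot] at h1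
    rw [LieSubmodule.mem_bot]
    exact hinj (by rw [h1, hf0])
  · intro a ha
    obtain ⟨P, hRP, haP, hP⟩ := exists_prime rad radical_semiprime (f a) ha
    exact prime_sep q hq P hP hf R a (fun r hr => hRP hr) haP

end noeth

section main

/-- `L` embeds in a Lie algebra over a commutative `F`-algebra `A` which is a finitely generated
`A`-module. -/
def FiniteRank (F : Type) [Field F] (L : Type) [LieRing L] [LieAlgebra F L] : Prop :=
  ∃ (A : Type) (_ : CommRing A) (_ : Algebra F A) (Q : Type) (_ : LieRing Q) (_ : LieAlgebra F Q)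
    (_ : LieAlgebra A Q) (_ : IsScalarTower F A Q) (π : L →ₗ⁅F⁆ Q), Function.Injective π ∧
    Module.Finite A Q

theorem span_coeff {A : Type} [CommRing A] {Q : Type} [AddCommGroup Q] [Module A Q] {n : ℕ}
    (q : Fin n → Q) (hq : Submodule.span A (Set.range q) = ⊤) (v : Q) :
    ∃ c : Fin n → A, ∑ i, c i • q i = v := by
  have h : v ∈ Submodule.span A (Set.range q) := by rw [hq]; trivial
  exact (Submodule.mem_span_range_iff_exists_fun A).1 h

theorem main (hfg : IsFG F L) (h : FiniteRank F L) :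
    ∃ (R : LieIdeal F L) (l d : ℕ), LieAlgebra.derivedSeriesOfIdeal F L l R = ⊥ ∧
      Sepd F L R d := by
  classical
  obtain ⟨s, hs, hgen⟩ := hfg
  obtain ⟨A, _, _, Q, _, _, _, _, π, hπ, hfin⟩ := h
  obtain ⟨n, q, hq⟩ := Module.Finite.exists_fin (R := A) (M := Q)
  choose co hco using span_coeff q hq
  let S : Set A := (Set.range fun p : Fin n × Fin n × Fin n => co ⁅q p.1, q p.2.1⁆ p.2.2) ∪
    Set.image2 (fun y i => co (π y) i) s Set.univ
  have hS : S.Finite := (Set.finite_range _).union (hs.image2 _ Set.finite_univ)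
  let R0 : Subalgebra F A := Algebra.adjoin F S
  have hR0 : Algebra.FiniteType F R0 := by
    rw [← Subalgebra.fg_iff_finiteType]
    exact ⟨hS.toFinset, by rw [Set.Finite.coe_toFinset]⟩
  have hnoe : IsNoetherianRing R0 := Algebra.FiniteType.isNoetherianRing F R0
  have hc1 : ∀ i j k, co ⁅q i, q j⁆ k ∈ R0 := fun i j k =>
    Algebra.subset_adjoin (Or.inl ⟨(i, j, k), rfl⟩)
  have hc2 : ∀ y ∈ s, ∀ i, co (π y) i ∈ R0 := fun y hy i =>
    Algebra.subset_adjoin (Or.inr ⟨y, hy, i, trivial, rfl⟩)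
  let i1 : LieAlgebra R0 Q := { lie_smul := fun t x y => lie_smul (t : A) x y }
  have hsm : ∀ (t : R0) (x : Q), t • x = (t : A) • x := fun t x => rfl
  have hmem : ∀ (v : Q), (∀ i, co v i ∈ R0) → v ∈ Submodule.span R0 (Set.range q) := by
    intro v hv
    rw [← hco v]
    refine Submodule.sum_mem _ fun i _ => ?_
    exact Submodule.smul_mem _ (⟨co v i, hv i⟩ : R0) (Submodule.subset_span ⟨i, rfl⟩)
  let Q0 : LieSubalgebra R0 Q :=
    { Submodule.span R0 (Set.range q) with
      lie_mem' := by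
        intro x y hx hy
        have hx1 : x ∈ Submodule.span R0 (Set.range q) := hx
        have hy1 : y ∈ Submodule.span R0 (Set.range q) := hy
        change ⁅x, y⁆ ∈ Submodule.span R0 (Set.range q)
        clear hx hy
        induction hx1 using Submodule.span_induction with
        | mem x hx =>
          obtain ⟨i, rfl⟩ := hx
          induction hy1 using Submodule.span_induction with
          | mem y hy =>
            obtain ⟨j, rfl⟩ := hy
            exact hmem _ (hc1 i j)
          | zero => rw [lie_zero]; exact Submodule.zero_mem _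
          | add y z _ _ hy hz => rw [lie_add]; exact Submodule.add_mem _ hy hz
          | smul t y _ hy => rw [lie_smul]; exact Submodule.smul_mem _ _ hy
        | zero => rw [zero_lie]; exact Submodule.zero_mem _
        | add y z _ _ hy hz => rw [add_lie]; exact Submodule.add_mem _ hy hz
        | smul t y _ hy => rw [smul_lie]; exact Submodule.smul_mem _ _ hy }
  have hQ0 : ∀ x, x ∈ Q0 ↔ x ∈ Submodule.span R0 (Set.range q) := fun x => Iff.rfl
  have hF : ∀ (c : F) (x : Q), c • x = (algebraMap F R0 c) • x := by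
    intro c x
    rw [hsm, Subalgebra.coe_algebraMap, algebraMap_smul]
  have hπQ : ∀ x : L, π x ∈ Q0 := by
    intro x
    have hx : x ∈ LieSubalgebra.lieSpan F L s := by rw [hgen]; exact LieSubalgebra.mem_top x
    induction hx using LieSubalgebra.lieSpan_induction with
    | mem y hy => exact hmem _ (hc2 y hy)
    | zero => rw [map_zero]; exact Q0.zero_mem
    | add y z _ _ hy hz => rw [map_add]; exact Q0.add_mem hy hz
    | smul t y _ hy =>
      rw [map_smul, hF]
      exact Q0.smul_mem _ hy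
    | lie y z _ _ hy hz =>
      rw [LieHom.map_lie]
      exact Q0.lie_mem hy hz
  let q' : Fin n → Q0 := fun i => ⟨q i, (hQ0 _).2 (Submodule.subset_span ⟨i, rfl⟩)⟩
  have hq' : Submodule.span R0 (Set.range q') = ⊤ := by
    rw [eq_top_iff]
    rintro ⟨x, hx⟩ -
    have hx1 : x ∈ Submodule.span R0 (Set.range q) := hx
    obtain ⟨c, hc⟩ := (Submodule.mem_span_range_iff_exists_fun R0).1 hx1
    have h1 : (⟨x, hx⟩ : Q0) = ∑ i, c i • q' i := by
      apply Subtype.ext
      rw [AddSubmonoidClass.coe_finsetSum]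
      exact hc.symm
    rw [h1]
    exact Submodule.sum_mem _ fun i _ => Submodule.smul_mem _ _ (Submodule.subset_span ⟨i, rfl⟩)
  have hfinQ : Module.Finite R0 Q0 := ⟨⟨(Set.finite_range q').toFinset, by
    rw [Set.Finite.coe_toFinset]; exact hq'⟩⟩
  have hnQ : IsNoetherian R0 Q0 := isNoetherian_of_isNoetherianRing_of_finite R0 Q0
  obtain ⟨R, l, h1, h2⟩ := noeth (R0 := R0) (M := Q0) q' hq' (f := fun x : L => (⟨π x, hπQ x⟩ : Q0))
    ⟨fun x y => Subtype.ext (map_add π x y), fun c x => Subtype.ext (by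
      change π (c • x) = algebraMap F R0 c • π x
      rw [map_smul, hF]), fun x y => Subtype.ext (LieHom.map_lie π x y)⟩
    (fun x y hxy => hπ (congrArg Subtype.val hxy))
  exact ⟨R, l, n, h1, h2⟩

end main

end NRM

/-- **NR**.  If `R` is a soluble ideal of the finitely generated algebra `L` and `L/R` embeds in a Lie
algebra of finite rank over a commutative ring, then `L` is soluble-by-(residually bounded). -/
theorem specNR {F : Type} [Field F] {L : Type} [LieRing L] [LieAlgebra F L] (hfg : IsFG F L)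
    (R : LieIdeal F L) (l : ℕ) (hR : LieAlgebra.derivedSeriesOfIdeal F L l R = ⊥)
    (h : NRM.FiniteRank F (L ⧸ R)) : ∃ l d : ℕ, SolubleByResiduallyBounded F l d L := by
  obtain ⟨R', l', d, hR', hS⟩ := NRM.main (hfg.of_surjective (mkHom R) (mkHom_surjective R)) h
  refine ⟨l + l', d, LieIdeal.comap (mkHom R) R', ?_, ?_⟩
  · rw [LieAlgebra.derivedSeriesOfIdeal_add, eq_bot_iff, ← hR]
    refine LieAlgebra.derivedSeriesOfIdeal_mono ?_ l
    refine (derived_comap (mkHom R) _ R' le_rfl l').trans ?_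
    rw [hR']
    intro x hx
    rw [LieIdeal.mem_comap, LieSubmodule.mem_bot, mkHom_eq_zero] at hx
    exact hx
  · intro a ha
    rw [LieIdeal.mem_comap] at ha
    obtain ⟨K, i1, i2, Q, i3, i4, i5, i6, π, h1, h2, -, h4⟩ := hS _ ha
    exact ⟨K, i1, i2, Q, i3, i4, i5, i6, π.comp (mkHom R), h1, h2, h4⟩

end Pool.Agent.Lib.MP_8f946f_al.CP
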