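import Pool.Agent.Lib.MP_8f946f_al.CP.SpecR
import Pool.Agent.Lib.MP_8f946f_al.CP.Asm
import Pool.Agent.Lib.MP_8f946f_al.Sol.Asm

/-!
# Locally soluble-by-Capelli varieties with a monic identity are locally soluble-by-finite
-/

set_option autoImplicit false

namespace Pool.Agent.Lib.MP_8f946f_al.CP

/-- A finitely generated algebra with a monic identity and the Capelli identities of some order is
soluble-by-finite. -/
theorem sf_of_capelli (hPB : SpecPB) (hRD : SpecRD) {F : Type} [Field F] [Finite F] {k : ℕ}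
    {c : ℕ → Polynomial F} {w : FreeLieAlgebra F ℕ} (hw : w ∈ freeThird F) (L : Type) [LieRing L]
    [LieAlgebra F L] (hfg : IsFG F L) (hL : Satisfies {mono k c w} L) (m : ℕ)
    (hm : Capelli m L) : SF F L := by
  obtain ⟨P, hP, hPI⟩ := hPB F k c w hw L hfg hL m hm
  exact hRD F k c w hw L hfg hL m hm P hP hPI

/-- soluble-by-(soluble-by-finite) algebras are soluble-by-finite -/
theorem sf_of_quotient {F : Type} [Field F] (L : Type) [LieRing L] [LieAlgebra F L]
    (R : LieIdeal F L) (l : ℕ) (hR : LieAlgebra.derivedSeriesOfIdeal F L l R = ⊥)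
    (h : SF F (L ⧸ R)) : SF F L := by
  obtain ⟨S, d, hS, hd⟩ := h
  refine ⟨LieIdeal.comap (mkHom R) S, l + d, ?_, ?_⟩
  · let f : (L ⧸ LieIdeal.comap (mkHom R) S) →ₗ[F] ((L ⧸ R) ⧸ S) :=
      Submodule.mapQ (LieIdeal.comap (mkHom R) S).toSubmodule S.toSubmodule
        (mkHom R : L →ₗ[F] (L ⧸ R)) (fun x hx => hx)
    have hf : Function.Injective f := by
      rw [← LinearMap.ker_eq_bot, eq_bot_iff]
      intro y hy
      obtain ⟨y, rfl⟩ := mkHom_surjective _ y
      have h1 : mkHom S (mkHom R y) = 0 := hy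
      rw [mkHom_eq_zero] at h1
      rw [Submodule.mem_bot, mkHom_eq_zero, LieIdeal.mem_comap]
      exact h1
    exact Module.Finite.of_injective f hf
  · rw [LieAlgebra.derivedSeriesOfIdeal_add, eq_bot_iff, ← hR]
    refine LieAlgebra.derivedSeriesOfIdeal_le ?_ le_rfl
    intro x hx
    rw [← mkHom_eq_zero]
    have h2 := derived_comap (mkHom R) (LieIdeal.comap (mkHom R) S) S le_rfl d hx
    rw [LieIdeal.mem_comap, hd, LieSubmodule.mem_bot] at h2
    exact h2

/-- Locally soluble-by-Capelli varieties with a monic identity are locally soluble-by-finite. -/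
theorem solubleByFinite_of_capelli (hPB : SpecPB) (hRD : SpecRD) {F : Type} [Field F] [Finite F]
    {Γ : Set (FreeLieAlgebra F ℕ)} (hΓ : LocallySolubleByCapelli Γ) (hmi : HasMonicIdentity Γ) :
    Sol.LocallySolubleByFinite Γ := by
  obtain ⟨k, c, w, hw, hid⟩ := hmi
  intro L _ _ hL hfg
  obtain ⟨R, l, m, hR, hm⟩ := hΓ L hL hfg
  have h1 : SF F (L ⧸ R) := sf_of_capelli hPB hRD hw (L ⧸ R)
    (hfg.of_surjective (mkHom R) (mkHom_surjective R)) (hid (L ⧸ R) (hL.quotient R)) m hm
  exact sf_of_quotient L R l hR h1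

/-- The classification of the locally residually finite varieties among the locally
soluble-by-Capelli ones. -/
theorem locallyRF_iff (hPB : SpecPB) (hRD : SpecRD) {F : Type} [Field F] [Finite F]
    {Γ : Set (FreeLieAlgebra F ℕ)} (hΓ : LocallySolubleByCapelli Γ) :
    (LocallyRF Γ ↔ HasMonicIdentity Γ) ∧ (HasMonicIdentity Γ → LocallyNilpotentByFinite Γ) := by
  have h1 : HasMonicIdentity Γ → LocallyNilpotentByFinite Γ := fun h =>
    Sol.specFinal' F Γ (solubleByFinite_of_capelli hPB hRD hΓ h) h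
  exact ⟨⟨fun h => hasMonicIdentity_of_locallyRF h,
    fun h => locallyRF_of_hasMonicIdentity (h1 h) h⟩, h1⟩

end Pool.Agent.Lib.MP_8f946f_al.CP
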