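import Pool.Agent.Lib.MP_8f946f_al.CP.SpecR
import Pool.Agent.Lib.MP_8f946f_al.CP.EX
import Pool.Agent.Lib.MP_8f946f_al.Main

/-!
# Capelli, part B: a perfect ideal with nilpotent-by-finite quotient is not in the prime radical
(module RBC, helper12)
-/

set_option autoImplicit false

namespace Pool.Agent.Lib.MP_8f946f_al.CP

namespace BCM

variable {F : Type} [Field F] {L L' : Type} [LieRing L] [LieAlgebra F L] [LieRing L']
  [LieAlgebra F L']

/-- a morphism over `F` as a morphism over `ℤ` -/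
def toInt (f : L →ₗ⁅F⁆ L') : L →ₗ⁅ℤ⁆ L' :=
  { (f : L →ₗ[F] L').toAddMonoidHom.toIntLinearMap with
    map_lie' := fun {x y} => LieHom.map_lie f x y }

theorem toInt_apply (f : L →ₗ⁅F⁆ L') (x : L) : toInt f x = f x := rfl

theorem mem_map {f : L →ₗ⁅F⁆ L'} (hf : Function.Surjective f) {I : LieIdeal F L} {y : L'} :
    y ∈ LieIdeal.map f I ↔ ∃ x ∈ I, f x = y := by
  constructor
  · intro h
    obtain ⟨x, hx⟩ := LieIdeal.mem_map_of_surjective hf h
    exact ⟨x, x.2, hx⟩
  · rintro ⟨x, hx, rfl⟩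
    exact LieIdeal.mem_map hx

/-- prime quotients -/
theorem prime_iff (C : LieIdeal F L) : PrimeLie F (L ⧸ C) ↔
    ∀ A B : LieIdeal F L, ⁅A, B⁆ ≤ C → A ≤ C ∨ B ≤ C := by
  have hs := mkHom_surjective C
  have hmap : ∀ A : LieIdeal F L, LieIdeal.map (mkHom C) A = ⊥ → A ≤ C := by
    intro A hA a ha
    have h1 : mkHom C a ∈ LieIdeal.map (mkHom C) A := LieIdeal.mem_map ha
    rw [hA] at h1
    exact (mkHom_eq_zero C a).1 ((LieSubmodule.mem_bot _).1 h1)
  constructor
  · intro h A B hAB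
    have h1 : ⁅LieIdeal.map (mkHom C) A, LieIdeal.map (mkHom C) B⁆ = ⊥ := by
      rw [← LieIdeal.map_bracket_eq _ hs, eq_bot_iff, LieIdeal.map_le_iff_le_comap]
      intro x hx
      rw [LieIdeal.mem_comap, LieSubmodule.mem_bot, mkHom_eq_zero]
      exact hAB hx
    exact (h _ _ h1).imp (hmap A) (hmap B)
  · intro h A B hAB
    have h1 : ⁅LieIdeal.comap (mkHom C) A, LieIdeal.comap (mkHom C) B⁆ ≤ C := by
      intro x hx
      have h2 := LieIdeal.comap_bracket_le (mkHom C) hx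
      rw [hAB, LieIdeal.mem_comap, LieSubmodule.mem_bot, mkHom_eq_zero] at h2
      exact h2
    have h3 : ∀ A : LieIdeal F (L ⧸ C), LieIdeal.comap (mkHom C) A ≤ C → A = ⊥ := by
      intro A hA
      rw [LieSubmodule.eq_bot_iff]
      intro y hy
      obtain ⟨x, rfl⟩ := hs y
      rw [mkHom_eq_zero]
      exact hA (LieIdeal.mem_comap.2 hy)
    exact (h _ _ h1).imp (h3 A) (h3 B)

/-- the preimage of a prime ideal -/
theorem prime_comap {f : L →ₗ⁅F⁆ L'} (hf : Function.Surjective f) {C : LieIdeal F L'}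
    (hC : PrimeLie F (L' ⧸ C)) : PrimeLie F (L ⧸ LieIdeal.comap f C) := by
  rw [prime_iff] at hC ⊢
  intro A B hAB
  have h1 : ⁅LieIdeal.map f A, LieIdeal.map f B⁆ ≤ C := by
    rw [← LieIdeal.map_bracket_eq _ hf, LieIdeal.map_le_iff_le_comap]
    exact hAB
  exact (hC _ _ h1).imp LieIdeal.map_le_iff_le_comap.1 LieIdeal.map_le_iff_le_comap.1

/-- the image of a perfect ideal -/
theorem perfect_map {f : L →ₗ⁅F⁆ L'} (hf : Function.Surjective f) {G : LieIdeal F L}
    (hG : ⁅G, G⁆ = G) : ⁅LieIdeal.map f G, LieIdeal.map f G⁆ = LieIdeal.map f G := by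
  rw [← LieIdeal.map_bracket_eq _ hf, hG]

/-- finite codimension -/
theorem finite_map {f : L →ₗ⁅F⁆ L'} (hf : Function.Surjective f) {N : LieIdeal F L}
    (hN : FiniteDimensional F (L ⧸ N)) {N' : LieIdeal F L'} (h : LieIdeal.map f N ≤ N') :
    FiniteDimensional F (L' ⧸ N') := by
  let g : L →ₗ[F] L' ⧸ N' := ((mkHom N' : L' →ₗ⁅F⁆ L' ⧸ N') : L' →ₗ[F] L' ⧸ N').comp (f : L →ₗ[F] L')
  have hg : N.toSubmodule ≤ LinearMap.ker g := by
    intro x hx
    rw [LinearMap.mem_ker]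
    exact (mkHom_eq_zero N' (f x)).2 (h (LieIdeal.mem_map hx))
  have hs : Function.Surjective (N.toSubmodule.liftQ g hg) := by
    intro y
    obtain ⟨z, rfl⟩ := mkHom_surjective N' y
    obtain ⟨x, rfl⟩ := hf z
    exact ⟨Submodule.Quotient.mk x, Submodule.liftQ_apply _ _ _⟩
  have : Module.Finite F (L ⧸ N.toSubmodule) := hN
  exact Module.Finite.of_surjective (N.toSubmodule.liftQ g hg) hs

/-- the lower central series of the image -/
theorem gam_map {f : L →ₗ⁅F⁆ L'} (hf : Function.Surjective f) (N : LieIdeal F L) (i : ℕ) :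
    gam (LieIdeal.map f N) i = LieIdeal.map f (gam N i) := by
  induction i with
  | zero => rfl
  | succ i ih =>
    show ⁅LieIdeal.map f N, gam (LieIdeal.map f N) i⁆ = LieIdeal.map f ⁅N, gam N i⁆
    rw [ih, LieIdeal.map_bracket_eq _ hf]

/-- adding an ideal -/
theorem gam_sup_le (N G : LieIdeal F L) (i : ℕ) : gam (N ⊔ G) i ≤ gam N i ⊔ G := by
  induction i with
  | zero => exact le_rfl
  | succ i ih =>
    show ⁅N ⊔ G, gam (N ⊔ G) i⁆ ≤ ⁅N, gam N i⁆ ⊔ G
    refine (LieSubmodule.mono_lie_right _ ih).trans ?_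
    rw [LieSubmodule.sup_lie, LieSubmodule.lie_sup, LieSubmodule.lie_sup]
    refine sup_le (sup_le le_sup_left ?_) (sup_le ?_ ?_)
    · exact (LieSubmodule.lie_le_right _ _).trans le_sup_right
    · exact (LieSubmodule.lie_le_left _ _).trans le_sup_right
    · exact (LieSubmodule.lie_le_left _ _).trans le_sup_right

/-- a perfect ideal is in the lower central series -/
theorem le_gam_of_perfect {N G : LieIdeal F L} (hG : ⁅G, G⁆ = G) (h : G ≤ N) (i : ℕ) :
    G ≤ gam N i := by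
  induction i with
  | zero => exact h
  | succ i ih =>
    show G ≤ ⁅N, gam N i⁆
    calc G = ⁅G, G⁆ := hG.symm
      _ ≤ ⁅N, gam N i⁆ := LieSubmodule.mono_lie h ih

theorem alt_push {f : L →ₗ⁅F⁆ L'} {d : ℕ} {φ : (Fin d → L) → L} {φ' : (Fin d → L') → L'}
    (h : ∀ x, f (φ x) = φ' fun i => f (x i)) (x : Fin d → L) :
    f (alt φ x) = alt φ' fun i => f (x i) := by
  unfold alt
  rw [map_sum]
  refine Finset.sum_congr rfl fun σ _ => ?_
  rw [map_zsmul, h]

/-- Capelli values go to Capelli values -/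
theorem map_TId (f : L →ₗ⁅F⁆ L') (d : ℕ) :
    LieIdeal.map f (TId F L d) ≤ TId F L' d := by
  rw [LieIdeal.map_le_iff_le_comap]
  unfold TId
  rw [LieSubmodule.lieSpan_le]
  rintro z ⟨φ, hφ, x, rfl⟩
  obtain ⟨φ', h1, h2⟩ := EXM.push (toInt f) hφ
  show f (alt φ x) ∈ TId F L' d
  rw [alt_push (f := f) (φ' := φ') h2]
  exact LieSubmodule.subset_lieSpan ⟨φ', h1, _, rfl⟩

/-- the quotient by `TId` -/
theorem capelli_quot (d : ℕ) : Capelli d (L ⧸ TId F L d) := by
  intro φ' hφ' x'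
  obtain ⟨φ, h1, h2⟩ := EXM.pull' (toInt (mkHom (TId F L d))) (mkHom_surjective _) hφ'
  choose x hx using fun i => mkHom_surjective (TId F L d) (x' i)
  have h3 : mkHom (TId F L d) (alt φ x) = 0 := by
    rw [mkHom_eq_zero]
    exact LieSubmodule.subset_lieSpan ⟨φ, h1, x, rfl⟩
  rw [alt_push (φ' := φ') h2] at h3
  have h4 : (fun i => mkHom (TId F L d) (x i)) = x' := funext hx
  rw [h4] at h3
  exact h3

/-- the centralizer of an ideal -/
def cz (G : LieIdeal F L) : LieIdeal F L where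
  carrier := {x | ∀ m ∈ G, ⁅x, m⁆ = 0}
  zero_mem' := fun m _ => zero_lie m
  add_mem' := fun {a b} ha hb m hm => by rw [add_lie, ha m hm, hb m hm, add_zero]
  smul_mem' := fun c a ha m hm => by rw [smul_lie, ha m hm, smul_zero]
  lie_mem := by
    intro y x hx m hm
    rw [lie_lie, hx m hm, lie_zero, hx _ (G.lie_mem hm), sub_zero]

theorem mem_cz {G : LieIdeal F L} {x : L} : x ∈ cz G ↔ ∀ m ∈ G, ⁅x, m⁆ = 0 := Iff.rfl

/-- elements which centralize `G` modulo the centralizer of the perfect ideal `G` -/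
theorem mem_cz_of {G : LieIdeal F L} (hG : ⁅G, G⁆ = G) {l : L} (h : ∀ g ∈ G, ⁅l, g⁆ ∈ cz G) :
    l ∈ cz G := by
  rw [mem_cz]
  intro m hm
  rw [← hG] at hm
  have h1 : (⁅G, G⁆ : LieIdeal F L).toSubmodule ≤
      LinearMap.ker (LieModule.toEnd F L L l) := by
    rw [LieSubmodule.lieIdeal_oper_eq_linear_span']
    rw [Submodule.span_le]
    rintro _ ⟨a, ha, b, hb, rfl⟩
    show ⁅l, ⁅a, b⁆⁆ = 0
    rw [leibniz_lie, mem_cz.1 (h a ha) b hb, zero_add, ← lie_skew, mem_cz.1 (h b hb) a ha,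
      neg_zero]
  exact h1 hm

/-- the conclusion, pulled back -/
theorem pull {f : L →ₗ⁅F⁆ L'} (hf : Function.Surjective f) {G : LieIdeal F L}
    (h : ∃ C : LieIdeal F L', PrimeLie F (L' ⧸ C) ∧ ¬ LieIdeal.map f G ≤ C) :
    ∃ C : LieIdeal F L, PrimeLie F (L ⧸ C) ∧ ¬ G ≤ C := by
  obtain ⟨C, hC, hGC⟩ := h
  exact ⟨LieIdeal.comap f C, prime_comap hf hC, fun h => hGC (LieIdeal.map_le_iff_le_comap.2 h)⟩

theorem map_ne_bot {f : L →ₗ⁅F⁆ L'} {G K : LieIdeal F L} (hK : ∀ x, f x = 0 → x ∈ K)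
    (h : ¬ G ≤ K) : LieIdeal.map f G ≠ ⊥ := by
  intro h1
  apply h
  intro x hx
  apply hK
  have h2 : f x ∈ LieIdeal.map f G := LieIdeal.mem_map hx
  rw [h1] at h2
  exact (LieSubmodule.mem_bot _).1 h2

end BCM

open BCM in
theorem specBC (hTR : SpecTR) (hFG1 : SpecFG1) (hFG2 : SpecFG2) (hMX : SpecMX) (hEX : SpecEX) :
    SpecBC := by
  intro F _ m
  induction m with
  | zero =>
    intro L _ _ _ hC G N c _ hG0 _ _
    exfalso
    apply hG0
    rw [LieSubmodule.eq_bot_iff]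
    intro a _
    have h1 : LieMon L (Finset.univ : Finset (Fin 0)) (fun _ => a) := by
      rw [Finset.univ_eq_empty]
      exact LieMon.const a
    have h2 := hC _ h1 (fun i => i.elim0)
    simpa using h2
  | succ d ih =>
    intro L _ _ hfg hC G N c hG hG0 hN hc
    by_cases hT : G ≤ TId F L d
    · -- the centralizer of `G`
      have hnot : ¬ G ≤ cz G := by
        intro h
        apply hG0
        rw [← hG, eq_bot_iff, LieSubmodule.lie_le_iff]
        intro a ha b hb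
        rw [LieSubmodule.mem_bot]
        exact mem_cz.1 (h ha) b hb
      have hs := mkHom_surjective (cz G)
      have hker : ∀ x, mkHom (cz G) x = 0 → x ∈ cz G := fun x => (mkHom_eq_zero _ x).1
      obtain ⟨G', hG'⟩ : ∃ G' : LieIdeal F (L ⧸ cz G), G' = LieIdeal.map (mkHom (cz G)) G :=
        ⟨_, rfl⟩
      have hG'perf : ⁅G', G'⁆ = G' := by rw [hG']; exact perfect_map hs hG
      have hG'0 : G' ≠ ⊥ := by rw [hG']; exact map_ne_bot hker hnot
      have hG'T : G' ≤ TId F (L ⧸ cz G) d := by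
        rw [hG']
        exact (LieIdeal.map_mono hT).trans (map_TId _ d)
      have hfaith0 : ∀ l : L ⧸ cz G, (∀ v ∈ G', ⁅l, v⁆ = 0) → l = 0 := by
        intro l hl
        obtain ⟨l, rfl⟩ := hs l
        rw [mkHom_eq_zero]
        apply mem_cz_of hG
        intro g hg
        rw [← mkHom_eq_zero, LieHom.map_lie]
        apply hl
        rw [hG']
        exact LieIdeal.mem_map hg
      have hfaith : Faith F (L ⧸ cz G) (TId F (L ⧸ cz G) d) := fun l hl =>
        hfaith0 l fun v hv => hl v (hG'T hv)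
      have hC' : Capelli (d + 1) (L ⧸ cz G) := hEX.sur L (L ⧸ cz G) (d + 1)
        (toInt (mkHom (cz G))) hs hC
      have hInt := hTR F (L ⧸ cz G) d hC' hfaith
      have hfg' : IsFG F (L ⧸ cz G) := hfg.of_surjective (mkHom (cz G)) hs
      obtain ⟨N', hN'⟩ : ∃ N' : LieIdeal F (L ⧸ cz G),
        N' = LieIdeal.map (mkHom (cz G)) N ⊔ G' := ⟨_, rfl⟩
      have hNfin : FiniteDimensional F ((L ⧸ cz G) ⧸ N') := by
        refine finite_map hs hN ?_
        rw [hN']
        exact le_sup_left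
      have hGN : G' ≤ N' := by rw [hN']; exact le_sup_right
      have hgam : gam N' c = G' := by
        refine le_antisymm ?_ (le_gam_of_perfect hG'perf hGN c)
        rw [hN']
        refine (gam_sup_le _ _ c).trans (sup_le ?_ le_rfl)
        rw [gam_map hs, hG']
        exact LieIdeal.map_mono hc
      obtain ⟨Y, hY1, hY2, hY3⟩ := hFG1 F (L ⧸ cz G) hfg' (TId F (L ⧸ cz G) d) d hfaith hInt N'
        hNfin
      obtain ⟨Z, hZ1, hZ2, hZ3⟩ := hFG2 F (L ⧸ cz G) (TId F (L ⧸ cz G) d) N' c Y hfaith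
        (by rw [hgam]; exact hG'T) hY1 hY2 hY3
      rw [hgam] at hZ2 hZ3
      have h := hMX F (L ⧸ cz G) (TId F (L ⧸ cz G) d) G' hG'T hG'perf hG'0 Z hZ1 hZ2 hZ3
      rw [hG'] at h
      exact pull hs h
    · have hs := mkHom_surjective (TId F L d)
      have hker : ∀ x, mkHom (TId F L d) x = 0 → x ∈ TId F L d := fun x => (mkHom_eq_zero _ x).1
      refine pull hs (ih (L ⧸ TId F L d) (hfg.of_surjective _ hs) (capelli_quot d)
        (LieIdeal.map (mkHom (TId F L d)) G) (LieIdeal.map (mkHom (TId F L d)) N) c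
        (perfect_map hs hG) (map_ne_bot hker hT) (finite_map hs hN le_rfl) ?_)
      rw [gam_map hs]
      exact LieIdeal.map_mono hc

end Pool.Agent.Lib.MP_8f946f_al.CP
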