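import Pool.Agent.Lib.MP_8f946f_al.CP.SpecR

/-!
# The ring `RR` is commutative
-/

set_option autoImplicit false

namespace Pool.Agent.Lib.MP_8f946f_al.CP

variable {F : Type} [Field F] {L : Type} [LieRing L] [LieAlgebra F L] {T : LieIdeal F L}

theorem mem_RR {r : Module.End F T} :
    r ∈ RR F L T ↔ ∀ (l : L) (v : T), r ⁅l, v⁆ = ⁅l, r v⁆ := by
  unfold RR
  rw [Subalgebra.mem_centralizer_iff]
  constructor
  · intro h l v
    have := h _ ⟨l, rfl⟩
    have := LinearMap.congr_fun this v
    simpa using this.symm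
  · rintro h _ ⟨l, rfl⟩
    ext v
    simp [h l v]

/-- elements of `RR` commute with the action -/
theorem RR_commute {r : Module.End F T} (hr : r ∈ RR F L T) (l : L) :
    r * LieModule.toEnd F L T l = LieModule.toEnd F L T l * r := by
  ext v
  simp [mem_RR.1 hr l v]

/-- the bracket of two elements of `T` -/
theorem RR_lie {r : Module.End F T} (hr : r ∈ RR F L T) (a b : T) :
    ⁅((r a : T) : L), (b : L)⁆ = ((r ⁅(a : L), b⁆ : T) : L) := by
  have h1 : (⁅(a : L), b⁆ : T) = - ⁅(b : L), a⁆ := by
    apply Subtype.ext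
    rw [LieSubmodule.coe_neg, LieSubmodule.coe_bracket, LieSubmodule.coe_bracket, lie_skew]
  rw [h1, map_neg, mem_RR.1 hr, LieSubmodule.coe_neg, LieSubmodule.coe_bracket, lie_skew]

/-- `r (ad a) = ad (r a)` on `T`, for `a ∈ T` -/
theorem RR_toEnd {r : Module.End F T} (hr : r ∈ RR F L T) (a : T) :
    r * LieModule.toEnd F L T (a : L) = LieModule.toEnd F L T ((r a : T) : L) := by
  ext b
  rw [Module.End.mul_apply, LieModule.toEnd_apply_apply, LieModule.toEnd_apply_apply,
    LieSubmodule.coe_bracket, RR_lie hr]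

/-- `RR` is commutative -/
theorem RR_comm (hF : Faith F L T) {r r' : Module.End F T} (hr : r ∈ RR F L T)
    (hr' : r' ∈ RR F L T) : r * r' = r' * r := by
  have h1 : ∀ a b : T, (r * r' - r' * r) ⁅(a : L), b⁆ = 0 := by
    intro a b
    rw [LinearMap.sub_apply, Module.End.mul_apply, Module.End.mul_apply, sub_eq_zero]
    rw [mem_RR.1 hr']
    apply Subtype.ext
    rw [← RR_lie hr]
    have h2 : (r ⁅(a : L), b⁆ : T) = ⁅((r a : T) : L), b⁆ := by
      apply Subtype.ext
      rw [LieSubmodule.coe_bracket, RR_lie hr]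
    rw [h2, mem_RR.1 hr', LieSubmodule.coe_bracket]
  have hs : r * r' - r' * r ∈ RR F L T := sub_mem (mul_mem hr hr') (mul_mem hr' hr)
  rw [← sub_eq_zero]
  ext a
  rw [LinearMap.zero_apply, LieSubmodule.coe_zero]
  apply hF
  intro v hv
  have := RR_lie hs a ⟨v, hv⟩
  rw [h1] at this
  simpa using this

/-- the action on `T` is faithful -/
theorem toEnd_injective (hF : Faith F L T) {l : L} (h : LieModule.toEnd F L T l = 0) : l = 0 := by
  apply hF
  intro v hv
  have := LinearMap.congr_fun h ⟨v, hv⟩
  have := congrArg (fun x : T => (x : L)) this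
  simpa using this

theorem HH.subset {Y Y' : Set L} (h : Y ⊆ Y') {A : Module.End F T} (hA : HH F L T Y A) :
    HH F L T Y' A := by
  induction hA with
  | base r hr y hy => exact HH.base r hr y (h hy)
  | zero => exact HH.zero
  | add A B _ _ hA hB => exact HH.add A B hA hB
  | lie A B _ _ hA hB => exact HH.lie A B hA hB

/-- the elements of `HH` commute with `RR` -/
theorem HH.commute (hF : Faith F L T) {Y : Set L} {A : Module.End F T} (hA : HH F L T Y A)
    {r : Module.End F T} (hr : r ∈ RR F L T) : r * A = A * r := by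
  induction hA with
  | base r' hr' y hy =>
    rw [← mul_assoc, RR_comm hF hr hr', mul_assoc, RR_commute hr, mul_assoc]
  | zero => simp
  | add A B _ _ hA hB => rw [mul_add, add_mul, hA, hB]
  | lie A B _ _ hA hB =>
    have hA' : Commute r A := hA
    have hB' : Commute r B := hB
    exact ((hA'.mul_right hB').sub_right (hB'.mul_right hA')).eq

/-- `HH` is stable under multiplication by elements of `RR` -/
theorem HH.smul (hF : Faith F L T) {Y : Set L} {A : Module.End F T} (hA : HH F L T Y A)
    {r : Module.End F T} (hr : r ∈ RR F L T) : HH F L T Y (r * A) := by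
  induction hA with
  | base r' hr' y hy =>
    rw [← mul_assoc]
    exact HH.base _ (mul_mem hr hr') y hy
  | zero => rw [mul_zero]; exact HH.zero
  | add A B _ _ hA hB => rw [mul_add]; exact HH.add _ _ hA hB
  | lie A B _ hB' hA hB =>
    have : r * (A * B - B * A) = (r * A) * B - B * (r * A) := by
      rw [mul_sub, ← mul_assoc, ← mul_assoc, HH.commute hF hB' hr, mul_assoc B r A]
    rw [this]
    exact HH.lie _ _ hA hB'

end Pool.Agent.Lib.MP_8f946f_al.CP
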