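import Pool.Agent.Lib.MP_8f946f_al.CP.RCOM

/-!
# RG1: the action of `N` on `T` is finitely generated over `RR`
-/

set_option autoImplicit false

namespace Pool.Agent.Lib.MP_8f946f_al.CP

namespace RG1

variable {F : Type} [Field F] {L : Type} [LieRing L] [LieAlgebra F L] {T : LieIdeal F L}

/-- the action of words -/
def wact {s : ℕ} (l : Fin s → L) : List (Fin s) → L → L
  | [], n => n
  | i :: w, n => ⁅l i, wact l w n⁆

/-- the values of short words -/
def YS {s : ℕ} (l : Fin s → L) (N₀ : Set L) (m : ℕ) : Set L :=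
  {y | ∃ w : List (Fin s), w.length ≤ m ∧ ∃ n ∈ N₀, wact l w n = y}

theorem YS_mono {s : ℕ} (l : Fin s → L) (N₀ : Set L) {m m' : ℕ} (h : m ≤ m') :
    YS l N₀ m ⊆ YS l N₀ m' := by
  rintro y ⟨w, hw, n, hn, rfl⟩
  exact ⟨w, hw.trans h, n, hn, rfl⟩

theorem toEnd_lie (x y : L) : LieModule.toEnd F L T ⁅x, y⁆ =
    LieModule.toEnd F L T x * LieModule.toEnd F L T y -
      LieModule.toEnd F L T y * LieModule.toEnd F L T x := by
  ext v
  simp only [LinearMap.sub_apply, Module.End.mul_apply, LieModule.toEnd_apply_apply, lie_lie]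

theorem fsmul {Y : Set L} (c : F) {A : Module.End F T} (hA : HH F L T Y A) :
    HH F L T Y (c • A) := by
  induction hA with
  | base r hr y hy =>
    rw [← smul_mul_assoc]
    exact HH.base _ (Subalgebra.smul_mem _ hr c) y hy
  | zero => rw [smul_zero]; exact HH.zero
  | add A B _ _ hA hB => rw [smul_add]; exact HH.add _ _ hA hB
  | lie A B _ hB' hA hB =>
    have : c • (A * B - B * A) = (c • A) * B - B * (c • A) := by
      rw [smul_sub, smul_mul_assoc, mul_smul_comm]
    rw [this]
    exact HH.lie _ _ hA hB'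

theorem neg {Y : Set L} {A : Module.End F T} (hA : HH F L T Y A) : HH F L T Y (-A) := by
  have := fsmul (-1 : F) hA
  rwa [neg_one_smul] at this

theorem sum {Y : Set L} {ι : Type} (s : Finset ι) (f : ι → Module.End F T)
    (h : ∀ i ∈ s, HH F L T Y (f i)) : HH F L T Y (∑ i ∈ s, f i) :=
  Finset.sum_induction f (fun A => HH F L T Y A) (fun _ _ ha hb => HH.add _ _ ha hb) HH.zero h

theorem one_base {Y : Set L} {y : L} (hy : y ∈ Y) : HH F L T Y (LieModule.toEnd F L T y) := by
  have := HH.base (F := F) (T := T) (1 : Module.End F T) (one_mem _) y hy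
  rwa [one_mul] at this

/-- the bracket with `l_i` -/
theorem lie_l {s : ℕ} (l : Fin s → L) (N₀ : Set L) (m : ℕ) (i : Fin s) {A : Module.End F T}
    (hA : HH F L T (YS l N₀ m) A) :
    HH F L T (YS l N₀ (m + 1))
      (LieModule.toEnd F L T (l i) * A - A * LieModule.toEnd F L T (l i)) := by
  induction hA with
  | base r hr y hy =>
    have h1 : LieModule.toEnd F L T (l i) * (r * LieModule.toEnd F L T y) -
        r * LieModule.toEnd F L T y * LieModule.toEnd F L T (l i) =
        r * LieModule.toEnd F L T ⁅l i, y⁆ := by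
      rw [toEnd_lie, mul_sub, ← mul_assoc, ← RR_commute hr, mul_assoc, mul_assoc]
    rw [h1]
    apply HH.base _ hr
    obtain ⟨w, hw, n, hn, rfl⟩ := hy
    exact ⟨i :: w, by simpa using hw, n, hn, rfl⟩
  | zero => rw [mul_zero, zero_mul, sub_zero]; exact HH.zero
  | add A B _ _ hA hB =>
    have h1 : LieModule.toEnd F L T (l i) * (A + B) - (A + B) * LieModule.toEnd F L T (l i) =
        (LieModule.toEnd F L T (l i) * A - A * LieModule.toEnd F L T (l i)) +
        (LieModule.toEnd F L T (l i) * B - B * LieModule.toEnd F L T (l i)) := by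
      noncomm_ring
    rw [h1]
    exact HH.add _ _ hA hB
  | lie A B hA' hB' hA hB =>
    set R := LieModule.toEnd F L T (l i)
    have h1 : R * (A * B - B * A) - (A * B - B * A) * R =
        ((R * A - A * R) * B - B * (R * A - A * R)) +
        (A * (R * B - B * R) - (R * B - B * R) * A) := by
      noncomm_ring
    rw [h1]
    exact HH.add _ _ (HH.lie _ _ hA (HH.subset (YS_mono l N₀ (Nat.le_succ m)) hB'))
      (HH.lie _ _ (HH.subset (YS_mono l N₀ (Nat.le_succ m)) hA') hB)

/-- permutations of words -/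
theorem perm {s : ℕ} (l : Fin s → L) (N₀ : Set L)
    (hl : ∀ i j, ∃ c : Fin s → F, ∃ n ∈ N₀, ⁅l i, l j⁆ = (∑ k, c k • l k) + n)
    {w w' : List (Fin s)} (h : w.Perm w') :
    ∀ n ∈ N₀, ∀ r ∈ RR F L T, HH F L T (YS l N₀ (w.length - 1))
      (r * LieModule.toEnd F L T (wact l w n) - r * LieModule.toEnd F L T (wact l w' n)) := by
  induction h with
  | nil =>
    intro n _ r _
    rw [sub_self]
    exact HH.zero
  | @cons i u u' h ih =>
    intro n hn r hr
    rcases Nat.eq_zero_or_pos u.length with h0 | h0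
    · have hu : u = [] := List.length_eq_zero_iff.1 h0
      subst hu
      have hu' : u' = [] := List.nil_perm.1 h
      subst hu'
      rw [sub_self]
      exact HH.zero
    · have h1 := lie_l l N₀ _ i (ih n hn r hr)
      rw [Nat.sub_add_cancel h0] at h1
      have h2 : r * LieModule.toEnd F L T (wact l (i :: u) n) -
          r * LieModule.toEnd F L T (wact l (i :: u') n) =
          LieModule.toEnd F L T (l i) * (r * LieModule.toEnd F L T (wact l u n) -
            r * LieModule.toEnd F L T (wact l u' n)) -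
          (r * LieModule.toEnd F L T (wact l u n) - r * LieModule.toEnd F L T (wact l u' n)) *
            LieModule.toEnd F L T (l i) := by
        show r * LieModule.toEnd F L T ⁅l i, wact l u n⁆ -
          r * LieModule.toEnd F L T ⁅l i, wact l u' n⁆ = _
        rw [toEnd_lie, toEnd_lie]
        have h3 := RR_commute hr (l i)
        rw [mul_sub, mul_sub, mul_sub, sub_mul]
        rw [← mul_assoc r (LieModule.toEnd F L T (l i)), ← mul_assoc r (LieModule.toEnd F L T (l i)),
          h3]
        noncomm_ring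
      rw [h2, List.length_cons, Nat.add_sub_cancel]
      exact h1
  | swap i j u =>
    intro n hn r hr
    obtain ⟨c, n', hn', hc⟩ := hl j i
    have hlen : (j :: i :: u).length - 1 = u.length + 1 := by simp
    rw [hlen, ← mul_sub, ← map_sub]
    have h1 : wact l (j :: i :: u) n - wact l (i :: j :: u) n =
        (∑ k, c k • ⁅l k, wact l u n⁆) + ⁅n', wact l u n⁆ := by
      show ⁅l j, ⁅l i, wact l u n⁆⁆ - ⁅l i, ⁅l j, wact l u n⁆⁆ = _
      rw [← lie_lie, hc, add_lie, sum_lie]
      simp only [smul_lie]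
    set a := wact l u n with ha
    have hmem : a ∈ YS l N₀ (u.length + 1) := ⟨u, Nat.le_succ _, n, hn, rfl⟩
    rw [h1, map_add, mul_add, map_sum, Finset.mul_sum]
    apply HH.add
    · apply sum
      intro k _
      rw [map_smul, mul_smul_comm]
      apply fsmul
      apply HH.base _ hr
      exact ⟨k :: u, by simp, n, hn, rfl⟩
    · have h4 : r * LieModule.toEnd F L T ⁅n', a⁆ =
          (r * LieModule.toEnd F L T n') * LieModule.toEnd F L T a -
            LieModule.toEnd F L T a * (r * LieModule.toEnd F L T n') := by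
        rw [toEnd_lie, mul_sub, ← mul_assoc, ← mul_assoc, RR_commute hr a, mul_assoc, mul_assoc]
      rw [h4]
      apply HH.lie _ _ _ (one_base hmem)
      exact HH.base _ hr _ ⟨[], Nat.zero_le _, n', hn', rfl⟩
  | @trans u v w h1 h2 ih1 ih2 =>
    intro n hn r hr
    have h3 := ih1 n hn r hr
    have h4 := ih2 n hn r hr
    rw [← h1.length_eq] at h4
    have := HH.add _ _ h3 h4
    rwa [sub_add_sub_cancel] at this

theorem wact_append {s : ℕ} (l : Fin s → L) (w w' : List (Fin s)) (n : L) :
    wact l (w ++ w') n = wact l w (wact l w' n) := by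
  induction w with
  | nil => rfl
  | cons i w ih => show ⁅l i, wact l (w ++ w') n⁆ = ⁅l i, wact l w (wact l w' n)⁆; rw [ih]

theorem wact_replicate {s : ℕ} (l : Fin s → L) (i : Fin s) (j : ℕ) (n : L) :
    wact l (List.replicate j i) n = ((LieAlgebra.ad F L (l i)) ^ j) n := by
  induction j with
  | zero => rfl
  | succ j ih =>
    show ⁅l i, wact l (List.replicate j i) n⁆ = _
    rw [ih, pow_succ', Module.End.mul_apply, LieAlgebra.ad_apply]

/-- a long word contains a letter many times -/
theorem many {s d : ℕ} (w : List (Fin s)) (h : s * d < w.length) :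
    ∃ i, d ≤ w.count i := by
  by_contra hcon
  push Not at hcon
  rw [← List.sum_toFinset_count_eq_length] at h
  have h1 : ∑ a ∈ w.toFinset, w.count a ≤ ∑ a ∈ w.toFinset, d :=
    Finset.sum_le_sum fun a _ => (hcon a).le
  rw [Finset.sum_const, smul_eq_mul] at h1
  have h2 : w.toFinset.card ≤ s := by
    have := Finset.card_le_univ w.toFinset
    rwa [Fintype.card_fin] at this
  have h3 := Nat.mul_le_mul_right d h2
  omega

/-- words of length `m + 1` -/
theorem long {s d : ℕ} (hT : IntAd F L T d) (l : Fin s → L) (N₀ : Set L)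
    (hl : ∀ i j, ∃ c : Fin s → F, ∃ n ∈ N₀, ⁅l i, l j⁆ = (∑ k, c k • l k) + n)
    (w : List (Fin s)) (hw : w.length = s * d + 1) :
    ∀ n ∈ N₀, ∀ r ∈ RR F L T, HH F L T (YS l N₀ (s * d))
      (r * LieModule.toEnd F L T (wact l w n)) := by
  intro n hn r hr
  obtain ⟨i, hi⟩ := many (d := d) w (by omega)
  obtain ⟨w', hw'⟩ := (List.replicate_sublist_iff.2 hi).exists_perm_append
  have h1 := perm l N₀ hl hw' n hn r hr
  rw [hw, Nat.add_sub_cancel] at h1
  have hlen : w'.length + d = s * d + 1 := by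
    have := hw'.length_eq
    rw [hw, List.length_append, List.length_replicate] at this
    omega
  have h2 : HH F L T (YS l N₀ (s * d))
      (r * LieModule.toEnd F L T (wact l (List.replicate d i ++ w') n)) := by
    obtain ⟨e, he, he'⟩ := hT (l i)
    rw [wact_append, wact_replicate (F := F)]
    have h3 : r * LieModule.toEnd F L T (((LieAlgebra.ad F L (l i)) ^ d) (wact l w' n)) =
        ∑ j ∈ Finset.range d, (r * e j) *
          LieModule.toEnd F L T (((LieAlgebra.ad F L (l i)) ^ j) (wact l w' n)) := by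
      ext v
      rw [Module.End.mul_apply, LieModule.toEnd_apply_apply, he', map_sum,
        LinearMap.sum_apply]
      congr 1
      apply Finset.sum_congr rfl
      intro j _
      rw [mul_assoc, Module.End.mul_apply, Module.End.mul_apply, LieModule.toEnd_apply_apply,
        mem_RR.1 (he j)]
    rw [h3]
    apply sum
    intro j hj
    apply HH.base _ (mul_mem hr (he j))
    rw [← wact_replicate, ← wact_append]
    refine ⟨_, ?_, n, hn, rfl⟩
    rw [List.length_append, List.length_replicate]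
    have := Finset.mem_range.1 hj
    omega
  have := HH.add _ _ h1 h2
  rwa [sub_add_cancel] at this

/-- `HH` does not grow -/
theorem stable {s d : ℕ} (hT : IntAd F L T d) (l : Fin s → L) (N₀ : Set L)
    (hl : ∀ i j, ∃ c : Fin s → F, ∃ n ∈ N₀, ⁅l i, l j⁆ = (∑ k, c k • l k) + n)
    {A : Module.End F T} (hA : HH F L T (YS l N₀ (s * d + 1)) A) :
    HH F L T (YS l N₀ (s * d)) A := by
  induction hA with
  | base r hr y hy =>
    obtain ⟨w, hw, n, hn, rfl⟩ := hy
    rcases Nat.lt_or_ge (s * d) w.length with h | h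
    · exact long hT l N₀ hl w (by omega) n hn r hr
    · exact HH.base _ hr _ ⟨w, h, n, hn, rfl⟩
  | zero => exact HH.zero
  | add A B _ _ hA hB => exact HH.add _ _ hA hB
  | lie A B _ _ hA hB => exact HH.lie _ _ hA hB

/-- the set of `h ∈ N` acting as elements of `HH` -/
def KH (N : LieIdeal F L) (T : LieIdeal F L) (Y : Set L) : Submodule F L where
  carrier := {h | h ∈ N ∧ HH F L T Y (LieModule.toEnd F L T h)}
  zero_mem' := ⟨N.zero_mem, by rw [map_zero]; exact HH.zero⟩
  add_mem' := by
    rintro a b ⟨ha, ha'⟩ ⟨hb, hb'⟩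
    refine ⟨N.add_mem ha hb, ?_⟩
    rw [map_add]
    exact HH.add _ _ ha' hb'
  smul_mem' := by
    rintro c a ⟨ha, ha'⟩
    refine ⟨N.smul_mem c ha, ?_⟩
    rw [map_smul]
    exact fsmul c ha'

/-- the sum of the span of the `l_i` and `KH` is a subalgebra -/
theorem closed {s d : ℕ} (hT : IntAd F L T d) (N : LieIdeal F L) (l : Fin s → L) (N₀ : Set L)
    (hN : N₀ ⊆ N)
    (hl : ∀ i j, ∃ c : Fin s → F, ∃ n ∈ N₀, ⁅l i, l j⁆ = (∑ k, c k • l k) + n)
    {x y : L} (hx : x ∈ Submodule.span F (Set.range l) ⊔ KH N T (YS l N₀ (s * d)))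
    (hy : y ∈ Submodule.span F (Set.range l) ⊔ KH N T (YS l N₀ (s * d))) :
    ⁅x, y⁆ ∈ Submodule.span F (Set.range l) ⊔ KH N T (YS l N₀ (s * d)) := by
  set K := Submodule.span F (Set.range l) ⊔ KH N T (YS l N₀ (s * d)) with hK
  have hll : ∀ i j, ⁅l i, l j⁆ ∈ K := by
    intro i j
    obtain ⟨c, n, hn, h⟩ := hl i j
    rw [h]
    apply K.add_mem
    · apply Submodule.mem_sup_left
      exact Submodule.sum_mem _ fun k _ => Submodule.smul_mem _ _ (Submodule.subset_span ⟨k, rfl⟩)
    · apply Submodule.mem_sup_right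
      exact ⟨hN hn, one_base ⟨[], Nat.zero_le _, n, hn, rfl⟩⟩
  have hlh : ∀ i, ∀ h ∈ KH N T (YS l N₀ (s * d)), ⁅l i, h⁆ ∈ K := by
    intro i h hh
    apply Submodule.mem_sup_right
    refine ⟨lie_mem_right F L N _ _ hh.1, ?_⟩
    rw [toEnd_lie]
    exact stable hT l N₀ hl (lie_l l N₀ _ i hh.2)
  have hhh : ∀ h ∈ KH N T (YS l N₀ (s * d)), ∀ h' ∈ KH N T (YS l N₀ (s * d)), ⁅h, h'⁆ ∈ K := by
    intro h hh h' hh'
    apply Submodule.mem_sup_right
    refine ⟨lie_mem_right F L N _ _ hh'.1, ?_⟩
    rw [toEnd_lie]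
    exact HH.lie _ _ hh.2 hh'.2
  -- brackets with `l_i`
  have h1 : ∀ i, ∀ z ∈ K, ⁅l i, z⁆ ∈ K := by
    intro i z hz
    obtain ⟨a, ha, b, hb, rfl⟩ := Submodule.mem_sup.1 hz
    rw [lie_add]
    refine K.add_mem ?_ (hlh i b hb)
    induction ha using Submodule.span_induction with
    | mem x hx => obtain ⟨j, rfl⟩ := hx; exact hll i j
    | zero => rw [lie_zero]; exact K.zero_mem
    | add x y hx hy hx' hy' =>
      rw [lie_add]
      exact K.add_mem (hx' (Submodule.add_mem_sup hx hb)) (hy' (Submodule.add_mem_sup hy hb))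
    | smul c x hx hx' =>
      rw [lie_smul]
      exact K.smul_mem _ (hx' (Submodule.add_mem_sup hx hb))
  have h2 : ∀ h ∈ KH N T (YS l N₀ (s * d)), ∀ z ∈ K, ⁅h, z⁆ ∈ K := by
    intro h hh z hz
    obtain ⟨a, ha, b, hb, rfl⟩ := Submodule.mem_sup.1 hz
    rw [lie_add]
    refine K.add_mem ?_ (hhh h hh b hb)
    induction ha using Submodule.span_induction with
    | mem x hx =>
      obtain ⟨j, rfl⟩ := hx
      rw [← lie_skew]
      exact K.neg_mem (hlh j h hh)
    | zero => rw [lie_zero]; exact K.zero_mem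
    | add x y hx hy hx' hy' =>
      rw [lie_add]
      exact K.add_mem (hx' (Submodule.add_mem_sup hx hb)) (hy' (Submodule.add_mem_sup hy hb))
    | smul c x hx hx' =>
      rw [lie_smul]
      exact K.smul_mem _ (hx' (Submodule.add_mem_sup hx hb))
  obtain ⟨a, ha, b, hb, rfl⟩ := Submodule.mem_sup.1 hx
  rw [add_lie]
  refine K.add_mem ?_ (h2 b hb y hy)
  clear hx
  induction ha using Submodule.span_induction with
  | mem x hx => obtain ⟨j, rfl⟩ := hx; exact h1 j y hy
  | zero => rw [zero_lie]; exact K.zero_mem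
  | add x y hx hy hx' hy' =>
    rw [add_lie]
    exact K.add_mem hx' hy'
  | smul c x hx hx' =>
    rw [smul_lie]
    exact K.smul_mem _ hx'

end RG1

open RG1 in
theorem specFG1 : SpecFG1 := by
  intro F _ L _ _ hfg T d _ hT N hN
  obtain ⟨g, hg, hgen⟩ := hfg
  let b := Module.finBasis F (L ⧸ N)
  set s := Module.finrank F (L ⧸ N) with hs
  have hl' : ∀ i, ∃ x : L, (LieSubmodule.Quotient.mk' N) x = b i :=
    fun i => LieSubmodule.Quotient.surjective_mk' N (b i)
  choose l hl using hl'
  let c : L → Fin s → F := fun x k => b.repr ((LieSubmodule.Quotient.mk' N) x) k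
  let π : L → L := fun x => x - ∑ k, c x k • l k
  have hπ : ∀ x, π x ∈ N := by
    intro x
    rw [← LieSubmodule.Quotient.mk_eq_zero]
    show (LieSubmodule.Quotient.mk' N) (π x) = 0
    simp only [π, c, map_sub, map_sum, map_smul, hl]
    rw [b.sum_repr, sub_self]
  have hπ' : ∀ x, x = (∑ k, c x k • l k) + π x := by
    intro x
    simp only [π]
    abel
  let N₀ : Set L := π '' g ∪ Set.range (fun p : Fin s × Fin s => π ⁅l p.1, l p.2⁆)
  have hN₀ : N₀.Finite := (hg.image π).union (Set.finite_range _)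
  have hN₀' : N₀ ⊆ N := by
    rintro _ (⟨x, _, rfl⟩ | ⟨p, rfl⟩)
    · exact hπ x
    · exact hπ _
  have hll : ∀ i j, ∃ c : Fin s → F, ∃ n ∈ N₀, ⁅l i, l j⁆ = (∑ k, c k • l k) + n :=
    fun i j => ⟨c ⁅l i, l j⁆, π ⁅l i, l j⁆, Or.inr ⟨(i, j), rfl⟩, hπ' _⟩
  have hact : ∀ w : List (Fin s), ∀ n ∈ N, wact l w n ∈ N := by
    intro w n hn
    induction w with
    | nil => exact hn
    | cons i w ih => exact lie_mem_right F L N _ _ ih
  refine ⟨YS l N₀ (s * d), ?_, ?_, ?_⟩
  · have h1 : YS l N₀ (s * d) =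
        Set.image2 (fun w n => wact l w n) {w : List (Fin s) | w.length ≤ s * d} N₀ := by
      ext y
      simp [YS, Set.mem_image2]
    rw [h1]
    exact (List.finite_length_le (Fin s) (s * d)).image2 _ hN₀
  · rintro _ ⟨w, _, n, hn, rfl⟩
    exact hact w n (hN₀' hn)
  · intro n hn
    let K : LieSubalgebra F L :=
      { Submodule.span F (Set.range l) ⊔ KH N T (YS l N₀ (s * d)) with
        lie_mem' := fun {x y} hx hy => closed hT N l N₀ hN₀' hll hx hy }
    have hK : K = ⊤ := by
      rw [eq_top_iff, ← hgen, LieSubalgebra.lieSpan_le]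
      intro x hx
      show x ∈ Submodule.span F (Set.range l) ⊔ KH N T (YS l N₀ (s * d))
      rw [hπ' x]
      apply Submodule.add_mem_sup
      · exact Submodule.sum_mem _ fun k _ => Submodule.smul_mem _ _ (Submodule.subset_span ⟨k, rfl⟩)
      · exact ⟨hπ x, one_base ⟨[], Nat.zero_le _, π x, Or.inl ⟨x, hx, rfl⟩, rfl⟩⟩
    have hn' : n ∈ Submodule.span F (Set.range l) ⊔ KH N T (YS l N₀ (s * d)) := by
      have : n ∈ K := by rw [hK]; trivial
      exact this
    obtain ⟨a, ha, h, hh, hah⟩ := Submodule.mem_sup.1 hn'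
    obtain ⟨f, hf⟩ := (Submodule.mem_span_range_iff_exists_fun F).1 ha
    have h1 : (LieSubmodule.Quotient.mk' N) a = 0 := by
      have h2 : a = n - h := by rw [← hah]; abel
      have h3 : a ∈ N := by rw [h2]; exact N.sub_mem hn hh.1
      exact (LieSubmodule.Quotient.mk_eq_zero N).2 h3
    rw [← hf, map_sum] at h1
    simp only [map_smul, hl] at h1
    have h2 : ∀ i, f i = 0 := by
      have := Fintype.linearIndependent_iff.1 b.linearIndependent f h1
      exact this
    have h3 : a = 0 := by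
      rw [← hf]
      simp [h2]
    rw [← hah, h3, zero_add]
    exact hh.2

end Pool.Agent.Lib.MP_8f946f_al.CP
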