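import Pool.Agent.Lib.MP_8f946f_al.CP.RCOM

/-!
# The terms of the lower central series are finitely generated over `RR` (module FG2)
-/

set_option autoImplicit false

namespace Pool.Agent.Lib.MP_8f946f_al.CP

namespace RG2M

variable {F : Type} [Field F] {L : Type} [LieRing L] [LieAlgebra F L] {T : LieIdeal F L}

theorem toEnd_lie (a b : L) : LieModule.toEnd F L T ⁅a, b⁆ =
    LieModule.toEnd F L T a * LieModule.toEnd F L T b -
      LieModule.toEnd F L T b * LieModule.toEnd F L T a := by
  refine LinearMap.ext fun v => ?_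
  rw [LinearMap.sub_apply, Module.End.mul_apply, Module.End.mul_apply]
  simp only [LieModule.toEnd_apply_apply]
  rw [lie_lie]

theorem comm_mul (hF : Faith F L T) {r r' : Module.End F T} (hr : r ∈ RR F L T)
    (hr' : r' ∈ RR F L T) (a b : L) :
    (r * LieModule.toEnd F L T a) * (r' * LieModule.toEnd F L T b) -
      (r' * LieModule.toEnd F L T b) * (r * LieModule.toEnd F L T a) =
      (r * r') * LieModule.toEnd F L T ⁅a, b⁆ := by
  have h1 : (r * LieModule.toEnd F L T a) * (r' * LieModule.toEnd F L T b) =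
      (r * r') * (LieModule.toEnd F L T a * LieModule.toEnd F L T b) := by
    rw [mul_assoc, ← mul_assoc (LieModule.toEnd F L T a), ← RR_commute hr' a, mul_assoc r r',
      mul_assoc r']
  have h2 : (r' * LieModule.toEnd F L T b) * (r * LieModule.toEnd F L T a) =
      (r * r') * (LieModule.toEnd F L T b * LieModule.toEnd F L T a) := by
    rw [mul_assoc, ← mul_assoc (LieModule.toEnd F L T b), ← RR_commute hr b, RR_comm hF hr hr',
      mul_assoc r' r, mul_assoc r]
  rw [h1, h2, toEnd_lie, mul_sub]

/-- left normed commutators -/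
def Wj (Y : Set L) : ℕ → Set L
  | 0 => Y
  | j + 1 => Set.image2 (fun y w => ⁅y, w⁆) Y (Wj Y j)

theorem Wj_finite {Y : Set L} (hY : Y.Finite) : ∀ j, (Wj Y j).Finite
  | 0 => hY
  | j + 1 => hY.image2 _ (Wj_finite hY j)

theorem Wj_gam {Y : Set L} {N : LieIdeal F L} (hY : Y ⊆ N) : ∀ j, Wj Y j ⊆ gam N j
  | 0 => hY
  | j + 1 => by
    rintro _ ⟨y, hy, w, hw, rfl⟩
    exact LieSubmodule.lie_mem_lie (hY hy) (Wj_gam hY j hw)

theorem Wj_mem {Y : Set L} {M : LieIdeal F L} {c : ℕ} (h : Wj Y c ⊆ M) :
    ∀ j, c ≤ j → Wj Y j ⊆ M := by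
  intro j hj
  induction j, hj using Nat.le_induction with
  | base => exact h
  | succ j _ ih =>
    rintro _ ⟨y, hy, w, hw, rfl⟩
    exact lie_mem_right F L M y w (ih hw)

/-- the filtration -/
def U (T : LieIdeal F L) (Y : Set L) (M : LieIdeal F L) (k : ℕ) : Submodule F (Module.End F T) :=
  Submodule.span F {A | (∃ j, k ≤ j ∧ ∃ r ∈ RR F L T, ∃ w ∈ Wj Y j,
    A = r * LieModule.toEnd F L T w) ∨ ∃ m ∈ M, A = LieModule.toEnd F L T m}

theorem U_anti (Y : Set L) (M : LieIdeal F L) {k k' : ℕ} (h : k ≤ k') :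
    U T Y M k' ≤ U T Y M k := by
  refine Submodule.span_mono ?_
  rintro A (⟨j, hj, h1⟩ | h1)
  · exact Or.inl ⟨j, h.trans hj, h1⟩
  · exact Or.inr h1

theorem mem_M {Y : Set L} {M : LieIdeal F L} (hM : M ≤ T) (hR : RStable F L T M) {k : ℕ}
    {r : Module.End F T} (hr : r ∈ RR F L T) {m : L} (hm : m ∈ M) :
    r * LieModule.toEnd F L T m ∈ U T Y M k := by
  refine Submodule.subset_span (Or.inr ⟨_, hR r hr ⟨m, hM hm⟩ hm, ?_⟩)
  exact RR_toEnd hr ⟨m, hM hm⟩

theorem step (hF : Faith F L T) {Y : Set L} {M : LieIdeal F L} (hM : M ≤ T)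
    (hR : RStable F L T M) : ∀ j, ∀ w ∈ Wj Y j, ∀ r ∈ RR F L T, ∀ (k : ℕ),
    ∀ B ∈ U T Y M k, (r * LieModule.toEnd F L T w) * B - B * (r * LieModule.toEnd F L T w) ∈
      U T Y M (k + 1) := by
  intro j
  induction j with
  | zero =>
    intro w hw r hr k B hB
    induction hB using Submodule.span_induction with
    | mem B hB =>
      rcases hB with ⟨j', hj', r', hr', w', hw', rfl⟩ | ⟨m, hm, rfl⟩
      · rw [comm_mul hF hr hr']
        exact Submodule.subset_span (Or.inl ⟨j' + 1, by omega, r * r', mul_mem hr hr', _,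
          ⟨w, hw, w', hw', rfl⟩, rfl⟩)
      · have h1 := comm_mul hF hr (one_mem (RR F L T)) w m
        rw [one_mul] at h1
        rw [h1, mul_one]
        exact mem_M hM hR hr (lie_mem_right F L M w m hm)
    | zero => rw [mul_zero, zero_mul, sub_zero]; exact zero_mem _
    | add A B _ _ hA hB =>
      have := add_mem hA hB
      rw [mul_add, add_mul]
      convert this using 1
      abel
    | smul c A _ hA =>
      have := Submodule.smul_mem _ c hA
      rw [mul_smul_comm, smul_mul_assoc, ← smul_sub]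
      exact this
  | succ j ih =>
    rintro _ ⟨y, hy, w, hw, rfl⟩ r hr k B hB
    have hy0 : y ∈ Wj Y 0 := hy
    -- the case of generators
    have h0 : ∀ (r : Module.End F T), r ∈ RR F L T → ∀ (k : ℕ), ∀ B ∈ U T Y M k,
        (r * LieModule.toEnd F L T y) * B - B * (r * LieModule.toEnd F L T y) ∈
          U T Y M (k + 1) := by
      intro r hr k B hB
      induction hB using Submodule.span_induction with
      | mem B hB =>
        rcases hB with ⟨j', hj', r', hr', w', hw', rfl⟩ | ⟨m, hm, rfl⟩
        · rw [comm_mul hF hr hr']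
          exact Submodule.subset_span (Or.inl ⟨j' + 1, by omega, r * r', mul_mem hr hr', _,
            ⟨y, hy, w', hw', rfl⟩, rfl⟩)
        · have h1 := comm_mul hF hr (one_mem (RR F L T)) y m
          rw [one_mul] at h1
          rw [h1, mul_one]
          exact mem_M hM hR hr (lie_mem_right F L M y m hm)
      | zero => rw [mul_zero, zero_mul, sub_zero]; exact zero_mem _
      | add A B _ _ hA hB =>
        have := add_mem hA hB
        rw [mul_add, add_mul]
        convert this using 1
        abel
      | smul c A _ hA =>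
        have := Submodule.smul_mem _ c hA
        rw [mul_smul_comm, smul_mul_assoc, ← smul_sub]
        exact this
    have e1 : r * LieModule.toEnd F L T ⁅y, w⁆ =
        (r * LieModule.toEnd F L T y) * (1 * LieModule.toEnd F L T w) -
          (1 * LieModule.toEnd F L T w) * (r * LieModule.toEnd F L T y) := by
      rw [comm_mul hF hr (one_mem _), mul_one]
    have a1 := ih w hw 1 (one_mem _) k B hB
    have a2 := h0 r hr (k + 1) _ a1
    have b1 := h0 r hr k B hB
    have b2 := ih w hw 1 (one_mem _) (k + 1) _ b1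
    have h3 := U_anti Y M (Nat.le_succ (k + 1)) (sub_mem a2 b2)
    rw [e1]
    convert h3 using 1
    generalize r * LieModule.toEnd F L T y = a
    generalize 1 * LieModule.toEnd F L T w = b
    noncomm_ring

theorem U_comm (hF : Faith F L T) {Y : Set L} {M : LieIdeal F L} (hM : M ≤ T)
    (hR : RStable F L T M) {k : ℕ} {A B : Module.End F T} (hA : A ∈ U T Y M 0)
    (hB : B ∈ U T Y M k) : A * B - B * A ∈ U T Y M (k + 1) := by
  induction hA using Submodule.span_induction with
  | mem A hA =>
    rcases hA with ⟨j, -, r, hr, w, hw, rfl⟩ | ⟨m, hm, rfl⟩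
    · exact step hF hM hR j w hw r hr k B hB
    · induction hB using Submodule.span_induction with
      | mem B hB =>
        rcases hB with ⟨j', hj', r', hr', w', hw', rfl⟩ | ⟨m', hm', rfl⟩
        · have h1 := comm_mul hF (one_mem (RR F L T)) hr' m w'
          rw [one_mul] at h1
          rw [h1, one_mul]
          refine mem_M hM hR hr' ?_
          rw [← lie_skew]
          exact neg_mem (lie_mem_right F L M w' m hm)
        · rw [← toEnd_lie]
          exact Submodule.subset_span (Or.inr ⟨_, lie_mem_right F L M m m' hm', rfl⟩)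
      | zero => rw [mul_zero, zero_mul, sub_zero]; exact zero_mem _
      | add A B _ _ hA hB =>
        have := add_mem hA hB
        rw [mul_add, add_mul]
        convert this using 1
        abel
      | smul c A _ hA =>
        have := Submodule.smul_mem _ c hA
        rw [mul_smul_comm, smul_mul_assoc, ← smul_sub]
        exact this
  | zero => rw [mul_zero, zero_mul, sub_zero]; exact zero_mem _
  | add A A' _ _ hA hA' =>
    have := add_mem hA hA'
    rw [mul_add, add_mul]
    convert this using 1
    abel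
  | smul c A _ hA =>
    have := Submodule.smul_mem _ c hA
    rw [mul_smul_comm, smul_mul_assoc, ← smul_sub]
    exact this

end RG2M

open RG2M in
theorem specFG2 : SpecFG2 := by
  intro F _ L _ _ T N c Y hF hcT hY hYN hHH
  refine ⟨Wj Y c, Wj_finite hY c, Wj_gam hYN c, fun M hM hR hZ => ?_⟩
  -- `HH` is contained in the first term
  have h1 : ∀ A : Module.End F T, HH F L T Y A → A ∈ U T Y M 0 := by
    intro A hA
    induction hA with
    | base r hr y hy =>
      exact Submodule.subset_span (Or.inl ⟨0, le_rfl, r, hr, y, hy, rfl⟩)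
    | zero => exact zero_mem _
    | add A B _ _ hA hB => exact add_mem hA hB
    | lie A B _ _ hA hB => exact U_anti Y M (Nat.zero_le _) (U_comm hF hM hR hA hB)
  have h2 : ∀ k, ∀ g ∈ gam N k, LieModule.toEnd F L T g ∈ U T Y M k := by
    intro k
    induction k with
    | zero =>
      intro g hg
      exact h1 _ (hHH g hg)
    | succ k ih =>
      intro g hg
      have hg' : g ∈ (⁅N, gam N k⁆ : LieIdeal F L).toSubmodule := hg
      rw [LieSubmodule.lieIdeal_oper_eq_linear_span'] at hg'
      have h3 : Submodule.span F {z | ∃ n ∈ N, ∃ g' ∈ gam N k, ⁅n, g'⁆ = z} ≤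
          (U T Y M (k + 1)).comap (LieModule.toEnd F L T : L →ₗ[F] Module.End F T) := by
        rw [Submodule.span_le]
        rintro _ ⟨n, hn, g', hg', rfl⟩
        change LieModule.toEnd F L T ⁅n, g'⁆ ∈ U T Y M (k + 1)
        rw [toEnd_lie]
        exact U_comm hF hM hR (h1 _ (hHH n hn)) (ih g' hg')
      exact h3 hg'
  -- the last term
  have h3 : ∀ A ∈ U T Y M c, ∃ m ∈ M, A = LieModule.toEnd F L T m := by
    intro A hA
    induction hA using Submodule.span_induction with
    | mem A hA =>
      rcases hA with ⟨j, hj, r, hr, w, hw, rfl⟩ | ⟨m, hm, rfl⟩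
      · have hwM := Wj_mem hZ j hj hw
        exact ⟨_, hR r hr ⟨w, hM hwM⟩ hwM, RR_toEnd hr ⟨w, hM hwM⟩⟩
      · exact ⟨m, hm, rfl⟩
    | zero => exact ⟨0, zero_mem _, by rw [map_zero]⟩
    | add A B _ _ hA hB =>
      obtain ⟨m, hm, rfl⟩ := hA
      obtain ⟨m', hm', rfl⟩ := hB
      exact ⟨m + m', add_mem hm hm', by rw [map_add]⟩
    | smul r A _ hA =>
      obtain ⟨m, hm, rfl⟩ := hA
      exact ⟨r • m, M.smul_mem r hm, by rw [map_smul]⟩
  intro g hg
  obtain ⟨m, hm, hgm⟩ := h3 _ (h2 c g hg)
  have h4 : g - m = 0 := by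
    refine toEnd_injective hF (T := T) ?_
    rw [map_sub, hgm, sub_self]
  rw [sub_eq_zero.1 h4]
  exact hm

end Pool.Agent.Lib.MP_8f946f_al.CP
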