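import Pool.Agent.Lib.MP_8f946f_al.CP.SpecR

/-!
# A maximal proper stable ideal of a perfect ideal gives a prime ideal (SpecMX)
-/

set_option autoImplicit false

namespace Pool.Agent.Lib.MP_8f946f_al.CP

namespace MX

variable {F : Type} [Field F] {L : Type} [LieRing L] [LieAlgebra F L]

/-- elements of `RR` are `L`-linear -/
theorem rr_lie {T : LieIdeal F L} {r : Module.End F T} (hr : r ∈ RR F L T) (l : L) (t : T) :
    r ⁅l, t⁆ = ⁅l, r t⁆ := by
  have h := (Subalgebra.mem_centralizer_iff F).1 hr (LieModule.toEnd F L T l) ⟨l, rfl⟩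
  have h2 := congrArg (fun A : Module.End F T => A t) h
  simpa using h2.symm

/-- `[A, B]` is stable if `r` maps `B` to `B'` with `[A, B'] ≤ D`. -/
theorem stable_lie {T A B D : LieIdeal F L} (hB : B ≤ T)
    (h : ∀ r ∈ RR F L T, ∀ b : T, (b : L) ∈ B → ∀ a ∈ A, ⁅a, ((r b : T) : L)⁆ ∈ D) :
    ∀ r ∈ RR F L T, ∀ a : T, (a : L) ∈ (⁅A, B⁆ : LieIdeal F L) → ((r a : T) : L) ∈ D := by
  intro r hr a ha
  have key : ∀ z : L, z ∈ Submodule.span F {m : L | ∃ x ∈ A, ∃ n ∈ B, ⁅x, n⁆ = m} →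
      ∃ hz : z ∈ T, ((r ⟨z, hz⟩ : T) : L) ∈ D := by
    intro z hz
    induction hz using Submodule.span_induction with
    | mem z hz =>
      obtain ⟨x, hx, n, hn, rfl⟩ := hz
      have hnT : n ∈ T := hB hn
      refine ⟨T.lie_mem hnT, ?_⟩
      have : (⟨⁅x, n⁆, T.lie_mem hnT⟩ : T) = ⁅x, (⟨n, hnT⟩ : T)⁆ := rfl
      rw [this, rr_lie hr]
      exact h r hr ⟨n, hnT⟩ hn x hx
    | zero =>
      refine ⟨T.zero_mem, ?_⟩
      have : (⟨0, T.zero_mem⟩ : T) = 0 := rfl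
      rw [this, map_zero]
      exact D.zero_mem
    | add x y hx hy ihx ihy =>
      obtain ⟨h1, h2⟩ := ihx
      obtain ⟨h3, h4⟩ := ihy
      refine ⟨T.add_mem h1 h3, ?_⟩
      have : (⟨x + y, T.add_mem h1 h3⟩ : T) = ⟨x, h1⟩ + ⟨y, h3⟩ := rfl
      rw [this, map_add]
      exact D.add_mem h2 h4
    | smul c x hx ih =>
      obtain ⟨h1, h2⟩ := ih
      refine ⟨T.smul_mem c h1, ?_⟩
      have : (⟨c • x, T.smul_mem c h1⟩ : T) = c • ⟨x, h1⟩ := rfl
      rw [this, map_smul]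
      exact D.smul_mem c h2
  have ha' : (a : L) ∈ Submodule.span F {m : L | ∃ x ∈ A, ∃ n ∈ B, ⁅x, n⁆ = m} := by
    rw [← LieSubmodule.lieIdeal_oper_eq_linear_span']
    exact ha
  obtain ⟨_, h2⟩ := key _ ha'
  exact h2

/-- `RStable` is closed under sums. -/
theorem stable_sup {T A B : LieIdeal F L} (hA : A ≤ T) (hB : B ≤ T) (h1 : RStable F L T A)
    (h2 : RStable F L T B) : RStable F L T (A ⊔ B) := by
  intro r hr a ha
  obtain ⟨x, hx, y, hy, hxy⟩ := (LieSubmodule.mem_sup _ _ _).1 ha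
  have h3 : a = (⟨x, hA hx⟩ : T) + ⟨y, hB hy⟩ := Subtype.ext hxy.symm
  rw [h3, map_add]
  exact (LieSubmodule.mem_sup _ _ _).2 ⟨_, h1 r hr ⟨x, hA hx⟩ hx, _, h2 r hr ⟨y, hB hy⟩ hy, rfl⟩

theorem spec {T G : LieIdeal F L} (hGT : G ≤ T) (hG : ⁅G, G⁆ = G) (hG0 : G ≠ ⊥) {Z : Set L}
    (hZ : Z.Finite) (hZG : Z ⊆ G)
    (hgen : ∀ M : LieIdeal F L, M ≤ T → RStable F L T M → Z ⊆ M → G ≤ M) :
    ∃ C : LieIdeal F L, PrimeLie F (L ⧸ C) ∧ ¬ G ≤ C := by
  classical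
  -- `G` is stable
  have hGS : RStable F L T G := by
    intro r hr a ha
    rw [← hG] at ha
    exact stable_lie (D := G) hGT (fun r _ b _ x hx => lie_mem_left F L G _ _ hx) r hr a ha
  -- a maximal proper stable ideal
  have hbot : (⊥ : LieIdeal F L) ∈ {M : LieIdeal F L | M ≤ G ∧ RStable F L T M ∧ M ≠ G} := by
    refine ⟨bot_le, ?_, Ne.symm hG0⟩
    intro r _ a ha
    have h0 : (a : L) = 0 := by simpa using ha
    have h1 : a = 0 := Subtype.ext h0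
    rw [h1, map_zero]
    exact LieSubmodule.zero_mem _
  have hchain : ∀ c ⊆ {M : LieIdeal F L | M ≤ G ∧ RStable F L T M ∧ M ≠ G},
      IsChain (· ≤ ·) c → ∀ y ∈ c,
      ∃ ub ∈ {M : LieIdeal F L | M ≤ G ∧ RStable F L T M ∧ M ≠ G}, ∀ z ∈ c, z ≤ ub := by
    intro c hc hch y hy
    have hdir : DirectedOn (· ≤ ·) ((fun I : LieIdeal F L => LieSubmodule.toSubmodule I) '' c) := by
      rintro _ ⟨I, hI, rfl⟩ _ ⟨J, hJ, rfl⟩
      rcases hch.total hI hJ with h | h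
      · exact ⟨_, ⟨J, hJ, rfl⟩, h, le_rfl⟩
      · exact ⟨_, ⟨I, hI, rfl⟩, le_rfl, h⟩
    have hmem : ∀ z : L, z ∈ sSup c ↔ ∃ I ∈ c, z ∈ I := by
      intro z
      have h1 : z ∈ sSup c ↔ z ∈ LieSubmodule.toSubmodule (sSup c) := Iff.rfl
      have hne : ((fun I : LieIdeal F L => LieSubmodule.toSubmodule I) '' c).Nonempty :=
        ⟨_, ⟨y, hy, rfl⟩⟩
      rw [h1, LieSubmodule.sSup_toSubmodule_eq_iSup, ← sSup_image,
        Submodule.mem_sSup_of_directed hne hdir]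
      constructor
      · rintro ⟨_, ⟨I, hI, rfl⟩, hz⟩
        exact ⟨I, hI, hz⟩
      · rintro ⟨I, hI, hz⟩
        exact ⟨_, ⟨I, hI, rfl⟩, hz⟩
    refine ⟨sSup c, ⟨?_, ?_, ?_⟩, ?_⟩
    · intro z hz
      obtain ⟨I, hI, hzI⟩ := (hmem z).1 hz
      exact (hc hI).1 hzI
    · intro r hr a ha
      obtain ⟨I, hI, hzI⟩ := (hmem _).1 ha
      exact (hmem _).2 ⟨I, hI, (hc hI).2.1 r hr a hzI⟩
    · intro hEq
      -- the finite set `Z` lies in one member
      have hfin : ∃ I ∈ c, Z ⊆ I := by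
        have hZs : ∀ z ∈ Z, ∃ I ∈ c, z ∈ I := fun z hz => (hmem z).1 (hEq ▸ hZG hz)
        clear hgen
        induction Z, hZ using Set.Finite.induction_on with
        | empty => exact ⟨y, hy, by simp⟩
        | @insert z s _ _ ih =>
          obtain ⟨I, hI, hsI⟩ := ih (fun w hw => hZG (Set.mem_insert_of_mem _ hw))
            (fun w hw => hZs w (Set.mem_insert_of_mem _ hw))
          obtain ⟨J, hJ, hzJ⟩ := hZs z (Set.mem_insert _ _)
          rcases hch.total hI hJ with h | h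
          · refine ⟨J, hJ, Set.insert_subset hzJ (fun w hw => h (hsI hw))⟩
          · exact ⟨I, hI, Set.insert_subset (h hzJ) hsI⟩
      obtain ⟨I, hI, hZI⟩ := hfin
      exact (hc hI).2.2 (le_antisymm (hc hI).1
        (hgen I ((hc hI).1.trans hGT) (hc hI).2.1 hZI))
    · intro I hI z hz
      exact (hmem z).2 ⟨I, hI, hz⟩
  obtain ⟨M, -, hM⟩ := zorn_le_nonempty₀ _ hchain ⊥ hbot
  have hMG := hM.prop.1
  have hMS := hM.prop.2.1
  have hMne := hM.prop.2.2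
  -- the ideal `C`
  let C : LieIdeal F L :=
    { carrier := {l | ∀ g ∈ G, ⁅l, g⁆ ∈ M}
      add_mem' := by
        intro a b ha hb g hg
        rw [add_lie]
        exact M.add_mem (ha g hg) (hb g hg)
      zero_mem' := by
        intro g _
        rw [zero_lie]
        exact M.zero_mem
      smul_mem' := by
        intro c a ha g hg
        rw [smul_lie]
        exact M.smul_mem c (ha g hg)
      lie_mem := by
        intro x l hl g hg
        have h1 : ⁅⁅x, l⁆, g⁆ = ⁅x, ⁅l, g⁆⁆ - ⁅l, ⁅x, g⁆⁆ := by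
          rw [leibniz_lie x l g]; abel
        rw [h1]
        exact M.sub_mem (M.lie_mem (hl g hg)) (hl _ (G.lie_mem hg)) }
  have hCmem : ∀ l : L, l ∈ C ↔ ∀ g ∈ G, ⁅l, g⁆ ∈ M := fun l => Iff.rfl
  -- an ideal `A` not in `C`
  have hbig : ∀ A : LieIdeal F L, ¬ A ≤ C → G ≤ M ⊔ ⁅A, G⁆ := by
    intro A hA
    by_contra hcon
    have hle : M ⊔ ⁅A, G⁆ ≤ G := sup_le hMG (LieSubmodule.lie_le_right _ _)
    have hst : RStable F L T ⁅A, G⁆ :=
      stable_lie hGT (fun r hr b hb x hx => LieSubmodule.lie_mem_lie hx (hGS r hr b hb))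
    have hst2 : RStable F L T (M ⊔ ⁅A, G⁆) :=
      stable_sup (hMG.trans hGT) ((LieSubmodule.lie_le_right _ _).trans hGT) hMS hst
    have h1 := hM.le_of_ge (y := M ⊔ ⁅A, G⁆)
      ⟨hle, hst2, fun h => hcon h.ge⟩ le_sup_left
    apply hA
    intro a ha
    rw [hCmem]
    intro g hg
    exact h1 ((LieSubmodule.mem_sup _ _ _).2 ⟨0, M.zero_mem, ⁅a, g⁆, LieSubmodule.lie_mem_lie ha hg,
      zero_add _⟩)
  have hGC : ¬ G ≤ C := by
    intro h
    apply hMne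
    refine le_antisymm hMG ?_
    conv_lhs => rw [← hG]
    rw [LieSubmodule.lie_le_iff]
    intro x hx g hg
    exact (hCmem x).1 (h hx) g hg
  have hprime : ∀ A B : LieIdeal F L, ⁅A, B⁆ ≤ C → A ≤ C ∨ B ≤ C := by
    intro A B hAB
    by_contra hcon
    rw [not_or] at hcon
    obtain ⟨hA, hB⟩ := hcon
    have h1 := hbig A hA
    have h2 := hbig B hB
    apply hGC
    -- `G = [G, G] ≤ M + (C ⊓ G)`, so `[G, G] ≤ M`
    have h3 : G ≤ M ⊔ (C ⊓ G) := by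
      conv_lhs => rw [← hG]
      rw [LieSubmodule.lie_le_iff]
      intro x hx g hg
      obtain ⟨m1, hm1, a, ha, rfl⟩ := (LieSubmodule.mem_sup _ _ _).1 (h1 hx)
      obtain ⟨m2, hm2, b, hb, rfl⟩ := (LieSubmodule.mem_sup _ _ _).1 (h2 hg)
      have haA : a ∈ A := LieSubmodule.lie_le_left _ _ ha
      have hbB : b ∈ B := LieSubmodule.lie_le_left _ _ hb
      have hbG : b ∈ G := LieSubmodule.lie_le_right _ _ hb
      refine (LieSubmodule.mem_sup _ _ _).2 ⟨⁅m1, m2 + b⁆ + ⁅a, m2⁆, ?_, ⁅a, b⁆, ?_, ?_⟩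
      · exact M.add_mem (lie_mem_left F L M _ _ hm1) (M.lie_mem hm2)
      · exact ⟨hAB (LieSubmodule.lie_mem_lie haA hbB), G.lie_mem hbG⟩
      · rw [add_lie, lie_add a]; abel
    intro x hx
    rw [hCmem]
    intro g hg
    obtain ⟨m, hm, c, hc, rfl⟩ := (LieSubmodule.mem_sup _ _ _).1 (h3 hx)
    rw [add_lie]
    exact M.add_mem (lie_mem_left F L M _ _ hm) ((hCmem c).1 hc.1 g hg)
  refine ⟨C, ?_, hGC⟩
  intro A B hAB
  let q : L →ₗ⁅F⁆ L ⧸ C :=
    { (LieSubmodule.Quotient.mk' C : L →ₗ[F] L ⧸ C) with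
      map_lie' := fun {_ _} => rfl }
  have hq0 : ∀ x : L, q x = 0 ↔ x ∈ C := fun x => LieSubmodule.Quotient.mk_eq_zero C
  have hqs : Function.Surjective q := Quot.mk_surjective
  have hq : ∀ I : LieIdeal F (L ⧸ C), LieIdeal.comap q I ≤ C → I = ⊥ := by
    intro I hI
    rw [eq_bot_iff]
    intro z hz
    obtain ⟨x, rfl⟩ := hqs z
    rw [LieSubmodule.mem_bot]
    exact (hq0 x).2 (hI (LieIdeal.mem_comap.2 hz))
  have h1 : ⁅LieIdeal.comap q A, LieIdeal.comap q B⁆ ≤ C := by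
    rw [LieSubmodule.lie_le_iff]
    intro x hx y hy
    rw [← hq0, LieHom.map_lie]
    have h2 : ⁅q x, q y⁆ ∈ (⁅A, B⁆ : LieIdeal F (L ⧸ C)) :=
      LieSubmodule.lie_mem_lie (LieIdeal.mem_comap.1 hx) (LieIdeal.mem_comap.1 hy)
    rw [hAB, LieSubmodule.mem_bot] at h2
    exact h2
  rcases hprime _ _ h1 with h | h
  · exact Or.inl (hq A h)
  · exact Or.inr (hq B h)

end MX

theorem specMX : SpecMX := fun _ _ _ _ _ _ _ hGT hG hG0 _ hZ hZG hgen =>
  MX.spec hGT hG hG0 hZ hZG hgen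

end Pool.Agent.Lib.MP_8f946f_al.CP
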