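import Pool.Agent.Lib.MP_8f946f_al.CP.SpecR
import Pool.Agent.Lib.MP_8f946f_al.CP.CR

/-!
# The exchange of one variable (module ONE)
-/

set_option autoImplicit false

namespace Pool.Agent.Lib.MP_8f946f_al.CP

namespace ONEM

variable {L : Type} [LieRing L]

/-- a Lie monomial in which all variables but the `i`-th are replaced by constants -/
theorem lieMon_update {d n : ℕ} {ψ : (Fin d → L) → L} (hψ : LieMon L Finset.univ ψ)
    (y : Fin d → L) (i : Fin d) (a : Fin n) :
    LieMon L ({a} : Finset (Fin n)) (fun z : Fin n → L => ψ (Function.update y i (z a))) := by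
  classical
  have h2 := CRM.subst (n := n)
    (fun (k : Fin d) (z : Fin n → L) => Function.update y i (z a) k)
    (fun k => if k = i then ({a} : Finset (Fin n)) else ∅) ?_ ?_ hψ
  · have h3 : (Finset.univ.biUnion fun k : Fin d =>
        if k = i then ({a} : Finset (Fin n)) else ∅) = {a} := by
      ext b
      rw [Finset.mem_biUnion]
      constructor
      · rintro ⟨k, -, hk⟩
        split_ifs at hk with h
        · exact hk
        · exact absurd hk (Finset.notMem_empty _)
      · intro hb
        exact ⟨i, Finset.mem_univ _, by rw [if_pos rfl]; exact hb⟩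
    rw [h3] at h2
    exact h2
  · intro k
    by_cases hk : k = i
    · have e1 : (fun z : Fin n → L => Function.update y i (z a) k) = fun z => z a := by
        funext z
        rw [hk, Function.update_self]
      rw [if_pos hk, e1]
      exact LieMon.var a
    · have e1 : (fun z : Fin n → L => Function.update y i (z a) k) = fun _ => y k := by
        funext z
        rw [Function.update_of_ne hk]
      rw [if_neg hk, e1]
      exact LieMon.const _
  · intro k k' hkk
    by_cases hk : k = i
    · have hk' : k' ≠ i := fun h => hkk (hk.trans h.symm)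
      rw [if_neg hk']
      exact Finset.disjoint_empty_right _
    · rw [if_neg hk]
      exact Finset.disjoint_empty_left _

variable {F : Type} [Field F] [LieAlgebra F L]

/-- part 1 for products of `ad`s -/
theorem one_closure {d : ℕ} (hC : Capelli (d + 1) L) (φ : (Fin d → L) → L)
    (hφ : LieMon L Finset.univ φ) (g : Module.End F L)
    (hg : g ∈ Submonoid.closure (Set.range fun y : L => LieAlgebra.ad F L y)) (m : ℕ) (l y : L)
    (x : Fin d → L) :
    ⁅((LieAlgebra.ad F L l) ^ m) y, g (alt φ x)⁆ =
      ∑ i, ⁅((LieAlgebra.ad F L l) ^ m) (x i), g (alt φ (Function.update x i y))⁆ := by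
  classical
  refine CRM.rel (F := F) hC φ hφ (fun y => ((LieAlgebra.ad F L l) ^ m) y) ?_ g hg x y
  refine CRM.clos ((LieAlgebra.ad F L l) ^ m) ?_ _ (LieMon.var 0)
  exact pow_mem (Submonoid.subset_closure (Set.mem_range_self l)) m

/-- part 2 for products of `ad`s -/
theorem two_closure {d : ℕ} (hC : Capelli (d + 1) L) (φ ψ : (Fin d → L) → L)
    (hφ : LieMon L Finset.univ φ) (hψ : LieMon L Finset.univ ψ) (g h : Module.End F L)
    (hg : g ∈ Submonoid.closure (Set.range fun y : L => LieAlgebra.ad F L y))
    (hh : h ∈ Submonoid.closure (Set.range fun y : L => LieAlgebra.ad F L y))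
    (x y : Fin d → L) (i : Fin d) :
    ⁅g (alt φ x), h (ψ y)⁆ =
      ∑ k, ⁅g (alt φ (Function.update x k (y i))), h (ψ (Function.update y i (x k)))⁆ := by
  classical
  have h1 := CRM.rel (F := F) hC φ hφ (fun w => h (ψ (Function.update y i w)))
    (CRM.clos h hh _ (lieMon_update hψ y i 0)) g hg x (y i)
  have h2 : ⁅h (ψ y), g (alt φ x)⁆ =
      ∑ k, ⁅h (ψ (Function.update y i (x k))), g (alt φ (Function.update x k (y i)))⁆ := by
    have h3 : h (ψ (Function.update y i (y i))) = h (ψ y) := by rw [Function.update_eq_self]
    rw [← h3]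
    exact h1
  rw [← lie_skew, h2, ← Finset.sum_neg_distrib]
  exact Finset.sum_congr rfl fun k _ => lie_skew _ _

end ONEM

open ONEM in
theorem specONE : SpecONE := by
  classical
  intro F _ L _ _ d hC φ hφ
  refine ⟨?_, ?_⟩
  · refine CRM.ml_induction ?_ ?_ ?_ ?_
    · intro g hg m l y x
      exact one_closure hC φ hφ g hg m l y x
    · intro m l y x
      simp
    · intro g h hg hh m l y x
      simp only [LinearMap.add_apply, lie_add, Finset.sum_add_distrib]
      rw [hg m l y x, hh m l y x]
    · intro c g hg m l y x
      simp only [LinearMap.smul_apply, lie_smul]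
      rw [hg m l y x, Finset.smul_sum]
  · intro ψ hψ
    refine CRM.ml_induction ?_ ?_ ?_ ?_
    · intro g hg
      refine CRM.ml_induction ?_ ?_ ?_ ?_
      · intro h hh x y i
        exact two_closure hC φ ψ hφ hψ g h hg hh x y i
      · intro x y i
        simp
      · intro h h' ih ih' x y i
        simp only [LinearMap.add_apply, lie_add, Finset.sum_add_distrib]
        rw [ih x y i, ih' x y i]
      · intro c h ih x y i
        simp only [LinearMap.smul_apply, lie_smul]
        rw [ih x y i, Finset.smul_sum]
    · intro h _ x y i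
      simp
    · intro g g' ihg ihg' h hh x y i
      simp only [LinearMap.add_apply, add_lie, Finset.sum_add_distrib]
      rw [ihg h hh x y i, ihg' h hh x y i]
    · intro c g ihg h hh x y i
      simp only [LinearMap.smul_apply, smul_lie]
      rw [ihg h hh x y i, Finset.smul_sum]

end Pool.Agent.Lib.MP_8f946f_al.CP
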