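import Pool.Agent.Lib.MP_8f946f_al.CP.Spec

/-!
# Semiprime Lie algebras are subdirect products of prime Lie algebras
-/

set_option autoImplicit false

namespace Pool.Agent.Lib.MP_8f946f_al.CP

namespace SPRM

universe u v

variable {F : Type u} [CommRing F] {P : Type v} [LieRing P] [LieAlgebra F P]

/-- The ideal generated by an element. -/
noncomputable abbrev gen (F : Type u) [CommRing F] {P : Type v} [LieRing P] [LieAlgebra F P] (a : P) :
    LieIdeal F P := LieSubmodule.lieSpan F P {a}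

theorem self_mem_gen (a : P) : a ∈ gen F a := LieSubmodule.subset_lieSpan rfl

theorem gen_le {a : P} {I : LieIdeal F P} (h : a ∈ I) : gen F a ≤ I :=
  LieSubmodule.lieSpan_le.2 (Set.singleton_subset_iff.2 h)

/-- The inverse image of an ideal of a quotient. -/
def pull (M : LieIdeal F P) (A : LieIdeal F (P ⧸ M)) : LieIdeal F P where
  carrier := {x | (LieSubmodule.Quotient.mk x : P ⧸ M) ∈ A}
  add_mem' {x y} hx hy := by
    change (LieSubmodule.Quotient.mk (x + y) : P ⧸ M) ∈ A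
    exact A.add_mem hx hy
  zero_mem' := by
    change (LieSubmodule.Quotient.mk (0 : P) : P ⧸ M) ∈ A
    exact A.zero_mem
  smul_mem' c x hx := by
    change (LieSubmodule.Quotient.mk (c • x) : P ⧸ M) ∈ A
    exact A.smul_mem c hx
  lie_mem {x m} hm := by
    change (LieSubmodule.Quotient.mk ⁅x, m⁆ : P ⧸ M) ∈ A
    rw [LieSubmodule.Quotient.mk_bracket]
    exact lie_mem_right F (P ⧸ M) A _ _ hm

theorem mem_pull (M : LieIdeal F P) (A : LieIdeal F (P ⧸ M)) (x : P) :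
    x ∈ pull M A ↔ (LieSubmodule.Quotient.mk x : P ⧸ M) ∈ A := Iff.rfl

theorem le_pull (M : LieIdeal F P) (A : LieIdeal F (P ⧸ M)) : M ≤ pull M A := by
  intro x hx
  rw [mem_pull, LieSubmodule.Quotient.mk_eq_zero'.2 hx]
  exact A.zero_mem

theorem pull_ne (M : LieIdeal F P) (A : LieIdeal F (P ⧸ M)) (hA : A ≠ ⊥) : pull M A ≠ M := by
  intro h
  apply hA
  rw [LieSubmodule.eq_bot_iff]
  intro y hy
  obtain ⟨x, rfl⟩ := Submodule.Quotient.mk_surjective M.toSubmodule y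
  have h1 : x ∈ pull M A := hy
  rw [h] at h1
  exact LieSubmodule.Quotient.mk_eq_zero'.2 h1

/-- A sequence of nonzero elements, each in the square of the ideal of the one before. -/
theorem exists_seq (hsp : ∀ A : LieIdeal F P, ⁅A, A⁆ = ⊥ → A = ⊥) (a : P) (ha : a ≠ 0) :
    ∃ s : ℕ → P, s 0 = a ∧ (∀ n, s n ≠ 0) ∧ ∀ n, s (n + 1) ∈ ⁅gen F (s n), gen F (s n)⁆ := by
  have step : ∀ x : {x : P // x ≠ 0}, ∃ y : {y : P // y ≠ 0}, y.1 ∈ ⁅gen F x.1, gen F x.1⁆ := by
    rintro ⟨x, hx⟩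
    by_contra h
    have h1 : ⁅gen F x, gen F x⁆ = ⊥ := by
      rw [LieSubmodule.eq_bot_iff]
      intro y hy
      by_contra hy0
      exact h ⟨⟨y, hy0⟩, hy⟩
    have h2 := hsp _ h1
    have h3 := self_mem_gen (F := F) x
    rw [h2] at h3
    exact hx ((LieSubmodule.mem_bot x).1 h3)
  choose f hf using step
  refine ⟨fun n => (f^[n] ⟨a, ha⟩).1, rfl, fun n => (f^[n] ⟨a, ha⟩).2, fun n => ?_⟩
  have h := hf (f^[n] ⟨a, ha⟩)
  rw [← Function.iterate_succ_apply' f n] at h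
  exact h

end SPRM

universe u v

open SPRM in
/-- SPR over a commutative ring: if `P` has no nonzero abelian ideals then every nonzero element is
not in some ideal with prime quotient. -/
theorem exists_prime_notMem (F : Type u) [CommRing F] (P : Type v) [LieRing P] [LieAlgebra F P]
    (hsp : ∀ A : LieIdeal F P, ⁅A, A⁆ = ⊥ → A = ⊥) (a : P) (ha : a ≠ 0) :
    ∃ M : LieIdeal F P, (∀ A B : LieIdeal F (P ⧸ M), ⁅A, B⁆ = ⊥ → A = ⊥ ∨ B = ⊥) ∧ a ∉ M := by
  obtain ⟨s, hs0, hsn, hss⟩ := exists_seq hsp a ha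
  have hle : ∀ n, s (n + 1) ∈ gen F (s n) := fun n => LieSubmodule.lie_le_right _ _ (hss n)
  have hmono : ∀ (I : LieIdeal F P) (i k : ℕ), s i ∈ I → s (i + k) ∈ I := by
    intro I i k h
    induction k with
    | zero => exact h
    | succ k ih => exact gen_le ih (hle (i + k))
  let S : Set (LieIdeal F P) := {I | ∀ n, s n ∉ I}
  obtain ⟨M, -, hM⟩ := zorn_le_nonempty₀ S (fun c hc hch y hy => by
    refine ⟨sSup c, ?_, fun z hz => le_sSup hz⟩
    intro n hn
    have h1 : s n ∈ (sSup c).toSubmodule := hn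
    rw [LieSubmodule.sSup_toSubmodule] at h1
    have hdir : DirectedOn (· ≤ ·) {t : Submodule F P | ∃ N ∈ c, t = N.toSubmodule} := by
      rintro _ ⟨N₁, h₁, rfl⟩ _ ⟨N₂, h₂, rfl⟩
      rcases hch.total h₁ h₂ with h | h
      · exact ⟨_, ⟨N₂, h₂, rfl⟩, h, le_rfl⟩
      · exact ⟨_, ⟨N₁, h₁, rfl⟩, le_rfl, h⟩
    have he : {t : Submodule F P | ∃ N ∈ c, t = N.toSubmodule} =
        {x : Submodule F P | ∃ N ∈ c, N.toSubmodule = x} := by
      ext t
      constructor
      · rintro ⟨N, h, rfl⟩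
        exact ⟨N, h, rfl⟩
      · rintro ⟨N, h, rfl⟩
        exact ⟨N, h, rfl⟩
    rw [he] at hdir
    have hne : {x : Submodule F P | ∃ N ∈ c, N.toSubmodule = x}.Nonempty :=
      ⟨y.toSubmodule, y, hy, rfl⟩
    obtain ⟨t, ⟨N, hN, rfl⟩, ht⟩ := (Submodule.mem_sSup_of_directed hne hdir).1 h1
    exact hc hN n ht) ⊥ (fun n hn => hsn n ((LieSubmodule.mem_bot _).1 hn))
  have key : ∀ A : LieIdeal F (P ⧸ M), A ≠ ⊥ → ∃ i, s i ∈ pull M A := by
    intro A hA
    by_contra h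
    push Not at h
    exact pull_ne M A hA (le_antisymm (hM.le_of_ge h (le_pull M A)) (le_pull M A))
  refine ⟨M, fun A B hAB => ?_, fun h => hM.prop 0 (by rw [hs0]; exact h)⟩
  by_contra hcon
  push Not at hcon
  obtain ⟨i, hi⟩ := key A hcon.1
  obtain ⟨j, hj⟩ := key B hcon.2
  have h1 : s (i + j) ∈ pull M A := hmono _ i j hi
  have h2 : s (i + j) ∈ pull M B := by
    rw [Nat.add_comm]
    exact hmono _ j i hj
  have h3 : ⁅pull M A, pull M B⁆ ≤ M := by
    rw [LieSubmodule.lieIdeal_oper_eq_span, LieSubmodule.lieSpan_le]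
    rintro _ ⟨⟨x, hx⟩, ⟨y, hy⟩, rfl⟩
    have h4 : (LieSubmodule.Quotient.mk ⁅x, y⁆ : P ⧸ M) ∈ ⁅A, B⁆ := by
      rw [LieSubmodule.Quotient.mk_bracket]
      exact LieSubmodule.lie_mem_lie hx hy
    rw [hAB, LieSubmodule.mem_bot] at h4
    exact LieSubmodule.Quotient.mk_eq_zero'.1 h4
  exact hM.prop (i + j + 1) (h3 (LieSubmodule.mono_lie (gen_le h1) (gen_le h2) (hss (i + j))))

/-- SPR: if `P` has no nonzero abelian ideals then every nonzero element is not in some ideal with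
prime quotient. -/
theorem specSPR (F : Type) [Field F] (P : Type) [LieRing P] [LieAlgebra F P]
    (hsp : ∀ A : LieIdeal F P, ⁅A, A⁆ = ⊥ → A = ⊥) (a : P) (ha : a ≠ 0) :
    ∃ M : LieIdeal F P, PrimeLie F (P ⧸ M) ∧ a ∉ M :=
  exists_prime_notMem F P hsp a ha

end Pool.Agent.Lib.MP_8f946f_al.CP
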