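import Pool.Agent.Lib.MP_8f946f_al.CP.UN
import Pool.Agent.Lib.MP_8f946f_al.CP.SPR

/-!
# Soluble-by-(semiprime Capelli) algebras are soluble-by-(residually bounded)
-/

set_option autoImplicit false

namespace Pool.Agent.Lib.MP_8f946f_al.CP

open BTM

/-- A non-zero prime algebra with the Capelli identities of order `m` embeds in an algebra of
dimension at most `m` over a field. -/
theorem prime_embeds (hCR : SpecCR) (hGE : SpecGE) {F : Type} [Field F] (P : Type) [LieRing P]
    [LieAlgebra F P] (hfg : IsFG F P) (hP : PrimeLie F P) (m : ℕ) (hm : Capelli m P)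
    (hne : ∃ a : P, a ≠ 0) :
    ∃ (K : Type) (_ : Field K) (_ : Algebra F K) (Q : Type) (_ : LieRing Q) (_ : LieAlgebra F Q)
      (_ : LieAlgebra K Q) (_ : IsScalarTower F K Q) (π : P →ₗ⁅F⁆ Q), Function.Injective π ∧
      FiniteDimensional K Q ∧ Module.finrank K Q ≤ m := by
  classical
  have hex : ∃ m, Capelli m P := ⟨m, hm⟩
  have h0 : Capelli (Nat.find hex) P := Nat.find_spec hex
  have hle : Nat.find hex ≤ m := Nat.find_min' hex hm
  rcases Nat.eq_zero_or_pos (Nat.find hex) with hz | hpos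
  · exfalso
    rw [hz] at h0
    obtain ⟨a, ha⟩ := hne
    apply ha
    have h1 := h0 (fun _ => a) ?_ (fun i => i.elim0)
    · rw [Fintype.sum_unique] at h1
      simpa using h1
    · have h2 : (Finset.univ : Finset (Fin 0)) = ∅ := by simp
      rw [h2]
      exact LieMon.const a
  · obtain ⟨d, hd⟩ : ∃ d, Nat.find hex = d + 1 := ⟨Nat.find hex - 1, by omega⟩
    rw [hd] at h0
    have h1 : ¬ Capelli d P := Nat.find_min hex (by omega)
    obtain ⟨x, u, U, hu, ha, hb⟩ := hCR F P d h0 h1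
    obtain ⟨K, _, _, Q, _, _, _, _, π, hπ, hQ, hQd⟩ := hGE F P hfg hP d x u U hu ha hb
    exact ⟨K, _, _, Q, _, _, _, inferInstance, π, hπ, hQ, by omega⟩

/-- Soluble-by-(semiprime Capelli) algebras are soluble-by-(residually bounded). -/
theorem residuallyBounded_of_capelli (hEX : SpecEX) (hCR : SpecCR) (hGE : SpecGE) {F : Type}
    [Field F] (L : Type) [LieRing L] [LieAlgebra F L] (hfg : IsFG F L) (R : LieIdeal F L)
    (l m : ℕ) (hR : LieAlgebra.derivedSeriesOfIdeal F L l R = ⊥)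
    (hsp : ∀ A : LieIdeal F (L ⧸ R), ⁅A, A⁆ = ⊥ → A = ⊥) (hm : Capelli m (L ⧸ R)) :
    SolubleByResiduallyBounded F l m L := by
  refine ⟨R, hR, fun a ha => ?_⟩
  have ha' : mkHom R a ≠ 0 := by
    rw [Ne, mkHom_eq_zero]
    exact ha
  obtain ⟨M, hM, haM⟩ := specSPR F (L ⧸ R) hsp (mkHom R a) ha'
  have hne : mkHom M (mkHom R a) ≠ 0 := by
    rw [Ne, mkHom_eq_zero]
    exact haM
  have hm' : Capelli m ((L ⧸ R) ⧸ M) :=
    hEX.sur _ _ m (toInt (mkHom M)) (mkHom_surjective M) hm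
  have hfg' : IsFG F ((L ⧸ R) ⧸ M) :=
    (hfg.of_surjective (mkHom R) (mkHom_surjective R)).of_surjective (mkHom M) (mkHom_surjective M)
  obtain ⟨K, _, _, Q, _, _, _, _, π, hπ, hQ, hQd⟩ :=
    prime_embeds hCR hGE ((L ⧸ R) ⧸ M) hfg' hM m hm' ⟨_, hne⟩
  refine ⟨K, _, _, Q, _, _, _, inferInstance, π.comp ((mkHom M).comp (mkHom R)), hQ, hQd, ?_⟩
  intro h0
  apply hne
  apply hπ
  rw [map_zero]
  exact h0

/-- The variety defined by `Γ` is locally soluble-by-(semiprime Capelli): each of its finitely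
generated algebras `L` has a soluble ideal `R` such that `L/R` has no non-zero abelian ideals and
satisfies the Capelli identities of some order. -/
def LocallySolubleBySemiprimeCapelli {F : Type} [Field F] (Γ : Set (FreeLieAlgebra F ℕ)) : Prop :=
  ∀ (L : Type) [LieRing L] [LieAlgebra F L], Satisfies Γ L → IsFG F L →
    ∃ (R : LieIdeal F L) (l m : ℕ), LieAlgebra.derivedSeriesOfIdeal F L l R = ⊥ ∧
      (∀ A : LieIdeal F (L ⧸ R), ⁅A, A⁆ = ⊥ → A = ⊥) ∧ Capelli m (L ⧸ R)

theorem residually_of_semiprimeCapelli (hEX : SpecEX) (hCR : SpecCR) (hGE : SpecGE) {F : Type}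
    [Field F] {Γ : Set (FreeLieAlgebra F ℕ)} (h : LocallySolubleBySemiprimeCapelli Γ) :
    LocallyResiduallySolubleByBounded Γ := by
  apply residually_of_local
  intro L _ _ hL hfg
  obtain ⟨R, l, m, hR, hsp, hm⟩ := h L hL hfg
  exact ⟨l, m, residuallyBounded_of_capelli hEX hCR hGE L hfg R l m hR hsp hm⟩

end Pool.Agent.Lib.MP_8f946f_al.CP
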