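import Pool.Agent.Lib.MP_8f946f_al.CP.SpecR
import Pool.Agent.Lib.MP_8f946f_al.CP.SC

/-!
# A bound for all prime quotients of a Capelli algebra (module RPB)
-/

set_option autoImplicit false

namespace Pool.Agent.Lib.MP_8f946f_al.CP

/-- Module RPB. -/
theorem specPB (hCR : SpecCR) (hGE : SpecGE) (hSP : SpecSP) (hFS : SpecFS) (hEX : SpecEX) :
    SpecPB := by
  intro F _ _ k c w hw L _ _ hfg hL m hm
  obtain ⟨D, hD⟩ := large k c w hw
  obtain ⟨N, l, hN⟩ := hFS F _ D hD m
  obtain ⟨X, _, θ, hθ⟩ := exists_free hfg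
  obtain ⟨J, hJ, hJN⟩ := BD.idx F X N
  refine ⟨imgIdeal θ hθ J, finiteDimensional_img θ hθ J hJ, ?_⟩
  intro I hI
  have hfgI : IsFG F (L ⧸ I) := hfg.of_surjective (mkHom I) (mkHom_surjective I)
  have hLI : Satisfies {mono k c w} (L ⧸ I) := hL.of_surjective (mkHom I) (mkHom_surjective I)
  have hmI : Capelli m (L ⧸ I) := hEX.sur _ _ m (BTM.toInt (mkHom I)) (mkHom_surjective I) hm
  by_cases hne : ∃ a : L ⧸ I, a ≠ 0
  · obtain ⟨K, _, _, Q, _, _, _, _, π, hπ, hQ, hQd⟩ :=
      prime_embeds hCR hGE (L ⧸ I) hfgI hI m hmI hne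
    -- the derived ideal is in `I`
    have hder : LieAlgebra.derivedSeriesOfIdeal F (L ⧸ I) l
        (imgIdeal (mkHom I) (mkHom_surjective I) (imgIdeal θ hθ J)) = ⊥ := by
      rw [eq_bot_iff]
      intro a hal
      rw [LieSubmodule.mem_bot]
      by_contra hane
      have hπa : π a ≠ 0 := fun h => hane (hπ (by rw [h, map_zero]))
      obtain ⟨K', _, _, _, Q', _, _, _, _, π', hQ', hQd', hπ'a⟩ :=
        hSP F (L ⧸ I) hfgI K Q π hQ a hπa
      let q : (L ⧸ I) →ₗ⁅F⁆ π'.range := π'.rangeRestrict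
      have hq : Function.Surjective q := π'.surjective_rangeRestrict
      obtain ⟨S, hS, hSN, hSl⟩ := hN π'.range K' Q' π'.range.incl Subtype.coe_injective hQ'
        (hQd'.trans hQd) (hLI.of_surjective q hq)
      have hle : imgIdeal (mkHom I) (mkHom_surjective I) (imgIdeal θ hθ J) ≤
          LieIdeal.comap q S := by
        rintro _ ⟨_, ⟨v, hv, rfl⟩, rfl⟩
        rw [LieIdeal.mem_comap, ← mkHom_eq_zero]
        exact hJN (π'.range ⧸ S) hS hSN ((mkHom S).comp (q.comp ((mkHom I).comp θ))) v hv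
      have h2 := LieIdeal.mem_comap.1 (derived_comap q _ _ hle l hal)
      rw [hSl, LieSubmodule.mem_bot] at h2
      exact hπ'a (congrArg Subtype.val h2)
    have h3 := prime_derived hI _ l hder
    intro x hx
    rw [← mkHom_eq_zero, ← LieSubmodule.mem_bot (R := F) (L := L ⧸ I), ← h3]
    exact ⟨x, hx, rfl⟩
  · push Not at hne
    intro x _
    rw [← mkHom_eq_zero]
    exact hne _

end Pool.Agent.Lib.MP_8f946f_al.CP
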