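import Pool.Agent.Lib.MP_8f946f_al.CP.SpecR
import Pool.Agent.Lib.MP_8f946f_al.Sol.Asm

/-!
# Capelli: nilpotent-by-finite algebras with a monic identity satisfy the maximal condition
-/

set_option autoImplicit false

namespace Pool.Agent.Lib.MP_8f946f_al.CP

open Polynomial

namespace RMNM

variable {F : Type} [Field F] {L : Type} [LieRing L] [LieAlgebra F L]

/-- the step for the terms of the lower central series -/
theorem step [Finite F] (N : LieIdeal F L) (hN : Finite (L ⧸ N)) (U : LieIdeal F L) (i : ℕ)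
    (hG : ∃ S : Set L, S.Finite ∧ S ⊆ gam N i ∧
      gam N i ≤ LieSubmodule.lieSpan F L S ⊔ gam N (i + 1))
    (h : ∃ S : Set L, S.Finite ∧ S ⊆ ((U ⊓ gam N (i + 1) : LieIdeal F L) : Set L) ∧
      U ⊓ gam N (i + 1) ≤ LieSubmodule.lieSpan F L S) :
    ∃ S : Set L, S.Finite ∧ S ⊆ ((U ⊓ gam N i : LieIdeal F L) : Set L) ∧
      U ⊓ gam N i ≤ LieSubmodule.lieSpan F L S := by
  obtain ⟨S, hS, hSi, hgen⟩ := hG
  obtain ⟨S', hS', hS'U, hS'gen⟩ := h
  have hAB : ∀ n ∈ N, ∀ a ∈ gam N i, ⁅n, a⁆ ∈ gam N (i + 1) := fun n hn a ha =>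
    LieSubmodule.lie_mem_lie hn ha
  obtain ⟨T, hT, hTC, hTgen⟩ := fg_sub N (gam N i) (gam N (i + 1)) (U ⊓ gam N i) hAB S hS hSi hgen
    inf_le_right
  have hmono : gam N (i + 1) ≤ gam N i := LieSubmodule.lie_le_right _ _
  refine ⟨T ∪ S', hT.union hS', ?_, ?_⟩
  · rintro x (hx | hx)
    · exact hTC hx
    · exact ⟨(hS'U hx).1, hmono (hS'U hx).2⟩
  · intro x hx
    obtain ⟨u, hu, b, hb, hub⟩ := (LieSubmodule.mem_sup _ _ _).1 (hTgen hx)
    have hu' : u ∈ U ⊓ gam N i := (LieSubmodule.lieSpan_le.2 hTC) hu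
    have hb' : b ∈ U ⊓ gam N (i + 1) := by
      refine ⟨?_, hb⟩
      have h1 : b = x - u := by rw [← hub]; abel
      rw [h1]
      exact sub_mem hx.1 hu'.1
    rw [← hub]
    exact add_mem (LieSubmodule.lieSpan_mono Set.subset_union_left hu)
      (LieSubmodule.lieSpan_mono Set.subset_union_right (hS'gen hb'))

end RMNM

open RMNM in
/-- **MN.** -/
theorem specMN : SpecMN := by
  intro F _ _ k c' w hw L _ _ hfg hL hNF U
  classical
  obtain ⟨N, c, hN, hc⟩ := hNF
  have hfin : Finite (L ⧸ N) := Module.finite_of_finite F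
  have hG : ∀ i, ∃ S : Set L, S.Finite ∧ S ⊆ gam N i ∧
      gam N i ≤ LieSubmodule.lieSpan F L S ⊔ gam N (i + 1) := by
    intro i
    exact gam_fg N k c' (fun i x f hf g hg => third_gam_le N i
      (monicForm_mem_third k c' w hw L hL N (gam N i) x f g hf hg)) hfg i
  have hall : ∀ d : ℕ, ∃ S : Set L, S.Finite ∧
      S ⊆ ((U ⊓ gam N (c - d) : LieIdeal F L) : Set L) ∧
      U ⊓ gam N (c - d) ≤ LieSubmodule.lieSpan F L S := by
    intro d
    induction d with
    | zero =>
      refine ⟨∅, Set.finite_empty, Set.empty_subset _, ?_⟩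
      rw [Nat.sub_zero, hc, inf_bot_eq]
      exact bot_le
    | succ d ih =>
      rcases Nat.lt_or_ge d c with h | h
      · apply step N hfin U _ (hG _)
        have h1 : c - (d + 1) + 1 = c - d := by omega
        rw [h1]
        exact ih
      · have h1 : c - (d + 1) = c - d := by omega
        rw [h1]
        exact ih
  obtain ⟨S, hS, hSU, hSgen⟩ := hall c
  rw [Nat.sub_self] at hSU hSgen
  have hg0 : gam N 0 = N := rfl
  rw [hg0] at hSU hSgen
  -- representatives of `U` modulo `N`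
  let q : U → L ⧸ N := fun u => LieSubmodule.Quotient.mk (u : L)
  have hr : ∀ z : Set.range q, ∃ u : U, q u = z := fun z => z.2
  choose r hr using hr
  refine ⟨S ∪ Set.range (fun z => ((r z : U) : L)), hS.union (Set.finite_range _), ?_, ?_⟩
  · rintro x (hx | ⟨z, rfl⟩)
    · exact (hSU hx).1
    · exact (r z).2
  · intro x hx
    let u : U := ⟨x, hx⟩
    let z : Set.range q := ⟨q u, ⟨u, rfl⟩⟩
    have h1 : q (r z) = q u := hr z
    have h2 : x - ((r z : U) : L) ∈ N :=
      (Submodule.Quotient.eq (N : Submodule F L)).1 h1.symm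
    have h3 : x - ((r z : U) : L) ∈ U ⊓ N := ⟨sub_mem hx (r z).2, h2⟩
    have h4 : x = (x - ((r z : U) : L)) + ((r z : U) : L) := by abel
    rw [h4]
    exact add_mem (LieSubmodule.lieSpan_mono Set.subset_union_left (hSgen h3))
      (LieSubmodule.subset_lieSpan (Or.inr ⟨z, rfl⟩))

end Pool.Agent.Lib.MP_8f946f_al.CP
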