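import Pool.Agent.Lib.MP_8f946f_al.CP.Spec
import Pool.Agent.Lib.MP_8f946f_al.BD.Idx
import Pool.Agent.Lib.MP_8f946f_al.BD.Sol
import Pool.Agent.Lib.MP_8f946f_al.Sol.Asm

/-!
# Capelli: an algebra with a monic identity which is soluble-by-finite is nilpotent-by-finite
-/

set_option autoImplicit false

namespace Pool.Agent.Lib.MP_8f946f_al.CP

open Polynomial

namespace SNM

variable {F : Type} [Field F]

/-- a morphism which maps `J` into `S` maps the derived series of `J` into that of `S` -/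
theorem map_derived {A L : Type} [LieRing A] [LieAlgebra F A] [LieRing L] [LieAlgebra F L]
    (θ : A →ₗ⁅F⁆ L) (J : LieIdeal F A) (S : LieIdeal F L) (h : LieIdeal.map θ J ≤ S) (k : ℕ) :
    LieIdeal.map θ (LieAlgebra.derivedSeriesOfIdeal F A k J) ≤
      LieAlgebra.derivedSeriesOfIdeal F L k S := by
  induction k with
  | zero => exact h
  | succ k ih =>
    rw [LieAlgebra.derivedSeriesOfIdeal_succ, LieAlgebra.derivedSeriesOfIdeal_succ]
    exact (LieIdeal.map_bracket_le θ).trans (LieSubmodule.mono_lie ih ih)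

/-- the same for surjective morphisms, with equality -/
theorem derived_map {A L : Type} [LieRing A] [LieAlgebra F A] [LieRing L] [LieAlgebra F L]
    (θ : A →ₗ⁅F⁆ L) (hθ : Function.Surjective θ) (J : LieIdeal F A) (k : ℕ) :
    LieAlgebra.derivedSeriesOfIdeal F L k (LieIdeal.map θ J) =
      LieIdeal.map θ (LieAlgebra.derivedSeriesOfIdeal F A k J) := by
  induction k with
  | zero => rfl
  | succ k ih =>
    rw [LieAlgebra.derivedSeriesOfIdeal_succ, LieAlgebra.derivedSeriesOfIdeal_succ, ih,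
      LieIdeal.map_bracket_eq θ hθ]

/-- the variety generated by a soluble-by-finite algebra is locally soluble-by-finite -/
theorem lsf [Finite F] (L : Type) [LieRing L] [LieAlgebra F L] (h : SF F L) :
    Sol.LocallySolubleByFinite {φ : FreeLieAlgebra F ℕ | Satisfies {φ} L} := by
  classical
  obtain ⟨S, d, hS, hd⟩ := h
  intro L' _ _ hL' hfg
  obtain ⟨s, hs, hspan⟩ := hfg
  have : Finite s := hs
  obtain ⟨J, hJ, hJk⟩ := BD.exists_index_ideal (F := F) (X := s) (Module.finrank F (L ⧸ S))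
  -- morphisms to `L`
  have h1 : ∀ θ : FreeLieAlgebra F s →ₗ⁅F⁆ L,
      ∀ u ∈ LieAlgebra.derivedSeriesOfIdeal F (FreeLieAlgebra F s) d J, θ u = 0 := by
    intro θ u hu
    have hm : LieIdeal.map θ J ≤ S := by
      rw [LieIdeal.map_le]
      rintro y ⟨x, hx, rfl⟩
      exact (BD.qm_ker S (θ x)).1 (hJk (L ⧸ S) hS le_rfl ((BD.qm S).comp θ) x hx)
    have h4 := map_derived θ J S hm d
    rw [hd, le_bot_iff] at h4
    have h5 : θ u ∈ LieIdeal.map θ (LieAlgebra.derivedSeriesOfIdeal F (FreeLieAlgebra F s) d J) :=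
      LieIdeal.mem_map hu
    rw [h4] at h5
    exact (LieSubmodule.mem_bot _).1 h5
  let θ' : FreeLieAlgebra F s →ₗ⁅F⁆ L' := FreeLieAlgebra.lift F (fun x : s => (x : L'))
  have hsurj : Function.Surjective θ' := by
    rw [← LieHom.range_eq_top, ← top_le_iff, ← hspan, LieSubalgebra.lieSpan_le]
    intro x hx
    exact ⟨FreeLieAlgebra.of F ⟨x, hx⟩, FreeLieAlgebra.lift_of_apply _ _⟩
  obtain ⟨e, he⟩ := (inferInstance : Countable s).exists_injective_nat
  let j : FreeLieAlgebra F s →ₗ⁅F⁆ FreeLieAlgebra F ℕ :=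
    FreeLieAlgebra.lift F (fun x : s => FreeLieAlgebra.of F (e x))
  have h2 : ∀ u ∈ LieAlgebra.derivedSeriesOfIdeal F (FreeLieAlgebra F s) d J, θ' u = 0 := by
    intro u hu
    have hmem : j u ∈ {φ : FreeLieAlgebra F ℕ | Satisfies {φ} L} := by
      intro φ hφ v
      rw [Set.mem_singleton_iff.1 hφ]
      exact h1 ((FreeLieAlgebra.lift F v).comp j) u hu
    let v' : ℕ → L' := fun n => if h : ∃ x : s, e x = n then (h.choose : L') else 0
    have hv' : ∀ x : s, v' (e x) = x := by
      intro x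
      have hex : ∃ y : s, e y = e x := ⟨x, rfl⟩
      have h3 : v' (e x) = (hex.choose : L') := dif_pos hex
      rw [h3, he hex.choose_spec]
    have h3 := hL' (j u) hmem v'
    have h4 : (FreeLieAlgebra.lift F v').comp j = θ' := by
      apply FreeLieAlgebra.hom_ext
      intro x
      simp [j, θ', hv']
    rw [← h4]
    exact h3
  refine ⟨LieIdeal.map θ' J, d, ?_, ?_⟩
  · let ψ : (FreeLieAlgebra F s ⧸ J) →ₗ[F] (L' ⧸ LieIdeal.map θ' J) :=
      Submodule.mapQ (J : Submodule F (FreeLieAlgebra F s))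
        ((LieIdeal.map θ' J : LieIdeal F L') : Submodule F L') (θ' : FreeLieAlgebra F s →ₗ[F] L')
        (fun x hx => LieIdeal.mem_map hx)
    have hψ : Function.Surjective ψ := by
      intro y
      obtain ⟨z, rfl⟩ := Submodule.mkQ_surjective _ y
      obtain ⟨x, rfl⟩ := hsurj z
      exact ⟨Submodule.Quotient.mk x, rfl⟩
    exact Module.Finite.of_surjective ψ hψ
  · rw [derived_map θ' hsurj, ← le_bot_iff, LieIdeal.map_le]
    rintro y ⟨u, hu, rfl⟩
    exact (LieSubmodule.mem_bot _).2 (h2 u hu)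

end SNM

theorem specSN : SpecSN := by
  intro F _ _ k c w hw L _ _ hfg hL hSF
  exact Sol.specFinal' F {φ : FreeLieAlgebra F ℕ | Satisfies {φ} L} (SNM.lsf L hSF)
    ⟨k, c, w, hw, fun L' _ _ hL' => fun φ hφ v => by
      refine hL' φ ?_ v
      rw [Set.mem_singleton_iff.1 hφ]
      exact hL⟩ L (fun φ hφ v => hφ φ rfl v) hfg

end Pool.Agent.Lib.MP_8f946f_al.CP
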