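import Pool.Agent.Lib.MP_8f946f_al.CP.SpecR
import Pool.Agent.Lib.MP_8f946f_al.CP.Asm
import Pool.Agent.Lib.MP_8f946f_al.CP.SN
import Pool.Agent.Lib.MP_8f946f_al.CP.RMN
import Pool.Agent.Lib.MP_8f946f_al.CP.EX
import Pool.Agent.Lib.MP_8f946f_al.CP.BT

/-!
# RD: the reduction to perfect ideals (helper16)
-/

set_option autoImplicit false

namespace Pool.Agent.Lib.MP_8f946f_al.CP

open Polynomial

namespace RRDM

variable {F : Type} [Field F]

section gen

variable {L L' : Type} [LieRing L] [LieAlgebra F L] [LieRing L'] [LieAlgebra F L']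

theorem img_lie_ge (q : L →ₗ⁅F⁆ L') (hq : Function.Surjective q) (I J : LieIdeal F L) :
    imgIdeal q hq ⁅I, J⁆ ≤ ⁅imgIdeal q hq I, imgIdeal q hq J⁆ := by
  have h : ⁅I, J⁆ ≤ LieIdeal.comap q ⁅imgIdeal q hq I, imgIdeal q hq J⁆ := by
    rw [LieSubmodule.lie_le_iff]
    intro x hx y hy
    rw [LieIdeal.mem_comap, LieHom.map_lie]
    exact LieSubmodule.lie_mem_lie ⟨x, hx, rfl⟩ ⟨y, hy, rfl⟩
  rintro _ ⟨x, hx, rfl⟩
  exact LieIdeal.mem_comap.1 (h hx)

theorem lie_comap_le (q : L →ₗ⁅F⁆ L') (A B : LieIdeal F L') :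
    ⁅LieIdeal.comap q A, LieIdeal.comap q B⁆ ≤ LieIdeal.comap q ⁅A, B⁆ :=
  LieIdeal.comap_bracket_le q

theorem gam_comap (q : L →ₗ⁅F⁆ L') (N : LieIdeal F L') (c : ℕ) :
    gam (LieIdeal.comap q N) c ≤ LieIdeal.comap q (gam N c) := by
  induction c with
  | zero => exact le_rfl
  | succ c ih =>
    change ⁅LieIdeal.comap q N, gam (LieIdeal.comap q N) c⁆ ≤ LieIdeal.comap q ⁅N, gam N c⁆
    exact (LieSubmodule.mono_lie le_rfl ih).trans (lie_comap_le q _ _)

theorem finite_comap (q : L →ₗ⁅F⁆ L') (N : LieIdeal F L') (h : FiniteDimensional F (L' ⧸ N)) :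
    FiniteDimensional F (L ⧸ LieIdeal.comap q N) := by
  let f : (L ⧸ LieIdeal.comap q N) →ₗ[F] (L' ⧸ N) :=
    Submodule.mapQ (LieIdeal.comap q N).toSubmodule N.toSubmodule (q : L →ₗ[F] L')
      (fun x hx => hx)
  have hf : Function.Injective f := by
    rw [← LinearMap.ker_eq_bot, eq_bot_iff]
    intro y hy
    obtain ⟨y, rfl⟩ := mkHom_surjective _ y
    have h1 : mkHom N (q y) = 0 := hy
    rw [mkHom_eq_zero] at h1
    rw [Submodule.mem_bot, mkHom_eq_zero, LieIdeal.mem_comap]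
    exact h1
  exact Module.Finite.of_injective f hf

theorem img_le_bot (D : LieIdeal F L) : imgIdeal (mkHom D) (mkHom_surjective D) D = ⊥ := by
  rw [eq_bot_iff]
  rintro _ ⟨x, hx, rfl⟩
  rw [LieSubmodule.mem_bot, mkHom_eq_zero]
  exact hx

theorem sf_quot (P D : LieIdeal F L) (hP : FiniteDimensional F (L ⧸ P)) (l : ℕ)
    (h : LieAlgebra.derivedSeriesOfIdeal F L l P ≤ D) : SF F (L ⧸ D) := by
  refine ⟨imgIdeal (mkHom D) (mkHom_surjective D) P, l, finiteDimensional_img _ _ P hP, ?_⟩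
  rw [eq_bot_iff, ← img_le_bot D]
  exact (derived_img _ _ P l).trans (imgIdeal_mono _ _ h)

theorem prime_comap (I : LieIdeal F L) (C' : LieIdeal F (L ⧸ I)) (h : PrimeLie F ((L ⧸ I) ⧸ C')) :
    PrimeLie F (L ⧸ LieIdeal.comap (mkHom I) C') := by
  intro A B hAB
  let C := LieIdeal.comap (mkHom I) C'
  let r : L →ₗ⁅F⁆ ((L ⧸ I) ⧸ C') := (mkHom C').comp (mkHom I)
  have hr : Function.Surjective r := (mkHom_surjective C').comp (mkHom_surjective I)
  have hrk : ∀ x, r x = 0 ↔ x ∈ C := by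
    intro x
    change mkHom C' (mkHom I x) = 0 ↔ _
    rw [mkHom_eq_zero]
    exact Iff.rfl
  have h1 : ⁅imgIdeal r hr (LieIdeal.comap (mkHom C) A), imgIdeal r hr (LieIdeal.comap (mkHom C) B)⁆ =
      ⊥ := by
    rw [eq_bot_iff]
    refine (imgIdeal_lie r hr _ _).trans ?_
    rintro _ ⟨x, hx, rfl⟩
    have hx2 := LieIdeal.mem_comap.1 (lie_comap_le (mkHom C) A B hx)
    rw [hAB, LieSubmodule.mem_bot, mkHom_eq_zero] at hx2
    rw [LieSubmodule.mem_bot, hrk]
    exact hx2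
  have key : ∀ A : LieIdeal F (L ⧸ C), imgIdeal r hr (LieIdeal.comap (mkHom C) A) = ⊥ → A = ⊥ := by
    intro A hA
    rw [eq_bot_iff]
    intro y hy
    obtain ⟨y, rfl⟩ := mkHom_surjective C y
    have h2 : r y ∈ imgIdeal r hr (LieIdeal.comap (mkHom C) A) := ⟨y, hy, rfl⟩
    rw [hA, LieSubmodule.mem_bot, hrk] at h2
    rw [LieSubmodule.mem_bot, mkHom_eq_zero]
    exact h2
  rcases h _ _ h1 with h2 | h2
  · exact Or.inl (key A h2)
  · exact Or.inr (key B h2)

theorem mem_sSup_chain (Ch : Set (LieIdeal F L)) (hc : IsChain (· ≤ ·) Ch) (hne : Ch.Nonempty)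
    (x : L) (hx : x ∈ sSup Ch) : ∃ I ∈ Ch, x ∈ I := by
  obtain ⟨I₀, hI₀⟩ := hne
  let U : LieIdeal F L :=
    { carrier := {y | ∃ I ∈ Ch, y ∈ I}
      zero_mem' := ⟨I₀, hI₀, I₀.zero_mem⟩
      add_mem' := by
        rintro y z ⟨I, hI, hy⟩ ⟨J, hJ, hz⟩
        rcases hc.total hI hJ with h | h
        · exact ⟨J, hJ, J.add_mem (h hy) hz⟩
        · exact ⟨I, hI, I.add_mem hy (h hz)⟩
      smul_mem' := by
        rintro t y ⟨I, hI, hy⟩
        exact ⟨I, hI, I.smul_mem t hy⟩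
      lie_mem := by
        rintro x y ⟨I, hI, hy⟩
        exact ⟨I, hI, lie_mem_right F L I x y hy⟩ }
  have h : sSup Ch ≤ U := sSup_le fun I hI y hy => ⟨I, hI, hy⟩
  exact h hx

theorem finite_sSup_chain (Ch : Set (LieIdeal F L)) (hc : IsChain (· ≤ ·) Ch) (hne : Ch.Nonempty)
    (S : Set L) (hS : S.Finite) (hSU : ∀ x ∈ S, x ∈ sSup Ch) : ∃ I ∈ Ch, S ⊆ I := by
  induction S, hS using Set.Finite.induction_on with
  | empty =>
    obtain ⟨I₀, hI₀⟩ := hne
    exact ⟨I₀, hI₀, Set.empty_subset _⟩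
  | insert _ _ ih =>
    rename_i a S _ _
    obtain ⟨I, hI, hSI⟩ := ih fun x hx => hSU x (Set.mem_insert_of_mem _ hx)
    obtain ⟨J, hJ, haJ⟩ := mem_sSup_chain Ch hc hne a (hSU a (Set.mem_insert _ _))
    rcases hc.total hI hJ with h | h
    · refine ⟨J, hJ, ?_⟩
      rintro x (rfl | hx)
      · exact haJ
      · exact h (hSI hx)
    · refine ⟨I, hI, ?_⟩
      rintro x (rfl | hx)
      · exact h haJ
      · exact hSI hx

end gen

end RRDM

open RRDM BTM

/-- **RD**. -/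
theorem specRD (hBC : SpecBC) : SpecRD := by
  classical
  intro F _ _ k c w hw L _ _ hfg hL m hm P hP hPI
  by_contra hSF
  set D : ℕ → LieIdeal F L := fun n => LieAlgebra.derivedSeriesOfIdeal F L n P with hD
  have hDs : ∀ n, D (n + 1) = ⁅D n, D n⁆ := fun n => LieAlgebra.derivedSeriesOfIdeal_succ F L P n
  have hDanti : Antitone D := antitone_nat_of_succ_le fun n => by
    rw [hDs]
    exact LieSubmodule.lie_le_right _ _
  have hDP : ∀ n, D n ≤ P := fun n => hDanti (Nat.zero_le n)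
  let X : Set (LieIdeal F L) := {I | ∀ n, ¬ D n ≤ I}
  have hbot : (⊥ : LieIdeal F L) ∈ X := fun n h => hSF ⟨P, n, hP, le_bot_iff.1 h⟩
  by_cases hch : ∀ Ch : Set (LieIdeal F L), Ch ⊆ X → IsChain (· ≤ ·) Ch → Ch.Nonempty → sSup Ch ∈ X
  · obtain ⟨I, -, hI⟩ := zorn_le_nonempty₀ X (fun Ch hCh hc y hy =>
      ⟨sSup Ch, hch Ch hCh hc ⟨y, hy⟩, fun z hz => le_sSup hz⟩) ⊥ hbot
    have hprime : PrimeLie F (L ⧸ I) := by
      intro A B hAB
      by_contra hcon
      rw [not_or] at hcon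
      have key : ∀ A : LieIdeal F (L ⧸ I), A ≠ ⊥ → ∃ n, D n ≤ LieIdeal.comap (mkHom I) A := by
        intro A hA
        by_contra hc
        push Not at hc
        have h1 : LieIdeal.comap (mkHom I) A ∈ X := hc
        have h2 : I ≤ LieIdeal.comap (mkHom I) A := by
          intro x hx
          rw [LieIdeal.mem_comap, (mkHom_eq_zero I x).2 hx]
          exact A.zero_mem
        have h3 : LieIdeal.comap (mkHom I) A ≤ I := hI.le_of_ge h1 h2
        apply hA
        rw [eq_bot_iff]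
        intro y hy
        obtain ⟨y, rfl⟩ := mkHom_surjective I y
        rw [LieSubmodule.mem_bot, mkHom_eq_zero]
        exact h3 hy
      obtain ⟨a, ha⟩ := key A hcon.1
      obtain ⟨b, hb⟩ := key B hcon.2
      refine hI.prop (max a b + 1) ?_
      rw [hDs]
      refine (LieSubmodule.mono_lie ((hDanti (le_max_left a b)).trans ha)
        ((hDanti (le_max_right a b)).trans hb)).trans ?_
      refine (lie_comap_le (mkHom I) A B).trans ?_
      rw [hAB]
      intro x hx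
      rw [LieIdeal.mem_comap, LieSubmodule.mem_bot, mkHom_eq_zero] at hx
      exact hx
    exact hI.prop 0 (hPI I hprime)
  · push Not at hch
    obtain ⟨Ch, hChX, hc, hne, hU⟩ := hch
    obtain ⟨n, hn⟩ : ∃ n, D n ≤ sSup Ch := by
      by_contra h
      push Not at h
      exact hU h
    -- the finite set
    let L₁ := L ⧸ D (n + 1)
    have hfg₁ : IsFG F L₁ := hfg.of_surjective (mkHom (D (n + 1))) (mkHom_surjective _)
    have hL₁ : Satisfies {mono k c w} L₁ := hL.quotient (D (n + 1))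
    have hNF₁ : NF F L₁ := specSN F k c w hw L₁ hfg₁ hL₁ (sf_quot P (D (n + 1)) hP (n + 1) le_rfl)
    obtain ⟨S', hS', hS'D, hS'g⟩ := specMN F k c w hw L₁ hfg₁ hL₁ hNF₁
      (imgIdeal (mkHom (D (n + 1))) (mkHom_surjective _) (D n))
    have hlift : ∀ s ∈ S', ∃ x ∈ D n, mkHom (D (n + 1)) x = s := fun s hs => hS'D hs
    choose! g hg hg2 using hlift
    let S : Set L := g '' S'
    have hS : S.Finite := hS'.image g
    have hSD : ∀ x ∈ S, x ∈ D n := by
      rintro _ ⟨s, hs, rfl⟩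
      exact hg s hs
    have hgen : D n ≤ LieSubmodule.lieSpan F L S ⊔ D (n + 1) := by
      intro x hx
      have h1 : mkHom (D (n + 1)) x ∈ LieSubmodule.lieSpan F L₁ S' := hS'g ⟨x, hx, rfl⟩
      have h2 : LieSubmodule.lieSpan F L₁ S' ≤
          imgIdeal (mkHom (D (n + 1))) (mkHom_surjective _) (LieSubmodule.lieSpan F L S) := by
        rw [LieSubmodule.lieSpan_le]
        intro s hs
        exact ⟨g s, LieSubmodule.subset_lieSpan ⟨s, hs, rfl⟩, hg2 s hs⟩
      obtain ⟨y, hy, hyx⟩ := h2 h1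
      have h3 : x - y ∈ D (n + 1) := by
        rw [← mkHom_eq_zero, map_sub, hyx, sub_self]
      have h4 : x = y + (x - y) := by abel
      rw [h4]
      exact add_mem ((le_sup_left : LieSubmodule.lieSpan F L S ≤ _) hy)
        ((le_sup_right : D (n + 1) ≤ LieSubmodule.lieSpan F L S ⊔ D (n + 1)) h3)
    obtain ⟨I, hICh, hSI⟩ := finite_sSup_chain Ch hc hne S hS fun x hx => hn (hSD x hx)
    have hIX : I ∈ X := hChX hICh
    have hDI : D n ≤ I ⊔ D (n + 1) := hgen.trans (sup_le_sup_right (LieSubmodule.lieSpan_le.2 hSI) _)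
    -- the quotient
    let q := mkHom I
    have hq : Function.Surjective q := mkHom_surjective I
    let G : LieIdeal F (L ⧸ I) := imgIdeal q hq (D n)
    have hG1 : G ≤ imgIdeal q hq (D (n + 1)) := by
      rintro _ ⟨x, hx, rfl⟩
      obtain ⟨y, hy, z, hz, hyz⟩ := (LieSubmodule.mem_sup _ _ _).1 (hDI hx)
      refine ⟨z, hz, ?_⟩
      rw [← hyz, map_add, (mkHom_eq_zero I y).2 hy, zero_add]
    have hperf : ⁅G, G⁆ = G := by
      refine le_antisymm (LieSubmodule.lie_le_right _ _) (hG1.trans ?_)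
      rw [hDs]
      exact img_lie_ge q hq _ _
    have hG0 : G ≠ ⊥ := by
      intro h
      refine hIX n ?_
      intro x hx
      have h1 : q x ∈ G := ⟨x, hx, rfl⟩
      rw [h, LieSubmodule.mem_bot, mkHom_eq_zero] at h1
      exact h1
    have hfg' : IsFG F (L ⧸ I) := hfg.of_surjective q hq
    have hL' : Satisfies {mono k c w} (L ⧸ I) := hL.quotient I
    have hm' : Capelli m (L ⧸ I) := specEX.sur _ _ m (toInt q) hq hm
    have hSF₂ : SF F ((L ⧸ I) ⧸ G) :=
      sf_quot (imgIdeal q hq P) G (finiteDimensional_img q hq P hP) n (derived_img q hq P n)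
    obtain ⟨N, e, hN, hNe⟩ := specSN F k c w hw ((L ⧸ I) ⧸ G)
      (hfg'.of_surjective (mkHom G) (mkHom_surjective G)) (hL'.quotient G) hSF₂
    have hgam : gam (LieIdeal.comap (mkHom G) N) e ≤ G := by
      refine (gam_comap (mkHom G) N e).trans ?_
      rw [hNe]
      intro x hx
      rw [LieIdeal.mem_comap, LieSubmodule.mem_bot, mkHom_eq_zero] at hx
      exact hx
    obtain ⟨C', hC', hGC'⟩ := hBC F m (L ⧸ I) hfg' hm' G (LieIdeal.comap (mkHom G) N) e hperf hG0
      (finite_comap (mkHom G) N hN) hgam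
    apply hGC'
    rintro _ ⟨x, hx, rfl⟩
    exact hPI _ (prime_comap I C' hC') (hDP n hx)

end Pool.Agent.Lib.MP_8f946f_al.CP
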