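import Pool.Agent.Lib.MP_8f946f_al.CP.FULL

/-!
# Traces of the inner derivations on the ideal of Capelli values (module TR)
-/

set_option autoImplicit false

namespace Pool.Agent.Lib.MP_8f946f_al.CP

namespace TRM

open Finset

variable {L : Type} [LieRing L] {F : Type} [Field F] [LieAlgebra F L]

theorem exists_of_graph (T : LieIdeal F L) (W : Submodule F (L × L))
    (h1 : ∀ p ∈ W, p.2 ∈ T) (h2 : ∀ v ∈ T, ∃ w, (v, w) ∈ W) (h3 : ∀ w, ((0 : L), w) ∈ W → w = 0)
    (h4 : ∀ (l : L), ∀ p ∈ W, (⁅l, p.1⁆, ⁅l, p.2⁆) ∈ W) :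
    ∃ e ∈ RR F L T, ∀ v : T, ((v : L), ((e v : T) : L)) ∈ W := by
  classical
  have huniq : ∀ v w w' : L, (v, w) ∈ W → (v, w') ∈ W → w = w' := by
    intro v w w' h h'
    have h5 := W.sub_mem h h'
    rw [Prod.mk_sub_mk, sub_self] at h5
    exact sub_eq_zero.1 (h3 _ h5)
  choose f hf using fun v : T => h2 v v.2
  let e : Module.End F T :=
    { toFun := fun v => ⟨f v, h1 _ (hf v)⟩
      map_add' := fun v v' => by
        apply Subtype.ext
        refine huniq _ _ _ (hf (v + v')) ?_
        exact W.add_mem (hf v) (hf v')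
      map_smul' := fun c v => by
        apply Subtype.ext
        refine huniq _ _ _ (hf (c • v)) ?_
        exact W.smul_mem c (hf v) }
  refine ⟨e, ?_, hf⟩
  rw [RR, Subalgebra.mem_centralizer_iff]
  rintro _ ⟨l, rfl⟩
  refine LinearMap.ext fun v => Subtype.ext ?_
  change ⁅l, f v⁆ = f ⁅l, v⁆
  exact huniq _ _ _ (h4 l _ (hf v)) (hf ⁅l, v⁆)

/-- the bracket of some variables with `l` -/
def tw {d : ℕ} (l : L) (S : Finset (Fin d)) (x : Fin d → L) : Fin d → L :=
  fun i => if i ∈ S then ⁅l, x i⁆ else x i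

theorem tw_empty {d : ℕ} (l : L) (x : Fin d → L) : tw l ∅ x = x := by
  funext i
  rw [tw, if_neg (Finset.notMem_empty i)]

theorem lieMon_tw {d : ℕ} (l : L) (S : Finset (Fin d)) {φ : (Fin d → L) → L}
    (hφ : LieMon L Finset.univ φ) : LieMon L Finset.univ (fun x => φ (tw l S x)) := by
  classical
  have h1 := CRM.subst (n := d) (fun (k : Fin d) (z : Fin d → L) => tw l S z k)
    (fun k => ({k} : Finset (Fin d))) ?_ ?_ hφ
  · have h2 : (Finset.univ.biUnion fun k : Fin d => ({k} : Finset (Fin d))) = Finset.univ := by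
      refine Finset.eq_univ_of_forall fun k => ?_
      exact Finset.mem_biUnion.2 ⟨k, Finset.mem_univ _, Finset.mem_singleton_self _⟩
    rw [h2] at h1
    exact h1
  · intro k
    by_cases hk : k ∈ S
    · have h3 := LieMon.br (LieMon.const (m := d) l) (LieMon.var k)
        (Finset.disjoint_empty_left _)
      rw [Finset.empty_union] at h3
      have h4 : (fun z : Fin d → L => tw l S z k) = fun z => ⁅l, z k⁆ := by
        funext z
        rw [tw, if_pos hk]
      rw [h4]
      exact h3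
    · have h4 : (fun z : Fin d → L => tw l S z k) = fun z => z k := by
        funext z
        rw [tw, if_neg hk]
      rw [h4]
      exact LieMon.var k
  · intro k k' hk
    rw [Finset.disjoint_singleton]
    exact hk

/-- the `j`-th elementary symmetric function of the operators `ad l` in the variables -/
def Ej {d : ℕ} (l : L) (j : ℕ) (φ : (Fin d → L) → L) (x : Fin d → L) : L :=
  ∑ S ∈ (Finset.univ : Finset (Fin d)).powersetCard j, alt φ (tw l S x)

theorem Ej_eq {d : ℕ} (l : L) (j : ℕ) (φ : (Fin d → L) → L) (x : Fin d → L) :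
    Ej l j φ x = ∑ S ∈ (Finset.univ : Finset (Fin d)).powersetCard j,
      alt (fun z => φ (tw l S z)) x := by
  classical
  unfold Ej alt
  rw [Finset.sum_comm, Finset.sum_comm (s := (Finset.univ : Finset (Fin d)).powersetCard j)]
  refine Finset.sum_congr rfl fun σ _ => ?_
  rw [← Finset.smul_sum, ← Finset.smul_sum]
  congr 1
  symm
  refine Finset.sum_bij (fun S _ => S.map σ.toEmbedding) ?_ ?_ ?_ ?_
  · intro S hS
    rw [Finset.mem_powersetCard] at hS ⊢
    exact ⟨Finset.subset_univ _, by rw [Finset.card_map]; exact hS.2⟩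
  · intro S _ S' _ h
    exact Finset.map_injective _ h
  · intro S hS
    rw [Finset.mem_powersetCard] at hS
    refine ⟨S.map σ.symm.toEmbedding, ?_, ?_⟩
    · rw [Finset.mem_powersetCard]
      exact ⟨Finset.subset_univ _, by rw [Finset.card_map]; exact hS.2⟩
    · rw [Finset.map_map]
      have : (σ.symm.toEmbedding.trans σ.toEmbedding) = Function.Embedding.refl _ := by
        ext i
        simp
      rw [this, Finset.map_refl]
  · intro S _
    refine congrArg φ (funext fun i => ?_)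
    unfold tw
    have h1 : σ i ∈ S.map σ.toEmbedding ↔ i ∈ S := by
      rw [Finset.mem_map_equiv, Equiv.symm_apply_apply]
    by_cases hi : i ∈ S
    · rw [if_pos hi, if_pos (h1.2 hi)]
    · rw [if_neg hi, if_neg fun h => hi (h1.1 h)]

/-- the traces can be moved from one Capelli value to the other -/
theorem TR1 {d : ℕ} (F : Type) [Field F] [LieAlgebra F L] (hC : Capelli (d + 1) L) (l : L) (j : ℕ)
    (φ ψ : (Fin d → L) → L) (hφ : LieMon L Finset.univ φ) (hψ : LieMon L Finset.univ ψ)
    (x y : Fin d → L) : ⁅Ej l j φ x, alt ψ y⁆ = ⁅alt φ x, Ej l j ψ y⁆ := by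
  classical
  have hfull : ∀ (φ ψ : (Fin d → L) → L), LieMon L Finset.univ φ → LieMon L Finset.univ ψ →
      ∀ x y : Fin d → L, ⁅alt φ x, alt ψ y⁆ = ⁅alt φ y, alt ψ x⁆ := by
    intro φ ψ hφ hψ x y
    exact FULLM.full (F := F) hC φ ψ hφ hψ 1 (one_mem _) 1 (one_mem _) x y
  have e1 : ⁅Ej l j φ x, alt ψ y⁆ = ⁅alt φ y, Ej l j ψ x⁆ := by
    unfold Ej
    rw [sum_lie, lie_sum]
    exact Finset.sum_congr rfl fun S _ => hfull φ ψ hφ hψ _ _
  rw [e1, Ej_eq, Ej_eq, lie_sum, lie_sum]
  exact Finset.sum_congr rfl fun S _ => hfull φ _ hφ (lieMon_tw l S hψ) _ _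

/-- the bracket of a constant with an alternating sum -/
theorem lie_alt {d : ℕ} (l : L) (φ : (Fin d → L) → L) (x : Fin d → L) :
    ⁅l, alt φ x⁆ = alt (fun z => ⁅l, φ z⁆) x := by
  unfold alt
  rw [lie_sum]
  exact Finset.sum_congr rfl fun σ _ => lie_zsmul _ _ _

theorem lieMon_lie {d : ℕ} (l : L) {φ : (Fin d → L) → L} (hφ : LieMon L Finset.univ φ) :
    LieMon L Finset.univ (fun z => ⁅l, φ z⁆) := by
  have h3 := LieMon.br (LieMon.const (m := d) l) hφ (Finset.disjoint_empty_left _)
  rw [Finset.empty_union] at h3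
  exact h3

theorem lie_Ej {d : ℕ} (l l' : L) (j : ℕ) (φ : (Fin d → L) → L) (x : Fin d → L) :
    ⁅l', Ej l j φ x⁆ = Ej l j (fun z => ⁅l', φ z⁆) x := by
  unfold Ej
  rw [lie_sum]
  exact Finset.sum_congr rfl fun S _ => lie_alt _ _ _

/-- the ideal of the Capelli values is their linear span -/
theorem mem_TId {d : ℕ} {v : L} (hv : v ∈ TId F L d) :
    v ∈ Submodule.span F {z | ∃ φ : (Fin d → L) → L, LieMon L Finset.univ φ ∧
      ∃ x : Fin d → L, alt φ x = z} := by
  let I : LieIdeal F L :=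
    { Submodule.span F {z : L | ∃ φ : (Fin d → L) → L, LieMon L Finset.univ φ ∧
        ∃ x : Fin d → L, alt φ x = z} with
      lie_mem := by
        intro l v hv
        change v ∈ Submodule.span F _ at hv
        change ⁅l, v⁆ ∈ Submodule.span F _
        induction hv using Submodule.span_induction with
        | mem v hv =>
          obtain ⟨φ, hφ, x, rfl⟩ := hv
          rw [lie_alt]
          exact Submodule.subset_span ⟨_, lieMon_lie l hφ, x, rfl⟩
        | zero => rw [lie_zero]; exact zero_mem _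
        | add v w _ _ h h' => rw [lie_add]; exact add_mem h h'
        | smul c v _ h => rw [lie_smul]; exact Submodule.smul_mem _ _ h }
  have h1 : TId F L d ≤ I := by
    rw [TId, LieSubmodule.lieSpan_le]
    intro z hz
    exact Submodule.subset_span hz
  exact h1 hv

/-- induction on the elements of the ideal of the Capelli values -/
theorem TId_ind {d : ℕ} {P : TId F L d → Prop}
    (h : ∀ (φ : (Fin d → L) → L) (_ : LieMon L Finset.univ φ) (x : Fin d → L)
      (hx : alt φ x ∈ TId F L d), P ⟨alt φ x, hx⟩) (h0 : P 0)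
    (hadd : ∀ v w, P v → P w → P (v + w)) (hsm : ∀ (c : F) v, P v → P (c • v)) :
    ∀ v, P v := by
  let Q : Submodule F L :=
    { carrier := {v | ∃ hv : v ∈ TId F L d, P ⟨v, hv⟩}
      zero_mem' := ⟨zero_mem _, h0⟩
      add_mem' := by
        rintro v w ⟨hv, hv'⟩ ⟨hw, hw'⟩
        exact ⟨add_mem hv hw, hadd _ _ hv' hw'⟩
      smul_mem' := by
        rintro c v ⟨hv, hv'⟩
        exact ⟨(TId F L d).smul_mem c hv, hsm c _ hv'⟩ }
  rintro ⟨v, hv⟩
  have h1 : Submodule.span F {z | ∃ φ : (Fin d → L) → L, LieMon L Finset.univ φ ∧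
      ∃ x : Fin d → L, alt φ x = z} ≤ Q := by
    rw [Submodule.span_le]
    rintro _ ⟨φ, hφ, x, rfl⟩
    exact ⟨LieSubmodule.subset_lieSpan ⟨φ, hφ, x, rfl⟩, h φ hφ x _⟩
  obtain ⟨hv', hP⟩ := h1 (mem_TId hv)
  exact hP

/-- The trace operators. -/
theorem exists_Ej {d : ℕ} (hC : Capelli (d + 1) L) (hF : Faith F L (TId F L d)) (l : L) (j : ℕ) :
    ∃ e ∈ RR F L (TId F L d), ∀ (φ : (Fin d → L) → L) (hφ : LieMon L Finset.univ φ)
      (x : Fin d → L) (hx : alt φ x ∈ TId F L d),
      ((e ⟨alt φ x, hx⟩ : TId F L d) : L) = Ej l j φ x := by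
  classical
  let W : Submodule F (L × L) := Submodule.span F {p | ∃ φ : (Fin d → L) → L,
    LieMon L Finset.univ φ ∧ ∃ x : Fin d → L, p = (alt φ x, Ej l j φ x)}
  have hTmem : ∀ (φ : (Fin d → L) → L) (_ : LieMon L Finset.univ φ) (x : Fin d → L),
      alt φ x ∈ TId F L d := fun φ hφ x => LieSubmodule.subset_lieSpan ⟨φ, hφ, x, rfl⟩
  have hEmem : ∀ (φ : (Fin d → L) → L) (_ : LieMon L Finset.univ φ) (x : Fin d → L),
      Ej l j φ x ∈ TId F L d := fun φ hφ x => sum_mem fun S _ => hTmem φ hφ _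
  have h1 : ∀ p ∈ W, p.2 ∈ TId F L d := by
    intro p hp
    induction hp using Submodule.span_induction with
    | mem p hp =>
      obtain ⟨φ, hφ, x, rfl⟩ := hp
      exact hEmem φ hφ x
    | zero => exact zero_mem _
    | add p q _ _ h h' => exact add_mem h h'
    | smul c p _ h => exact (TId F L d).smul_mem c h
  have h2 : ∀ v ∈ TId F L d, ∃ w, (v, w) ∈ W := by
    intro v hv
    have hv' := mem_TId hv
    clear hv
    induction hv' using Submodule.span_induction with
    | mem v hv =>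
      obtain ⟨φ, hφ, x, rfl⟩ := hv
      exact ⟨_, Submodule.subset_span ⟨φ, hφ, x, rfl⟩⟩
    | zero => exact ⟨0, W.zero_mem⟩
    | add v v' _ _ h h' =>
      obtain ⟨w, hw⟩ := h
      obtain ⟨w', hw'⟩ := h'
      exact ⟨w + w', W.add_mem hw hw'⟩
    | smul c v _ h =>
      obtain ⟨w, hw⟩ := h
      exact ⟨c • w, W.smul_mem c hw⟩
  have hrel : ∀ p ∈ W, ∀ (ψ : (Fin d → L) → L), LieMon L Finset.univ ψ → ∀ y : Fin d → L,
      ⁅p.2, alt ψ y⁆ = ⁅p.1, Ej l j ψ y⁆ := by
    intro p hp ψ hψ y
    induction hp using Submodule.span_induction with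
    | mem p hp =>
      obtain ⟨φ, hφ, x, rfl⟩ := hp
      exact TR1 F hC l j φ ψ hφ hψ x y
    | zero => simp
    | add p q _ _ h h' => rw [Prod.snd_add, Prod.fst_add, add_lie, add_lie, h, h']
    | smul c p _ h => rw [Prod.smul_snd, Prod.smul_fst, smul_lie, smul_lie, h]
  have h3 : ∀ w, ((0 : L), w) ∈ W → w = 0 := by
    intro w hw
    refine hF w fun v hv => ?_
    have hv' := mem_TId hv
    clear hv
    induction hv' using Submodule.span_induction with
    | mem v hv =>
      obtain ⟨ψ, hψ, y, rfl⟩ := hv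
      have := hrel _ hw ψ hψ y
      rw [this]
      exact zero_lie _
    | zero => exact lie_zero _
    | add v v' _ _ h h' => rw [lie_add, h, h', add_zero]
    | smul c v _ h => rw [lie_smul, h, smul_zero]
  have h4 : ∀ (l' : L), ∀ p ∈ W, (⁅l', p.1⁆, ⁅l', p.2⁆) ∈ W := by
    intro l' p hp
    induction hp using Submodule.span_induction with
    | mem p hp =>
      obtain ⟨φ, hφ, x, rfl⟩ := hp
      refine Submodule.subset_span ⟨_, lieMon_lie l' hφ, x, ?_⟩
      rw [← lie_alt, ← lie_Ej]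
    | zero =>
      simp only [Prod.fst_zero, Prod.snd_zero, lie_zero]
      exact W.zero_mem
    | add p q _ _ h h' =>
      have := W.add_mem h h'
      rw [Prod.mk_add_mk, ← lie_add, ← lie_add] at this
      exact this
    | smul c p _ h =>
      have := W.smul_mem c h
      rw [Prod.smul_mk, ← lie_smul, ← lie_smul] at this
      exact this
  obtain ⟨e, he, heW⟩ := exists_of_graph (TId F L d) W h1 h2 h3 h4
  refine ⟨e, he, fun φ hφ x hx => ?_⟩
  have h5 := heW ⟨alt φ x, hx⟩
  have h6 : (alt φ x, Ej l j φ x) ∈ W := Submodule.subset_span ⟨φ, hφ, x, rfl⟩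
  have h7 := W.sub_mem h5 h6
  rw [Prod.mk_sub_mk, sub_self] at h7
  exact sub_eq_zero.1 (h3 _ h7)

/-- The identity of Cayley and Hamilton. -/
theorem TR2 {d : ℕ} (hone : ∀ (m : ℕ) (l y : L) (φ : (Fin d → L) → L), LieMon L Finset.univ φ →
      ∀ x : Fin d → L, ⁅((LieAlgebra.ad F L l) ^ m) y, alt φ x⁆ =
        ∑ i, ⁅((LieAlgebra.ad F L l) ^ m) (x i), alt φ (Function.update x i y)⁆)
    (l y : L) (φ : (Fin d → L) → L) (hφ : LieMon L Finset.univ φ) (x : Fin d → L) :
    ∑ j ∈ Finset.range (d + 1), ((-1 : ℤ) ^ j) •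
      ⁅((LieAlgebra.ad F L l) ^ (d - j)) y, Ej l j φ x⁆ = 0 := by
  classical
  have e1 : ∀ j, ((-1 : ℤ) ^ j) • ⁅((LieAlgebra.ad F L l) ^ (d - j)) y, Ej l j φ x⁆ =
      ∑ S ∈ (Finset.univ : Finset (Fin d)).powersetCard j, ((-1 : ℤ) ^ S.card) •
        ⁅((LieAlgebra.ad F L l) ^ (d - S.card)) y, alt φ (tw l S x)⁆ := by
    intro j
    unfold Ej
    rw [lie_sum, Finset.smul_sum]
    refine Finset.sum_congr rfl fun S hS => ?_
    rw [(Finset.mem_powersetCard.1 hS).2]
  have e2 : ∑ j ∈ Finset.range (d + 1), ((-1 : ℤ) ^ j) •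
      ⁅((LieAlgebra.ad F L l) ^ (d - j)) y, Ej l j φ x⁆ =
      ∑ S ∈ (Finset.univ : Finset (Fin d)).powerset, ((-1 : ℤ) ^ S.card) •
        ⁅((LieAlgebra.ad F L l) ^ (d - S.card)) y, alt φ (tw l S x)⁆ := by
    rw [Finset.sum_powerset, Finset.card_univ, Fintype.card_fin]
    exact Finset.sum_congr rfl fun j _ => e1 j
  rw [e2]
  have e3 : ∀ S ∈ (Finset.univ : Finset (Fin d)).powerset, ((-1 : ℤ) ^ S.card) •
      ⁅((LieAlgebra.ad F L l) ^ (d - S.card)) y, alt φ (tw l S x)⁆ =
      ∑ i, ((-1 : ℤ) ^ S.card) • ⁅((LieAlgebra.ad F L l) ^ (d - S.card)) (tw l S x i),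
        alt φ (Function.update (tw l S x) i y)⁆ := by
    intro S _
    rw [hone _ l y φ hφ (tw l S x), Finset.smul_sum]
  rw [Finset.sum_congr rfl e3, Finset.sum_comm]
  refine Finset.sum_eq_zero fun i _ => ?_
  have e4 : (Finset.univ : Finset (Fin d)) = insert i (Finset.univ.erase i) :=
    (Finset.insert_erase (Finset.mem_univ i)).symm
  rw [e4, Finset.sum_powerset_insert (Finset.notMem_erase i _), ← Finset.sum_add_distrib]
  refine Finset.sum_eq_zero fun S hS => ?_
  rw [Finset.mem_powerset] at hS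
  have hiS : i ∉ S := fun h => Finset.notMem_erase i _ (hS h)
  have hc : S.card < d := by
    have h1 := Finset.card_le_card hS
    rw [Finset.card_erase_of_mem (Finset.mem_univ i), Finset.card_univ, Fintype.card_fin] at h1
    have h2 : 0 < d := lt_of_le_of_lt (Nat.zero_le _) i.2
    omega
  have a1 : tw l S x i = x i := by
    rw [tw, if_neg hiS]
  have a2 : tw l (insert i S) x i = ⁅l, x i⁆ := by
    rw [tw, if_pos (Finset.mem_insert_self i S)]
  have a3 : Function.update (tw l (insert i S) x) i y = Function.update (tw l S x) i y := by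
    funext k
    rcases eq_or_ne k i with rfl | hk
    · rw [Function.update_self, Function.update_self]
    · rw [Function.update_of_ne hk, Function.update_of_ne hk]
      unfold tw
      have : k ∈ insert i S ↔ k ∈ S := by
        rw [Finset.mem_insert]
        exact or_iff_right hk
      simp only [this]
  have a4 : ((LieAlgebra.ad F L l) ^ (d - (insert i S).card)) ⁅l, x i⁆ =
      ((LieAlgebra.ad F L l) ^ (d - S.card)) (x i) := by
    rw [Finset.card_insert_of_notMem hiS]
    have h3 : d - S.card = (d - (S.card + 1)) + 1 := by omega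
    rw [h3, pow_succ]
    rfl
  rw [a1, a2, a3, a4, Finset.card_insert_of_notMem hiS, pow_succ]
  simp

end TRM

open TRM in
theorem specTR (hONE : SpecONE) : SpecTR := by
  classical
  intro F _ L _ _ d hC hF l
  choose E hE hE' using fun j => exists_Ej hC hF l j
  refine ⟨fun i => ((-1 : ℤ) ^ (d - i + 1)) • E (d - i), fun i => ?_, ?_⟩
  · exact zsmul_mem (hE _) _
  · have hone : ∀ (m : ℕ) (l y : L) (φ : (Fin d → L) → L), LieMon L Finset.univ φ →
        ∀ x : Fin d → L, ⁅((LieAlgebra.ad F L l) ^ m) y, alt φ x⁆ =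
        ∑ i, ⁅((LieAlgebra.ad F L l) ^ m) (x i), alt φ (Function.update x i y)⁆ := by
      intro m l y φ hφ x
      exact (hONE F L d hC φ hφ).1 1 (one_mem _) m l y x
    have hE0 : ∀ v : TId F L d, E 0 v = v := by
      refine TId_ind ?_ ?_ ?_ ?_
      · intro φ hφ x hx
        apply Subtype.ext
        rw [hE' 0 φ hφ x hx]
        unfold Ej
        rw [Finset.powersetCard_zero, Finset.sum_singleton, tw_empty]
      · exact map_zero _
      · intro v w hv hw
        rw [map_add, hv, hw]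
      · intro c v hv
        rw [map_smul, hv]
    intro y
    have hsum : ∀ v : TId F L d, ∑ j ∈ Finset.range (d + 1), ((-1 : ℤ) ^ j) •
        ⁅((LieAlgebra.ad F L l) ^ (d - j)) y, E j v⁆ = 0 := by
      refine TId_ind ?_ ?_ ?_ ?_
      · intro φ hφ x hx
        apply Subtype.ext
        rw [AddSubmonoidClass.coe_finsetSum]
        have h1 := TR2 hone l y φ hφ x
        refine Eq.trans (Finset.sum_congr rfl fun j _ => ?_) h1
        rw [← hE' j φ hφ x hx]
        rfl
      · simp
      · intro v w hv hw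
        simp only [map_add, lie_add, smul_add, Finset.sum_add_distrib]
        rw [hv, hw, add_zero]
      · intro c v hv
        have h1 : ∀ j, ((-1 : ℤ) ^ j) • ⁅((LieAlgebra.ad F L l) ^ (d - j)) y, E j (c • v)⁆ =
            c • (((-1 : ℤ) ^ j) • ⁅((LieAlgebra.ad F L l) ^ (d - j)) y, E j v⁆) := by
          intro j
          rw [map_smul, lie_smul, smul_comm]
        rw [Finset.sum_congr rfl fun j _ => h1 j, ← Finset.smul_sum, hv, smul_zero]
    intro v
    have h2 := hsum v
    rw [← Finset.sum_flip, Finset.sum_range_succ, Nat.sub_self, pow_zero, one_smul, Nat.sub_zero,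
      hE0] at h2
    rw [eq_neg_of_add_eq_zero_right h2, ← Finset.sum_neg_distrib]
    refine Finset.sum_congr rfl fun i hi => ?_
    have hi' : i < d := Finset.mem_range.1 hi
    have h3 : d - (d - i) = i := by omega
    rw [h3]
    change -(((-1 : ℤ) ^ (d - i)) • ⁅((LieAlgebra.ad F L l) ^ i) y, E (d - i) v⁆) =
      ⁅((LieAlgebra.ad F L l) ^ i) y, ((-1 : ℤ) ^ (d - i + 1)) • E (d - i) v⁆
    rw [lie_zsmul, pow_succ]
    simp

end Pool.Agent.Lib.MP_8f946f_al.CP
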