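import Pool.Agent.Lib.MP_8f946f_al.CP.RASM
import Pool.Agent.Lib.MP_8f946f_al.CP.RPB
import Pool.Agent.Lib.MP_8f946f_al.CP.RRD
import Pool.Agent.Lib.MP_8f946f_al.CP.RBC
import Pool.Agent.Lib.MP_8f946f_al.CP.RTR
import Pool.Agent.Lib.MP_8f946f_al.CP.RONE
import Pool.Agent.Lib.MP_8f946f_al.CP.RG1
import Pool.Agent.Lib.MP_8f946f_al.CP.RG2
import Pool.Agent.Lib.MP_8f946f_al.CP.RMX
import Pool.Agent.Lib.MP_8f946f_al.CP.CR
import Pool.Agent.Lib.MP_8f946f_al.CP.GE
import Pool.Agent.Lib.MP_8f946f_al.CP.SP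
import Pool.Agent.Lib.MP_8f946f_al.CP.FS
import Pool.Agent.Lib.MP_8f946f_al.CP.FD
import Pool.Agent.Lib.MP_8f946f_al.CP.EX
import Pool.Agent.Lib.MP_8f946f_al.CP.BTR
import Pool.Agent.Lib.MP_8f946f_al.CP.BT

/-!
# The classification of the locally residually finite varieties among the locally soluble-by-Capelli
ones
-/

set_option autoImplicit false

namespace Pool.Agent.Lib.MP_8f946f_al.CP

theorem pB : SpecPB := specPB specCR specGE specSP (specFS specFD) specEX

theorem bC : SpecBC := specBC (specTR specONE) specFG1 specFG2 specMX specEX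

theorem rD : SpecRD := specRD bC

/-- A finitely generated Lie algebra over a finite field with a monic identity and the Capelli
identities of some order is soluble-by-finite. -/
theorem capelli_solubleByFinite {F : Type} [Field F] [Finite F] {k : ℕ} {c : ℕ → Polynomial F}
    {w : FreeLieAlgebra F ℕ} (hw : w ∈ freeThird F) (L : Type) [LieRing L] [LieAlgebra F L]
    (hfg : IsFG F L) (hL : Satisfies {mono k c w} L) (m : ℕ) (hm : Capelli m L) : SF F L :=
  sf_of_capelli pB rD hw L hfg hL m hm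

theorem iff_of_capelli {F : Type} [Field F] [Finite F] {Γ : Set (FreeLieAlgebra F ℕ)}
    (hΓ : LocallySolubleByCapelli Γ) :
    (LocallyRF Γ ↔ HasMonicIdentity Γ) ∧ (HasMonicIdentity Γ → LocallyNilpotentByFinite Γ) :=
  locallyRF_iff pB rD hΓ

end Pool.Agent.Lib.MP_8f946f_al.CP
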