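import Pool.Agent.Lib.MP_8f946f_al.CP.Spec

/-!
# SP: specialisation to finite fields
-/

set_option autoImplicit false

namespace Pool.Agent.Lib.MP_8f946f_al.CP

namespace SPM

open TensorProduct

/-- base change of an `R`-lattice to a field `K'` -/
theorem core {F R K' L QR : Type} [Field F] [CommRing R] [Algebra F R] [Field K'] [Algebra F K']
    [Algebra R K'] [IsScalarTower F R K'] [LieRing L] [LieAlgebra F L] [LieRing QR]
    [LieAlgebra R QR] {ι : Type} [Fintype ι] (b : Module.Basis ι R QR) (p : L → QR)
    (hadd : ∀ x y, p (x + y) = p x + p y) (hsmul : ∀ (f : F) x, p (f • x) = algebraMap F R f • p x)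
    (hlie : ∀ x y, p ⁅x, y⁆ = ⁅p x, p y⁆) (a : L) (k : ι)
    (hk : algebraMap R K' (b.repr (p a) k) ≠ 0) :
    ∃ (Q' : Type) (_ : LieRing Q') (_ : LieAlgebra F Q') (_ : LieAlgebra K' Q')
      (_ : IsScalarTower F K' Q') (π' : L →ₗ⁅F⁆ Q'), FiniteDimensional K' Q' ∧
      Module.finrank K' Q' ≤ Fintype.card ι ∧ π' a ≠ 0 := by
  let iF : LieAlgebra F (K' ⊗[R] QR) :=
    { lie_smul := fun f x y => by
        rw [← algebraMap_smul K' f y, lie_smul, algebraMap_smul] }
  refine ⟨K' ⊗[R] QR, inferInstance, iF, inferInstance, inferInstance,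
    { toFun := fun x => 1 ⊗ₜ[R] p x
      map_add' := fun x y => by rw [hadd, tmul_add]
      map_smul' := fun f x => by
        rw [hsmul, RingHom.id_apply, ← smul_tmul, smul_tmul', algebraMap_smul]
      map_lie' := fun {x y} => by
        rw [hlie, LieAlgebra.ExtendScalars.bracket_tmul, one_mul] }, ?_, ?_, ?_⟩
  · exact Module.Basis.finiteDimensional_of_finite (Algebra.TensorProduct.basis K' b)
  · rw [Module.finrank_eq_card_basis (Algebra.TensorProduct.basis K' b)]
  · intro h
    apply hk
    have h1 : (Algebra.TensorProduct.basis K' b).repr ((1 : K') ⊗ₜ[R] p a) k = 0 := by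
      have h2 : (1 : K') ⊗ₜ[R] p a = 0 := h
      rw [h2, map_zero, Finsupp.zero_apply]
    rw [Algebra.TensorProduct.basis_repr_tmul] at h1
    simpa using h1

/-- a maximal ideal with finite residue field avoiding a non-zero element -/
theorem exists_max (F : Type) [Field F] [Finite F] (R : Type) [CommRing R] [IsDomain R]
    [Algebra F R] (hR : Algebra.FiniteType F R) (r : R) (hr : r ≠ 0) :
    ∃ m : Ideal R, m.IsMaximal ∧ r ∉ m ∧ Finite (R ⧸ m) := by
  have hJ : IsJacobsonRing R := isJacobsonRing_of_finiteType (A := F)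
  have h1 : (⊥ : Ideal R).jacobson = ⊥ := hJ.out (Ideal.isPrime_bot).isRadical
  have h2 : r ∉ (⊥ : Ideal R).jacobson := by
    rw [h1]
    simpa using hr
  rw [Ideal.jacobson, Ideal.mem_sInf] at h2
  push Not at h2
  obtain ⟨m, ⟨-, hm⟩, hrm⟩ := h2
  refine ⟨m, hm, hrm, ?_⟩
  let _ : Field (R ⧸ m) := Ideal.Quotient.field m
  have h3 : Algebra.FiniteType F (R ⧸ m) :=
    hR.of_surjective (Ideal.Quotient.mkₐ F m) (Ideal.Quotient.mkₐ_surjective F m)
  have h4 : Module.Finite F (R ⧸ m) := finite_of_finite_type_of_isJacobsonRing F (R ⧸ m)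
  exact Module.finite_of_finite F

end SPM

theorem specSP : SpecSP := by
  intro F _ _ L _ _ hfg K Q _ _ _ _ _ _ π hfd a ha
  classical
  obtain ⟨s, hs, hspan⟩ := hfg
  let b := Module.finBasis K Q
  let c : Set K := (Set.range fun t : Fin (Module.finrank K Q) × Fin (Module.finrank K Q) ×
      Fin (Module.finrank K Q) => b.repr ⁅b t.1, b t.2.1⁆ t.2.2) ∪
    ⋃ x ∈ s, Set.range (fun i => b.repr (π x) i)
  have hc : c.Finite := (Set.finite_range _).union (hs.biUnion fun x _ => Set.finite_range _)
  let R : Subalgebra F K := Algebra.adjoin F c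
  have hcR : ∀ z ∈ c, z ∈ Set.range (algebraMap R K) := fun z hz =>
    ⟨⟨z, Algebra.subset_adjoin hz⟩, rfl⟩
  have hR : Algebra.FiniteType F R := by
    rw [← Subalgebra.fg_iff_finiteType]
    exact ⟨hc.toFinset, by rw [hc.coe_toFinset]⟩
  let iR : LieAlgebra R Q := { lie_smul := fun t x y => lie_smul (t : K) x y }
  let P : LieSubalgebra R Q :=
    { Submodule.span R (Set.range b) with
      lie_mem' := by
        intro x y hx hy
        change x ∈ Submodule.span R (Set.range b) at hx
        change y ∈ Submodule.span R (Set.range b) at hy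
        change ⁅x, y⁆ ∈ Submodule.span R (Set.range b)
        induction hx using Submodule.span_induction with
        | mem x hx =>
          obtain ⟨i, rfl⟩ := hx
          induction hy using Submodule.span_induction with
          | mem y hy =>
            obtain ⟨j, rfl⟩ := hy
            rw [b.mem_span_iff_repr_mem R]
            intro k
            exact hcR _ (Or.inl ⟨(i, j, k), rfl⟩)
          | zero => rw [lie_zero]; exact Submodule.zero_mem _
          | add u v _ _ hu hv => rw [lie_add]; exact Submodule.add_mem _ hu hv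
          | smul t u _ hu => rw [lie_smul]; exact Submodule.smul_mem _ _ hu
        | zero => rw [zero_lie]; exact Submodule.zero_mem _
        | add u v _ _ hu hv => rw [add_lie]; exact Submodule.add_mem _ hu hv
        | smul t u _ hu => rw [smul_lie]; exact Submodule.smul_mem _ _ hu }
  have hsm : ∀ (f : F) (q : Q), f • q = (algebraMap F R f) • q := fun f q => by
    rw [show (algebraMap F R f) • q = (algebraMap F K f) • q from rfl, algebraMap_smul]
  let S0 : LieSubalgebra F L :=
    { carrier := {x | π x ∈ P}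
      add_mem' := fun {x y} hx hy => by
        change π (x + y) ∈ P
        rw [map_add]
        exact P.add_mem hx hy
      zero_mem' := by
        change π 0 ∈ P
        rw [map_zero]
        exact P.zero_mem
      smul_mem' := fun f x hx => by
        change π (f • x) ∈ P
        rw [map_smul, hsm]
        exact P.smul_mem _ hx
      lie_mem' := fun {x y} hx hy => by
        change π ⁅x, y⁆ ∈ P
        rw [LieHom.map_lie]
        exact P.lie_mem hx hy }
  have hS0 : ∀ x, π x ∈ P := by
    have h1 : LieSubalgebra.lieSpan F L s ≤ S0 := by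
      rw [LieSubalgebra.lieSpan_le]
      intro x hx
      change π x ∈ Submodule.span R (Set.range b)
      rw [b.mem_span_iff_repr_mem R]
      intro k
      exact hcR _ (Or.inr (Set.mem_biUnion hx ⟨k, rfl⟩))
    intro x
    have h2 : x ∈ LieSubalgebra.lieSpan F L s := by rw [hspan]; trivial
    exact h1 h2
  obtain ⟨k, hk⟩ : ∃ k, b.repr (π a) k ≠ 0 := by
    by_contra h
    push Not at h
    apply ha
    have h1 : b.repr (π a) = 0 := Finsupp.ext h
    exact b.repr.map_eq_zero_iff.1 h1
  let e : ↥(Submodule.span R (Set.range b)) ≃ₗ[R] P :=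
    { toFun := fun x => ⟨x.1, x.2⟩
      invFun := fun x => ⟨x.1, x.2⟩
      map_add' := fun _ _ => rfl
      map_smul' := fun _ _ => rfl
      left_inv := fun _ => rfl
      right_inv := fun _ => rfl }
  let bP : Module.Basis (Fin (Module.finrank K Q)) R P := (b.restrictScalars R).map e
  have hr : bP.repr ⟨π a, hS0 a⟩ k ≠ 0 := by
    intro h
    apply hk
    have h1 := b.restrictScalars_repr_apply R ⟨π a, hS0 a⟩ k
    have h2 : (b.restrictScalars R).repr ⟨π a, hS0 a⟩ k = 0 := h
    rw [h2, map_zero] at h1
    exact h1.symm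
  obtain ⟨m, hm, hrm, hfin⟩ := SPM.exists_max F R hR _ hr
  let iK : Field (R ⧸ m) := Ideal.Quotient.field m
  obtain ⟨Q', i1, i2, i3, i4, π', h1, h2, h3⟩ := SPM.core (F := F) (R := R) (K' := R ⧸ m) bP
    (fun x => ⟨π x, hS0 x⟩) (fun x y => Subtype.ext (map_add π x y))
    (fun f x => Subtype.ext (by
      change π (f • x) = (algebraMap F R f) • π x
      rw [map_smul, hsm]))
    (fun x y => Subtype.ext (LieHom.map_lie π x y)) a k (by
      intro h
      exact hrm (Ideal.Quotient.eq_zero_iff_mem.1 h))
  refine ⟨R ⧸ m, iK, hfin, inferInstance, Q', i1, i2, i3, i4, π', h1, ?_, h3⟩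
  simpa using h2

end Pool.Agent.Lib.MP_8f946f_al.CP
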