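import Pool.Agent.Lib.MP_8f946f_al.CP.Spec

/-!
# The radical of a finitely generated Capelli algebra: specifications of the modules
-/

set_option autoImplicit false

namespace Pool.Agent.Lib.MP_8f946f_al.CP

open Polynomial

/-- alternation of a function -/
def alt {L : Type} [LieRing L] {d : ℕ} (φ : (Fin d → L) → L) (x : Fin d → L) : L :=
  ∑ σ : Equiv.Perm (Fin d), (Equiv.Perm.sign σ : ℤ) • φ (fun i => x (σ i))

/-- the ideal generated by the Capelli values of order `d` -/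
def TId (F : Type) [Field F] (L : Type) [LieRing L] [LieAlgebra F L] (d : ℕ) : LieIdeal F L :=
  LieSubmodule.lieSpan F L
    {z | ∃ φ : (Fin d → L) → L, LieMon L Finset.univ φ ∧ ∃ x : Fin d → L, alt φ x = z}

/-- the `L`-linear endomorphisms of the ideal `T` -/
def RR (F : Type) [Field F] (L : Type) [LieRing L] [LieAlgebra F L] (T : LieIdeal F L) :
    Subalgebra F (Module.End F T) :=
  Subalgebra.centralizer F (Set.range fun l : L => LieModule.toEnd F L T l)

/-- `L` acts faithfully on `T` -/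
def Faith (F : Type) [Field F] (L : Type) [LieRing L] [LieAlgebra F L] (T : LieIdeal F L) : Prop :=
  ∀ l : L, (∀ v ∈ T, ⁅l, v⁆ = 0) → l = 0

/-- each `ad l` is integral of degree `d` over `RR` -/
def IntAd (F : Type) [Field F] (L : Type) [LieRing L] [LieAlgebra F L] (T : LieIdeal F L)
    (d : ℕ) : Prop :=
  ∀ l : L, ∃ e : ℕ → Module.End F T, (∀ j, e j ∈ RR F L T) ∧ ∀ (y : L) (v : T),
    ⁅((LieAlgebra.ad F L l) ^ d) y, v⁆ =
      ∑ j ∈ Finset.range d, ⁅((LieAlgebra.ad F L l) ^ j) y, e j v⁆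

/-- the `RR`-Lie subalgebra of `End T` generated by the `ad y`, `y ∈ Y` -/
inductive HH (F : Type) [Field F] (L : Type) [LieRing L] [LieAlgebra F L] (T : LieIdeal F L)
    (Y : Set L) : Module.End F T → Prop
  | base (r : Module.End F T) (hr : r ∈ RR F L T) (y : L) (hy : y ∈ Y) :
      HH F L T Y (r * LieModule.toEnd F L T y)
  | zero : HH F L T Y 0
  | add (A B : Module.End F T) (hA : HH F L T Y A) (hB : HH F L T Y B) : HH F L T Y (A + B)
  | lie (A B : Module.End F T) (hA : HH F L T Y A) (hB : HH F L T Y B) :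
      HH F L T Y (A * B - B * A)

/-- `M` is stable under `RR` -/
def RStable (F : Type) [Field F] (L : Type) [LieRing L] [LieAlgebra F L] (T M : LieIdeal F L) :
    Prop :=
  ∀ r ∈ RR F L T, ∀ a : T, (a : L) ∈ M → ((r a : T) : L) ∈ M

/-- FX: full exchange (pure combinatorics) -/
def SpecFX : Prop :=
  ∀ (d : ℕ) (X V : Type) [AddCommGroup V] (B : (Fin d → X) → (Fin d → X) → V),
    (∀ (x y : Fin d → X) (σ : Equiv.Perm (Fin d)),
      B (fun i => x (σ i)) y = (Equiv.Perm.sign σ : ℤ) • B x y) →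
    (∀ (x y : Fin d → X) (i : Fin d),
      B x y = ∑ k, B (Function.update x k (y i)) (Function.update y i (x k))) →
    ∀ x y : Fin d → X,
      ∑ σ : Equiv.Perm (Fin d), (Equiv.Perm.sign σ : ℤ) • B x (fun i => y (σ i)) =
        ∑ σ : Equiv.Perm (Fin d), (Equiv.Perm.sign σ : ℤ) • B y (fun i => x (σ i))

/-- ONE: the exchange of one variable -/
def SpecONE : Prop :=
  ∀ (F : Type) [Field F] (L : Type) [LieRing L] [LieAlgebra F L] (d : ℕ), Capelli (d + 1) L →
    ∀ φ : (Fin d → L) → L, LieMon L Finset.univ φ →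
      (∀ g ∈ ML F L, ∀ (m : ℕ) (l y : L) (x : Fin d → L),
        ⁅((LieAlgebra.ad F L l) ^ m) y, g (alt φ x)⁆ =
          ∑ i, ⁅((LieAlgebra.ad F L l) ^ m) (x i), g (alt φ (Function.update x i y))⁆) ∧
      (∀ ψ : (Fin d → L) → L, LieMon L Finset.univ ψ → ∀ g ∈ ML F L, ∀ h ∈ ML F L,
        ∀ (x y : Fin d → L) (i : Fin d), ⁅g (alt φ x), h (ψ y)⁆ =
          ∑ k, ⁅g (alt φ (Function.update x k (y i))), h (ψ (Function.update y i (x k)))⁆)

/-- TR: traces (may use FX and ONE) -/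
def SpecTR : Prop :=
  ∀ (F : Type) [Field F] (L : Type) [LieRing L] [LieAlgebra F L] (d : ℕ), Capelli (d + 1) L →
    Faith F L (TId F L d) → IntAd F L (TId F L d) d

/-- FG1: `N` is finitely generated over `RR` -/
def SpecFG1 : Prop :=
  ∀ (F : Type) [Field F] (L : Type) [LieRing L] [LieAlgebra F L], IsFG F L →
    ∀ (T : LieIdeal F L) (d : ℕ), Faith F L T → IntAd F L T d → ∀ N : LieIdeal F L,
      FiniteDimensional F (L ⧸ N) →
      ∃ Y : Set L, Y.Finite ∧ Y ⊆ N ∧ ∀ n ∈ N, HH F L T Y (LieModule.toEnd F L T n)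

/-- FG2: the term `gam N c` is finitely generated as an `RR`-stable ideal -/
def SpecFG2 : Prop :=
  ∀ (F : Type) [Field F] (L : Type) [LieRing L] [LieAlgebra F L] (T N : LieIdeal F L) (c : ℕ)
    (Y : Set L), Faith F L T → gam N c ≤ T → Y.Finite → Y ⊆ N →
    (∀ n ∈ N, HH F L T Y (LieModule.toEnd F L T n)) →
    ∃ Z : Set L, Z.Finite ∧ Z ⊆ gam N c ∧ ∀ M : LieIdeal F L, M ≤ T → RStable F L T M →
      Z ⊆ M → gam N c ≤ M

/-- MX: a maximal proper `RR`-stable ideal of a perfect ideal gives a prime ideal -/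
def SpecMX : Prop :=
  ∀ (F : Type) [Field F] (L : Type) [LieRing L] [LieAlgebra F L] (T G : LieIdeal F L),
    G ≤ T → ⁅G, G⁆ = G → G ≠ ⊥ → ∀ Z : Set L, Z.Finite → Z ⊆ G →
    (∀ M : LieIdeal F L, M ≤ T → RStable F L T M → Z ⊆ M → G ≤ M) →
    ∃ C : LieIdeal F L, PrimeLie F (L ⧸ C) ∧ ¬ G ≤ C

/-- BC: a perfect ideal (may use TR, FG1, FG2, MX) -/
def SpecBC : Prop :=
  ∀ (F : Type) [Field F] (m : ℕ) (L : Type) [LieRing L] [LieAlgebra F L], IsFG F L →
    Capelli m L → ∀ (G N : LieIdeal F L) (c : ℕ), ⁅G, G⁆ = G → G ≠ ⊥ →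
    FiniteDimensional F (L ⧸ N) → gam N c ≤ G →
    ∃ C : LieIdeal F L, PrimeLie F (L ⧸ C) ∧ ¬ G ≤ C

/-- MN: nilpotent-by-finite algebras with a monic identity satisfy the maximal condition -/
def SpecMN : Prop :=
  ∀ (F : Type) [Field F] [Finite F] (k : ℕ) (c : ℕ → F[X]) (w : FreeLieAlgebra F ℕ),
    w ∈ freeThird F → ∀ (L : Type) [LieRing L] [LieAlgebra F L], IsFG F L →
    Satisfies {monicForm k c (FreeLieAlgebra.of F 0) (FreeLieAlgebra.of F 1)
      (FreeLieAlgebra.of F 2) - w} L → NF F L →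
    ∀ U : LieIdeal F L, ∃ S : Set L, S.Finite ∧ S ⊆ U ∧ U ≤ LieSubmodule.lieSpan F L S

/-- PB: a bound for all prime quotients of a Capelli algebra (may use CR, GE, SP, FS) -/
def SpecPB : Prop :=
  ∀ (F : Type) [Field F] [Finite F] (k : ℕ) (c : ℕ → F[X]) (w : FreeLieAlgebra F ℕ),
    w ∈ freeThird F → ∀ (L : Type) [LieRing L] [LieAlgebra F L], IsFG F L →
    Satisfies {monicForm k c (FreeLieAlgebra.of F 0) (FreeLieAlgebra.of F 1)
      (FreeLieAlgebra.of F 2) - w} L → ∀ m : ℕ, Capelli m L →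
    ∃ P : LieIdeal F L, FiniteDimensional F (L ⧸ P) ∧
      ∀ I : LieIdeal F L, PrimeLie F (L ⧸ I) → P ≤ I

/-- RD: the reduction (may use SN, MN, BC) -/
def SpecRD : Prop :=
  ∀ (F : Type) [Field F] [Finite F] (k : ℕ) (c : ℕ → F[X]) (w : FreeLieAlgebra F ℕ),
    w ∈ freeThird F → ∀ (L : Type) [LieRing L] [LieAlgebra F L], IsFG F L →
    Satisfies {monicForm k c (FreeLieAlgebra.of F 0) (FreeLieAlgebra.of F 1)
      (FreeLieAlgebra.of F 2) - w} L → ∀ m : ℕ, Capelli m L →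
    ∀ P : LieIdeal F L, FiniteDimensional F (L ⧸ P) →
      (∀ I : LieIdeal F L, PrimeLie F (L ⧸ I) → P ≤ I) → SF F L

end Pool.Agent.Lib.MP_8f946f_al.CP
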