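import Pool.Agent.Lib.MP_8f946f_al.CP.BTS

/-!
# The common form of the hypothesis: locally residually soluble-by-(residually bounded)
-/

set_option autoImplicit false

namespace Pool.Agent.Lib.MP_8f946f_al.CP

open Polynomial

section defs

variable (F : Type) [Field F]

/-- The Lie algebra `L` over `F` has an ideal `R`, soluble of derived length at most `l`, such that
each element of `L` outside `R` is not in the kernel of some morphism (of Lie algebras over `F`) from
`L` to a Lie algebra of dimension at most `d` over some field which contains `F`. -/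
def SolubleByResiduallyBounded (l d : ℕ) (L : Type) [LieRing L] [LieAlgebra F L] : Prop :=
  ∃ R : LieIdeal F L, LieAlgebra.derivedSeriesOfIdeal F L l R = ⊥ ∧
    ∀ a : L, a ∉ R →
    ∃ (K : Type) (_ : Field K) (_ : Algebra F K) (Q : Type) (_ : LieRing Q) (_ : LieAlgebra F Q)
      (_ : LieAlgebra K Q) (_ : IsScalarTower F K Q) (π : L →ₗ⁅F⁆ Q),
      FiniteDimensional K Q ∧ Module.finrank K Q ≤ d ∧ π a ≠ 0

variable {F}

/-- For each `r` there are `l` and `d` such that each element of the free Lie algebra of rank `r`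
which is not an identity of the variety defined by `Γ` is not an identity of some algebra of this
variety which is of the type of `SolubleByResiduallyBounded` for `l` and `d`. -/
def LocallyResiduallySolubleByBounded (Γ : Set (FreeLieAlgebra F ℕ)) : Prop :=
  ∀ r : ℕ, ∃ l d : ℕ, ∀ u : FreeLieAlgebra F (Fin r),
    (∃ (L : Type) (_ : LieRing L) (_ : LieAlgebra F L) (θ : FreeLieAlgebra F (Fin r) →ₗ⁅F⁆ L),
      Satisfies Γ L ∧ θ u ≠ 0) →
    ∃ (S : Type) (_ : LieRing S) (_ : LieAlgebra F S) (θ : FreeLieAlgebra F (Fin r) →ₗ⁅F⁆ S),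
      Satisfies Γ S ∧ θ u ≠ 0 ∧ SolubleByResiduallyBounded F l d S

end defs

namespace UNM

variable {F : Type} [Field F]

/-- The elements of the free Lie algebra with value `0` under all morphisms from algebras of the
variety to algebras of bounded dimension. -/
def R1 (Γ : Set (FreeLieAlgebra F ℕ)) (d r : ℕ) : LieIdeal F (FreeLieAlgebra F (Fin r)) where
  carrier := {u | ∀ (S : Type) [LieRing S] [LieAlgebra F S] (K : Type) [Field K] [Algebra F K]
    (Q : Type) [LieRing Q] [LieAlgebra F Q] [LieAlgebra K Q] [IsScalarTower F K Q]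
    (π : S →ₗ⁅F⁆ Q), Satisfies Γ S → FiniteDimensional K Q → Module.finrank K Q ≤ d →
    ∀ θ : FreeLieAlgebra F (Fin r) →ₗ⁅F⁆ S, π (θ u) = 0}
  zero_mem' := by
    intro S _ _ K _ _ Q _ _ _ _ π _ _ _ θ
    rw [map_zero, map_zero]
  add_mem' := by
    intro u v hu hv S _ _ K _ _ Q _ _ _ _ π h1 h2 h3 θ
    rw [map_add, map_add, hu S K Q π h1 h2 h3 θ, hv S K Q π h1 h2 h3 θ, add_zero]
  smul_mem' := by
    intro t u hu S _ _ K _ _ Q _ _ _ _ π h1 h2 h3 θ
    rw [map_smul, map_smul, hu S K Q π h1 h2 h3 θ, smul_zero]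
  lie_mem := by
    intro v u hu S _ _ K _ _ Q _ _ _ _ π h1 h2 h3 θ
    rw [LieHom.map_lie, LieHom.map_lie, hu S K Q π h1 h2 h3 θ, lie_zero]

theorem mem_R1 (Γ : Set (FreeLieAlgebra F ℕ)) (d r : ℕ) (u : FreeLieAlgebra F (Fin r)) :
    u ∈ R1 Γ d r ↔ ∀ (S : Type) [LieRing S] [LieAlgebra F S] (K : Type) [Field K] [Algebra F K]
    (Q : Type) [LieRing Q] [LieAlgebra F Q] [LieAlgebra K Q] [IsScalarTower F K Q]
    (π : S →ₗ⁅F⁆ Q), Satisfies Γ S → FiniteDimensional K Q → Module.finrank K Q ≤ d →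
    ∀ θ : FreeLieAlgebra F (Fin r) →ₗ⁅F⁆ S, π (θ u) = 0 := Iff.rfl

/-- One ideal of finite codimension of the free algebra with a derived ideal in `R1`. -/
theorem exists_ideal (hSP : SpecSP) (hFS : SpecFS) [Finite F]
    {Γ : Set (FreeLieAlgebra F ℕ)} (hmi : HasMonicIdentity Γ) (d r : ℕ) :
    ∃ (J : LieIdeal F (FreeLieAlgebra F (Fin r))) (l' : ℕ),
      FiniteDimensional F (FreeLieAlgebra F (Fin r) ⧸ J) ∧
      LieAlgebra.derivedSeriesOfIdeal F _ l' J ≤ R1 Γ d r := by
  obtain ⟨k, c, w, hw, hid⟩ := hmi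
  obtain ⟨D, hD⟩ := large k c w hw
  obtain ⟨N, l', hN⟩ := hFS F _ D hD d
  obtain ⟨J, hJ, hJN⟩ := BD.idx F (Fin r) N
  refine ⟨J, l', hJ, ?_⟩
  intro u hu
  rw [mem_R1]
  intro S _ _ K _ _ Q _ _ _ _ π h1 h2 h3 v
  by_contra hne
  let p : FreeLieAlgebra F (Fin r) →ₗ⁅F⁆ (π.comp v).range := (π.comp v).rangeRestrict
  have hp : Function.Surjective p := (π.comp v).surjective_rangeRestrict
  have hfg1 : IsFG F (π.comp v).range := (BTM.isFG_free F (Fin r)).of_surjective p hp
  have hs1 : Satisfies {mono k c w} (π.comp v).range := BTM.satisfies_range (hid S h1) v π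
  have ha : (π.comp v).range.incl (p u) ≠ 0 := hne
  obtain ⟨K', _, _, _, Q', _, _, _, _, π', hQ', hQd', hπ'a⟩ :=
    hSP F (π.comp v).range hfg1 K Q (π.comp v).range.incl h2 (p u) ha
  let q : (π.comp v).range →ₗ⁅F⁆ π'.range := π'.rangeRestrict
  have hq : Function.Surjective q := π'.surjective_rangeRestrict
  obtain ⟨S', hS', hSN, hSl⟩ := hN π'.range K' Q' π'.range.incl Subtype.coe_injective hQ'
    (hQd'.trans h3) (hs1.of_surjective q hq)
  have hle : ∀ x ∈ J, (q.comp p) x ∈ S' := by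
    intro x hx
    rw [← mkHom_eq_zero]
    exact hJN (π'.range ⧸ S') hS' hSN ((mkHom S').comp (q.comp p)) x hx
  have h5 := BTM.der_comap (q.comp p) J S' hle l' u hu
  rw [hSl, LieSubmodule.mem_bot] at h5
  exact hπ'a (congrArg Subtype.val h5)

/-- A morphism from the free algebra to an algebra of the variety is zero on the verbal ideal. -/
theorem map_verbal {Γ : Set (FreeLieAlgebra F ℕ)} {A L : Type} [LieRing A] [LieAlgebra F A]
    [LieRing L] [LieAlgebra F L] (hL : Satisfies Γ L) (θ : A →ₗ⁅F⁆ L) (x : A)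
    (hx : x ∈ verbal Γ A) : θ x = 0 := by
  have h1 : verbal Γ A ≤ θ.ker := by
    rw [verbal, LieSubmodule.lieSpan_le]
    rintro _ ⟨φ, hφ, v, rfl⟩
    show FreeLieAlgebra.lift F v φ ∈ θ.ker
    rw [LieHom.mem_ker, lift_comp, hL φ hφ]
  exact (LieHom.mem_ker).1 (h1 hx)

end UNM

open UNM BTM

variable {F : Type} [Field F]

/-- A variety in the class, with a monic identity, is locally soluble-by-finite. -/
theorem solubleByFinite_of_residually (hSP : SpecSP) (hFS : SpecFS) [Finite F]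
    {Γ : Set (FreeLieAlgebra F ℕ)} (hgen : LocallyResiduallySolubleByBounded Γ)
    (hmi : HasMonicIdentity Γ) : Sol.LocallySolubleByFinite Γ := by
  intro L _ _ hL hfg
  obtain ⟨r, e, he⟩ := BTM.exists_free hfg
  obtain ⟨l, d, hgen⟩ := hgen r
  obtain ⟨J, l', hJ, hle⟩ := UNM.exists_ideal hSP hFS hmi d r
  refine ⟨imgIdeal (FreeLieAlgebra.lift F e) he J, l + l',
    finiteDimensional_img _ he J hJ, ?_⟩
  rw [eq_bot_iff]
  refine (der_img _ he J (l + l')).trans ?_
  rintro _ ⟨u, hu, rfl⟩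
  rw [LieSubmodule.mem_bot]
  rw [LieAlgebra.derivedSeriesOfIdeal_add] at hu
  have hu1 : u ∈ LieAlgebra.derivedSeriesOfIdeal F _ l (R1 Γ d r) :=
    LieAlgebra.derivedSeriesOfIdeal_mono hle l hu
  by_contra hne
  obtain ⟨S, _, _, θ, hS, hθ, R, hR, hsep⟩ := hgen u ⟨L, _, _, _, hL, hne⟩
  apply hθ
  have h5 := der_comap θ (R1 Γ d r) R (fun a ha => by
    by_contra haR
    obtain ⟨K, _, _, Q, _, _, _, _, π, h2, h3, h4⟩ := hsep _ haR
    exact h4 ((mem_R1 Γ d r a).1 ha S K Q π hS h2 h3 θ)) l u hu1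
  rw [hR, LieSubmodule.mem_bot] at h5
  exact h5

/-- If every finitely generated algebra of the variety is of the type of
`SolubleByResiduallyBounded`, for some `l` and `d`, then the variety is in the class. -/
theorem residually_of_local {Γ : Set (FreeLieAlgebra F ℕ)}
    (h : ∀ (L : Type) [LieRing L] [LieAlgebra F L], Satisfies Γ L → IsFG F L →
      ∃ l d : ℕ, SolubleByResiduallyBounded F l d L) :
    LocallyResiduallySolubleByBounded Γ := by
  intro r
  obtain ⟨l, d, hld⟩ := h (FreeLieAlgebra F (Fin r) ⧸ verbal Γ (FreeLieAlgebra F (Fin r)))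
    (satisfies_quot_verbal Γ _)
    ((isFG_free F (Fin r)).of_surjective (mkHom _) (mkHom_surjective _))
  refine ⟨l, d, ?_⟩
  rintro u ⟨L, _, _, θ, hL, hne⟩
  refine ⟨_, _, _, mkHom (verbal Γ (FreeLieAlgebra F (Fin r))), satisfies_quot_verbal Γ _, ?_, hld⟩
  intro h0
  rw [mkHom_eq_zero] at h0
  exact hne (map_verbal hL θ u h0)

/-- Algebras of the type of `SolubleByLinear` are of the type of `SolubleByResiduallyBounded`. -/
theorem residuallyBounded_of_linear {l d : ℕ} {S : Type} [LieRing S] [LieAlgebra F S]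
    (h : SolubleByLinear F l d S) : SolubleByResiduallyBounded F l d S := by
  obtain ⟨K, _, _, Q, _, _, _, _, π, h2, h3, h4⟩ := h
  refine ⟨π.ker, h4, fun a ha => ⟨K, _, _, Q, _, _, _, inferInstance, π, h2, h3, ?_⟩⟩
  intro h0
  exact ha ((LieHom.mem_ker).2 h0)

theorem residually_of_generated {Γ : Set (FreeLieAlgebra F ℕ)}
    (h : GeneratedBySolubleByLinear Γ) : LocallyResiduallySolubleByBounded Γ := by
  obtain ⟨l, d, hgen⟩ := h
  intro r
  refine ⟨l, d, ?_⟩
  rintro u ⟨L, _, _, θ, hL, hne⟩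
  have hbad : ¬ Satisfies {emb F r u} L := by
    intro hs
    apply hne
    let v : ℕ → L := fun n => if h : n < r then θ (FreeLieAlgebra.of F ⟨n, h⟩) else 0
    have h1 : (FreeLieAlgebra.lift F v).comp (emb F r) = θ := by
      apply FreeLieAlgebra.hom_ext
      intro i
      rw [LieHom.comp_apply, emb, FreeLieAlgebra.lift_of_apply, FreeLieAlgebra.lift_of_apply]
      simp [v]
    have h2 := hs _ (Set.mem_singleton _) v
    rw [← h1, LieHom.comp_apply, h2]
  obtain ⟨S, _, _, hS, hSb, hty⟩ := hgen _ ⟨L, _, _, hL, hbad⟩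
  have hex : ∃ v : ℕ → S, FreeLieAlgebra.lift F v (emb F r u) ≠ 0 := by
    by_contra hno
    push Not at hno
    apply hSb
    intro φ hφ v
    rw [Set.mem_singleton_iff] at hφ
    rw [hφ]
    exact hno v
  obtain ⟨v, hv⟩ := hex
  exact ⟨S, _, _, (FreeLieAlgebra.lift F v).comp (emb F r), hS, hv, residuallyBounded_of_linear hty⟩

/-- Locally soluble-by-finite varieties are in the class. -/
theorem residually_of_locallySolubleByFinite {Γ : Set (FreeLieAlgebra F ℕ)}
    (h : Sol.LocallySolubleByFinite Γ) : LocallyResiduallySolubleByBounded Γ := by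
  apply residually_of_local
  intro L _ _ hL hfg
  obtain ⟨S, l, hS, hl⟩ := h L hL hfg
  refine ⟨l, Module.finrank F (L ⧸ S), S, hl, fun a ha => ?_⟩
  refine ⟨F, _, Algebra.id F, L ⧸ S, _, inferInstance, inferInstance, inferInstance, mkHom S, hS,
    le_rfl, ?_⟩
  rw [Ne, mkHom_eq_zero]
  exact ha

end Pool.Agent.Lib.MP_8f946f_al.CP
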